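import Pool.Agent.RMB.Defs

/-!
# RMB-C1: integral representation of `|t|^q` for `4 < q < 6`

PROOF.  Let `h(v) = 1 - v²/2 + v⁴/24 - cos v`.  Taylor: `h ≥ 0` (`cos v ≤ 1 - v²/2 + v⁴/24`, in Mathlib:
`Real.cos_le_one_sub_mul_cos_sq`... or prove by 4 integrations of `cos ≤ 1`), `h v ≤ |v|^6/720` and
`h v ≤ 2 + v⁴/24`, and `h > 0` for `v ≠ 0` (it is enough: on a set of positive measure, e.g.
`h v ≥ v⁴/24 - v²/2 > 0` for `v > 4`).  So `∫_0^∞ h(v) v^(-1-q) dv ∈ (0,∞)`: near 0 the integrand is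
`≤ v^(5-q)/720`, at infinity `≤ (2 + v⁴/24) v^(-1-q)`.  For `t ≠ 0` substitute `v = s |t|`:
`∫_0^∞ h(s t) s^(-1-q) ds = |t|^q ∫_0^∞ h(v) v^(-1-q) dv` (`h` even;
`integral_comp_mul_right_Ioi`).  For `t = 0` both sides are 0.
-/

set_option autoImplicit false

open MeasureTheory Set Metric Filter Topology
open scoped RealInnerProductSpace ENNReal

namespace RMB

/-- the Taylor remainder -/
private noncomputable def c1_h (v : ℝ) : ℝ := 1 - v ^ 2 / 2 + v ^ 4 / 24 - Real.cos v

private theorem c1_h_neg (v : ℝ) : c1_h (-v) = c1_h v := by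
  unfold c1_h
  rw [Real.cos_neg]
  ring

private theorem c1_h_abs (v : ℝ) : c1_h |v| = c1_h v := by
  rcases abs_choice v with h | h
  · rw [h]
  · rw [h, c1_h_neg]

/-- a function with nonnegative derivative on `[0, ∞)` and value `0` at `0` is nonnegative -/
private theorem c1_mono {f f' : ℝ → ℝ} (hf : ∀ x, HasDerivAt f (f' x) x) (h0 : f 0 = 0)
    (h : ∀ x, 0 ≤ x → 0 ≤ f' x) : ∀ x, 0 ≤ x → 0 ≤ f x := by
  intro x hx
  have hm : MonotoneOn f (Ici 0) := by
    refine monotoneOn_of_hasDerivWithinAt_nonneg (f' := f') (convex_Ici 0) ?_ ?_ ?_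
    · exact fun y _ => (hf y).continuousAt.continuousWithinAt
    · exact fun y _ => (hf y).hasDerivWithinAt
    · intro y hy
      rw [interior_Ici] at hy
      exact h y (le_of_lt hy)
  have h1 := hm (Set.mem_Ici.2 le_rfl) (Set.mem_Ici.2 hx) hx
  rwa [h0] at h1

private theorem c1_sin (v : ℝ) (hv : 0 ≤ v) : 0 ≤ -v + v ^ 3 / 6 + Real.sin v := by
  refine c1_mono (f := fun v => -v + v ^ 3 / 6 + Real.sin v)
    (f' := fun v => -1 + v ^ 2 / 2 + Real.cos v) ?_ ?_ ?_ v hv
  · intro x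
    have h1 := ((hasDerivAt_neg x).add ((hasDerivAt_pow 3 x).div_const 6)).add
      (Real.hasDerivAt_sin x)
    refine HasDerivAt.congr_deriv h1 ?_
    push_cast
    ring
  · simp
  · intro x _
    have := Real.one_sub_sq_div_two_le_cos (x := x)
    linarith

private theorem c1_nonneg' (v : ℝ) (hv : 0 ≤ v) : 0 ≤ c1_h v := by
  refine c1_mono (f := c1_h) (f' := fun v => -v + v ^ 3 / 6 + Real.sin v) ?_ ?_ c1_sin v hv
  · intro x
    have h1 := (((hasDerivAt_const x (1 : ℝ)).sub ((hasDerivAt_pow 2 x).div_const 2)).add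
      ((hasDerivAt_pow 4 x).div_const 24)).sub (Real.hasDerivAt_cos x)
    refine HasDerivAt.congr_deriv h1 ?_
    push_cast
    ring
  · simp [c1_h]

private theorem c1_nonneg (v : ℝ) : 0 ≤ c1_h v := by
  rw [← c1_h_abs]
  exact c1_nonneg' _ (abs_nonneg v)

private theorem c1_up1 (v : ℝ) (hv : 0 ≤ v) : 0 ≤ v ^ 5 / 120 + v - v ^ 3 / 6 - Real.sin v := by
  refine c1_mono (f := fun v => v ^ 5 / 120 + v - v ^ 3 / 6 - Real.sin v)
    (f' := c1_h) ?_ ?_ c1_nonneg' v hv
  · intro x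
    have h1 := ((((hasDerivAt_pow 5 x).div_const 120).add (hasDerivAt_id x)).sub
      ((hasDerivAt_pow 3 x).div_const 6)).sub (Real.hasDerivAt_sin x)
    refine HasDerivAt.congr_deriv h1 ?_
    unfold c1_h
    push_cast
    ring
  · simp

private theorem c1_up (v : ℝ) (hv : 0 ≤ v) : c1_h v ≤ v ^ 6 / 720 := by
  have h := c1_mono (f := fun v => v ^ 6 / 720 - c1_h v)
    (f' := fun v => v ^ 5 / 120 + v - v ^ 3 / 6 - Real.sin v) ?_ ?_ c1_up1 v hv
  · exact sub_nonneg.1 h
  · intro x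
    have h0 := (((hasDerivAt_const x (1 : ℝ)).sub ((hasDerivAt_pow 2 x).div_const 2)).add
      ((hasDerivAt_pow 4 x).div_const 24)).sub (Real.hasDerivAt_cos x)
    have h1 := ((hasDerivAt_pow 6 x).div_const 720).sub h0
    refine HasDerivAt.congr_deriv h1 ?_
    push_cast
    ring
  · simp [c1_h]

private theorem c1_cont : Continuous c1_h := by
  unfold c1_h
  fun_prop

/-- the integrand -/
private noncomputable def c1_g (q v : ℝ) : ℝ := c1_h v * v ^ (-1 - q)

private theorem c1_g_meas (q : ℝ) (s : Set ℝ) (hs : MeasurableSet s) (hs0 : s ⊆ Ioi 0) :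
    AEStronglyMeasurable (c1_g q) (volume.restrict s) := by
  refine ContinuousOn.aestronglyMeasurable ?_ hs
  refine c1_cont.continuousOn.mul ?_
  intro x hx
  exact (Real.continuousAt_rpow_const x _ (Or.inl (ne_of_gt (hs0 hx)))).continuousWithinAt

private theorem c1_int {q : ℝ} (h4 : 4 < q) (h6 : q < 6) : IntegrableOn (c1_g q) (Ioi 0) := by
  rw [← Ioc_union_Ioi_eq_Ioi (zero_le_one' ℝ)]
  refine IntegrableOn.union ?_ ?_
  · have h1 : IntegrableOn (fun v : ℝ => v ^ (5 - q)) (Ioc 0 1) := by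
      have := intervalIntegral.intervalIntegrable_rpow' (a := 0) (b := 1) (r := 5 - q) (by linarith)
      rwa [intervalIntegrable_iff_integrableOn_Ioc_of_le zero_le_one] at this
    refine Integrable.mono' h1 (c1_g_meas q _ measurableSet_Ioc Ioc_subset_Ioi_self) ?_
    refine (ae_restrict_iff' measurableSet_Ioc).2 (Eventually.of_forall fun v hv => ?_)
    have hv0 : 0 < v := hv.1
    have hp : 0 < v ^ (-1 - q) := Real.rpow_pos_of_pos hv0 _
    unfold c1_g
    rw [Real.norm_eq_abs, abs_of_nonneg (mul_nonneg (c1_nonneg v) hp.le)]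
    have e1 : v ^ (5 - q) = v ^ 6 * v ^ (-1 - q) := by
      rw [← Real.rpow_natCast, ← Real.rpow_add hv0]
      congr 1
      push_cast
      ring
    rw [e1]
    refine mul_le_mul_of_nonneg_right ?_ hp.le
    have h2 := c1_up v hv0.le
    have h3 : 0 ≤ v ^ 6 := by positivity
    linarith
  · have h1 : IntegrableOn (fun v : ℝ => 3 * v ^ (3 - q)) (Ioi 1) :=
      (integrableOn_Ioi_rpow_of_lt (a := 3 - q) (by linarith) zero_lt_one).const_mul 3
    refine Integrable.mono' h1 (c1_g_meas q _ measurableSet_Ioi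
      (Ioi_subset_Ioi zero_le_one)) ?_
    refine (ae_restrict_iff' measurableSet_Ioi).2 (Eventually.of_forall fun v hv => ?_)
    have hv1 : 1 < v := hv
    have hv0 : 0 < v := lt_trans zero_lt_one hv1
    have hp : 0 < v ^ (-1 - q) := Real.rpow_pos_of_pos hv0 _
    unfold c1_g
    rw [Real.norm_eq_abs, abs_of_nonneg (mul_nonneg (c1_nonneg v) hp.le)]
    have e1 : v ^ (3 - q) = v ^ 4 * v ^ (-1 - q) := by
      rw [← Real.rpow_natCast, ← Real.rpow_add hv0]
      congr 1
      push_cast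
      ring
    rw [e1, ← mul_assoc]
    refine mul_le_mul_of_nonneg_right ?_ hp.le
    have h2 : 1 ≤ v ^ 4 := one_le_pow₀ hv1.le
    have h3 : 0 ≤ v ^ 2 := by positivity
    have h5 := Real.neg_one_le_cos v
    unfold c1_h
    linarith

private theorem c1_pos {q : ℝ} (h4 : 4 < q) (h6 : q < 6) : 0 < ∫ v in Ioi (0 : ℝ), c1_g q v := by
  rw [setIntegral_pos_iff_support_of_nonneg_ae]
  · have hsub : Ioo (4 : ℝ) 5 ⊆ Function.support (c1_g q) ∩ Ioi 0 := by
      intro v hv
      have hv4 : 4 < v := hv.1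
      have hv0 : 0 < v := by linarith
      refine ⟨?_, hv0⟩
      have hp : 0 < v ^ (-1 - q) := Real.rpow_pos_of_pos hv0 _
      have hh : 0 < c1_h v := by
        have h5 := Real.cos_le_one v
        have h7 : 16 < v ^ 2 := by nlinarith
        have h8 : v ^ 4 = v ^ 2 * v ^ 2 := by ring
        unfold c1_h
        rw [h8]
        nlinarith
      exact (mul_pos hh hp).ne'
    refine lt_of_lt_of_le ?_ (measure_mono hsub)
    rw [Real.volume_Ioo]
    norm_num
  · refine (ae_restrict_iff' measurableSet_Ioi).2 (Eventually.of_forall fun v hv => ?_)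
    exact mul_nonneg (c1_nonneg v) (Real.rpow_nonneg (le_of_lt hv) _)
  · exact c1_int h4 h6

/-- the scaling of the integrand -/
private theorem c1_scale {q a s : ℝ} (ha : 0 < a) (hs : 0 < s) :
    c1_h (s * a) * s ^ (-1 - q) = a ^ (1 + q) * c1_g q (s * a) := by
  unfold c1_g
  rw [Real.mul_rpow hs.le ha.le]
  have h1 : a ^ (1 + q) * a ^ (-1 - q) = 1 := by
    rw [← Real.rpow_add ha]
    have : (1 + q) + (-1 - q) = 0 := by ring
    rw [this, Real.rpow_zero]
  calc c1_h (s * a) * s ^ (-1 - q) = c1_h (s * a) * s ^ (-1 - q) * (a ^ (1 + q) * a ^ (-1 - q)) := by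
        rw [h1, mul_one]
    _ = _ := by ring

theorem pow_repr {q : ℝ} (h4 : 4 < q) (h6 : q < 6) :
    ∃ C > 0, ∀ t : ℝ,
      IntegrableOn (fun s : ℝ => (1 - (s * t) ^ 2 / 2 + (s * t) ^ 4 / 24 - Real.cos (s * t)) *
        s ^ (-1 - q)) (Ioi 0) ∧
      |t| ^ q = C * ∫ s in Ioi (0 : ℝ),
        (1 - (s * t) ^ 2 / 2 + (s * t) ^ 4 / 24 - Real.cos (s * t)) * s ^ (-1 - q) := by
  have hI := c1_pos h4 h6
  refine ⟨(∫ v in Ioi (0 : ℝ), c1_g q v)⁻¹, inv_pos.2 hI, fun t => ?_⟩
  have hfun : (fun s : ℝ => (1 - (s * t) ^ 2 / 2 + (s * t) ^ 4 / 24 - Real.cos (s * t)) *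
      s ^ (-1 - q)) = fun s : ℝ => c1_h (s * t) * s ^ (-1 - q) := rfl
  rw [hfun]
  by_cases ht : t = 0
  · subst ht
    have h0 : (fun s : ℝ => c1_h (s * 0) * s ^ (-1 - q)) = fun _ => (0 : ℝ) := by
      funext s
      simp [c1_h]
    rw [h0]
    refine ⟨integrableOn_zero, ?_⟩
    rw [abs_zero, Real.zero_rpow (by linarith), integral_zero, mul_zero]
  · have ha : 0 < |t| := abs_pos.2 ht
    -- on `(0, ∞)` the integrand is `|t| ^ (1 + q) * g (s |t|)`
    have hEq : EqOn (fun s : ℝ => c1_h (s * t) * s ^ (-1 - q))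
        (fun s : ℝ => |t| ^ (1 + q) * c1_g q (s * |t|)) (Ioi 0) := by
      intro s hs
      have hs0 : 0 < s := hs
      have h1 : c1_h (s * t) = c1_h (s * |t|) := by
        rw [← c1_h_abs (s * t), abs_mul, abs_of_pos hs0]
      show c1_h (s * t) * s ^ (-1 - q) = _
      rw [h1, c1_scale ha hs0]
    have hint : IntegrableOn (fun s : ℝ => c1_g q (s * |t|)) (Ioi 0) := by
      rw [integrableOn_Ioi_comp_mul_right_iff (c1_g q) 0 ha, zero_mul]
      exact c1_int h4 h6
    constructor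
    · exact IntegrableOn.congr_fun (Integrable.const_mul hint (|t| ^ (1 + q))) hEq.symm
        measurableSet_Ioi
    · rw [setIntegral_congr_fun measurableSet_Ioi hEq, integral_const_mul,
        integral_comp_mul_right_Ioi (c1_g q) 0 ha, zero_mul, smul_eq_mul]
      have h2 : |t| ^ (1 + q) = |t| * |t| ^ q := by
        rw [Real.rpow_add ha, Real.rpow_one]
      rw [h2]
      have hne : (∫ v in Ioi (0 : ℝ), c1_g q v) ≠ 0 := hI.ne'
      field_simp

/-- nonnegativity of the integrand -/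
theorem cos_taylor4 (v : ℝ) : 0 ≤ 1 - v ^ 2 / 2 + v ^ 4 / 24 - Real.cos v :=
  c1_nonneg v

end RMB
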