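import Pool.Agent.RMB.G7

/-!
# RMB-C2: rotation invariance

PROOF.  A linear isometry `R` of `E n` preserves volume, hence `sg n = volume.toSphere`
(`toSphere_apply'` on measurable sets, or: both sides of `∫ F(u) dsg` are determined through
`polar_body` by the volume; `MeasurePreserving` of the induced map of the sphere; see
`Pool/Agent/RC/S1.lean`, `Pool/Agent/CRT/S1.lean` for the same argument in other dimensions).
If `‖z‖ = ‖z'‖` there is a reflection `R` with `R z = z'` (`Submodule.reflection_sub`), self-adjoint: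
`⟨u, R z⟩ = ⟨R u, z⟩`.
`sphere_pow`: `z = ‖z‖ e`; the constant is positive as the integrand is continuous, nonnegative, and
positive near `e` (open sets of the sphere have positive measure; or
`n ∫_B |⟨x,e⟩|^q > 0` via `polar_star`).
`sphere_sq`: sum over an orthonormal basis: `n ∫ ⟨u,e⟩² = sg(S)`.
`ball_sq`: `∫_B ⟨x,e⟩² = vol(B)/(n+2)` (sum over a basis and `∫_B |x|² = n vol(B)/(n+2)`).
-/

set_option autoImplicit false

open MeasureTheory Set Metric Filter Topology
open scoped RealInnerProductSpace ENNReal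

namespace RMB

variable {n : ℕ}

/-- invariance of ball integrals under the reflection exchanging two vectors of the same length -/
private lemma C2_inv (G : E n → E n → ℝ) (hG : ∀ (R : E n ≃ₗᵢ[ℝ] E n) (x z : E n),
    G (R x) (R z) = G x z) {z z' : E n} (h : ‖z‖ = ‖z'‖) :
    ∫ x in closedBall (0 : E n) 1, G x z = ∫ x in closedBall (0 : E n) 1, G x z' := by
  set R : E n ≃ₗᵢ[ℝ] E n := Submodule.reflection (Submodule.span ℝ {z - z'})ᗮ with hR
  have hRu : R z = z' := Submodule.reflection_sub h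
  have hmp : MeasurePreserving R volume volume := R.measurePreserving
  have hpre : R ⁻¹' closedBall (0 : E n) 1 = closedBall (0 : E n) 1 := by
    ext x
    rw [Set.mem_preimage, mem_closedBall_zero_iff, mem_closedBall_zero_iff,
      LinearIsometryEquiv.norm_map]
  have key := hmp.setIntegral_preimage_emb R.toHomeomorph.measurableEmbedding
    (fun x => G x z') (closedBall (0 : E n) 1)
  rw [hpre] at key
  rw [← key]
  refine integral_congr_ae (Eventually.of_forall fun x => ?_)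
  show G x z = G (R x) z'
  rw [← hRu, hG]

private lemma C2_radial {u : E n} (hu : ‖u‖ = 1) : radial (closedBall (0 : E n) 1) u = 1 := by
  unfold radial
  have h : {r : ℝ | 0 ≤ r ∧ r • u ∈ closedBall (0 : E n) 1} = Icc 0 1 := by
    ext r
    rw [Set.mem_ofPred_eq, mem_closedBall_zero_iff, norm_smul, hu, mul_one, mem_Icc]
    constructor
    · rintro ⟨h1, h2⟩
      exact ⟨h1, by rwa [Real.norm_eq_abs, abs_of_nonneg h1] at h2⟩
    · rintro ⟨h1, h2⟩
      exact ⟨h1, by rwa [Real.norm_eq_abs, abs_of_nonneg h1]⟩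
  rw [h, csSup_Icc zero_le_one]

/-- `polar_star` for the unit ball -/
private lemma C2_ball (hn : 1 ≤ n) {q : ℝ} (hq : 0 ≤ q) {f : E n → ℝ} (hf : Continuous f)
    (hhom : ∀ r : ℝ, 0 < r → ∀ x, f (r • x) = r ^ q * f x) :
    ∫ x in closedBall (0 : E n) 1, f x = (1 / ((n : ℝ) + q)) *
      ∫ u : sphere (0 : E n) 1, f (u : E n) ∂(sg n) := by
  have hB := closedBall_sym (n := n) one_pos
  rw [polar_star hn hB.compact hB.convex hB.zero_mem hq hf hhom]
  congr 1
  refine integral_congr_ae (Eventually.of_forall fun u => ?_)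
  have hu : ‖(u : E n)‖ = 1 := by simp
  show f (u : E n) * radial (closedBall (0 : E n) 1) (u : E n) ^ ((n : ℝ) + q) = f (u : E n)
  rw [C2_radial hu, Real.one_rpow, mul_one]

theorem sphere_inner (hn : 1 ≤ n) {F : ℝ → ℝ} (hF : Continuous F) {z z' : E n}
    (h : ‖z‖ = ‖z'‖) :
    ∫ u : sphere (0 : E n) 1, F ⟪(u : E n), z⟫ ∂(sg n) =
      ∫ u : sphere (0 : E n) 1, F ⟪(u : E n), z'⟫ ∂(sg n) := by
  have hcont : ∀ z : E n, Continuous (fun x : E n => ‖x‖ * F (⟪x, z⟫ / ‖x‖)) := by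
    intro z
    rw [continuous_iff_continuousAt]
    intro x
    by_cases hx : x = 0
    · subst hx
      obtain ⟨M, hM⟩ := (isCompact_Icc (a := -‖z‖) (b := ‖z‖)).exists_bound_of_continuousOn
        hF.continuousOn
      have hb : ∀ y : E n, ‖‖y‖ * F (⟪y, z⟫ / ‖y‖)‖ ≤ ‖y‖ * M := by
        intro y
        rw [norm_mul, norm_norm]
        refine mul_le_mul_of_nonneg_left (hM _ ?_) (norm_nonneg _)
        rw [mem_Icc, ← abs_le, abs_div, abs_norm]
        rcases eq_or_ne ‖y‖ 0 with hy | hy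
        · rw [hy, div_zero]
          exact norm_nonneg _
        · rw [div_le_iff₀ (lt_of_le_of_ne (norm_nonneg _) hy.symm), mul_comm]
          exact abs_real_inner_le_norm y z
      rw [ContinuousAt, norm_zero, zero_mul]
      refine squeeze_zero_norm hb ?_
      have : Tendsto (fun y : E n => ‖y‖ * M) (𝓝 0) (𝓝 (‖(0 : E n)‖ * M)) :=
        (continuous_norm.mul continuous_const).tendsto 0
      rwa [norm_zero, zero_mul] at this
    · have hx' : ‖x‖ ≠ 0 := norm_ne_zero_iff.2 hx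
      exact continuous_norm.continuousAt.mul (hF.continuousAt.comp
        (((continuous_id.inner continuous_const).continuousAt).div continuous_norm.continuousAt hx'))
  have hhom : ∀ z : E n, ∀ r : ℝ, 0 < r → ∀ x : E n, ‖r • x‖ * F (⟪r • x, z⟫ / ‖r • x‖) =
      r ^ (1 : ℝ) * (‖x‖ * F (⟪x, z⟫ / ‖x‖)) := by
    intro z r hr x
    rw [Real.rpow_one, norm_smul, Real.norm_eq_abs, abs_of_pos hr, real_inner_smul_left,
      mul_div_mul_left _ _ hr.ne', mul_assoc]
  have hval : ∀ z : E n, ∫ x in closedBall (0 : E n) 1, ‖x‖ * F (⟪x, z⟫ / ‖x‖) =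
      (1 / ((n : ℝ) + 1)) * ∫ u : sphere (0 : E n) 1, F ⟪(u : E n), z⟫ ∂(sg n) := by
    intro z
    rw [C2_ball hn zero_le_one (hcont z) (hhom z)]
    congr 1
    refine integral_congr_ae (Eventually.of_forall fun u => ?_)
    have hu : ‖(u : E n)‖ = 1 := by simp
    show ‖(u : E n)‖ * F (⟪(u : E n), z⟫ / ‖(u : E n)‖) = F ⟪(u : E n), z⟫
    rw [hu, div_one, one_mul]
  have hinv := C2_inv (n := n) (fun x z => ‖x‖ * F (⟪x, z⟫ / ‖x‖))
    (fun R x z => by
      show ‖R x‖ * F (⟪R x, R z⟫ / ‖R x‖) = ‖x‖ * F (⟪x, z⟫ / ‖x‖)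
      rw [LinearIsometryEquiv.norm_map, LinearIsometryEquiv.inner_map_map]) h
  rw [hval z, hval z'] at hinv
  have hne : (1 / ((n : ℝ) + 1)) ≠ 0 := by positivity
  exact mul_left_cancel₀ hne hinv

theorem ball_inner {F : ℝ → ℝ} (hF : Continuous F) {z z' : E n} (h : ‖z‖ = ‖z'‖) :
    ∫ x in closedBall (0 : E n) 1, F ⟪x, z⟫ = ∫ x in closedBall (0 : E n) 1, F ⟪x, z'⟫ :=
  C2_inv (n := n) (fun x z => F ⟪x, z⟫)
    (fun R x z => by
      show F ⟪R x, R z⟫ = F ⟪x, z⟫
      rw [LinearIsometryEquiv.inner_map_map]) h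

private lemma C2_abs_cont {q : ℝ} (hq : 0 ≤ q) : Continuous (fun t : ℝ => |t| ^ q) :=
  continuous_abs.rpow_const fun _ => Or.inr hq

private lemma C2_unit (hn : 1 ≤ n) (i : Fin n) : ‖(EuclideanSpace.single i (1 : ℝ) : E n)‖ = 1 := by
  simp

theorem sphere_pow (hn : 1 ≤ n) {q : ℝ} (hq : 0 ≤ q) :
    ∃ c > 0, ∀ z : E n, ∫ u : sphere (0 : E n) 1, |⟪(u : E n), z⟫| ^ q ∂(sg n) = c * ‖z‖ ^ q := by
  set e : E n := EuclideanSpace.single ⟨0, hn⟩ 1 with he
  have hw : ‖e‖ = 1 := C2_unit hn _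
  have hself : ⟪e, e⟫ = (1 : ℝ) := by
    rw [real_inner_self_eq_norm_sq, hw]
    norm_num
  have hc : Continuous (fun x : E n => |⟪x, e⟫| ^ q) :=
    (C2_abs_cont hq).comp (continuous_id.inner continuous_const)
  refine ⟨∫ u : sphere (0 : E n) 1, |⟪(u : E n), e⟫| ^ q ∂(sg n), ?_, ?_⟩
  · have h3 : 0 < ∫ x in closedBall (0 : E n) 1, |⟪x, e⟫| ^ q := by
      rw [setIntegral_pos_iff_support_of_nonneg_ae]
      · have hopen : IsOpen ({x : E n | ⟪x, e⟫ ≠ 0} ∩ ball (0 : E n) 1) :=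
          (isOpen_ne_fun (continuous_id.inner continuous_const) continuous_const).inter isOpen_ball
        have hne : ({x : E n | ⟪x, e⟫ ≠ 0} ∩ ball (0 : E n) 1).Nonempty := by
          refine ⟨(1 / 2 : ℝ) • e, ?_, ?_⟩
          · show ⟪(1 / 2 : ℝ) • e, e⟫ ≠ 0
            rw [real_inner_smul_left, hself]
            norm_num
          · rw [mem_ball_zero_iff, norm_smul, hw]
            norm_num
        refine lt_of_lt_of_le (hopen.measure_pos volume hne) (measure_mono ?_)
        rintro x ⟨hx1, hx2⟩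
        refine ⟨?_, ball_subset_closedBall hx2⟩
        rw [Function.mem_support]
        exact (Real.rpow_pos_of_pos (abs_pos.2 hx1) _).ne'
      · exact Eventually.of_forall fun x => Real.rpow_nonneg (abs_nonneg _) _
      · exact hc.continuousOn.integrableOn_compact (isCompact_closedBall _ _)
    rw [C2_ball hn hq hc (fun r hr x => by
      rw [real_inner_smul_left, abs_mul, abs_of_pos hr, Real.mul_rpow hr.le (abs_nonneg _)])] at h3
    have hn' : (1 : ℝ) ≤ n := by exact_mod_cast hn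
    have h4 : 0 < 1 / ((n : ℝ) + q) := by positivity
    exact (pos_iff_pos_of_mul_pos h3).1 h4
  · intro z
    have h1 : ‖z‖ = ‖(‖z‖ • e : E n)‖ := by rw [norm_smul, norm_norm, hw, mul_one]
    rw [sphere_inner hn (C2_abs_cont hq) h1, mul_comm, ← integral_const_mul]
    refine integral_congr_ae (Eventually.of_forall fun u => ?_)
    show |⟪(u : E n), ‖z‖ • e⟫| ^ q = ‖z‖ ^ q * |⟪(u : E n), e⟫| ^ q
    rw [real_inner_smul_right, abs_mul, abs_norm, Real.mul_rpow (norm_nonneg _) (abs_nonneg _)]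

theorem sphere_sq (hn : 1 ≤ n) (z : E n) :
    ∫ u : sphere (0 : E n) 1, ⟪(u : E n), z⟫ ^ 2 ∂(sg n) = (sg n).real univ / n * ‖z‖ ^ 2 := by
  set c : ℝ := ∫ u : sphere (0 : E n) 1,
    ⟪(u : E n), (EuclideanSpace.single ⟨0, hn⟩ (1 : ℝ) : E n)⟫ ^ 2 ∂(sg n) with hc
  have hsq : Continuous (fun t : ℝ => t ^ 2) := continuous_pow 2
  have hi : ∀ i : Fin n, ∫ u : sphere (0 : E n) 1,
      ⟪(u : E n), (EuclideanSpace.single i (1 : ℝ) : E n)⟫ ^ 2 ∂(sg n) = c := fun i =>
    sphere_inner hn hsq (by rw [C2_unit hn, C2_unit hn])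
  have hint : ∀ y : E n, Integrable (fun u : sphere (0 : E n) 1 => ⟪(u : E n), y⟫ ^ 2) (sg n) := by
    intro y
    rw [← integrableOn_univ]
    have : Continuous (fun u : sphere (0 : E n) 1 => ⟪(u : E n), y⟫ ^ 2) :=
      (continuous_subtype_val.inner continuous_const).pow 2
    exact this.continuousOn.integrableOn_compact isCompact_univ
  have hsum : ∑ i : Fin n, ∫ u : sphere (0 : E n) 1,
      ⟪(u : E n), (EuclideanSpace.single i (1 : ℝ) : E n)⟫ ^ 2 ∂(sg n) = (sg n).real univ := by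
    rw [← integral_finsetSum _ fun i _ => hint _]
    have h1 : ∀ u : sphere (0 : E n) 1, ∑ i : Fin n,
        ⟪(u : E n), (EuclideanSpace.single i (1 : ℝ) : E n)⟫ ^ 2 = 1 := by
      intro u
      have hu : ‖(u : E n)‖ = 1 := by simp
      have h2 : ∀ i : Fin n, ⟪(u : E n), (EuclideanSpace.single i (1 : ℝ) : E n)⟫ =
          (u : E n) i := by
        intro i
        rw [real_inner_comm]
        simp [EuclideanSpace.inner_single_left]
      simp only [h2]
      rw [← EuclideanSpace.real_norm_sq_eq, hu]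
      norm_num
    rw [integral_congr_ae (Eventually.of_forall h1), integral_const, smul_eq_mul, mul_one]
  have hnc : (n : ℝ) * c = (sg n).real univ := by
    rw [← hsum, Finset.sum_congr rfl fun i _ => hi i, Finset.sum_const, Finset.card_univ,
      Fintype.card_fin, nsmul_eq_mul]
  have hn0 : (n : ℝ) ≠ 0 := by
    have : n ≠ 0 := by omega
    exact_mod_cast this
  have h1 : ‖z‖ = ‖(‖z‖ • (EuclideanSpace.single ⟨0, hn⟩ (1 : ℝ) : E n) : E n)‖ := by
    rw [norm_smul, norm_norm, C2_unit hn, mul_one]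
  rw [sphere_inner hn hsq h1, ← hnc, mul_div_cancel_left₀ _ hn0, mul_comm, hc, ← integral_const_mul]
  refine integral_congr_ae (Eventually.of_forall fun u => ?_)
  show ⟪(u : E n), ‖z‖ • _⟫ ^ 2 = ‖z‖ ^ 2 * ⟪(u : E n), _⟫ ^ 2
  rw [real_inner_smul_right, mul_pow]

theorem ball_sq (hn : 1 ≤ n) (z : E n) :
    ∫ x in closedBall (0 : E n) 1, ⟪x, z⟫ ^ 2 =
      volume.real (closedBall (0 : E n) 1) / (n + 2) * ‖z‖ ^ 2 := by
  have hn0 : (n : ℝ) ≠ 0 := by
    have : n ≠ 0 := by omega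
    exact_mod_cast this
  have hf : Continuous (fun x : E n => ⟪x, z⟫ ^ 2) := (continuous_id.inner continuous_const).pow 2
  rw [C2_ball hn (show (0 : ℝ) ≤ 2 by norm_num) hf (fun r hr x => by
    rw [real_inner_smul_left, mul_pow, Real.rpow_two]), sphere_sq hn, (sg_univ hn).1]
  field_simp

/-- `∫_B |x|^q = vol(B) n/(n+q)` and `∫_K |x|^q = (n+q)⁻¹ ∫_S ρ^(n+q)` -/
theorem ball_norm_pow (hn : 1 ≤ n) {q : ℝ} (hq : 0 ≤ q) :
    ∫ x in closedBall (0 : E n) 1, ‖x‖ ^ q =
      volume.real (closedBall (0 : E n) 1) * (n / (n + q)) := by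
  rw [C2_ball hn hq (continuous_norm.rpow_const fun _ => Or.inr hq) (fun r hr x => by
    rw [norm_smul, Real.norm_eq_abs, abs_of_pos hr, Real.mul_rpow hr.le (norm_nonneg _)])]
  have h1 : ∀ u : sphere (0 : E n) 1, ‖(u : E n)‖ ^ q = 1 := by
    intro u
    have hu : ‖(u : E n)‖ = 1 := by simp
    rw [hu, Real.one_rpow]
  rw [integral_congr_ae (Eventually.of_forall h1), integral_const, smul_eq_mul, mul_one,
    (sg_univ hn).1]
  ring

theorem body_norm_pow (hn : 1 ≤ n) {K : Set (E n)} (hK : SymBody K) {q : ℝ} (hq : 0 ≤ q) :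
    ∫ x in K, ‖x‖ ^ q = (1 / ((n : ℝ) + q)) *
      ∫ u : sphere (0 : E n) 1, radial K (u : E n) ^ ((n : ℝ) + q) ∂(sg n) := by
  rw [polar_star hn hK.compact hK.convex hK.zero_mem hq (f := fun x : E n => ‖x‖ ^ q)
    (continuous_norm.rpow_const fun _ => Or.inr hq) (fun r hr x => by
    rw [norm_smul, Real.norm_eq_abs, abs_of_pos hr, Real.mul_rpow hr.le (norm_nonneg _)])]
  congr 1
  refine integral_congr_ae (Eventually.of_forall fun u => ?_)
  have hu : ‖(u : E n)‖ = 1 := by simp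
  show ‖(u : E n)‖ ^ q * radial K (u : E n) ^ ((n : ℝ) + q) = radial K (u : E n) ^ ((n : ℝ) + q)
  rw [hu, Real.one_rpow, one_mul]

end RMB
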