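import Pool.Agent.RMB.C2

/-!
# RMB-C3: the Fourier transforms of sphere and ball

`jf_radial`, `bf_radial`: `sphere_inner`, `ball_inner` with `F = cos`.
`bf_lip`: `|cos a - cos b| ≤ |a² - b²|/2` (`cos a - cos b = -2 sin((a+b)/2) sin((a-b)/2)`,
`|sin x| ≤ |x|`), so `|bf (R₁e) - bf (R₂e)| ≤ vol(B)⁻¹ ∫_B |R₁²-R₂²| ⟨x,e⟩²/2 = |R₁²-R₂²|/(2(n+2))`
(`ball_sq`).
`body_cos`: `∫_S ∫_K cos(s⟨u,x⟩) dx dsg(u) = sg(S) n⁻¹ ∫_S ρ_K(u)^n bf(s ρ_K(u) e) dsg(u)`, `e` a unit
vector.  Proof: Fubini: left = `∫_K sg(S) jf(s x) dx`; `polar_body`: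
`= sg(S) ∫_S ∫_0^ρ r^(n-1) jf(s r u) dr dsg(u)`, and for `ρ > 0`
`∫_0^ρ r^(n-1) jf(s r u) dr = ρ^n ∫_0^1 r^(n-1) jf(s ρ r e) dr = ρ^n n⁻¹ bf(s ρ e)`, because
`bf(R e) = vol(B)⁻¹ ∫_B cos⟨x, R e⟩ = vol(B)⁻¹ ∫_S ∫_0^1 r^(n-1) cos(r R ⟨u,e⟩) dr dsg(u)
= vol(B)⁻¹ sg(S) ∫_0^1 r^(n-1) jf(r R e) dr` and `sg(S) = n vol(B)` (`sg_univ`).
-/

set_option autoImplicit false

open MeasureTheory Set Metric Filter Topology
open scoped RealInnerProductSpace ENNReal

namespace RMB

variable {n : ℕ}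

theorem jf_radial (hn : 1 ≤ n) {z z' : E n} (h : ‖z‖ = ‖z'‖) : jf n z = jf n z' := by
  unfold jf
  rw [sphere_inner hn Real.continuous_cos h]

theorem bf_radial {z z' : E n} (h : ‖z‖ = ‖z'‖) : bf n z = bf n z' := by
  unfold bf
  rw [ball_inner Real.continuous_cos h]

theorem bf_cont : Continuous (bf n) := by
  have h : Continuous (fun z : E n => ∫ x in closedBall (0 : E n) 1, Real.cos ⟪x, z⟫) := by
    refine continuous_parametric_integral_of_continuous ?_ (isCompact_closedBall 0 1)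
    exact Real.continuous_cos.comp (continuous_snd.inner continuous_fst)
  exact continuous_const.mul h

private theorem jf_cont : Continuous (jf n) := by
  have h : Continuous (fun z : E n => ∫ u in (univ : Set (sphere (0 : E n) 1)),
      Real.cos ⟪(u : E n), z⟫ ∂(sg n)) := by
    refine continuous_parametric_integral_of_continuous ?_ isCompact_univ
    exact Real.continuous_cos.comp ((continuous_subtype_val.comp continuous_snd).inner
      continuous_fst)
  simp only [Measure.restrict_univ] at h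
  exact continuous_const.mul h

private theorem cos_sub_le (a b : ℝ) : |Real.cos a - Real.cos b| ≤ |a ^ 2 - b ^ 2| / 2 := by
  rw [Real.cos_sub_cos, abs_mul, abs_mul, abs_neg, abs_of_pos (by norm_num : (0 : ℝ) < 2)]
  have h1 : |Real.sin ((a + b) / 2)| ≤ |(a + b) / 2| := Real.abs_sin_le_abs
  have h2 : |Real.sin ((a - b) / 2)| ≤ |(a - b) / 2| := Real.abs_sin_le_abs
  have h3 : |a ^ 2 - b ^ 2| / 2 = 2 * |(a + b) / 2| * |(a - b) / 2| := by
    rw [show a ^ 2 - b ^ 2 = (a + b) * (a - b) by ring, abs_mul, abs_div, abs_div,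
      abs_of_pos (by norm_num : (0 : ℝ) < 2)]
    ring
  rw [h3]
  exact mul_le_mul (mul_le_mul_of_nonneg_left h1 (by norm_num)) h2 (abs_nonneg _) (by positivity)

theorem bf_lip (hn : 1 ≤ n) {e : E n} (he : ‖e‖ = 1) (R₁ R₂ : ℝ) :
    |bf n (R₁ • e) - bf n (R₂ • e)| ≤ 1 / (2 * ((n : ℝ) + 2)) * |R₁ ^ 2 - R₂ ^ 2| := by
  have hV : 0 < volume.real (closedBall (0 : E n) 1) :=
    (closedBall_sym one_pos).toIsBody.volume_pos
  have hc : ∀ z : E n, Continuous (fun x : E n => Real.cos ⟪x, z⟫) := fun z =>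
    Real.continuous_cos.comp (continuous_id.inner continuous_const)
  have hi : ∀ z : E n, IntegrableOn (fun x : E n => Real.cos ⟪x, z⟫) (closedBall 0 1) volume :=
    fun z => (hc z).continuousOn.integrableOn_compact (isCompact_closedBall 0 1)
  have hsq : IntegrableOn (fun x : E n => |R₁ ^ 2 - R₂ ^ 2| / 2 * ⟪x, e⟫ ^ 2) (closedBall 0 1)
      volume := by
    refine ContinuousOn.integrableOn_compact (isCompact_closedBall 0 1) ?_
    have h0 : Continuous (fun x : E n => |R₁ ^ 2 - R₂ ^ 2| / 2 * ⟪x, e⟫ ^ 2) :=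
      continuous_const.mul ((continuous_id.inner continuous_const).pow 2)
    exact h0.continuousOn
  have h1 : |(∫ x in closedBall (0 : E n) 1, Real.cos ⟪x, R₁ • e⟫) -
      ∫ x in closedBall (0 : E n) 1, Real.cos ⟪x, R₂ • e⟫| ≤
      ∫ x in closedBall (0 : E n) 1, |R₁ ^ 2 - R₂ ^ 2| / 2 * ⟪x, e⟫ ^ 2 := by
    rw [← integral_sub (hi _) (hi _)]
    refine (abs_integral_le_integral_abs).trans ?_
    refine integral_mono ((hi _).sub (hi _)).abs hsq ?_
    intro x
    have h2 := cos_sub_le ⟪x, R₁ • e⟫ ⟪x, R₂ • e⟫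
    have h3 : |⟪x, R₁ • e⟫ ^ 2 - ⟪x, R₂ • e⟫ ^ 2| / 2 = |R₁ ^ 2 - R₂ ^ 2| / 2 * ⟪x, e⟫ ^ 2 := by
      rw [real_inner_smul_right, real_inner_smul_right,
        show (R₁ * ⟪x, e⟫) ^ 2 - (R₂ * ⟪x, e⟫) ^ 2 = (R₁ ^ 2 - R₂ ^ 2) * ⟪x, e⟫ ^ 2 by ring,
        abs_mul, abs_of_nonneg (sq_nonneg (⟪x, e⟫ : ℝ))]
      ring
    rw [h3] at h2
    exact h2
  have h4 : ∫ x in closedBall (0 : E n) 1, |R₁ ^ 2 - R₂ ^ 2| / 2 * ⟪x, e⟫ ^ 2 =
      |R₁ ^ 2 - R₂ ^ 2| / 2 * (volume.real (closedBall (0 : E n) 1) / (n + 2)) := by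
    rw [integral_const_mul, ball_sq hn e, he]
    ring
  rw [h4] at h1
  unfold bf
  rw [← mul_sub, abs_mul, abs_of_pos (inv_pos.2 hV)]
  calc (volume.real (closedBall (0 : E n) 1))⁻¹ *
        |(∫ x in closedBall (0 : E n) 1, Real.cos ⟪x, R₁ • e⟫) -
          ∫ x in closedBall (0 : E n) 1, Real.cos ⟪x, R₂ • e⟫|
      ≤ (volume.real (closedBall (0 : E n) 1))⁻¹ *
        (|R₁ ^ 2 - R₂ ^ 2| / 2 * (volume.real (closedBall (0 : E n) 1) / (n + 2))) :=
        mul_le_mul_of_nonneg_left h1 (inv_pos.2 hV).le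
    _ = 1 / (2 * ((n : ℝ) + 2)) * |R₁ ^ 2 - R₂ ^ 2| := by
        have : (n : ℝ) + 2 ≠ 0 := by positivity
        field_simp

private theorem radial_ball {u : E n} (hu : ‖u‖ = 1) : radial (closedBall (0 : E n) 1) u = 1 := by
  unfold radial
  have : {r : ℝ | 0 ≤ r ∧ r • u ∈ closedBall (0 : E n) 1} = Icc 0 1 := by
    ext r
    simp only [mem_ofPred_eq, mem_closedBall_zero_iff, norm_smul, hu, mul_one, mem_Icc,
      Real.norm_eq_abs]
    constructor
    · rintro ⟨h1, h2⟩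
      exact ⟨h1, (le_abs_self r).trans h2⟩
    · rintro ⟨h1, h2⟩
      exact ⟨h1, by rwa [abs_of_nonneg h1]⟩
  rw [this, csSup_Icc zero_le_one]

private theorem sg_mul_jf (hn : 1 ≤ n) (z : E n) :
    ∫ u : sphere (0 : E n) 1, Real.cos ⟪(u : E n), z⟫ ∂(sg n) = (sg n).real univ * jf n z := by
  unfold jf
  rw [← mul_assoc, mul_inv_cancel₀ (sg_univ hn).2.ne', one_mul]

/-- `∫_0^1 t^(n-1) jf(R t e) dt = n⁻¹ bf(R e)` -/
private theorem int_jf (hn : 1 ≤ n) (e : E n) (R : ℝ) :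
    ∫ t in (0 : ℝ)..1, t ^ (n - 1) * jf n ((R * t) • e) = 1 / (n : ℝ) * bf n (R • e) := by
  have hV : 0 < volume.real (closedBall (0 : E n) 1) :=
    (closedBall_sym one_pos).toIsBody.volume_pos
  have hn0 : (n : ℝ) ≠ 0 := by
    have : 0 < n := hn
    positivity
  have hB := closedBall_sym (n := n) one_pos
  have h1 := polar_body hn hB.compact hB.convex hB.zero_mem
    (f := fun x : E n => Real.cos ⟪x, R • e⟫)
    (Real.continuous_cos.comp (continuous_id.inner continuous_const))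
  have h2 : ∀ u : sphere (0 : E n) 1, radial (closedBall (0 : E n) 1) (u : E n) = 1 := fun u =>
    radial_ball (by simp)
  simp only [h2] at h1
  -- swap
  have h3 : ∫ u : sphere (0 : E n) 1, (∫ r in (0 : ℝ)..1, r ^ (n - 1) *
      Real.cos ⟪r • (u : E n), R • e⟫) ∂(sg n) =
      ∫ r in (0 : ℝ)..1, (∫ u : sphere (0 : E n) 1, r ^ (n - 1) *
        Real.cos ⟪r • (u : E n), R • e⟫ ∂(sg n)) := by
    simp only [intervalIntegral.integral_of_le (zero_le_one (α := ℝ))]
    refine integral_integral_swap ?_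
    have hfin : IsFiniteMeasure ((sg n).prod (volume.restrict (Ioc (0 : ℝ) 1))) := inferInstance
    refine Integrable.mono' (integrable_const (1 : ℝ)) ?_ ?_
    · refine Continuous.aestronglyMeasurable ?_
      refine (continuous_snd.pow _).mul (Real.continuous_cos.comp ?_)
      exact ((continuous_snd.smul (continuous_subtype_val.comp continuous_fst))).inner
        continuous_const
    · have : ∀ᵐ p : sphere (0 : E n) 1 × ℝ ∂((sg n).prod (volume.restrict (Ioc (0 : ℝ) 1))),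
          p.2 ∈ Ioc (0 : ℝ) 1 := by
        rw [show (sg n).prod (volume.restrict (Ioc (0 : ℝ) 1)) =
          ((sg n).restrict univ).prod (volume.restrict (Ioc (0 : ℝ) 1)) by
            rw [Measure.restrict_univ], Measure.prod_restrict]
        filter_upwards [ae_restrict_mem (MeasurableSet.univ.prod measurableSet_Ioc)] with p hp
        exact hp.2
      filter_upwards [this] with p hp
      show ‖p.2 ^ (n - 1) * Real.cos ⟪p.2 • (p.1 : E n), R • e⟫‖ ≤ 1
      rw [norm_mul, Real.norm_eq_abs, Real.norm_eq_abs, abs_of_nonneg (pow_nonneg hp.1.le _)]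
      exact mul_le_one₀ (pow_le_one₀ hp.1.le hp.2) (abs_nonneg _) (Real.abs_cos_le_one _)
  have h4 : ∀ r : ℝ, (∫ u : sphere (0 : E n) 1, r ^ (n - 1) *
        Real.cos ⟪r • (u : E n), R • e⟫ ∂(sg n)) =
      (sg n).real univ * (r ^ (n - 1) * jf n ((R * r) • e)) := by
    intro r
    rw [integral_const_mul]
    have h5 : ∀ u : sphere (0 : E n) 1, (⟪r • (u : E n), R • e⟫ : ℝ) =
        ⟪(u : E n), (R * r) • e⟫ := by
      intro u
      rw [real_inner_smul_left, real_inner_smul_right, real_inner_smul_right]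
      ring
    simp only [h5]
    rw [sg_mul_jf hn]
    ring
  simp only [h4, intervalIntegral.integral_const_mul] at h3
  rw [h3] at h1
  unfold bf
  rw [h1, (sg_univ hn).1]
  field_simp

theorem body_cos (hn : 1 ≤ n) {K : Set (E n)} (hK : SymBody K) {e : E n} (he : ‖e‖ = 1) (s : ℝ) :
    ∫ u : sphere (0 : E n) 1, (∫ x in K, Real.cos (s * ⟪(u : E n), x⟫)) ∂(sg n) =
      (sg n).real univ * ((1 / (n : ℝ)) * ∫ u : sphere (0 : E n) 1,
        radial K (u : E n) ^ n * bf n ((s * radial K (u : E n)) • e) ∂(sg n)) := by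
  have hKfin : IsFiniteMeasure (volume.restrict K) :=
    ⟨by rw [Measure.restrict_apply_univ]; exact hK.compact.measure_lt_top⟩
  -- Fubini
  have h1 : ∫ u : sphere (0 : E n) 1, (∫ x in K, Real.cos (s * ⟪(u : E n), x⟫)) ∂(sg n) =
      ∫ x in K, (∫ u : sphere (0 : E n) 1, Real.cos (s * ⟪(u : E n), x⟫) ∂(sg n)) := by
    refine integral_integral_swap ?_
    refine Integrable.mono' (integrable_const (1 : ℝ)) ?_ ?_
    · refine Continuous.aestronglyMeasurable ?_
      refine Real.continuous_cos.comp (continuous_const.mul ?_)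
      exact (continuous_subtype_val.comp continuous_fst).inner continuous_snd
    · refine ae_of_all _ fun p => ?_
      show ‖Real.cos (s * ⟪(p.1 : E n), p.2⟫)‖ ≤ 1
      rw [Real.norm_eq_abs]
      exact Real.abs_cos_le_one _
  have h2 : ∀ x : E n, (∫ u : sphere (0 : E n) 1, Real.cos (s * ⟪(u : E n), x⟫) ∂(sg n)) =
      (sg n).real univ * jf n (s • x) := by
    intro x
    rw [← sg_mul_jf hn]
    simp only [real_inner_smul_right]
  rw [h1]
  simp only [h2]
  rw [integral_const_mul]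
  congr 1
  have h3 := polar_body hn hK.compact hK.convex hK.zero_mem (f := fun x : E n => jf n (s • x))
    (jf_cont.comp (continuous_const_smul s))
  rw [h3, ← integral_const_mul]
  refine integral_congr_ae (ae_of_all _ fun u => ?_)
  have hu : ‖(u : E n)‖ = 1 := by simp
  show ∫ r in (0 : ℝ)..radial K (u : E n), r ^ (n - 1) * jf n (s • r • (u : E n)) =
    1 / (n : ℝ) * (radial K (u : E n) ^ n * bf n ((s * radial K (u : E n)) • e))
  set ρ := radial K (u : E n) with hρ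
  have h4 : ∀ r : ℝ, jf n (s • r • (u : E n)) = jf n ((s * r) • e) := by
    intro r
    refine jf_radial hn ?_
    rw [smul_smul, norm_smul, norm_smul, hu, he]
  simp only [h4]
  have h5 := intervalIntegral.mul_integral_comp_mul_left (a := 0) (b := 1)
    (f := fun r : ℝ => r ^ (n - 1) * jf n ((s * r) • e)) ρ
  rw [mul_zero, mul_one] at h5
  rw [← h5]
  have h6 : ∀ t : ℝ, (ρ * t) ^ (n - 1) * jf n ((s * (ρ * t)) • e) =
      ρ ^ (n - 1) * (t ^ (n - 1) * jf n ((s * ρ * t) • e)) := by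
    intro t
    rw [mul_pow, ← mul_assoc s ρ t]
    ring
  simp only [h6]
  rw [intervalIntegral.integral_const_mul, int_jf hn e (s * ρ), ← mul_assoc, ← pow_succ']
  rw [Nat.sub_add_cancel hn]
  ring

end RMB
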