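import Pool.Agent.RMB.C1
import Pool.Agent.RMB.C2

/-!
# RMB-C4: `∫∫_{K×K} |x-y|^q` through the characteristic function (`4 < q < 6`)

`FK n K s = sg(S) vol(K)² - (s²/2) ∫_S ∫∫ ⟨u,y-x⟩² + (s⁴/24) ∫_S ∫∫ ⟨u,y-x⟩⁴
  - ∫_S (∫_K cos(s⟨u,x⟩) dx)²`.

`pair_repr`: `sphere_pow`: `‖z‖^q = c⁻¹ ∫_S |⟨u,z⟩|^q dsg(u)`; `pow_repr`:
`|⟨u,z⟩|^q = C₀ ∫_0^∞ (1 - (s⟨u,z⟩)²/2 + (s⟨u,z⟩)⁴/24 - cos(s⟨u,z⟩)) s^(-1-q) ds` with a NONNEGATIVE
integrand (`cos_taylor4`), so Tonelli allows all exchanges (everything is finite since the left side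
is bounded on `K × K`): `∫∫_{K×K} ‖y-x‖^q = (C₀/c) ∫_0^∞ (∫_S ∫∫_{K×K} (...)) s^(-1-q) ds` and
`∫∫_{K×K} cos(s⟨u,y-x⟩) = (∫_K cos(s⟨u,x⟩))²` (addition formula; `∫_K sin(s⟨u,x⟩) = 0` because `K = -K`).
Take `C = C₀/c`; it depends on `n, q` only.

`FK_iso`: for isotropic `K` (`∫_K ⟨x,v⟩² = l ‖v‖²`): `∫∫ ⟨u,y-x⟩² = 2 vol(K) ∫_K ⟨u,x⟩²`,
`∫_S ∫_K ⟨u,x⟩² = (sg(S)/n) ∫_K |x|²` (`sphere_sq`);
`∫∫ ⟨u,y-x⟩⁴ = 2 vol(K) ∫_K ⟨u,x⟩⁴ + 6 (∫_K ⟨u,x⟩²)²` (odd terms vanish by symmetry), where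
`∫_S ∫_K ⟨u,x⟩⁴ = c₄ ∫_K |x|⁴` (`c₄` = constant of `sphere_pow` for `q = 4`) and
`(∫_K ⟨u,x⟩²)² = l²` for unit `u`.
`iso_trace`: `n l = ∫_K |x|²` (sum over an orthonormal basis).
-/

set_option autoImplicit false

open MeasureTheory Set Metric Filter Topology
open scoped RealInnerProductSpace ENNReal

namespace RMB

variable {n : ℕ}

/-- see the header -/
noncomputable def FK (n : ℕ) (K : Set (E n)) (s : ℝ) : ℝ :=
  (sg n).real univ * volume.real K ^ 2
    - s ^ 2 / 2 * (∫ u : sphere (0 : E n) 1, (∫ x in K, ∫ y in K, ⟪(u : E n), y - x⟫ ^ 2) ∂(sg n))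
    + s ^ 4 / 24 * (∫ u : sphere (0 : E n) 1, (∫ x in K, ∫ y in K, ⟪(u : E n), y - x⟫ ^ 4) ∂(sg n))
    - ∫ u : sphere (0 : E n) 1, (∫ x in K, Real.cos (s * ⟪(u : E n), x⟫)) ^ 2 ∂(sg n)

/-! ### auxiliary lemmas -/

private theorem c4_odd {K : Set (E n)} (hK : ∀ x ∈ K, -x ∈ K) (f : E n → ℝ)
    (hf : ∀ x, f (-x) = -f x) (hm : MeasurableSet K) : ∫ x in K, f x = 0 := by
  have h1 : ∫ x in K, f x = ∫ x, K.indicator f x := (integral_indicator hm).symm
  have h2 : ∫ x, K.indicator f (-x) = ∫ x, K.indicator f x :=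
    integral_neg_eq_self (K.indicator f) volume
  have h3 : ∀ x, K.indicator f (-x) = - K.indicator f x := by
    intro x
    by_cases hx : x ∈ K
    · rw [indicator_of_mem hx, indicator_of_mem (hK x hx), hf]
    · have : -x ∉ K := by
        intro h
        have := hK _ h
        rw [neg_neg] at this
        exact hx this
      rw [indicator_of_notMem hx, indicator_of_notMem this, neg_zero]
  have h4 : ∫ x, K.indicator f (-x) = - ∫ x, K.indicator f x := by
    rw [← integral_neg]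
    exact integral_congr_ae (Eventually.of_forall h3)
  rw [h1]
  linarith

private theorem c4_int {K : Set (E n)} (hK : IsCompact K) {φ : E n → ℝ} (hφ : Continuous φ) :
    Integrable φ (volume.restrict K) :=
  hφ.continuousOn.integrableOn_compact hK

private theorem c4_intP {K : Set (E n)} (hK : IsCompact K) {φ : E n × E n → ℝ}
    (hφ : Continuous φ) : Integrable φ ((volume.restrict K).prod (volume.restrict K)) := by
  rw [Measure.prod_restrict]
  exact hφ.continuousOn.integrableOn_compact (hK.prod hK)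

private theorem c4_intQ {K : Set (E n)} (hK : IsCompact K)
    {φ : sphere (0 : E n) 1 × (E n × E n) → ℝ} (hφ : Continuous φ) :
    Integrable φ ((sg n).prod ((volume.restrict K).prod (volume.restrict K))) := by
  have e : (sg n).prod ((volume.restrict K).prod (volume.restrict K)) =
      ((sg n).prod ((volume : Measure (E n)).prod (volume : Measure (E n)))).restrict
        (univ ×ˢ (K ×ˢ K)) := by
    have e1 := Measure.prod_restrict (μ := sg n)
      (ν := (volume : Measure (E n)).prod (volume : Measure (E n))) univ (K ×ˢ K)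
    rw [Measure.restrict_univ] at e1
    rw [← e1, Measure.prod_restrict]
  rw [e]
  exact hφ.continuousOn.integrableOn_compact (isCompact_univ.prod (hK.prod hK))

private theorem c4_Q {K : Set (E n)} (hK : IsCompact K)
    {φ : sphere (0 : E n) 1 × (E n × E n) → ℝ} (hφ : Continuous φ) :
    ∫ w, φ w ∂((sg n).prod ((volume.restrict K).prod (volume.restrict K))) =
      ∫ u : sphere (0 : E n) 1, (∫ x in K, ∫ y in K, φ (u, (x, y))) ∂(sg n) := by
  rw [integral_prod _ (c4_intQ hK hφ)]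
  refine integral_congr_ae (Eventually.of_forall fun u => ?_)
  exact integral_prod _ (c4_intP hK (φ := fun p => φ (u, p)) (by fun_prop))

private theorem c4_cosdiff {K : Set (E n)} (hK : SymBody K) (s : ℝ) (u : E n) :
    ∫ x in K, ∫ y in K, Real.cos (s * ⟪u, y - x⟫) = (∫ x in K, Real.cos (s * ⟪u, x⟫)) ^ 2 := by
  have hc := hK.compact
  have h1 : ∀ x y : E n, Real.cos (s * ⟪u, y - x⟫) =
      Real.cos (s * ⟪u, x⟫) * Real.cos (s * ⟪u, y⟫) +
        Real.sin (s * ⟪u, x⟫) * Real.sin (s * ⟪u, y⟫) := by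
    intro x y
    rw [inner_sub_right, mul_sub, Real.cos_sub]
    ring
  have h2 : ∀ x : E n, ∫ y in K, Real.cos (s * ⟪u, y - x⟫) =
      Real.cos (s * ⟪u, x⟫) * (∫ y in K, Real.cos (s * ⟪u, y⟫)) +
        Real.sin (s * ⟪u, x⟫) * (∫ y in K, Real.sin (s * ⟪u, y⟫)) := by
    intro x
    simp_rw [h1 x]
    rw [integral_add (c4_int hc (by fun_prop)) (c4_int hc (by fun_prop)),
      integral_const_mul, integral_const_mul]
  have h3 : ∫ y in K, Real.sin (s * ⟪u, y⟫) = 0 :=
    c4_odd hK.sym _ (fun x => by rw [inner_neg_right, mul_neg, Real.sin_neg])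
      hc.measurableSet
  simp_rw [h2, h3, mul_zero, add_zero]
  rw [integral_mul_const, sq]

private theorem c4_FK {K : Set (E n)} (hK : SymBody K) (s : ℝ) :
    ∫ w : sphere (0 : E n) 1 × (E n × E n),
      (1 - (s * ⟪(w.1 : E n), w.2.2 - w.2.1⟫) ^ 2 / 2 +
        (s * ⟪(w.1 : E n), w.2.2 - w.2.1⟫) ^ 4 / 24 -
        Real.cos (s * ⟪(w.1 : E n), w.2.2 - w.2.1⟫))
      ∂((sg n).prod ((volume.restrict K).prod (volume.restrict K))) = FK n K s := by
  have hc := hK.compact
  have i1 : Integrable (fun _ : sphere (0 : E n) 1 × (E n × E n) => (1 : ℝ))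
      ((sg n).prod ((volume.restrict K).prod (volume.restrict K))) :=
    c4_intQ hc continuous_const
  have i2 : Integrable (fun w : sphere (0 : E n) 1 × (E n × E n) =>
      (s * ⟪(w.1 : E n), w.2.2 - w.2.1⟫) ^ 2 / 2)
      ((sg n).prod ((volume.restrict K).prod (volume.restrict K))) :=
    c4_intQ hc (by fun_prop)
  have i3 : Integrable (fun w : sphere (0 : E n) 1 × (E n × E n) =>
      (s * ⟪(w.1 : E n), w.2.2 - w.2.1⟫) ^ 4 / 24)
      ((sg n).prod ((volume.restrict K).prod (volume.restrict K))) :=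
    c4_intQ hc (by fun_prop)
  have i4 : Integrable (fun w : sphere (0 : E n) 1 × (E n × E n) =>
      Real.cos (s * ⟪(w.1 : E n), w.2.2 - w.2.1⟫))
      ((sg n).prod ((volume.restrict K).prod (volume.restrict K))) :=
    c4_intQ hc (by fun_prop)
  have i12 : Integrable (fun w : sphere (0 : E n) 1 × (E n × E n) =>
      1 - (s * ⟪(w.1 : E n), w.2.2 - w.2.1⟫) ^ 2 / 2)
      ((sg n).prod ((volume.restrict K).prod (volume.restrict K))) := i1.sub i2
  have i123 : Integrable (fun w : sphere (0 : E n) 1 × (E n × E n) =>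
      1 - (s * ⟪(w.1 : E n), w.2.2 - w.2.1⟫) ^ 2 / 2 +
        (s * ⟪(w.1 : E n), w.2.2 - w.2.1⟫) ^ 4 / 24)
      ((sg n).prod ((volume.restrict K).prod (volume.restrict K))) := i12.add i3
  rw [integral_sub i123 i4, integral_add i12 i3, integral_sub i1 i2]
  have e1 : ∫ _ : sphere (0 : E n) 1 × (E n × E n), (1 : ℝ)
      ∂((sg n).prod ((volume.restrict K).prod (volume.restrict K))) =
      (sg n).real univ * volume.real K ^ 2 := by
    rw [c4_Q hc continuous_const]
    have hu : (volume.restrict K).real univ = volume.real K := by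
      simp [Measure.real]
    simp only [integral_const, smul_eq_mul, hu]
    ring
  have e2 : ∫ w : sphere (0 : E n) 1 × (E n × E n),
      (s * ⟪(w.1 : E n), w.2.2 - w.2.1⟫) ^ 2 / 2
      ∂((sg n).prod ((volume.restrict K).prod (volume.restrict K))) =
      s ^ 2 / 2 * (∫ u : sphere (0 : E n) 1,
        (∫ x in K, ∫ y in K, ⟪(u : E n), y - x⟫ ^ 2) ∂(sg n)) := by
    rw [← c4_Q hc (φ := fun w => ⟪(w.1 : E n), w.2.2 - w.2.1⟫ ^ 2) (by fun_prop),
      ← integral_const_mul]
    refine integral_congr_ae (Eventually.of_forall fun w => ?_)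
    simp only
    ring
  have e3 : ∫ w : sphere (0 : E n) 1 × (E n × E n),
      (s * ⟪(w.1 : E n), w.2.2 - w.2.1⟫) ^ 4 / 24
      ∂((sg n).prod ((volume.restrict K).prod (volume.restrict K))) =
      s ^ 4 / 24 * (∫ u : sphere (0 : E n) 1,
        (∫ x in K, ∫ y in K, ⟪(u : E n), y - x⟫ ^ 4) ∂(sg n)) := by
    rw [← c4_Q hc (φ := fun w => ⟪(w.1 : E n), w.2.2 - w.2.1⟫ ^ 4) (by fun_prop),
      ← integral_const_mul]
    refine integral_congr_ae (Eventually.of_forall fun w => ?_)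
    simp only
    ring
  have e4 : ∫ w : sphere (0 : E n) 1 × (E n × E n),
      Real.cos (s * ⟪(w.1 : E n), w.2.2 - w.2.1⟫)
      ∂((sg n).prod ((volume.restrict K).prod (volume.restrict K))) =
      ∫ u : sphere (0 : E n) 1, (∫ x in K, Real.cos (s * ⟪(u : E n), x⟫)) ^ 2 ∂(sg n) := by
    rw [c4_Q hc (by fun_prop)]
    refine integral_congr_ae (Eventually.of_forall fun u => ?_)
    exact c4_cosdiff hK s u
  rw [e1, e2, e3, e4, FK]

theorem pair_repr (hn : 1 ≤ n) {q : ℝ} (h4 : 4 < q) (h6 : q < 6) :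
    ∃ C > 0, ∀ K : Set (E n), SymBody K →
      IntegrableOn (fun s : ℝ => FK n K s * s ^ (-1 - q)) (Ioi 0) ∧
      ∫ x in K, ∫ y in K, ‖y - x‖ ^ q = C * ∫ s in Ioi (0 : ℝ), FK n K s * s ^ (-1 - q) := by
  obtain ⟨C₀, hC₀, hpow⟩ := pow_repr h4 h6
  obtain ⟨c, hc, hsph⟩ := sphere_pow (n := n) hn (q := q) (by linarith)
  refine ⟨C₀ / c, div_pos hC₀ hc, fun K hK => ?_⟩
  have hcp := hK.compact
  set Q : Measure (sphere (0 : E n) 1 × (E n × E n)) :=
    (sg n).prod ((volume.restrict K).prod (volume.restrict K)) with hQ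
  have hPs : SFinite (((volume : Measure (E n)).restrict K).prod
      ((volume : Measure (E n)).restrict K)) := inferInstance
  have hQs : SFinite Q := @Measure.prod.instSFinite _ _ _ (sg n) _ _ _ hPs
  let t : sphere (0 : E n) 1 × (E n × E n) → ℝ := fun w => ⟪(w.1 : E n), w.2.2 - w.2.1⟫
  have ht : Continuous t := by
    show Continuous fun w : sphere (0 : E n) 1 × (E n × E n) => ⟪(w.1 : E n), w.2.2 - w.2.1⟫
    fun_prop
  let G : (sphere (0 : E n) 1 × (E n × E n)) × ℝ → ℝ := fun z =>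
    (1 - (z.2 * t z.1) ^ 2 / 2 + (z.2 * t z.1) ^ 4 / 24 - Real.cos (z.2 * t z.1)) *
      z.2 ^ (-1 - q)
  have htp : ∀ w, |t w| ^ q = C₀ * ∫ s in Ioi (0 : ℝ), G (w, s) := fun w => (hpow (t w)).2
  have hGm : Measurable G := by
    have h1 : Measurable t := ht.measurable
    have h2 : Measurable fun z : (sphere (0 : E n) 1 × (E n × E n)) × ℝ => z.2 * t z.1 :=
      measurable_snd.mul (h1.comp measurable_fst)
    have h3 : Measurable fun z : (sphere (0 : E n) 1 × (E n × E n)) × ℝ => z.2 ^ (-1 - q) :=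
      measurable_snd.pow_const _
    exact (((measurable_const.sub ((h2.pow_const 2).div_const 2)).add
      ((h2.pow_const 4).div_const 24)).sub (Real.measurable_cos.comp h2)).mul h3
  have hG0 : ∀ w, ∀ s ∈ Ioi (0 : ℝ), ‖G (w, s)‖ = G (w, s) := by
    intro w s hs
    rw [Real.norm_of_nonneg]
    exact mul_nonneg (cos_taylor4 _) (Real.rpow_nonneg (le_of_lt hs) _)
  have hGint : Integrable G (Q.prod (volume.restrict (Ioi (0 : ℝ)))) := by
    rw [integrable_prod_iff hGm.aestronglyMeasurable]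
    refine ⟨Eventually.of_forall fun w => (hpow (t w)).1, ?_⟩
    have h1 : (fun w => ∫ s in Ioi (0 : ℝ), ‖G (w, s)‖) = fun w => C₀⁻¹ * |t w| ^ q := by
      funext w
      rw [setIntegral_congr_fun measurableSet_Ioi (hG0 w), htp w, ← mul_assoc,
        inv_mul_cancel₀ hC₀.ne', one_mul]
    rw [h1]
    exact c4_intQ hcp (continuous_const.mul
      (ht.abs.rpow_const fun _ => Or.inr (by linarith)))
  have hFG : ∀ s : ℝ, FK n K s * s ^ (-1 - q) = ∫ w, G (w, s) ∂Q := by
    intro s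
    rw [← c4_FK hK s, ← integral_mul_const]
  constructor
  · have h1 : Integrable (fun s => ∫ w, G (w, s) ∂Q) (volume.restrict (Ioi (0 : ℝ))) :=
      hGint.integral_prod_right
    show Integrable (fun s : ℝ => FK n K s * s ^ (-1 - q)) (volume.restrict (Ioi (0 : ℝ)))
    exact h1.congr (Eventually.of_forall fun s => (hFG s).symm)
  · have h1 : ∫ s in Ioi (0 : ℝ), FK n K s * s ^ (-1 - q) =
        ∫ s in Ioi (0 : ℝ), (∫ w, G (w, s) ∂Q) :=
      integral_congr_ae (Eventually.of_forall hFG)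
    have h2 : ∫ s in Ioi (0 : ℝ), (∫ w, G (w, s) ∂Q) = ∫ w, (∫ s in Ioi (0 : ℝ), G (w, s)) ∂Q :=
      (integral_integral_swap (f := fun w s => G (w, s)) hGint).symm
    have hint : Integrable (fun w => |t w| ^ q) Q :=
      c4_intQ hcp (ht.abs.rpow_const fun _ => Or.inr (by linarith))
    have h3 : C₀ * ∫ w, (∫ s in Ioi (0 : ℝ), G (w, s)) ∂Q = ∫ w, |t w| ^ q ∂Q := by
      rw [← integral_const_mul]
      exact integral_congr_ae (Eventually.of_forall fun w => (htp w).symm)
    have h4' : ∫ w, |t w| ^ q ∂Q = ∫ p, c * ‖p.2 - p.1‖ ^ q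
        ∂((volume.restrict K).prod (volume.restrict K)) := by
      rw [hQ, integral_prod_symm _ hint]
      exact integral_congr_ae (Eventually.of_forall fun p => hsph (p.2 - p.1))
    have h5 : ∫ p : E n × E n, ‖p.2 - p.1‖ ^ q
        ∂((volume.restrict K).prod (volume.restrict K)) =
        ∫ x in K, ∫ y in K, ‖y - x‖ ^ q :=
      integral_prod _ (c4_intP hcp (Continuous.rpow_const (by fun_prop)
        fun _ => Or.inr (by linarith)))
    rw [h1, h2, ← h5]
    rw [integral_const_mul] at h4'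
    rw [h4'] at h3
    rw [div_mul_eq_mul_div, h3]
    field_simp

theorem iso_trace {K : Set (E n)} (hK : SymBody K) {l : ℝ} (hl : Iso K l) :
    ∫ x in K, ‖x‖ ^ 2 = n * l := by
  have hc := hK.compact
  let b := EuclideanSpace.basisFun (Fin n) ℝ
  have h1 : ∀ x : E n, ‖x‖ ^ 2 = ∑ i, ⟪x, b i⟫ ^ 2 := by
    intro x
    rw [← b.sum_sq_norm_inner_right x]
    refine Finset.sum_congr rfl fun i _ => ?_
    rw [Real.norm_eq_abs, sq_abs, real_inner_comm]
  simp_rw [h1]
  rw [integral_finsetSum _ fun i _ => c4_int hc (by fun_prop)]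
  have h2 : ∀ i, ∫ x in K, ⟪x, b i⟫ ^ 2 = l := by
    intro i
    rw [hl (b i), b.norm_eq_one i]
    ring
  simp_rw [h2]
  simp

theorem FK_iso (hn : 1 ≤ n) : ∃ c₄ : ℝ, ∀ (K : Set (E n)), SymBody K → ∀ l : ℝ, Iso K l → ∀ s : ℝ,
    FK n K s = (sg n).real univ * volume.real K ^ 2
      - s ^ 2 * ((sg n).real univ / n) * (volume.real K * ∫ x in K, ‖x‖ ^ 2)
      + s ^ 4 / 24 * (2 * c₄ * (volume.real K * ∫ x in K, ‖x‖ ^ 4) + 6 * (sg n).real univ * l ^ 2)
      - ∫ u : sphere (0 : E n) 1, (∫ x in K, Real.cos (s * ⟪(u : E n), x⟫)) ^ 2 ∂(sg n) := by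
  obtain ⟨c, -, hsph⟩ := sphere_pow (n := n) hn (q := (4 : ℕ)) (by positivity)
  refine ⟨c, fun K hK l hl s => ?_⟩
  have hc := hK.compact
  have hn0 : (n : ℝ) ≠ 0 := by
    have : (1 : ℝ) ≤ n := by exact_mod_cast hn
    positivity
  have hvol : ∀ r : ℝ, ∫ _ in K, r = volume.real K * r := by
    intro r
    rw [setIntegral_const, smul_eq_mul]
  have hsq : ∀ u : sphere (0 : E n) 1, ∫ x in K, ⟪(u : E n), x⟫ ^ 2 = l := by
    intro u
    have h1 := hl (u : E n)
    have h2 : ‖(u : E n)‖ = 1 := by simp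
    rw [h2] at h1
    have h3 : ∫ x in K, ⟪(u : E n), x⟫ ^ 2 = ∫ x in K, ⟪x, (u : E n)⟫ ^ 2 :=
      integral_congr_ae (Eventually.of_forall fun x => by
        show ⟪(u : E n), x⟫ ^ 2 = ⟪x, (u : E n)⟫ ^ 2
        rw [real_inner_comm])
    rw [h3, h1]
    ring
  have h2 : ∀ u : sphere (0 : E n) 1,
      ∫ x in K, ∫ y in K, ⟪(u : E n), y - x⟫ ^ 2 = 2 * volume.real K * l := by
    intro u
    have e1 : ∫ y in K, ⟪(u : E n), y⟫ = 0 :=
      c4_odd hK.sym _ (fun x => by rw [inner_neg_right]) hc.measurableSet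
    have e2 : ∀ x : E n, ∫ y in K, ⟪(u : E n), y - x⟫ ^ 2 =
        l + volume.real K * ⟪(u : E n), x⟫ ^ 2 := by
      intro x
      have e3 : ∀ y : E n, ⟪(u : E n), y - x⟫ ^ 2 = ⟪(u : E n), y⟫ ^ 2 -
          2 * ⟪(u : E n), x⟫ * ⟪(u : E n), y⟫ + ⟪(u : E n), x⟫ ^ 2 := by
        intro y
        rw [inner_sub_right]
        ring
      simp_rw [e3]
      have j1 : Integrable (fun y : E n => ⟪(u : E n), y⟫ ^ 2) (volume.restrict K) :=
        c4_int hc (by fun_prop)
      have j2 : Integrable (fun y : E n => 2 * ⟪(u : E n), x⟫ * ⟪(u : E n), y⟫)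
          (volume.restrict K) := c4_int hc (by fun_prop)
      have j3 : Integrable (fun _ : E n => ⟪(u : E n), x⟫ ^ 2)
          (volume.restrict K) := c4_int hc (by fun_prop)
      have j12 : Integrable (fun y : E n => ⟪(u : E n), y⟫ ^ 2 -
          2 * ⟪(u : E n), x⟫ * ⟪(u : E n), y⟫) (volume.restrict K) := j1.sub j2
      rw [integral_add j12 j3, integral_sub j1 j2, integral_const_mul, e1, hsq u, hvol]
      ring
    simp_rw [e2]
    have k1 : Integrable (fun _ : E n => l) (volume.restrict K) := c4_int hc (by fun_prop)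
    have k2 : Integrable (fun x : E n => volume.real K * ⟪(u : E n), x⟫ ^ 2)
        (volume.restrict K) := c4_int hc (by fun_prop)
    rw [integral_add k1 k2, integral_const_mul, hsq u, hvol]
    ring
  have h4 : ∀ u : sphere (0 : E n) 1,
      ∫ x in K, ∫ y in K, ⟪(u : E n), y - x⟫ ^ 4 =
        2 * volume.real K * (∫ x in K, ⟪(u : E n), x⟫ ^ 4) + 6 * l ^ 2 := by
    intro u
    have e1 : ∫ y in K, ⟪(u : E n), y⟫ = 0 :=
      c4_odd hK.sym _ (fun x => by rw [inner_neg_right]) hc.measurableSet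
    have e1' : ∫ y in K, ⟪(u : E n), y⟫ ^ 3 = 0 :=
      c4_odd hK.sym _ (fun x => by rw [inner_neg_right]; ring) hc.measurableSet
    have e2 : ∀ x : E n, ∫ y in K, ⟪(u : E n), y - x⟫ ^ 4 =
        (∫ y in K, ⟪(u : E n), y⟫ ^ 4) + 6 * l * ⟪(u : E n), x⟫ ^ 2 +
          volume.real K * ⟪(u : E n), x⟫ ^ 4 := by
      intro x
      have e3 : ∀ y : E n, ⟪(u : E n), y - x⟫ ^ 4 = ((((⟪(u : E n), y⟫ ^ 4 +
          6 * ⟪(u : E n), x⟫ ^ 2 * ⟪(u : E n), y⟫ ^ 2) + ⟪(u : E n), x⟫ ^ 4) -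
          4 * ⟪(u : E n), x⟫ * ⟪(u : E n), y⟫ ^ 3) -
          4 * ⟪(u : E n), x⟫ ^ 3 * ⟪(u : E n), y⟫) := by
        intro y
        rw [inner_sub_right]
        ring
      simp_rw [e3]
      have j1 : Integrable (fun y : E n => ⟪(u : E n), y⟫ ^ 4) (volume.restrict K) :=
        c4_int hc (by fun_prop)
      have j2 : Integrable (fun y : E n => 6 * ⟪(u : E n), x⟫ ^ 2 * ⟪(u : E n), y⟫ ^ 2)
          (volume.restrict K) := c4_int hc (by fun_prop)
      have j3 : Integrable (fun _ : E n => ⟪(u : E n), x⟫ ^ 4)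
          (volume.restrict K) := c4_int hc (by fun_prop)
      have j4 : Integrable (fun y : E n => 4 * ⟪(u : E n), x⟫ * ⟪(u : E n), y⟫ ^ 3)
          (volume.restrict K) := c4_int hc (by fun_prop)
      have j5 : Integrable (fun y : E n => 4 * ⟪(u : E n), x⟫ ^ 3 * ⟪(u : E n), y⟫)
          (volume.restrict K) := c4_int hc (by fun_prop)
      have j12 : Integrable (fun y : E n => ⟪(u : E n), y⟫ ^ 4 +
          6 * ⟪(u : E n), x⟫ ^ 2 * ⟪(u : E n), y⟫ ^ 2) (volume.restrict K) := j1.add j2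
      have j123 : Integrable (fun y : E n => ⟪(u : E n), y⟫ ^ 4 +
          6 * ⟪(u : E n), x⟫ ^ 2 * ⟪(u : E n), y⟫ ^ 2 + ⟪(u : E n), x⟫ ^ 4)
          (volume.restrict K) := j12.add j3
      have j1234 : Integrable (fun y : E n => ⟪(u : E n), y⟫ ^ 4 +
          6 * ⟪(u : E n), x⟫ ^ 2 * ⟪(u : E n), y⟫ ^ 2 + ⟪(u : E n), x⟫ ^ 4 -
          4 * ⟪(u : E n), x⟫ * ⟪(u : E n), y⟫ ^ 3) (volume.restrict K) := j123.sub j4
      rw [integral_sub j1234 j5, integral_sub j123 j4,
        integral_add j12 j3, integral_add j1 j2, integral_const_mul, integral_const_mul,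
        integral_const_mul, e1, e1', hsq u, hvol]
      ring
    simp_rw [e2]
    have k1 : Integrable (fun _ : E n => ∫ y in K, ⟪(u : E n), y⟫ ^ 4)
        (volume.restrict K) := c4_int hc (by fun_prop)
    have k2 : Integrable (fun x : E n => 6 * l * ⟪(u : E n), x⟫ ^ 2)
        (volume.restrict K) := c4_int hc (by fun_prop)
    have k3 : Integrable (fun x : E n => volume.real K * ⟪(u : E n), x⟫ ^ 4)
        (volume.restrict K) := c4_int hc (by fun_prop)
    have k12 : Integrable (fun x : E n => (∫ y in K, ⟪(u : E n), y⟫ ^ 4) +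
        6 * l * ⟪(u : E n), x⟫ ^ 2) (volume.restrict K) := k1.add k2
    rw [integral_add k12 k3, integral_add k1 k2, integral_const_mul, integral_const_mul,
      hsq u, hvol]
    ring
  have hS4 : ∫ u : sphere (0 : E n) 1, (∫ x in K, ⟪(u : E n), x⟫ ^ 4) ∂(sg n) =
      c * ∫ x in K, ‖x‖ ^ 4 := by
    have hint : Integrable (Function.uncurry fun (u : sphere (0 : E n) 1) (x : E n) =>
        ⟪(u : E n), x⟫ ^ 4) ((sg n).prod (volume.restrict K)) := by
      have e : (sg n).prod (volume.restrict K) =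
          ((sg n).prod (volume : Measure (E n))).restrict (univ ×ˢ K) := by
        have e1 := Measure.prod_restrict (μ := sg n) (ν := (volume : Measure (E n))) univ K
        rw [Measure.restrict_univ] at e1
        exact e1
      rw [e]
      have hcont : Continuous (Function.uncurry fun (u : sphere (0 : E n) 1) (x : E n) =>
          ⟪(u : E n), x⟫ ^ 4) := by
        show Continuous fun p : sphere (0 : E n) 1 × E n => ⟪(p.1 : E n), p.2⟫ ^ 4
        fun_prop
      exact hcont.continuousOn.integrableOn_compact (isCompact_univ.prod hc)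
    rw [integral_integral_swap hint, ← integral_const_mul]
    refine integral_congr_ae (Eventually.of_forall fun x => ?_)
    have h1 := hsph x
    simp only [Real.rpow_natCast] at h1
    show ∫ u : sphere (0 : E n) 1, ⟪(u : E n), x⟫ ^ 4 ∂(sg n) = c * ‖x‖ ^ 4
    rw [← h1]
    refine integral_congr_ae (Eventually.of_forall fun u => ?_)
    show ⟪(u : E n), x⟫ ^ 4 = |⟪(u : E n), x⟫| ^ 4
    rw [show (4 : ℕ) = 2 * 2 from rfl, pow_mul, pow_mul, sq_abs]
  have hsgi : ∀ r : ℝ, ∫ _ : sphere (0 : E n) 1, r ∂(sg n) = (sg n).real univ * r := by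
    intro r
    rw [integral_const, smul_eq_mul]
  have hA : ∫ u : sphere (0 : E n) 1, (∫ x in K, ∫ y in K, ⟪(u : E n), y - x⟫ ^ 2) ∂(sg n) =
      (sg n).real univ * (2 * volume.real K * l) := by
    rw [integral_congr_ae (Eventually.of_forall h2), hsgi]
  have hB : ∫ u : sphere (0 : E n) 1, (∫ x in K, ∫ y in K, ⟪(u : E n), y - x⟫ ^ 4) ∂(sg n) =
      2 * volume.real K * (c * ∫ x in K, ‖x‖ ^ 4) + (sg n).real univ * (6 * l ^ 2) := by
    rw [integral_congr_ae (Eventually.of_forall h4)]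
    have hint : Integrable (fun u : sphere (0 : E n) 1 =>
        2 * volume.real K * (∫ x in K, ⟪(u : E n), x⟫ ^ 4)) (sg n) := by
      refine Integrable.const_mul ?_ _
      have e : (sg n).prod (volume.restrict K) =
          ((sg n).prod (volume : Measure (E n))).restrict (univ ×ˢ K) := by
        have e1 := Measure.prod_restrict (μ := sg n) (ν := (volume : Measure (E n))) univ K
        rw [Measure.restrict_univ] at e1
        exact e1
      have hint : Integrable (fun p : sphere (0 : E n) 1 × E n =>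
          ⟪(p.1 : E n), p.2⟫ ^ 4) ((sg n).prod (volume.restrict K)) := by
        rw [e]
        have hcont : Continuous fun p : sphere (0 : E n) 1 × E n => ⟪(p.1 : E n), p.2⟫ ^ 4 := by
          fun_prop
        exact hcont.continuousOn.integrableOn_compact (isCompact_univ.prod hc)
      exact hint.integral_prod_left
    rw [integral_add hint (integrable_const _), integral_const_mul, hS4, hsgi]
  rw [FK, hA, hB, iso_trace hK hl]
  field_simp

end RMB
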