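import Pool.Agent.RMB.C3
import Pool.Agent.RMB.C4

/-!
# RMB-C5: the inequality in isotropic position, `4 < q < 6`

`∫∫_{K×K} ‖y-x‖^q ≤ kap n q vol(K) ∫_K ‖x‖^q` for isotropic symmetric `K`.

PROOF.  `σ = sg(S)`, `V = vol K`, `b = vol B`, `ρ = ρ_K`, `e` unit vector, `C, c₄` from `pair_repr`, `FK_iso`.
The ball is isotropic with `l_B = b/(n+2)` (`ball_sq`).
(1) Ball: `G := ∫∫_{B×B} ‖y-x‖^q = C ∫_0^∞ FK n B s s^(-1-q) ds`; for `ρ > 0`, substituting `s → ρ s`: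
`G ρ^q = C ∫_0^∞ FK n B (ρ s) s^(-1-q) ds`.  `∫_B cos(s⟨u,x⟩) dx = b bf(s e)` for unit `u` (`bf_radial`),
so `FK n B s = σ b² - s² (σ/n) b² n/(n+2) + (s⁴/24)(2 c₄ b² n/(n+4) + 6σ b²/(n+2)²) - σ b² bf(s e)²`.
(2) `kap n q = G/(b · b n/(n+q))` and `∫_K ‖x‖^q = (n+q)⁻¹ ∫_S ρ^(n+q)` (`body_norm_pow`), so
`kap n q V ∫_K ‖x‖^q = (V/(n b²)) ∫_S ρ^n (G ρ^q) dsg`.
(3) Hence `kap n q V ∫_K ‖x‖^q - ∫∫_{K×K} ‖y-x‖^q = C ∫_0^∞ D(s) s^(-1-q) ds`,
`D(s) = (V/(n b²)) ∫_S ρ^n FK n B (ρ s) dsg - FK n K s` (Fubini), and `D(s) ≥ 0`: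
with `∫_S ρ^n = n V`, `∫_S ρ^(n+2) = (n+2) ∫_K |x|²`, `∫_S ρ^(n+4) = (n+4) ∫_K |x|⁴`, `n l = ∫_K |x|²`:
constants cancel (`σ V²`), the `s²` terms cancel, the `c₄` terms cancel, and what remains is
`D(s) = (σ/n²) (s⁴/4)(n+2)⁻² [∫ρ^n ∫ρ^(n+4) - (∫ρ^(n+2))²]
   - (σ/n²) ∫ρ^n ∫ρ^n bf(sρe)² + ∫_S (∫_K cos(s⟨u,x⟩))²`.
Cauchy-Schwarz: `∫_S (∫_K cos)² ≥ σ⁻¹ (∫_S ∫_K cos)² = σ n⁻² (∫ρ^n bf(sρe))²` (`body_cos`).
So `D(s) ≥ (σ/n²) ( (s⁴/4)(n+2)⁻² Var(ρ²) - Var(bf(sρe)) )`, where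
`Var f = ∫ρ^n ∫ρ^n f² - (∫ρ^n f)² = ½ ∫∫ ρ(u)^n ρ(v)^n (f(u)-f(v))²`, and
`(bf(sρ₁e) - bf(sρ₂e))² ≤ s⁴ (ρ₁²-ρ₂²)²/(4(n+2)²)` by `bf_lip`.
-/

set_option autoImplicit false

open MeasureTheory Set Metric Filter Topology
open scoped RealInnerProductSpace ENNReal

namespace RMB

/-- scaling of the Mellin integral -/
private theorem c5_scal {ψ : ℝ → ℝ} {q ρ : ℝ} (hρ : 0 < ρ) :
    (IntegrableOn (fun s : ℝ => ψ s * s ^ (-1 - q)) (Ioi 0) →
      IntegrableOn (fun s : ℝ => ψ (ρ * s) * s ^ (-1 - q)) (Ioi 0)) ∧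
    ∫ s in Ioi (0 : ℝ), ψ (ρ * s) * s ^ (-1 - q) =
      ρ ^ q * ∫ s in Ioi (0 : ℝ), ψ s * s ^ (-1 - q) := by
  have key : ∀ s ∈ Ioi (0 : ℝ), ψ (ρ * s) * s ^ (-1 - q) =
      ρ ^ (1 + q) * (fun t : ℝ => ψ t * t ^ (-1 - q)) (ρ * s) := by
    intro s hs
    have hs' : 0 < s := hs
    have h1 : (ρ * s) ^ (-1 - q) = ρ ^ (-1 - q) * s ^ (-1 - q) :=
      Real.mul_rpow hρ.le hs'.le
    have h2 : ρ ^ (1 + q) * ρ ^ (-1 - q) = 1 := by
      rw [← Real.rpow_add hρ]
      have : (1 + q) + (-1 - q) = 0 := by ring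
      rw [this, Real.rpow_zero]
    simp only [h1]
    calc ψ (ρ * s) * s ^ (-1 - q) = (ρ ^ (1 + q) * ρ ^ (-1 - q)) * (ψ (ρ * s) * s ^ (-1 - q)) := by
          rw [h2, one_mul]
      _ = _ := by ring
  constructor
  · intro h
    have h1 : IntegrableOn (fun s : ℝ => (fun t : ℝ => ψ t * t ^ (-1 - q)) (ρ * s)) (Ioi 0) := by
      have h0 := (integrableOn_Ioi_comp_mul_left_iff (fun t : ℝ => ψ t * t ^ (-1 - q)) 0 hρ)
      rw [mul_zero] at h0
      exact h0.2 h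
    have h2 : IntegrableOn (fun s : ℝ => ρ ^ (1 + q) *
        (fun t : ℝ => ψ t * t ^ (-1 - q)) (ρ * s)) (Ioi 0) := h1.const_mul (ρ ^ (1 + q))
    refine h2.congr_fun (fun s hs => ?_) measurableSet_Ioi
    exact (key s hs).symm
  · rw [setIntegral_congr_fun measurableSet_Ioi key, integral_const_mul,
      integral_comp_mul_left_Ioi (fun t : ℝ => ψ t * t ^ (-1 - q)) 0 hρ, mul_zero, smul_eq_mul,
      ← mul_assoc]
    congr 1
    rw [show (1 + q) = q + 1 by ring, Real.rpow_add_one hρ.ne', mul_assoc, mul_inv_cancel₀ hρ.ne',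
      mul_one]

/-- Fubini for the Mellin integral -/
private theorem c5_swap {α : Type*} [MeasurableSpace α] {μ : Measure α} [IsFiniteMeasure μ]
    {ρ : α → ℝ} (hρm : Measurable ρ) (hρ0 : ∀ u, 0 < ρ u) {R : ℝ} (hρR : ∀ u, ρ u ≤ R)
    {ψ : ℝ → ℝ} (hψ : Measurable ψ) {q : ℝ} (hq : 0 < q) (n : ℕ)
    (hi : IntegrableOn (fun s : ℝ => ψ s * s ^ (-1 - q)) (Ioi 0)) :
    IntegrableOn (fun s : ℝ => (∫ u, ρ u ^ n * ψ (ρ u * s) ∂μ) * s ^ (-1 - q)) (Ioi 0) ∧
    ∫ s in Ioi (0 : ℝ), (∫ u, ρ u ^ n * ψ (ρ u * s) ∂μ) * s ^ (-1 - q) =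
      (∫ u, ρ u ^ ((n : ℝ) + q) ∂μ) * ∫ s in Ioi (0 : ℝ), ψ s * s ^ (-1 - q) := by
  have hpow : ∀ u, ρ u ^ n * ρ u ^ q = ρ u ^ ((n : ℝ) + q) := by
    intro u
    rw [Real.rpow_add (hρ0 u), Real.rpow_natCast]
  have hnn : 0 ≤ (n : ℝ) + q := by positivity
  -- integrability on the product
  have hF : Integrable (Function.uncurry fun (u : α) (s : ℝ) =>
      ρ u ^ n * (ψ (ρ u * s) * s ^ (-1 - q))) (μ.prod (volume.restrict (Ioi 0))) := by
    have hmeas : Measurable (Function.uncurry fun (u : α) (s : ℝ) =>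
        ρ u ^ n * (ψ (ρ u * s) * s ^ (-1 - q))) := by
      refine ((hρm.comp measurable_fst).pow_const n).mul ?_
      refine (hψ.comp ((hρm.comp measurable_fst).mul measurable_snd)).mul ?_
      exact measurable_snd.pow_const (-1 - q)
    rw [integrable_prod_iff hmeas.aestronglyMeasurable]
    constructor
    · refine Filter.Eventually.of_forall fun u => ?_
      exact ((c5_scal (hρ0 u)).1 hi).const_mul (ρ u ^ n)
    · have habs : ∀ u, ∫ s in Ioi (0 : ℝ), ‖ρ u ^ n * (ψ (ρ u * s) * s ^ (-1 - q))‖ =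
          ρ u ^ ((n : ℝ) + q) * ∫ s in Ioi (0 : ℝ), |ψ s| * s ^ (-1 - q) := by
        intro u
        have h1 : ∀ s ∈ Ioi (0 : ℝ), ‖ρ u ^ n * (ψ (ρ u * s) * s ^ (-1 - q))‖ =
            ρ u ^ n * ((fun t => |ψ t|) (ρ u * s) * s ^ (-1 - q)) := by
          intro s hs
          have hs' : 0 < s := hs
          rw [norm_mul, norm_mul, Real.norm_of_nonneg (pow_nonneg (hρ0 u).le n),
            Real.norm_of_nonneg (Real.rpow_nonneg hs'.le _), Real.norm_eq_abs]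
        rw [setIntegral_congr_fun measurableSet_Ioi h1, integral_const_mul,
          (c5_scal (ψ := fun t => |ψ t|) (hρ0 u)).2, ← mul_assoc, hpow]
      have h2 : (fun u => ∫ s in Ioi (0 : ℝ),
          ‖(Function.uncurry fun (u : α) (s : ℝ) =>
            ρ u ^ n * (ψ (ρ u * s) * s ^ (-1 - q))) (u, s)‖) =
          fun u => ρ u ^ ((n : ℝ) + q) * ∫ s in Ioi (0 : ℝ), |ψ s| * s ^ (-1 - q) := by
        funext u
        exact habs u
      rw [h2]
      refine Integrable.mul_const ?_ _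
      refine Integrable.of_bound (hρm.pow_const _).aestronglyMeasurable (R ^ ((n : ℝ) + q))
        (Filter.Eventually.of_forall fun u => ?_)
      rw [Real.norm_of_nonneg (Real.rpow_nonneg (hρ0 u).le _)]
      exact Real.rpow_le_rpow (hρ0 u).le (hρR u) hnn
  have hpull : ∀ s : ℝ, (∫ u, ρ u ^ n * ψ (ρ u * s) ∂μ) * s ^ (-1 - q) =
      ∫ u, ρ u ^ n * (ψ (ρ u * s) * s ^ (-1 - q)) ∂μ := by
    intro s
    rw [← integral_mul_const]
    refine integral_congr_ae (Filter.Eventually.of_forall fun u => ?_)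
    simp only [mul_assoc]
  simp only [hpull]
  constructor
  · exact hF.integral_prod_right
  · rw [integral_integral_swap (f := fun (s : ℝ) (u : α) => ρ u ^ n * (ψ (ρ u * s) * s ^ (-1 - q)))
      hF.swap]
    rw [← integral_mul_const]
    refine integral_congr_ae (Filter.Eventually.of_forall fun u => ?_)
    simp only
    rw [integral_const_mul, (c5_scal (hρ0 u)).2, ← mul_assoc, hpow]

/-- linear combination of five integrals -/
private theorem c5_add5 {α : Type*} [MeasurableSpace α] {μ : Measure α} (a b c d e : ℝ)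
    {f₁ f₂ f₃ f₄ f₅ : α → ℝ} (i1 : Integrable f₁ μ) (i2 : Integrable f₂ μ) (i3 : Integrable f₃ μ)
    (i4 : Integrable f₄ μ) (i5 : Integrable f₅ μ) :
    ∫ u, ((a * f₁ u + b * f₂ u + c * f₃ u) + (d * f₄ u + e * f₅ u)) ∂μ =
      (a * (∫ u, f₁ u ∂μ) + b * (∫ u, f₂ u ∂μ) + c * ∫ u, f₃ u ∂μ) +
        (d * (∫ u, f₄ u ∂μ) + e * ∫ u, f₅ u ∂μ) := by
  have j1 := i1.const_mul a
  have j2 := i2.const_mul b
  have j3 := i3.const_mul c
  have j4 := i4.const_mul d
  have j5 := i5.const_mul e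
  have j12 : Integrable (fun u => a * f₁ u + b * f₂ u) μ := j1.add j2
  have j123 : Integrable (fun u => a * f₁ u + b * f₂ u + c * f₃ u) μ := j12.add j3
  have j45 : Integrable (fun u => d * f₄ u + e * f₅ u) μ := j4.add j5
  rw [integral_add j123 j45, integral_add j12 j3, integral_add j1 j2, integral_add j4 j5,
    integral_const_mul, integral_const_mul, integral_const_mul, integral_const_mul,
    integral_const_mul]

/-- variance comparison -/
private theorem c5_var {α : Type*} [MeasurableSpace α] {μ : Measure α} [IsFiniteMeasure μ]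
    {w f g : α → ℝ} (hw : ∀ u, 0 ≤ w u) (iw : Integrable w μ)
    (iwf : Integrable (fun u => w u * f u) μ) (iwff : Integrable (fun u => w u * f u ^ 2) μ)
    (iwg : Integrable (fun u => w u * g u) μ) (iwgg : Integrable (fun u => w u * g u ^ 2) μ)
    {κ : ℝ} (h : ∀ u v, |g u - g v| ≤ κ * |f u - f v|) :
    (∫ u, w u ∂μ) * (∫ u, w u * g u ^ 2 ∂μ) - (∫ u, w u * g u ∂μ) ^ 2 ≤
      κ ^ 2 * ((∫ u, w u ∂μ) * (∫ u, w u * f u ^ 2 ∂μ) - (∫ u, w u * f u ∂μ) ^ 2) := by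
  set I0 := ∫ u, w u ∂μ with hI0
  set F1 := ∫ u, w u * f u ∂μ with hF1
  set F2 := ∫ u, w u * f u ^ 2 ∂μ with hF2
  set G1 := ∫ u, w u * g u ∂μ with hG1
  set G2 := ∫ u, w u * g u ^ 2 ∂μ with hG2
  have hsq : ∀ u v, (g u - g v) ^ 2 ≤ κ ^ 2 * (f u - f v) ^ 2 := by
    intro u v
    have h1 := h u v
    have h2 : |g u - g v| ^ 2 ≤ (κ * |f u - f v|) ^ 2 := pow_le_pow_left₀ (abs_nonneg _) h1 2
    rwa [mul_pow, sq_abs, sq_abs] at h2
  have inner : ∀ u, 0 ≤ κ ^ 2 * (f u ^ 2 * I0 - 2 * f u * F1 + F2) -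
      (g u ^ 2 * I0 - 2 * g u * G1 + G2) := by
    intro u
    have h1 : ∫ v, w v * (κ ^ 2 * (f u - f v) ^ 2 - (g u - g v) ^ 2) ∂μ =
        κ ^ 2 * (f u ^ 2 * I0 - 2 * f u * F1 + F2) - (g u ^ 2 * I0 - 2 * g u * G1 + G2) := by
      have e1 : ∀ v, w v * (κ ^ 2 * (f u - f v) ^ 2 - (g u - g v) ^ 2) =
          ((κ ^ 2 * f u ^ 2 - g u ^ 2) * w v + (-(κ ^ 2 * (2 * f u))) * (w v * f v)
            + κ ^ 2 * (w v * f v ^ 2)) + ((2 * g u) * (w v * g v) + (-1) * (w v * g v ^ 2)) := by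
        intro v; ring
      simp only [e1]
      rw [c5_add5 _ _ _ _ _ iw iwf iwff iwg iwgg]
      rw [← hI0, ← hF1, ← hF2, ← hG1, ← hG2]
      ring
    rw [← h1]
    refine integral_nonneg fun v => ?_
    have := hsq u v
    exact mul_nonneg (hw v) (by linarith)
  have outer : 0 ≤ ∫ u, w u * (κ ^ 2 * (f u ^ 2 * I0 - 2 * f u * F1 + F2) -
      (g u ^ 2 * I0 - 2 * g u * G1 + G2)) ∂μ :=
    integral_nonneg fun u => mul_nonneg (hw u) (inner u)
  have h2 : ∫ u, w u * (κ ^ 2 * (f u ^ 2 * I0 - 2 * f u * F1 + F2) -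
      (g u ^ 2 * I0 - 2 * g u * G1 + G2)) ∂μ =
      2 * (κ ^ 2 * (I0 * F2 - F1 ^ 2) - (I0 * G2 - G1 ^ 2)) := by
    have e1 : ∀ v, w v * (κ ^ 2 * (f v ^ 2 * I0 - 2 * f v * F1 + F2) -
        (g v ^ 2 * I0 - 2 * g v * G1 + G2)) =
        ((κ ^ 2 * F2 - G2) * w v + (-(κ ^ 2 * (2 * F1))) * (w v * f v)
          + (κ ^ 2 * I0) * (w v * f v ^ 2)) +
          ((2 * G1) * (w v * g v) + (-I0) * (w v * g v ^ 2)) := by
      intro v; ring
    simp only [e1]
    rw [c5_add5 _ _ _ _ _ iw iwf iwff iwg iwgg]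
    rw [← hI0, ← hF1, ← hF2, ← hG1, ← hG2]
    ring
  rw [h2] at outer
  linarith

/-- Cauchy-Schwarz on a finite measure space -/
private theorem c5_cs {α : Type*} [MeasurableSpace α] {μ : Measure α} [IsFiniteMeasure μ]
    (hμ : 0 < μ.real univ) {h : α → ℝ} (i1 : Integrable h μ) (i2 : Integrable (fun u => h u ^ 2) μ) :
    (∫ u, h u ∂μ) ^ 2 ≤ μ.real univ * ∫ u, h u ^ 2 ∂μ := by
  set m := (∫ u, h u ∂μ) / μ.real univ with hm
  have h0 : 0 ≤ ∫ u, (h u - m) ^ 2 ∂μ := integral_nonneg fun u => sq_nonneg _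
  have e : ∀ u, (h u - m) ^ 2 = (h u ^ 2 + (-(2 * m)) * h u) + m ^ 2 := by intro u; ring
  have h1 : ∫ u, (h u - m) ^ 2 ∂μ = (∫ u, h u ^ 2 ∂μ) + (-(2 * m)) * (∫ u, h u ∂μ) +
      m ^ 2 * μ.real univ := by
    simp only [e]
    have j1 : Integrable (fun u => (-(2 * m)) * h u) μ := i1.const_mul _
    have j2 : Integrable (fun u => h u ^ 2 + (-(2 * m)) * h u) μ := i2.add j1
    rw [integral_add j2 (integrable_const _), integral_add i2 j1, integral_const_mul,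
      integral_const, smul_eq_mul]
    ring
  rw [h1] at h0
  have h2 : (∫ u, h u ∂μ) = m * μ.real univ := by
    rw [hm]; field_simp
  rw [h2] at h0 ⊢
  nlinarith [mul_nonneg hμ.le h0]

variable {n : ℕ}

/-- bounds for the radial function -/
private theorem c5_radial {K : Set (E n)} (hK : SymBody K) :
    (∀ u : sphere (0 : E n) 1, 0 < radial K (u : E n)) ∧
    ∃ R : ℝ, 0 < R ∧ ∀ u : sphere (0 : E n) 1, radial K (u : E n) ≤ R := by
  have hne : ∀ u : sphere (0 : E n) 1, (u : E n) ≠ 0 := by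
    intro u h
    have := mem_sphere_zero_iff_norm.1 u.2
    rw [h, norm_zero] at this
    exact zero_ne_one this
  constructor
  · intro u
    rw [hK.radial_eq (hne u)]
    exact inv_pos.2 (hK.gauge_pos (hne u))
  · obtain ⟨R, hR, hKR⟩ := hK.toIsBody.exists_bound
    refine ⟨R, hR, fun u => ?_⟩
    have h1 := radial_Icc hK.compact hK.convex hK.zero_mem (hne u)
    have h2 : radial K (u : E n) ∈ {r : ℝ | 0 ≤ r ∧ r • (u : E n) ∈ K} := by
      rw [h1]; exact ⟨radial_nonneg _ _, le_refl _⟩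
    have h3 := hKR h2.2
    rw [mem_closedBall_zero_iff, norm_smul, mem_sphere_zero_iff_norm.1 u.2, mul_one,
      Real.norm_of_nonneg (radial_nonneg _ _)] at h3
    exact h3

/-- explicit form of `FK` for the unit ball -/
private theorem c5_ball (hn : 1 ≤ n) {e : E n} (he : ‖e‖ = 1) {c₄ : ℝ}
    (h4 : ∀ (K : Set (E n)), SymBody K → ∀ l : ℝ, Iso K l → ∀ s : ℝ,
    FK n K s = (sg n).real univ * volume.real K ^ 2
      - s ^ 2 * ((sg n).real univ / n) * (volume.real K * ∫ x in K, ‖x‖ ^ 2)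
      + s ^ 4 / 24 * (2 * c₄ * (volume.real K * ∫ x in K, ‖x‖ ^ 4) + 6 * (sg n).real univ * l ^ 2)
      - ∫ u : sphere (0 : E n) 1, (∫ x in K, Real.cos (s * ⟪(u : E n), x⟫)) ^ 2 ∂(sg n)) (s : ℝ) :
    FK n (closedBall (0 : E n) 1) s = volume.real (closedBall (0 : E n) 1) ^ 2 *
      ((sg n).real univ - s ^ 2 * ((sg n).real univ / (n + 2))
        + s ^ 4 / 24 * (2 * c₄ * (n / (n + 4)) + 6 * (sg n).real univ / (n + 2) ^ 2)
        - (sg n).real univ * bf n (s • e) ^ 2) := by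
  set B := closedBall (0 : E n) 1 with hB
  set b := volume.real B with hb
  set σ := (sg n).real univ with hσ
  have hn0 : (0 : ℝ) < n := by exact_mod_cast hn
  have hBs : SymBody B := closedBall_sym one_pos
  have hb0 : 0 < b := hBs.toIsBody.volume_pos
  have hiso : Iso B (b / (n + 2)) := fun v => ball_sq hn v
  have h2 : ∫ x in B, ‖x‖ ^ 2 = b * (n / (n + 2)) := by
    have := ball_norm_pow (n := n) hn (q := 2) (by norm_num)
    simpa using this
  have h4' : ∫ x in B, ‖x‖ ^ 4 = b * (n / (n + 4)) := by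
    have := ball_norm_pow (n := n) hn (q := 4) (by norm_num)
    have e4 : ∀ x : E n, ‖x‖ ^ (4 : ℝ) = ‖x‖ ^ 4 := fun x => by
      rw [← Real.rpow_natCast]; norm_num
    simpa only [e4] using this
  have hc : ∀ u : sphere (0 : E n) 1, (∫ x in B, Real.cos (s * ⟪(u : E n), x⟫)) =
      b * bf n (s • e) := by
    intro u
    have hr : bf n (s • e) = bf n (s • (u : E n)) := by
      apply bf_radial
      rw [norm_smul, norm_smul, he, mem_sphere_zero_iff_norm.1 u.2]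
    rw [hr]
    unfold bf
    rw [← hB, ← hb, ← mul_assoc, mul_inv_cancel₀ hb0.ne', one_mul]
    refine integral_congr_ae (Filter.Eventually.of_forall fun x => ?_)
    simp only
    rw [inner_smul_right, real_inner_comm]
  rw [h4 B hBs _ hiso s, h2, h4']
  simp only [hc]
  rw [integral_const, smul_eq_mul, ← hσ, ← hb]
  field_simp

/-- The pointwise inequality. -/
private theorem c5_point (hn : 1 ≤ n) {e : E n} (he : ‖e‖ = 1) {c₄ : ℝ}
    (h4 : ∀ (K : Set (E n)), SymBody K → ∀ l : ℝ, Iso K l → ∀ s : ℝ,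
    FK n K s = (sg n).real univ * volume.real K ^ 2
      - s ^ 2 * ((sg n).real univ / n) * (volume.real K * ∫ x in K, ‖x‖ ^ 2)
      + s ^ 4 / 24 * (2 * c₄ * (volume.real K * ∫ x in K, ‖x‖ ^ 4) + 6 * (sg n).real univ * l ^ 2)
      - ∫ u : sphere (0 : E n) 1, (∫ x in K, Real.cos (s * ⟪(u : E n), x⟫)) ^ 2 ∂(sg n))
    {K : Set (E n)} (hK : SymBody K) {l : ℝ} (hl : Iso K l) (s : ℝ) :
    FK n K s ≤ volume.real K / (n * volume.real (closedBall (0 : E n) 1) ^ 2) *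
      ∫ u : sphere (0 : E n) 1, radial K (u : E n) ^ n *
        FK n (closedBall (0 : E n) 1) (radial K (u : E n) * s) ∂(sg n) := by
  have hn0 : (0 : ℝ) < n := by exact_mod_cast hn
  set B := closedBall (0 : E n) 1 with hB
  set b := volume.real B with hb
  set σ := (sg n).real univ with hσ
  have hσ0 : 0 < σ := (sg_univ hn).2
  have hBs : SymBody B := closedBall_sym one_pos
  have hb0 : 0 < b := hBs.toIsBody.volume_pos
  obtain ⟨hρ0, R, hR0, hρR⟩ := c5_radial hK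
  have hρm := measurable_radial hK.compact hK.convex hK.zero_mem
  set ρ : sphere (0 : E n) 1 → ℝ := fun u => radial K (u : E n) with hρ
  set V := volume.real K with hV
  -- bounded measurable functions are integrable
  have ib : ∀ {f : sphere (0 : E n) 1 → ℝ} (C : ℝ), Measurable f → (∀ u, |f u| ≤ C) →
      Integrable f (sg n) := by
    intro f C hf hC
    exact Integrable.of_bound hf.aestronglyMeasurable C (Filter.Eventually.of_forall hC)
  have hpw : ∀ k : ℕ, Integrable (fun u => ρ u ^ k) (sg n) := by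
    intro k
    refine ib (R ^ k) (hρm.pow_const k) fun u => ?_
    rw [abs_of_nonneg (pow_nonneg (hρ0 u).le k)]
    exact pow_le_pow_left₀ (hρ0 u).le (hρR u) k
  -- g
  set g : sphere (0 : E n) 1 → ℝ := fun u => bf n ((s * ρ u) • e) with hg
  have hgm : Measurable g := by
    refine bf_cont.measurable.comp ?_
    exact (measurable_const.mul hρm).smul_const e
  have hbf1 : ∀ z : E n, |bf n z| ≤ 1 := by
    intro z
    unfold bf
    rw [abs_mul, abs_of_nonneg (inv_nonneg.2 measureReal_nonneg)]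
    have h1 : |∫ x in B, Real.cos ⟪x, z⟫| ≤ 1 * volume.real B := by
      rw [← Real.norm_eq_abs]
      refine norm_setIntegral_le_of_norm_le_const hBs.compact.measure_lt_top fun x _ => ?_
      rw [Real.norm_eq_abs]
      exact Real.abs_cos_le_one _
    rw [one_mul] at h1
    calc b⁻¹ * |∫ x in B, Real.cos ⟪x, z⟫| ≤ b⁻¹ * b := by
          exact mul_le_mul_of_nonneg_left h1 (inv_nonneg.2 hb0.le)
      _ = 1 := inv_mul_cancel₀ hb0.ne'
  have iwg : Integrable (fun u => ρ u ^ n * g u) (sg n) := by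
    refine ib (R ^ n * 1) ((hρm.pow_const n).mul hgm) fun u => ?_
    rw [abs_mul, abs_of_nonneg (pow_nonneg (hρ0 u).le n)]
    exact mul_le_mul (pow_le_pow_left₀ (hρ0 u).le (hρR u) n) (hbf1 _) (abs_nonneg _)
      (pow_nonneg hR0.le n)
  have iwgg : Integrable (fun u => ρ u ^ n * g u ^ 2) (sg n) := by
    refine ib (R ^ n * 1) ((hρm.pow_const n).mul (hgm.pow_const 2)) fun u => ?_
    rw [abs_mul, abs_of_nonneg (pow_nonneg (hρ0 u).le n)]
    refine mul_le_mul (pow_le_pow_left₀ (hρ0 u).le (hρR u) n) ?_ (abs_nonneg _)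
      (pow_nonneg hR0.le n)
    rw [abs_pow]
    exact pow_le_one₀ (abs_nonneg _) (hbf1 _)
  set I0 := ∫ u, ρ u ^ n ∂(sg n) with hI0
  set I2 := ∫ u, ρ u ^ (n + 2) ∂(sg n) with hI2
  set I4 := ∫ u, ρ u ^ (n + 4) ∂(sg n) with hI4
  set J1 := ∫ u, ρ u ^ n * g u ∂(sg n) with hJ1
  set J2 := ∫ u, ρ u ^ n * g u ^ 2 ∂(sg n) with hJ2
  have epow : ∀ (k : ℕ) (u : sphere (0 : E n) 1),
      radial K (u : E n) ^ ((n : ℝ) + (k : ℝ)) = ρ u ^ (n + k) := by
    intro k u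
    rw [← Nat.cast_add, Real.rpow_natCast]
  have hV0 : I0 = n * V := by
    have h := body_norm_pow hn hK (q := ((0 : ℕ) : ℝ)) (by norm_num)
    simp only [epow] at h
    simp only [Nat.cast_zero, Real.rpow_zero, add_zero] at h
    rw [integral_const, smul_eq_mul, mul_one, measureReal_restrict_apply_univ] at h
    rw [← hV, ← hI0] at h
    rw [h]
    field_simp
  have hM2 : ∫ x in K, ‖x‖ ^ 2 = I2 / (n + 2) := by
    have h := body_norm_pow hn hK (q := ((2 : ℕ) : ℝ)) (by norm_num)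
    simp only [epow] at h
    simp only [Real.rpow_natCast] at h
    rw [h, hI2]
    push_cast
    ring
  have hM4 : ∫ x in K, ‖x‖ ^ 4 = I4 / (n + 4) := by
    have h := body_norm_pow hn hK (q := ((4 : ℕ) : ℝ)) (by norm_num)
    simp only [epow] at h
    simp only [Real.rpow_natCast] at h
    rw [h, hI4]
    push_cast
    ring
  have hl' : l = I2 / (n * (n + 2)) := by
    have h := iso_trace hK hl
    rw [hM2] at h
    field_simp at h ⊢
    linarith
  -- right-hand side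
  have hrhs : ∫ u, ρ u ^ n * FK n B (ρ u * s) ∂(sg n) =
      b ^ 2 * (σ * I0 - s ^ 2 * (σ / (n + 2)) * I2
        + s ^ 4 / 24 * (2 * c₄ * (n / (n + 4)) + 6 * σ / (n + 2) ^ 2) * I4 - σ * J2) := by
    have e1 : ∀ u, ρ u ^ n * FK n B (ρ u * s) =
        (((b ^ 2 * σ) * ρ u ^ n + (-(b ^ 2 * s ^ 2 * (σ / (n + 2)))) * ρ u ^ (n + 2))
        + (b ^ 2 * (s ^ 4 / 24 * (2 * c₄ * (n / (n + 4)) + 6 * σ / (n + 2) ^ 2))) * ρ u ^ (n + 4))
        + ((-(b ^ 2 * σ)) * (ρ u ^ n * g u ^ 2) + 0 * (ρ u ^ n * g u ^ 2)) := by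
      intro u
      rw [c5_ball hn he h4 (ρ u * s), hg]
      simp only
      rw [mul_comm s (ρ u), pow_add, pow_add]
      ring
    simp only [e1]
    rw [c5_add5 _ _ _ _ _ (hpw n) (hpw (n + 2)) (hpw (n + 4)) iwgg iwgg]
    rw [← hI0, ← hI2, ← hI4, ← hJ2]
    ring
  -- variance
  have hvar : I0 * J2 - J1 ^ 2 ≤ (s ^ 2 / (2 * (n + 2))) ^ 2 * (I0 * I4 - I2 ^ 2) := by
    have e1 : ∀ u, ρ u ^ n * (ρ u ^ 2) = ρ u ^ (n + 2) := fun u => by rw [pow_add]
    have e2 : ∀ u, ρ u ^ n * (ρ u ^ 2) ^ 2 = ρ u ^ (n + 4) := fun u => by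
      rw [pow_add, ← pow_mul]
    have h := c5_var (μ := sg n) (w := fun u => ρ u ^ n) (f := fun u => ρ u ^ 2) (g := g)
      (fun u => pow_nonneg (hρ0 u).le n) (hpw n)
      (by simpa only [e1] using hpw (n + 2)) (by simpa only [e2] using hpw (n + 4)) iwg iwgg
      (κ := s ^ 2 / (2 * (n + 2))) (fun u v => by
        have h1 := bf_lip hn he (s * ρ u) (s * ρ v)
        refine h1.trans (le_of_eq ?_)
        rw [mul_pow, mul_pow, ← mul_sub, abs_mul, abs_of_nonneg (sq_nonneg s)]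
        field_simp)
    simp only [e1, e2] at h
    exact h
  -- Cauchy-Schwarz
  set h : sphere (0 : E n) 1 → ℝ := fun u => ∫ x in K, Real.cos (s * ⟪(u : E n), x⟫) with hh
  have hhm : Measurable h := by
    have hcont : Continuous (Function.uncurry fun (u : sphere (0 : E n) 1) (x : E n) =>
        Real.cos (s * ⟪(u : E n), x⟫)) := by
      refine Real.continuous_cos.comp (continuous_const.mul ?_)
      exact (continuous_subtype_val.comp continuous_fst).inner continuous_snd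
    have := hcont.stronglyMeasurable.integral_prod_right (ν := volume.restrict K)
    exact this.measurable
  have hhb : ∀ u, |h u| ≤ V := by
    intro u
    have h1 : ‖∫ x in K, Real.cos (s * ⟪(u : E n), x⟫)‖ ≤ 1 * volume.real K := by
      refine norm_setIntegral_le_of_norm_le_const hK.compact.measure_lt_top fun x _ => ?_
      rw [Real.norm_eq_abs]
      exact Real.abs_cos_le_one _
    rwa [one_mul, Real.norm_eq_abs] at h1
  have hcs := c5_cs (μ := sg n) hσ0 (h := h) (ib V hhm hhb)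
    (ib (V ^ 2) (hhm.pow_const 2) fun u => by
      rw [abs_pow]; exact pow_le_pow_left₀ (abs_nonneg _) (hhb u) 2)
  have hbc : ∫ u, h u ∂(sg n) = σ * ((1 / (n : ℝ)) * J1) := body_cos hn hK he s
  rw [hbc] at hcs
  set Q := ∫ u, h u ^ 2 ∂(sg n) with hQ
  -- FK n K
  have hFK : FK n K s = σ * V ^ 2 - s ^ 2 * (σ / n) * (V * (I2 / (n + 2)))
      + s ^ 4 / 24 * (2 * c₄ * (V * (I4 / (n + 4))) + 6 * σ * (I2 / (n * (n + 2))) ^ 2) - Q := by
    rw [h4 K hK l hl s, hM2, hM4, hl']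
  have hQ' : σ * J1 ^ 2 / n ^ 2 ≤ Q := by
    rw [div_le_iff₀ (by positivity)]
    have h1 : σ * (σ * J1 ^ 2) ≤ σ * (Q * n ^ 2) := by
      have : (σ * (1 / (n : ℝ) * J1)) ^ 2 * n ^ 2 ≤ σ * Q * n ^ 2 :=
        mul_le_mul_of_nonneg_right hcs (by positivity)
      have e3 : (σ * (1 / (n : ℝ) * J1)) ^ 2 * n ^ 2 = σ * (σ * J1 ^ 2) := by
        field_simp
      rw [e3] at this
      linarith
    exact le_of_mul_le_mul_left h1 hσ0
  have hgoal : V / (n * b ^ 2) * ∫ u, ρ u ^ n * FK n B (ρ u * s) ∂(sg n) - FK n K s =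
      (σ / n ^ 2) * ((s ^ 2 / (2 * (n + 2))) ^ 2 * (I0 * I4 - I2 ^ 2) - (I0 * J2 - J1 ^ 2))
        + (Q - σ * J1 ^ 2 / n ^ 2) := by
    rw [hrhs, hFK, hV0]
    field_simp
    ring
  have hfin : 0 ≤ V / (n * b ^ 2) * ∫ u, ρ u ^ n * FK n B (ρ u * s) ∂(sg n) - FK n K s := by
    rw [hgoal]
    have h1 : 0 ≤ (σ / n ^ 2) *
        ((s ^ 2 / (2 * (n + 2))) ^ 2 * (I0 * I4 - I2 ^ 2) - (I0 * J2 - J1 ^ 2)) :=
      mul_nonneg (by positivity) (by linarith)
    linarith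
  exact sub_nonneg.1 hfin

theorem iso_ineq_open {n : ℕ} (hn : 1 ≤ n) {K : Set (E n)} (hK : SymBody K) {l : ℝ}
    (hl : Iso K l) {q : ℝ} (h4 : 4 < q) (h6 : q < 6) :
    ∫ x in K, ∫ y in K, ‖y - x‖ ^ q ≤ kap n q * (volume.real K * ∫ x in K, ‖x‖ ^ q) := by
  obtain ⟨C, hC0, hC⟩ := pair_repr hn h4 h6
  obtain ⟨c₄, hc₄⟩ := FK_iso hn
  have hn0 : (0 : ℝ) < n := by exact_mod_cast hn
  have hq0 : 0 < q := by linarith
  set e : E n := EuclideanSpace.single (⟨0, hn⟩ : Fin n) (1 : ℝ) with he'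
  have he : ‖e‖ = 1 := by rw [he', PiLp.norm_single, norm_one]
  set B := closedBall (0 : E n) 1 with hB
  set b := volume.real B with hb
  have hBs : SymBody B := closedBall_sym one_pos
  have hb0 : 0 < b := hBs.toIsBody.volume_pos
  have hV0 : 0 < volume.real K := hK.toIsBody.volume_pos
  obtain ⟨hρ0, R, hR0, hρR⟩ := c5_radial hK
  have hρm := measurable_radial hK.compact hK.convex hK.zero_mem
  -- `FK n B` is continuous
  have hψ : Measurable (FK n B) := by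
    have h1 : FK n B = fun s => b ^ 2 *
      ((sg n).real univ - s ^ 2 * ((sg n).real univ / (n + 2))
        + s ^ 4 / 24 * (2 * c₄ * (n / (n + 4)) + 6 * (sg n).real univ / (n + 2) ^ 2)
        - (sg n).real univ * bf n (s • e) ^ 2) := by
      funext s
      exact c5_ball hn he hc₄ s
    rw [h1]
    have h2 : Continuous fun s : ℝ => bf n (s • e) := bf_cont.comp (by fun_prop)
    have h3 : Continuous fun s : ℝ => b ^ 2 *
      ((sg n).real univ - s ^ 2 * ((sg n).real univ / (n + 2))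
        + s ^ 4 / 24 * (2 * c₄ * (n / (n + 4)) + 6 * (sg n).real univ / (n + 2) ^ 2)
        - (sg n).real univ * bf n (s • e) ^ 2) := by
      fun_prop
    exact h3.measurable
  obtain ⟨hBi, hBe⟩ := hC B hBs
  obtain ⟨hKi, hKe⟩ := hC K hK
  obtain ⟨hsi, hse⟩ := c5_swap (μ := sg n) hρm hρ0 hρR hψ hq0 n hBi
  -- rewrite the right-hand side
  have hR : kap n q * (volume.real K * ∫ x in K, ‖x‖ ^ q) =
      C * ∫ s in Ioi (0 : ℝ), (volume.real K / (n * b ^ 2)) *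
        ((∫ u : sphere (0 : E n) 1, radial K (u : E n) ^ n *
          FK n B (radial K (u : E n) * s) ∂(sg n)) * s ^ (-1 - q)) := by
    rw [integral_const_mul, hse, body_norm_pow hn hK hq0.le]
    unfold kap
    rw [← hB, ← hb, hBe, ball_norm_pow hn hq0.le, ← hB, ← hb]
    field_simp
  rw [hR, hKe]
  refine mul_le_mul_of_nonneg_left ?_ hC0.le
  refine setIntegral_mono_on hKi (hsi.const_mul _) measurableSet_Ioi fun s hs => ?_
  have hs' : 0 < s := hs
  rw [← mul_assoc]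
  exact mul_le_mul_of_nonneg_right (c5_point hn he hc₄ hK hl s) (Real.rpow_nonneg hs'.le _)

end RMB
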