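import Pool.Agent.RMB.C2
import Pool.Agent.RMB.C4

/-!
# RMB-C6: the inequality in isotropic position for `q = 4` and `q = 6` (real exponents `(4:ℝ)`, `(6:ℝ)`)

PROOF.  `V = vol K`, `m_k = ∫_K |x|^k`.  `|y-x|² = |x|²+|y|²-2⟨x,y⟩`, odd powers of `⟨x,y⟩` integrate
to 0 over `K × K` (`x → -x`), `∫_K ⟨x,y⟩² dx = l |y|²`, `n l = m_2` (`iso_trace`):
`∫∫ |y-x|⁴ = 2 V m_4 + 2 m_2² + 4 l m_2 = 2 V m_4 + (2 + 4/n) m_2²`,
`∫∫ |y-x|⁶ = 2 V m_6 + 6 m_4 m_2 + 12 · 2 l m_4 = 2 V m_6 + (6 + 24/n) m_2 m_4`.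
The same formulas hold for the ball (isotropic by `ball_sq`), where `m_k = b n/(n+k)` (`ball_norm_pow`),
and they compute `kap n 4`, `kap n 6`:
`kap n 4 = 2 + (2+4/n) m_2(B)²/(b m_4(B))`, `m_2(B)²/(b m_4(B)) = n(n+4)/(n+2)²`;
`kap n 6 = 2 + (6+24/n) m_2(B)m_4(B)/(b m_6(B))`, quotient `n(n+6)/((n+2)(n+4))`.
With `ρ = ρ_K`, `m_k = (n+k)⁻¹ ∫_S ρ^(n+k)` (`body_norm_pow`), it remains:
`(∫ρ^(n+2))² ≤ ∫ρ^n ∫ρ^(n+4)` (Cauchy-Schwarz) and `∫ρ^(n+2) ∫ρ^(n+4) ≤ ∫ρ^n ∫ρ^(n+6)`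
(`½∫∫ρ₁^nρ₂^n(ρ₁²-ρ₂²)(ρ₁⁴-ρ₂⁴) ≥ 0`).
-/

set_option autoImplicit false

open MeasureTheory Set Metric Filter Topology
open scoped RealInnerProductSpace ENNReal

namespace RMB

private theorem c6_intOn {n : ℕ} {K : Set (E n)} (hK : SymBody K) {f : E n → ℝ} (hf : Continuous f) :
    IntegrableOn f K :=
  hf.continuousOn.integrableOn_compact hK.compact

private theorem c6_add {n : ℕ} {K : Set (E n)} (hK : SymBody K) {f g : E n → ℝ}
    (hf : Continuous f) (hg : Continuous g) :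
    ∫ y in K, (f y + g y) = (∫ y in K, f y) + ∫ y in K, g y :=
  integral_add (c6_intOn hK hf) (c6_intOn hK hg)

private theorem c6_odd {n : ℕ} {K : Set (E n)} (hK : SymBody K) {f : E n → ℝ}
    (hf : ∀ y, f (-y) = -f y) : ∫ y in K, f y = 0 := by
  have hm : MeasurableSet K := hK.compact.measurableSet
  rw [← integral_indicator hm]
  have h : ∫ y, K.indicator f (-y) = ∫ y, K.indicator f y := integral_neg_eq_self _ _
  have h2 : ∀ y, K.indicator f (-y) = -K.indicator f y := by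
    intro y
    by_cases hy : y ∈ K
    · rw [indicator_of_mem hy, indicator_of_mem (hK.sym y hy), hf]
    · have : -y ∉ K := fun h => hy (by simpa using hK.sym _ h)
      rw [indicator_of_notMem hy, indicator_of_notMem this, neg_zero]
  simp only [h2, integral_neg] at h
  linarith

private theorem c6_norm_sq {n : ℕ} (x y : E n) :
    ‖y - x‖ ^ 2 = ‖x‖ ^ 2 + ‖y‖ ^ 2 - 2 * ⟪y, x⟫ := by
  rw [norm_sub_sq_real]
  ring

private theorem c6_dbl4 {n : ℕ} {K : Set (E n)} (hK : SymBody K) {l : ℝ} (hl : Iso K l) :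
    ∫ x in K, ∫ y in K, ‖y - x‖ ^ (4 : ℝ) =
      2 * volume.real K * (∫ x in K, ‖x‖ ^ 4) + 2 * (∫ x in K, ‖x‖ ^ 2) ^ 2 +
        4 * l * (∫ x in K, ‖x‖ ^ 2) := by
  have hin : ∀ x : E n, ∫ y in K, ‖y - x‖ ^ (4 : ℝ) =
      volume.real K * ‖x‖ ^ 4 + (∫ y in K, ‖y‖ ^ 4) +
        (2 * (∫ y in K, ‖y‖ ^ 2) + 4 * l) * ‖x‖ ^ 2 := by
    intro x
    have e : ∀ y : E n, ‖y - x‖ ^ (4 : ℝ) =
        (‖x‖ ^ 4 + ‖y‖ ^ 4 + (2 * ‖x‖ ^ 2) * ‖y‖ ^ 2 + 4 * ⟪y, x⟫ ^ 2) +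
          (-4 * (‖x‖ ^ 2 + ‖y‖ ^ 2) * ⟪y, x⟫) := by
      intro y
      rw [Real.rpow_ofNat]
      have : ‖y - x‖ ^ 4 = (‖y - x‖ ^ 2) ^ 2 := by ring
      rw [this, c6_norm_sq]
      ring
    simp_rw [e]
    rw [c6_add hK (by fun_prop) (by fun_prop), c6_add hK (by fun_prop) (by fun_prop),
      c6_add hK (by fun_prop) (by fun_prop), c6_add hK (by fun_prop) (by fun_prop),
      setIntegral_const, integral_const_mul (2 * ‖x‖ ^ 2),
      integral_const_mul 4, hl x, c6_odd hK (f := fun y : E n => -4 * (‖x‖ ^ 2 + ‖y‖ ^ 2) * ⟪y, x⟫)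
        (by intro y; rw [norm_neg, inner_neg_left]; ring)]
    simp only [smul_eq_mul]
    ring
  simp_rw [hin]
  rw [c6_add hK (by fun_prop) (by fun_prop), c6_add hK (by fun_prop) (by fun_prop),
    setIntegral_const, integral_const_mul, integral_const_mul]
  simp only [smul_eq_mul]
  ring

private theorem c6_dbl6 {n : ℕ} {K : Set (E n)} (hK : SymBody K) {l : ℝ} (hl : Iso K l) :
    ∫ x in K, ∫ y in K, ‖y - x‖ ^ (6 : ℝ) =
      2 * volume.real K * (∫ x in K, ‖x‖ ^ 6) + 6 * (∫ x in K, ‖x‖ ^ 2) * (∫ x in K, ‖x‖ ^ 4) +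
        24 * l * (∫ x in K, ‖x‖ ^ 4) := by
  have hin : ∀ x : E n, ∫ y in K, ‖y - x‖ ^ (6 : ℝ) =
      volume.real K * ‖x‖ ^ 6 + (∫ y in K, ‖y‖ ^ 6) +
        (3 * (∫ y in K, ‖y‖ ^ 2) + 12 * l) * ‖x‖ ^ 4 + (3 * ∫ y in K, ‖y‖ ^ 4) * ‖x‖ ^ 2 +
        ∫ y in K, 12 * (‖y‖ ^ 2 * ⟪y, x⟫ ^ 2) := by
    intro x
    have e : ∀ y : E n, ‖y - x‖ ^ (6 : ℝ) =
        (‖x‖ ^ 6 + ‖y‖ ^ 6 + (3 * ‖x‖ ^ 4) * ‖y‖ ^ 2 + (3 * ‖x‖ ^ 2) * ‖y‖ ^ 4 +
          (12 * ‖x‖ ^ 2) * ⟪y, x⟫ ^ 2 + 12 * (‖y‖ ^ 2 * ⟪y, x⟫ ^ 2)) +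
          (-6 * (‖x‖ ^ 2 + ‖y‖ ^ 2) ^ 2 * ⟪y, x⟫ - 8 * ⟪y, x⟫ ^ 3) := by
      intro y
      rw [Real.rpow_ofNat]
      have : ‖y - x‖ ^ 6 = (‖y - x‖ ^ 2) ^ 3 := by ring
      rw [this, c6_norm_sq]
      ring
    simp_rw [e]
    rw [c6_add hK (by fun_prop) (by fun_prop), c6_add hK (by fun_prop) (by fun_prop),
      c6_add hK (by fun_prop) (by fun_prop), c6_add hK (by fun_prop) (by fun_prop),
      c6_add hK (by fun_prop) (by fun_prop), c6_add hK (by fun_prop) (by fun_prop),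
      setIntegral_const,
      integral_const_mul (3 * ‖x‖ ^ 4), integral_const_mul (3 * ‖x‖ ^ 2),
      integral_const_mul (12 * ‖x‖ ^ 2), hl x,
      c6_odd hK (f := fun y : E n => -6 * (‖x‖ ^ 2 + ‖y‖ ^ 2) ^ 2 * ⟪y, x⟫ - 8 * ⟪y, x⟫ ^ 3)
        (by intro y; rw [norm_neg, inner_neg_left]; ring)]
    simp only [smul_eq_mul]
    ring
  simp_rw [hin]
  -- Fubini for the last term
  have hc : Continuous (fun z : E n × E n => 12 * (‖z.2‖ ^ 2 * ⟪z.2, z.1⟫ ^ 2)) := by fun_prop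
  have hprod : Integrable (fun z : E n × E n => 12 * (‖z.2‖ ^ 2 * ⟪z.2, z.1⟫ ^ 2))
      ((volume.restrict K).prod (volume.restrict K)) := by
    rw [Measure.prod_restrict]
    exact hc.continuousOn.integrableOn_compact (hK.compact.prod hK.compact)
  have hS : Integrable (fun x : E n => ∫ y in K, 12 * (‖y‖ ^ 2 * ⟪y, x⟫ ^ 2))
      (volume.restrict K) := hprod.integral_prod_left
  have hSv : ∫ x in K, ∫ y in K, 12 * (‖y‖ ^ 2 * ⟪y, x⟫ ^ 2) = 12 * l * ∫ y in K, ‖y‖ ^ 4 := by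
    rw [integral_integral_swap (f := fun x y : E n => 12 * (‖y‖ ^ 2 * ⟪y, x⟫ ^ 2)) hprod]
    have : ∀ y : E n, ∫ x in K, 12 * (‖y‖ ^ 2 * ⟪y, x⟫ ^ 2) = (12 * l) * ‖y‖ ^ 4 := by
      intro y
      have e : ∀ x : E n, 12 * (‖y‖ ^ 2 * ⟪y, x⟫ ^ 2) = (12 * ‖y‖ ^ 2) * ⟪x, y⟫ ^ 2 := by
        intro x
        rw [real_inner_comm]
        ring
      simp_rw [e]
      rw [integral_const_mul, hl y]
      ring
    simp_rw [this]
    rw [integral_const_mul]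
  have hA : Continuous (fun x : E n => volume.real K * ‖x‖ ^ 6 + (∫ y in K, ‖y‖ ^ 6) +
        (3 * (∫ y in K, ‖y‖ ^ 2) + 12 * l) * ‖x‖ ^ 4 + (3 * ∫ y in K, ‖y‖ ^ 4) * ‖x‖ ^ 2) := by
    fun_prop
  rw [integral_add (c6_intOn hK hA) hS, hSv, c6_add hK (by fun_prop) (by fun_prop),
    c6_add hK (by fun_prop) (by fun_prop), c6_add hK (by fun_prop) (by fun_prop),
    setIntegral_const, integral_const_mul, integral_const_mul, integral_const_mul]
  simp only [smul_eq_mul]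
  ring

/-- the moments in polar coordinates with natural exponents -/
private theorem c6_mom {n : ℕ} (hn : 1 ≤ n) {K : Set (E n)} (hK : SymBody K) (k : ℕ) :
    ((n : ℝ) + k) * (∫ x in K, ‖x‖ ^ k) =
      ∫ u : sphere (0 : E n) 1, radial K (u : E n) ^ (n + k) ∂(sg n) := by
  have h := body_norm_pow hn hK (q := (k : ℝ)) (Nat.cast_nonneg k)
  have e1 : ∀ x : E n, ‖x‖ ^ (k : ℝ) = ‖x‖ ^ k := fun x => Real.rpow_natCast _ _
  have e2 : ∀ u : sphere (0 : E n) 1, radial K (u : E n) ^ ((n : ℝ) + (k : ℝ)) =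
      radial K (u : E n) ^ (n + k) := by
    intro u
    rw [← Nat.cast_add]
    exact Real.rpow_natCast _ _
  simp_rw [e1, e2] at h
  rw [h]
  have hne : (n : ℝ) + k ≠ 0 := by
    have : (1 : ℝ) ≤ n := by exact_mod_cast hn
    have : (0 : ℝ) ≤ k := Nat.cast_nonneg k
    positivity
  field_simp

private theorem c6_rho_cont {n : ℕ} {K : Set (E n)} (hK : SymBody K) :
    Continuous (fun u : sphere (0 : E n) 1 => radial K (u : E n)) := by
  have hne : ∀ u : sphere (0 : E n) 1, (u : E n) ≠ 0 := by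
    intro u h
    have := norm_eq_of_mem_sphere u
    rw [h, norm_zero] at this
    exact zero_ne_one this
  have e : (fun u : sphere (0 : E n) 1 => radial K (u : E n)) =
      fun u : sphere (0 : E n) 1 => (gauge K (u : E n))⁻¹ := by
    funext u
    exact hK.radial_eq (hne u)
  rw [e]
  exact (hK.gauge_cont.comp continuous_subtype_val).inv₀ fun u => (hK.gauge_pos (hne u)).ne'

private theorem c6_rho_int {n : ℕ} {K : Set (E n)} (hK : SymBody K) (k : ℕ) :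
    Integrable (fun u : sphere (0 : E n) 1 => radial K (u : E n) ^ k) (sg n) :=
  ((c6_rho_cont hK).pow k).integrable_of_hasCompactSupport
    (HasCompactSupport.of_compactSpace _)

/-- Cauchy-Schwarz -/
private theorem c6_cs {n : ℕ} {K : Set (E n)} (hK : SymBody K) (k : ℕ)
    (hpos : 0 < ∫ u : sphere (0 : E n) 1, radial K (u : E n) ^ k ∂(sg n)) :
    (∫ u : sphere (0 : E n) 1, radial K (u : E n) ^ (k + 2) ∂(sg n)) ^ 2 ≤
      (∫ u : sphere (0 : E n) 1, radial K (u : E n) ^ k ∂(sg n)) *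
        ∫ u : sphere (0 : E n) 1, radial K (u : E n) ^ (k + 4) ∂(sg n) := by
  set I0 := ∫ u : sphere (0 : E n) 1, radial K (u : E n) ^ k ∂(sg n) with hI0
  set I2 := ∫ u : sphere (0 : E n) 1, radial K (u : E n) ^ (k + 2) ∂(sg n) with hI2
  set I4 := ∫ u : sphere (0 : E n) 1, radial K (u : E n) ^ (k + 4) ∂(sg n) with hI4
  have h0 : 0 ≤ ∫ u : sphere (0 : E n) 1,
      radial K (u : E n) ^ k * (I0 * radial K (u : E n) ^ 2 - I2) ^ 2 ∂(sg n) :=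
    integral_nonneg fun u => mul_nonneg (pow_nonneg (radial_nonneg _ _) _) (sq_nonneg _)
  have e : ∀ u : sphere (0 : E n) 1,
      radial K (u : E n) ^ k * (I0 * radial K (u : E n) ^ 2 - I2) ^ 2 =
        I0 ^ 2 * radial K (u : E n) ^ (k + 4) + (-(2 * I0 * I2)) * radial K (u : E n) ^ (k + 2) +
          I2 ^ 2 * radial K (u : E n) ^ k := by
    intro u
    ring
  simp_rw [e] at h0
  have j4 : Integrable (fun u : sphere (0 : E n) 1 => I0 ^ 2 * radial K (u : E n) ^ (k + 4)) (sg n) :=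
    (c6_rho_int hK (k + 4)).const_mul _
  have j2 : Integrable (fun u : sphere (0 : E n) 1 =>
      (-(2 * I0 * I2)) * radial K (u : E n) ^ (k + 2)) (sg n) := (c6_rho_int hK (k + 2)).const_mul _
  have j0 : Integrable (fun u : sphere (0 : E n) 1 => I2 ^ 2 * radial K (u : E n) ^ k) (sg n) :=
    (c6_rho_int hK k).const_mul _
  have j42 : Integrable (fun u : sphere (0 : E n) 1 => I0 ^ 2 * radial K (u : E n) ^ (k + 4) +
      (-(2 * I0 * I2)) * radial K (u : E n) ^ (k + 2)) (sg n) := j4.add j2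
  rw [integral_add j42 j0, integral_add j4 j2,
    integral_const_mul, integral_const_mul, integral_const_mul, ← hI0, ← hI2, ← hI4] at h0
  have h1 : 0 ≤ I0 * (I0 * I4 - I2 ^ 2) := by nlinarith
  have h2 := nonneg_of_mul_nonneg_right h1 hpos
  linarith

private theorem c6_rho_pos {n : ℕ} (hn : 1 ≤ n) {K : Set (E n)} (hK : SymBody K) (k : ℕ) :
    0 < ∫ u : sphere (0 : E n) 1, radial K (u : E n) ^ k ∂(sg n) := by
  have hne : ∀ u : sphere (0 : E n) 1, (u : E n) ≠ 0 := by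
    intro u h
    have := norm_eq_of_mem_sphere u
    rw [h, norm_zero] at this
    exact zero_ne_one this
  have hp : ∀ u : sphere (0 : E n) 1, 0 < radial K (u : E n) := by
    intro u
    rw [hK.radial_eq (hne u)]
    exact inv_pos.2 (hK.gauge_pos (hne u))
  rw [integral_pos_iff_support_of_nonneg (fun u => (pow_pos (hp u) k).le) (c6_rho_int hK k)]
  have : Function.support (fun u : sphere (0 : E n) 1 => radial K (u : E n) ^ k) = univ := by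
    ext u
    simp only [Function.mem_support, mem_univ, iff_true]
    exact (pow_pos (hp u) k).ne'
  rw [this]
  have h := (sg_univ hn).2
  rw [Measure.real, ENNReal.toReal_pos_iff] at h
  exact h.1

private theorem c6_vol {n : ℕ} {K : Set (E n)} : ∫ x in K, ‖x‖ ^ 0 = volume.real K := by
  simp

private theorem c6_ineq4 {n : ℕ} (hn : 1 ≤ n) {K : Set (E n)} (hK : SymBody K) :
    (((n : ℝ) + 2) * (∫ x in K, ‖x‖ ^ 2)) ^ 2 ≤
      (n * volume.real K) * (((n : ℝ) + 4) * (∫ x in K, ‖x‖ ^ 4)) := by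
  have h0 := c6_mom hn hK 0
  have h2 := c6_mom hn hK 2
  have h4 := c6_mom hn hK 4
  rw [c6_vol] at h0
  simp only [Nat.cast_zero, add_zero, Nat.cast_ofNat] at h0 h2 h4
  rw [h0, h2, h4]
  exact c6_cs hK n (c6_rho_pos hn hK n)

private theorem c6_ineq6 {n : ℕ} (hn : 1 ≤ n) {K : Set (E n)} (hK : SymBody K) :
    (((n : ℝ) + 2) * (∫ x in K, ‖x‖ ^ 2)) * (((n : ℝ) + 4) * (∫ x in K, ‖x‖ ^ 4)) ≤
      (n * volume.real K) * (((n : ℝ) + 6) * (∫ x in K, ‖x‖ ^ 6)) := by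
  have h0 := c6_mom hn hK 0
  have h2 := c6_mom hn hK 2
  have h4 := c6_mom hn hK 4
  have h6 := c6_mom hn hK 6
  rw [c6_vol] at h0
  simp only [Nat.cast_zero, add_zero, Nat.cast_ofNat] at h0 h2 h4 h6
  rw [h0, h2, h4, h6]
  have p0 := c6_rho_pos hn hK n
  have p2 := c6_rho_pos hn hK (n + 2)
  have p4 := c6_rho_pos hn hK (n + 4)
  have p6 := c6_rho_pos hn hK (n + 6)
  have a := c6_cs hK n p0
  have b := c6_cs hK (n + 2) p2
  set I0 := ∫ u : sphere (0 : E n) 1, radial K (u : E n) ^ n ∂(sg n)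
  set I2 := ∫ u : sphere (0 : E n) 1, radial K (u : E n) ^ (n + 2) ∂(sg n)
  have e4 : ∫ u : sphere (0 : E n) 1, radial K (u : E n) ^ (n + 2 + 2) ∂(sg n) =
    ∫ u : sphere (0 : E n) 1, radial K (u : E n) ^ (n + 4) ∂(sg n) := rfl
  have e6 : ∫ u : sphere (0 : E n) 1, radial K (u : E n) ^ (n + 2 + 4) ∂(sg n) =
    ∫ u : sphere (0 : E n) 1, radial K (u : E n) ^ (n + 6) ∂(sg n) := rfl
  rw [e4, e6] at b
  set I4 := ∫ u : sphere (0 : E n) 1, radial K (u : E n) ^ (n + 4) ∂(sg n)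
  set I6 := ∫ u : sphere (0 : E n) 1, radial K (u : E n) ^ (n + 6) ∂(sg n)
  have h : (I2 * I4) * (I2 * I4) ≤ (I0 * I6) * (I2 * I4) := by
    calc (I2 * I4) * (I2 * I4) = I2 ^ 2 * I4 ^ 2 := by ring
      _ ≤ (I0 * I4) * (I2 * I6) := mul_le_mul a b (sq_nonneg _) (by positivity)
      _ = (I0 * I6) * (I2 * I4) := by ring
  exact le_of_mul_le_mul_right h (mul_pos p2 p4)

private theorem c6_ball_iso {n : ℕ} (hn : 1 ≤ n) :
    Iso (closedBall (0 : E n) 1) (volume.real (closedBall (0 : E n) 1) / (n + 2)) :=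
  fun v => ball_sq hn v

private theorem c6_ball_mom {n : ℕ} (hn : 1 ≤ n) (k : ℕ) :
    ∫ x in closedBall (0 : E n) 1, ‖x‖ ^ k =
      volume.real (closedBall (0 : E n) 1) * (n / (n + k)) := by
  have h := ball_norm_pow hn (q := (k : ℝ)) (Nat.cast_nonneg k)
  have e1 : ∀ x : E n, ‖x‖ ^ (k : ℝ) = ‖x‖ ^ k := fun x => Real.rpow_natCast _ _
  simp_rw [e1] at h
  exact h

private theorem c6_kap4 {n : ℕ} (hn : 1 ≤ n) : kap n 4 = 2 + 2 * ((n : ℝ) + 4) / (n + 2) := by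
  have hb := (closedBall_sym (n := n) one_pos).toIsBody.volume_pos
  have hn' : (0 : ℝ) < n := by exact_mod_cast hn
  unfold kap
  rw [c6_dbl4 (closedBall_sym one_pos) (c6_ball_iso hn)]
  have e4 : ∀ x : E n, ‖x‖ ^ (4 : ℝ) = ‖x‖ ^ 4 := fun x => Real.rpow_ofNat _ _
  simp_rw [e4]
  rw [c6_ball_mom hn 4, c6_ball_mom hn 2]
  set b := volume.real (closedBall (0 : E n) 1)
  push_cast
  field_simp
  ring

private theorem c6_kap6 {n : ℕ} (hn : 1 ≤ n) : kap n 6 = 2 + 6 * ((n : ℝ) + 6) / (n + 2) := by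
  have hb := (closedBall_sym (n := n) one_pos).toIsBody.volume_pos
  have hn' : (0 : ℝ) < n := by exact_mod_cast hn
  unfold kap
  rw [c6_dbl6 (closedBall_sym one_pos) (c6_ball_iso hn)]
  have e6 : ∀ x : E n, ‖x‖ ^ (6 : ℝ) = ‖x‖ ^ 6 := fun x => Real.rpow_ofNat _ _
  simp_rw [e6]
  rw [c6_ball_mom hn 6, c6_ball_mom hn 4, c6_ball_mom hn 2]
  set b := volume.real (closedBall (0 : E n) 1)
  push_cast
  field_simp
  ring

theorem iso_ineq_four {n : ℕ} (hn : 1 ≤ n) {K : Set (E n)} (hK : SymBody K) {l : ℝ}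
    (hl : Iso K l) :
    ∫ x in K, ∫ y in K, ‖y - x‖ ^ (4 : ℝ) ≤
      kap n 4 * (volume.real K * ∫ x in K, ‖x‖ ^ (4 : ℝ)) := by
  rw [c6_dbl4 hK hl, c6_kap4 hn]
  have e4 : ∀ x : E n, ‖x‖ ^ (4 : ℝ) = ‖x‖ ^ 4 := fun x => Real.rpow_ofNat _ _
  simp_rw [e4]
  have h := c6_ineq4 hn hK
  have ht := iso_trace hK hl
  have hn' : (0 : ℝ) < n := by exact_mod_cast hn
  set V := volume.real K
  set m2 := ∫ x in K, ‖x‖ ^ 2
  set m4 := ∫ x in K, ‖x‖ ^ 4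
  have hl' : l = m2 / n := by
    rw [ht]
    field_simp
  rw [hl']
  have key : 2 * m2 ^ 2 + 4 * (m2 / n) * m2 ≤ 2 * ((n : ℝ) + 4) / (n + 2) * (V * m4) := by
    have e : 2 * ((n : ℝ) + 4) / (n + 2) * (V * m4) - (2 * m2 ^ 2 + 4 * (m2 / n) * m2) =
        2 / (n * (n + 2)) * ((n * V) * (((n : ℝ) + 4) * m4) - (((n : ℝ) + 2) * m2) ^ 2) := by
      field_simp
      ring
    have : 0 ≤ 2 / ((n : ℝ) * (n + 2)) *
        ((n * V) * (((n : ℝ) + 4) * m4) - (((n : ℝ) + 2) * m2) ^ 2) :=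
      mul_nonneg (by positivity) (by linarith)
    linarith
  linarith

theorem iso_ineq_six {n : ℕ} (hn : 1 ≤ n) {K : Set (E n)} (hK : SymBody K) {l : ℝ}
    (hl : Iso K l) :
    ∫ x in K, ∫ y in K, ‖y - x‖ ^ (6 : ℝ) ≤
      kap n 6 * (volume.real K * ∫ x in K, ‖x‖ ^ (6 : ℝ)) := by
  rw [c6_dbl6 hK hl, c6_kap6 hn]
  have e6 : ∀ x : E n, ‖x‖ ^ (6 : ℝ) = ‖x‖ ^ 6 := fun x => Real.rpow_ofNat _ _
  simp_rw [e6]
  have h := c6_ineq6 hn hK
  have ht := iso_trace hK hl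
  have hn' : (0 : ℝ) < n := by exact_mod_cast hn
  set V := volume.real K
  set m2 := ∫ x in K, ‖x‖ ^ 2
  set m4 := ∫ x in K, ‖x‖ ^ 4
  set m6 := ∫ x in K, ‖x‖ ^ 6
  have hl' : l = m2 / n := by
    rw [ht]
    field_simp
  rw [hl']
  have key : 6 * m2 * m4 + 24 * (m2 / n) * m4 ≤ 6 * ((n : ℝ) + 6) / (n + 2) * (V * m6) := by
    have e : 6 * ((n : ℝ) + 6) / (n + 2) * (V * m6) - (6 * m2 * m4 + 24 * (m2 / n) * m4) =
        6 / (n * (n + 2)) * ((n * V) * (((n : ℝ) + 6) * m6) -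
          (((n : ℝ) + 2) * m2) * (((n : ℝ) + 4) * m4)) := by
      field_simp
      ring
    have : 0 ≤ 6 / ((n : ℝ) * (n + 2)) * ((n * V) * (((n : ℝ) + 6) * m6) -
          (((n : ℝ) + 2) * m2) * (((n : ℝ) + 4) * m4)) :=
      mul_nonneg (by positivity) (by linarith)
    linarith
  linarith

end RMB
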