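import Pool.Agent.RMB.C5
import Pool.Agent.RMB.C6

/-!
# RMB-C7: the range `4 ≤ q ≤ 6` (case distinction `q = 4`, `4 < q < 6`, `q = 6`)
-/

set_option autoImplicit false

open MeasureTheory Set Metric Filter Topology
open scoped RealInnerProductSpace ENNReal

namespace RMB

theorem iso_ineq {n : ℕ} (hn : 1 ≤ n) {K : Set (E n)} (hK : SymBody K) {l : ℝ}
    (hl : Iso K l) {q : ℝ} (h4 : 4 ≤ q) (h6 : q ≤ 6) :
    ∫ x in K, ∫ y in K, ‖y - x‖ ^ q ≤ kap n q * (volume.real K * ∫ x in K, ‖x‖ ^ q) := by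
  rcases eq_or_lt_of_le h4 with h | h4'
  · subst h
    exact iso_ineq_four hn hK hl
  · rcases eq_or_lt_of_le h6 with h | h6'
    · subst h
      exact iso_ineq_six hn hK hl
    · exact iso_ineq_open hn hK hl h4' h6'

end RMB
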