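import Pool.Agent.RMB.Defs

/-!
# RMB-D1: the auxiliary function `χ`

`ψ(s) = ∫_0^s (|cos σ|^p - m_p) dσ`, `m_p = mcos p`; `ψ(π) = 0`, `ψ(π - s) = -ψ(s)`,
`χ(a) = ψ(arccos a)/√(1-a²)`, i.e. `χ(cos s) = ψ(s)/sin s` for `0 < s < π`
(outside `(-1,1)`: `√(..) = 0`, value 0, also odd).

* odd: `arccos(-a) = π - arccos a`.
* derivative: with `a = cos s`, `arccos' = -1/√(1-a²)`:
  `χ'(a) = (ψ'(s)·(-1/√(1-a²)) √(1-a²) + ψ a/√(1-a²))/(1-a²) = (a χ(a) + m_p - |a|^p)/(1-a²)`.
* bound: `0 ≤ |cos|^p ≤ 1`, `0 ≤ m_p ≤ 1`, so `|ψ(s)| ≤ s ≤ (π/2) sin s ≤ 2 sin s` for `0 ≤ s ≤ π/2`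
  (Jordan, `Real.mul_le_sin`), and oddness.
* monotone: `(χ - Z)'(a) = a (χ(a) - a(|a|^p - m_p))/(1-a²)`.  By oddness it is enough that
  `χ(a) ≥ a(a^p - m_p)` for `0 ≤ a < 1`, i.e. `D(s) := ψ(s) - sin s cos s (cos^p s - m_p) ≥ 0` for
  `0 < s ≤ π/2`.  `D(0) = D(π/2) = 0` (`ψ(π/2) = 0`), and
  `D'(s) = sin² s ((p+2) cos^p s - 2 m_p)`, where the bracket is decreasing: `D` is nondecreasing as long
  as the bracket is `≥ 0`, then nonincreasing down to `D(π/2) = 0`; so `D ≥ 0`.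
-/

set_option autoImplicit false

open MeasureTheory Set Metric Filter Topology
open scoped RealInnerProductSpace ENNReal

namespace RMB

/-- The function `χ` solves `(1-a²) χ' = a χ + m_p - |a|^p` on `(-1,1)`, is odd, bounded, and
`χ - Z_p` is nondecreasing. -/
structure IsChi (p : ℝ) (χ : ℝ → ℝ) : Prop where
  odd : ∀ a, χ (-a) = -χ a
  der : ∀ a ∈ Ioo (-1 : ℝ) 1, HasDerivAt χ ((a * χ a + mcos p - |a| ^ p) / (1 - a ^ 2)) a
  bdd : ∀ a ∈ Ioo (-1 : ℝ) 1, |χ a| ≤ 2
  mono : MonotoneOn (fun a => χ a - Zp p a) (Ioo (-1) 1)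

private lemma d1_cont {p : ℝ} (hp : 0 < p) : Continuous (fun s : ℝ => |Real.cos s| ^ p) :=
  (Real.continuous_cos.abs).rpow_const (fun _ => Or.inr hp.le)

private lemma d1_le_one {p : ℝ} (hp : 0 < p) (s : ℝ) : |Real.cos s| ^ p ≤ 1 :=
  Real.rpow_le_one (abs_nonneg _) (Real.abs_cos_le_one s) hp.le

private lemma d1_nonneg (p s : ℝ) : 0 ≤ |Real.cos s| ^ p := Real.rpow_nonneg (abs_nonneg _) p

theorem mcos_mem {p : ℝ} (hp : 0 < p) : 0 < mcos p ∧ mcos p ≤ 1 := by
  have hpi := Real.pi_pos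
  have h1 : 0 < ∫ s in (0 : ℝ)..Real.pi, |Real.cos s| ^ p := by
    apply intervalIntegral.integral_pos hpi (d1_cont hp).continuousOn
    · intro x _
      exact d1_nonneg p x
    · refine ⟨0, ⟨le_rfl, hpi.le⟩, ?_⟩
      rw [Real.cos_zero, abs_one, Real.one_rpow]
      exact one_pos
  have h2 : ∫ s in (0 : ℝ)..Real.pi, |Real.cos s| ^ p ≤ Real.pi := by
    have h3 : ∫ s in (0 : ℝ)..Real.pi, |Real.cos s| ^ p ≤ ∫ s in (0 : ℝ)..Real.pi, (1 : ℝ) := by
      apply intervalIntegral.integral_mono_on hpi.le ((d1_cont hp).intervalIntegrable _ _)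
        (continuous_const.intervalIntegrable _ _)
      intro x _
      exact d1_le_one hp x
    rw [intervalIntegral.integral_const, sub_zero, smul_eq_mul, mul_one] at h3
    exact h3
  unfold mcos
  constructor
  · positivity
  · rw [inv_mul_le_iff₀ hpi, mul_one]
    exact h2

/-- the primitive `ψ` -/
private noncomputable def d1_psi (p s : ℝ) : ℝ :=
  ∫ σ in (0 : ℝ)..s, (|Real.cos σ| ^ p - mcos p)

private lemma d1_contf {p : ℝ} (hp : 0 < p) :
    Continuous (fun σ : ℝ => |Real.cos σ| ^ p - mcos p) := (d1_cont hp).sub continuous_const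

private lemma d1_psi_der {p : ℝ} (hp : 0 < p) (s : ℝ) :
    HasDerivAt (d1_psi p) (|Real.cos s| ^ p - mcos p) s :=
  (d1_contf hp).integral_hasStrictDerivAt 0 s |>.hasDerivAt

private lemma d1_psi_pi {p : ℝ} (hp : 0 < p) : d1_psi p Real.pi = 0 := by
  unfold d1_psi
  rw [intervalIntegral.integral_sub ((d1_cont hp).intervalIntegrable _ _)
    (continuous_const.intervalIntegrable _ _), intervalIntegral.integral_const, sub_zero,
    smul_eq_mul]
  unfold mcos
  rw [mul_inv_cancel_left₀ Real.pi_ne_zero, sub_self]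

private lemma d1_psi_symm {p : ℝ} (hp : 0 < p) (s : ℝ) :
    d1_psi p (Real.pi - s) = -d1_psi p s := by
  have hi : ∀ a b : ℝ, IntervalIntegrable (fun σ : ℝ => |Real.cos σ| ^ p - mcos p) volume a b :=
    fun a b => (d1_contf hp).intervalIntegrable a b
  have h1 := intervalIntegral.integral_add_adjacent_intervals (hi 0 (Real.pi - s))
    (hi (Real.pi - s) Real.pi)
  have h2 : ∫ σ in (0 : ℝ)..s, (|Real.cos (Real.pi - σ)| ^ p - mcos p) =
      ∫ σ in (Real.pi - s)..(Real.pi - 0), (|Real.cos σ| ^ p - mcos p) :=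
    intervalIntegral.integral_comp_sub_left (fun σ => |Real.cos σ| ^ p - mcos p) Real.pi
  have h3 : ∫ σ in (0 : ℝ)..s, (|Real.cos (Real.pi - σ)| ^ p - mcos p) = d1_psi p s := by
    unfold d1_psi
    apply intervalIntegral.integral_congr
    intro σ _
    show |Real.cos (Real.pi - σ)| ^ p - mcos p = |Real.cos σ| ^ p - mcos p
    rw [Real.cos_pi_sub, abs_neg]
  rw [h3, sub_zero] at h2
  have h4 := d1_psi_pi hp
  unfold d1_psi at h2 h4 ⊢
  rw [h4] at h1
  linarith

private lemma d1_psi_zero (p : ℝ) : d1_psi p 0 = 0 := intervalIntegral.integral_same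

private lemma d1_psi_half {p : ℝ} (hp : 0 < p) : d1_psi p (Real.pi / 2) = 0 := by
  have h := d1_psi_symm hp (Real.pi / 2)
  have e : Real.pi - Real.pi / 2 = Real.pi / 2 := by ring
  rw [e] at h
  linarith

private lemma d1_psi_abs {p : ℝ} (hp : 0 < p) {s : ℝ} (hs : 0 ≤ s) : |d1_psi p s| ≤ s := by
  have h := intervalIntegral.norm_integral_le_of_norm_le_const (a := 0) (b := s) (C := 1)
    (f := fun σ : ℝ => |Real.cos σ| ^ p - mcos p) (by
      intro σ _
      rw [Real.norm_eq_abs, abs_le]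
      have h1 := d1_le_one hp σ
      have h2 := d1_nonneg p σ
      have h3 := mcos_mem hp
      constructor
      · linarith [h3.2]
      · linarith [h3.1])
  rw [sub_zero, abs_of_nonneg hs, one_mul] at h
  exact h

/-- the function `D` -/
private noncomputable def d1_D (p s : ℝ) : ℝ :=
  d1_psi p s - Real.sin s * Real.cos s * (Real.cos s ^ p - mcos p)

private lemma d1_D_der {p : ℝ} (hp : 0 < p) {s : ℝ} (hs : s ∈ Ioo 0 (Real.pi / 2)) :
    HasDerivAt (d1_D p) (Real.sin s ^ 2 * ((p + 2) * Real.cos s ^ p - 2 * mcos p)) s := by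
  have hc : 0 < Real.cos s := Real.cos_pos_of_mem_Ioo ⟨by linarith [hs.1, Real.pi_pos], hs.2⟩
  have h1 := d1_psi_der hp s
  rw [abs_of_pos hc] at h1
  have h2 : HasDerivAt (fun s => Real.cos s ^ p) (-Real.sin s * p * Real.cos s ^ (p - 1)) s :=
    (Real.hasDerivAt_cos s).rpow_const (Or.inl hc.ne')
  have h3 := ((Real.hasDerivAt_sin s).mul (Real.hasDerivAt_cos s)).mul (h2.sub_const (mcos p))
  have h4 := h1.sub h3
  have h5 : Real.cos s * Real.cos s ^ (p - 1) = Real.cos s ^ p := by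
    rw [Real.rpow_sub_one hc.ne']
    field_simp
  have h6 : Real.sin s ^ 2 = 1 - Real.cos s ^ 2 := Real.sin_sq s
  refine HasDerivAt.congr_deriv h4 ?_
  simp only [Pi.mul_apply]
  have h7 : Real.cos s ^ 2 = 1 - Real.sin s ^ 2 := by linarith
  linear_combination (-(Real.cos s ^ p - mcos p)) * h7 + (p * Real.sin s ^ 2) * h5

private lemma d1_D_cont {p : ℝ} (hp : 0 < p) : Continuous (d1_D p) := by
  have h1 : Continuous (d1_psi p) := by
    rw [continuous_iff_continuousAt]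
    intro s
    exact (d1_psi_der hp s).continuousAt
  have h2 : Continuous (fun s : ℝ => Real.cos s ^ p) :=
    Real.continuous_cos.rpow_const (fun _ => Or.inr hp.le)
  exact h1.sub ((Real.continuous_sin.mul Real.continuous_cos).mul (h2.sub continuous_const))

private lemma d1_D_nonneg {p : ℝ} (hp : 0 < p) {s : ℝ} (hs : s ∈ Ioc 0 (Real.pi / 2)) :
    0 ≤ d1_D p s := by
  have hD0 : d1_D p 0 = 0 := by
    unfold d1_D
    rw [d1_psi_zero, Real.sin_zero]
    ring
  have hD1 : d1_D p (Real.pi / 2) = 0 := by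
    unfold d1_D
    rw [d1_psi_half hp, Real.cos_pi_div_two]
    ring
  by_contra hneg
  rw [not_le] at hneg
  have hs2 : s < Real.pi / 2 := by
    rcases lt_or_eq_of_le hs.2 with h | h
    · exact h
    · rw [h, hD1] at hneg
      exact absurd hneg (lt_irrefl _)
  obtain ⟨a, ha, ha2⟩ := exists_hasDerivAt_eq_slope (d1_D p)
    (fun s => Real.sin s ^ 2 * ((p + 2) * Real.cos s ^ p - 2 * mcos p)) hs.1
    (d1_D_cont hp).continuousOn (fun x hx => d1_D_der hp ⟨hx.1, hx.2.trans hs2⟩)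
  obtain ⟨b, hb, hb2⟩ := exists_hasDerivAt_eq_slope (d1_D p)
    (fun s => Real.sin s ^ 2 * ((p + 2) * Real.cos s ^ p - 2 * mcos p)) hs2
    (d1_D_cont hp).continuousOn (fun x hx => d1_D_der hp ⟨hs.1.trans hx.1, hx.2⟩)
  rw [hD0] at ha2
  rw [hD1] at hb2
  have h1 : Real.sin a ^ 2 * ((p + 2) * Real.cos a ^ p - 2 * mcos p) < 0 := by
    rw [ha2]
    exact div_neg_of_neg_of_pos (by linarith) (by linarith [hs.1])
  have h2 : 0 < Real.sin b ^ 2 * ((p + 2) * Real.cos b ^ p - 2 * mcos p) := by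
    rw [hb2]
    exact div_pos (by linarith) (by linarith)
  have h3 : (p + 2) * Real.cos a ^ p - 2 * mcos p < 0 := by
    by_contra h
    rw [not_lt] at h
    have := mul_nonneg (sq_nonneg (Real.sin a)) h
    linarith
  have h4 : 0 < (p + 2) * Real.cos b ^ p - 2 * mcos p := by
    by_contra h
    rw [not_lt] at h
    have := mul_nonneg (sq_nonneg (Real.sin b)) (neg_nonneg.2 h)
    linarith
  have h5 : Real.cos b ≤ Real.cos a := by
    apply Real.cos_le_cos_of_nonneg_of_le_pi ha.1.le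
    · linarith [hb.2, Real.pi_pos]
    · linarith [ha.2, hb.1]
  have h6 : 0 ≤ Real.cos b := (Real.cos_pos_of_mem_Ioo
    ⟨by linarith [hb.1, hs.1, Real.pi_pos], hb.2⟩).le
  have h7 : Real.cos b ^ p ≤ Real.cos a ^ p := Real.rpow_le_rpow h6 h5 hp.le
  have h8 : (p + 2) * Real.cos b ^ p ≤ (p + 2) * Real.cos a ^ p :=
    mul_le_mul_of_nonneg_left h7 (by linarith)
  linarith

/-- the function `χ` -/
private noncomputable def d1_chi (p a : ℝ) : ℝ := d1_psi p (Real.arccos a) / √(1 - a ^ 2)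

private lemma d1_odd {p : ℝ} (hp : 0 < p) (a : ℝ) : d1_chi p (-a) = -d1_chi p a := by
  unfold d1_chi
  rw [Real.arccos_neg, d1_psi_symm hp, neg_sq, neg_div]

private lemma d1_sqrt_pos {a : ℝ} (ha : a ∈ Ioo (-1 : ℝ) 1) : 0 < 1 - a ^ 2 := by
  have h1 := ha.1
  have h2 := ha.2
  nlinarith

private lemma d1_der {p : ℝ} (hp : 0 < p) {a : ℝ} (ha : a ∈ Ioo (-1 : ℝ) 1) :
    HasDerivAt (d1_chi p) ((a * d1_chi p a + mcos p - |a| ^ p) / (1 - a ^ 2)) a := by
  have hpos := d1_sqrt_pos ha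
  have hsq : 0 < √(1 - a ^ 2) := Real.sqrt_pos.2 hpos
  have hss : √(1 - a ^ 2) * √(1 - a ^ 2) = 1 - a ^ 2 := Real.mul_self_sqrt hpos.le
  have h1 : HasDerivAt Real.arccos (-(1 / √(1 - a ^ 2))) a :=
    Real.hasDerivAt_arccos ha.1.ne' ha.2.ne
  have h2 := (d1_psi_der hp (Real.arccos a)).comp a h1
  rw [Real.cos_arccos ha.1.le ha.2.le] at h2
  have h3 : HasDerivAt (fun a : ℝ => 1 - a ^ 2) (-(2 * a)) a := by
    have h := (hasDerivAt_pow 2 a).const_sub 1
    refine HasDerivAt.congr_deriv h ?_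
    norm_num
  have h4 := h3.sqrt hpos.ne'
  have h5 := h2.div h4 hsq.ne'
  refine HasDerivAt.congr_deriv h5 ?_
  unfold d1_chi
  rw [Function.comp_apply]
  set r := √(1 - a ^ 2) with hr
  set w := d1_psi p (Real.arccos a) with hw
  have hr2 : 1 - a ^ 2 = r * r := hss.symm
  rw [hr2]
  field_simp
  ring

private lemma d1_sin (a : ℝ) : Real.sin (Real.arccos a) = √(1 - a ^ 2) := Real.sin_arccos a

private lemma d1_arccos_mem {a : ℝ} (ha0 : 0 ≤ a) (ha1 : a < 1) :
    Real.arccos a ∈ Ioc 0 (Real.pi / 2) :=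
  ⟨Real.arccos_pos.2 ha1, Real.arccos_le_pi_div_two.2 ha0⟩

private lemma d1_bdd0 {p : ℝ} (hp : 0 < p) {a : ℝ} (ha0 : 0 ≤ a) (ha1 : a < 1) :
    |d1_chi p a| ≤ 2 := by
  have hm := d1_arccos_mem ha0 ha1
  have hpos : 0 < √(1 - a ^ 2) := Real.sqrt_pos.2 (d1_sqrt_pos ⟨by linarith, ha1⟩)
  unfold d1_chi
  rw [abs_div, abs_of_pos hpos, div_le_iff₀ hpos]
  have h1 := d1_psi_abs hp hm.1.le
  have h2 := Real.mul_le_sin hm.1.le hm.2
  rw [d1_sin] at h2
  have h3 : Real.arccos a ≤ 2 * √(1 - a ^ 2) := by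
    have h4 : Real.arccos a = Real.pi / 2 * (2 / Real.pi * Real.arccos a) := by
      field_simp
    have h5 : Real.pi / 2 * (2 / Real.pi * Real.arccos a) ≤ Real.pi / 2 * √(1 - a ^ 2) :=
      mul_le_mul_of_nonneg_left h2 (by linarith [Real.pi_pos])
    have h6 : Real.pi / 2 * √(1 - a ^ 2) ≤ 2 * √(1 - a ^ 2) :=
      mul_le_mul_of_nonneg_right (by linarith [Real.pi_le_four]) hpos.le
    linarith
  linarith

private lemma d1_key {p : ℝ} (hp : 0 < p) {a : ℝ} (ha0 : 0 ≤ a) (ha1 : a < 1) :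
    a * (a ^ p - mcos p) ≤ d1_chi p a := by
  have hm := d1_arccos_mem ha0 ha1
  have hpos : 0 < √(1 - a ^ 2) := Real.sqrt_pos.2 (d1_sqrt_pos ⟨by linarith, ha1⟩)
  have h1 := d1_D_nonneg hp hm
  unfold d1_D at h1
  rw [d1_sin, Real.cos_arccos (by linarith) ha1.le] at h1
  unfold d1_chi
  rw [le_div_iff₀ hpos]
  linarith

private lemma d1_zder {p : ℝ} (hp : 2 ≤ p) (a : ℝ) :
    HasDerivAt (Zp p) (mcos p - |a| ^ p) a := by
  have h1 := hasDerivAt_abs_rpow a (p := p) (by linarith)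
  have h2 := (hasDerivAt_id a).mul h1
  have h3 := ((hasDerivAt_id a).const_mul (mcos p)).sub (h2.div_const (p + 1))
  have h4 : |a| ^ (p - 2) * a ^ 2 = |a| ^ p := by
    by_cases h : a = 0
    · subst h
      rw [abs_zero, Real.zero_rpow (by linarith : p ≠ 0)]
      ring
    · have h5 : 0 < |a| := abs_pos.2 h
      rw [← sq_abs a, ← Real.rpow_natCast |a| 2, ← Real.rpow_add h5]
      norm_num
  refine HasDerivAt.congr_deriv h3 ?_
  have h5 : p + 1 ≠ 0 := by linarith
  simp only [id_eq, mul_one, one_mul]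
  have h6 : a * (p * |a| ^ (p - 2) * a) = p * |a| ^ p := by
    rw [← h4]
    ring
  rw [h6]
  field_simp
  ring

theorem exists_chi {p : ℝ} (hp : 2 ≤ p) : ∃ χ : ℝ → ℝ, IsChi p χ := by
  have hp0 : 0 < p := by linarith
  refine ⟨d1_chi p, ?_, ?_, ?_, ?_⟩
  · exact d1_odd hp0
  · intro a ha
    exact d1_der hp0 ha
  · intro a ha
    rcases le_total 0 a with h | h
    · exact d1_bdd0 hp0 h ha.2
    · have h1 := d1_bdd0 hp0 (a := -a) (by linarith) (by linarith [ha.1])
      rw [d1_odd hp0, abs_neg] at h1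
      exact h1
  · have hder : ∀ a ∈ Ioo (-1 : ℝ) 1, HasDerivAt (fun a => d1_chi p a - Zp p a)
        ((a * d1_chi p a + mcos p - |a| ^ p) / (1 - a ^ 2) - (mcos p - |a| ^ p)) a :=
      fun a ha => (d1_der hp0 ha).sub (d1_zder hp a)
    apply monotoneOn_of_hasDerivWithinAt_nonneg (convex_Ioo _ _)
      (f' := fun a => (a * d1_chi p a + mcos p - |a| ^ p) / (1 - a ^ 2) - (mcos p - |a| ^ p))
    · intro a ha
      exact (hder a ha).continuousAt.continuousWithinAt
    · intro a ha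
      rw [interior_Ioo] at ha
      exact (hder a ha).hasDerivWithinAt
    · intro a ha
      rw [interior_Ioo] at ha
      have hpos := d1_sqrt_pos ha
      have key : 0 ≤ a * (d1_chi p a - a * (|a| ^ p - mcos p)) := by
        rcases le_total 0 a with h | h
        · have h1 := d1_key hp0 h ha.2
          rw [abs_of_nonneg h]
          exact mul_nonneg h (by linarith)
        · have h1 := d1_key hp0 (a := -a) (by linarith) (by linarith [ha.1])
          rw [d1_odd hp0] at h1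
          rw [abs_of_nonpos h]
          have h2 : 0 ≤ (-a) * (-d1_chi p a - -a * ((-a) ^ p - mcos p)) :=
            mul_nonneg (by linarith) (by linarith)
          have e : a * (d1_chi p a - a * ((-a) ^ p - mcos p)) =
              (-a) * (-d1_chi p a - -a * ((-a) ^ p - mcos p)) := by ring
          rw [e]
          exact h2
      have e2 : (a * d1_chi p a + mcos p - |a| ^ p) / (1 - a ^ 2) - (mcos p - |a| ^ p) =
          a * (d1_chi p a - a * (|a| ^ p - mcos p)) / (1 - a ^ 2) := by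
        field_simp
        ring
      rw [e2]
      exact div_nonneg key hpos.le

end RMB
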