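import Pool.Agent.RMB.G5

/-!
# RMB-D10: planar bodies in polar coordinates

`K ⊆ E 2` symmetric convex body, `g(θ) = gauge K (ev θ)`, `ev θ = (cos θ, sin θ)`.
-/

set_option autoImplicit false

open MeasureTheory Set Metric Filter Topology
open scoped RealInnerProductSpace ENNReal

namespace RMB

/-- coordinates of `ev` -/
private lemma d10_ev0 (φ : ℝ) : ev φ 0 = Real.cos φ := by simp [ev]

private lemma d10_ev1 (φ : ℝ) : ev φ 1 = Real.sin φ := by simp [ev]

private lemma d10_ext {x y : E 2} (h0 : x 0 = y 0) (h1 : x 1 = y 1) : x = y := by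
  ext i
  fin_cases i
  · exact h0
  · exact h1

/-- the inner product in the plane -/
private lemma d10_inner (x y : E 2) : ⟪x, y⟫ = x 0 * y 0 + x 1 * y 1 := by
  simp [PiLp.inner_apply, Fin.sum_univ_two, mul_comm]

private lemma d10_normsq (x : E 2) : ‖x‖ ^ 2 = x 0 ^ 2 + x 1 ^ 2 := by
  rw [← real_inner_self_eq_norm_sq, d10_inner]; ring

private lemma d10_inner_ev (t φ : ℝ) : ⟪ev t, ev φ⟫ = Real.cos (t - φ) := by
  rw [d10_inner, d10_ev0, d10_ev0, d10_ev1, d10_ev1, Real.cos_sub]

theorem ev_norm (φ : ℝ) : ‖ev φ‖ = 1 := by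
  have h : ‖ev φ‖ ^ 2 = 1 := by
    rw [d10_normsq, d10_ev0, d10_ev1, Real.cos_sq_add_sin_sq]
  have h0 := norm_nonneg (ev φ)
  nlinarith

theorem ev_cont : Continuous ev := by
  unfold ev
  refine (PiLp.continuous_toLp 2 _).comp (continuous_pi fun i => ?_)
  fin_cases i
  · exact Real.continuous_cos
  · exact Real.continuous_sin

theorem ev_surj {u : E 2} (hu : ‖u‖ = 1) : ∃ φ, u = ev φ := by
  have h : u 0 ^ 2 + u 1 ^ 2 = 1 := by rw [← d10_normsq, hu]; norm_num
  let z : ℂ := ⟨u 0, u 1⟩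
  have hz : ‖z‖ = 1 := by
    have h2 : ‖z‖ ^ 2 = 1 := by
      rw [← Complex.normSq_eq_norm_sq, Complex.normSq_apply]
      simp only [z]; nlinarith
    have h0 := norm_nonneg z
    nlinarith
  have hz0 : z ≠ 0 := by
    intro h0; rw [h0] at hz; simp at hz
  refine ⟨Complex.arg z, d10_ext ?_ ?_⟩
  · rw [d10_ev0, Complex.cos_arg hz0, hz, div_one]
  · rw [d10_ev1, Complex.sin_arg, hz, div_one]

private lemma d10_ev_ne (φ : ℝ) : ev φ ≠ 0 := by
  intro h
  have := ev_norm φ
  rw [h] at this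
  simp at this

private lemma d10_nhds {K : Set (E 2)} (hK : SymBody K) : K ∈ 𝓝 (0 : E 2) := by
  obtain ⟨r, hr, hrK⟩ := hK.exists_ball
  exact mem_of_superset (closedBall_mem_nhds _ hr) hrK

theorem planar_gauge {K : Set (E 2)} (hK : SymBody K) : Gauge2 (fun θ => gauge K (ev θ)) := by
  refine ⟨hK.gauge_cont.comp ev_cont, fun t => hK.gauge_pos (d10_ev_ne t), fun t => ?_,
    fun t d => ?_⟩
  · have h : ev (t + Real.pi) = -ev t := by
      apply d10_ext
      · rw [PiLp.neg_apply, d10_ev0, d10_ev0, Real.cos_add_pi]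
      · rw [PiLp.neg_apply, d10_ev1, d10_ev1, Real.sin_add_pi]
    show gauge K (ev (t + Real.pi)) = gauge K (ev t)
    rw [h, gauge_neg hK.sym]
  · show 2 * Real.cos d * gauge K (ev t) ≤ gauge K (ev (t + d)) + gauge K (ev (t - d))
    rcases le_or_gt 0 (Real.cos d) with hd | hd
    · have h : ev (t + d) + ev (t - d) = (2 * Real.cos d) • ev t := by
        apply d10_ext
        · rw [PiLp.add_apply, PiLp.smul_apply, d10_ev0, d10_ev0, d10_ev0, Real.cos_add,
            Real.cos_sub, smul_eq_mul]; ring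
        · rw [PiLp.add_apply, PiLp.smul_apply, d10_ev1, d10_ev1, d10_ev1, Real.sin_add,
            Real.sin_sub, smul_eq_mul]; ring
      have h2 := gauge_add_le hK.convex (absorbent_nhds_zero (d10_nhds hK)) (ev (t + d))
        (ev (t - d))
      rw [h, gauge_smul_of_nonneg (by positivity), smul_eq_mul] at h2
      exact h2
    · have h1 := gauge_nonneg (s := K) (ev t)
      have h2 := gauge_nonneg (s := K) (ev (t + d))
      have h3 := gauge_nonneg (s := K) (ev (t - d))
      nlinarith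

/-- the boundary point in the direction `ev t` -/
private lemma d10_bdry {K : Set (E 2)} (hK : SymBody K) (t : ℝ) :
    (gauge K (ev t))⁻¹ • ev t ∈ K := by
  have hp := hK.gauge_pos (d10_ev_ne t)
  rw [← hK.gauge_le_one, gauge_smul_of_nonneg (by positivity), smul_eq_mul,
    inv_mul_cancel₀ hp.ne']

private lemma d10_bddAbove {K : Set (E 2)} (hK : SymBody K) (w : E 2) :
    BddAbove ((fun x => ⟪x, w⟫) '' K) :=
  (hK.compact.image (by fun_prop)).bddAbove

private lemma d10_le_supp {K : Set (E 2)} (hK : SymBody K) {x : E 2} (hx : x ∈ K) (w : E 2) :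
    ⟪x, w⟫ ≤ supp K w :=
  le_csSup (d10_bddAbove hK w) ⟨x, hx, rfl⟩

theorem planar_supp {K : Set (E 2)} (hK : SymBody K) (φ : ℝ) :
    supp K (ev φ) = hsup (fun θ => gauge K (ev θ)) φ := by
  have hpt : ∀ t, Real.cos (t - φ) / gauge K (ev t) = ⟪(gauge K (ev t))⁻¹ • ev t, ev φ⟫ := by
    intro t
    rw [real_inner_smul_left, d10_inner_ev]; ring
  have hle : ∀ t, Real.cos (t - φ) / gauge K (ev t) ≤ supp K (ev φ) := fun t => by
    rw [hpt]; exact d10_le_supp hK (d10_bdry hK t) _
  have hb : BddAbove (range fun t : ℝ => Real.cos (t - φ) / gauge K (ev t)) :=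
    ⟨supp K (ev φ), by rintro _ ⟨t, rfl⟩; exact hle t⟩
  apply le_antisymm
  · apply csSup_le
    · exact ⟨_, 0, hK.zero_mem, rfl⟩
    · rintro _ ⟨x, hx, rfl⟩
      show ⟪x, ev φ⟫ ≤ ⨆ t : ℝ, Real.cos (t - φ) / gauge K (ev t)
      have hpos : 0 < ⨆ t : ℝ, Real.cos (t - φ) / gauge K (ev t) := by
        refine lt_of_lt_of_le ?_ (le_ciSup hb φ)
        rw [sub_self, Real.cos_zero]
        have := hK.gauge_pos (d10_ev_ne φ)
        positivity
      rcases eq_or_ne x 0 with rfl | hx0
      · rw [inner_zero_left]; exact hpos.le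
      · have hn : 0 < ‖x‖ := norm_pos_iff.2 hx0
        have hu : ‖(‖x‖⁻¹ • x)‖ = 1 := by
          rw [norm_smul, norm_inv, norm_norm, inv_mul_cancel₀ hn.ne']
        obtain ⟨t, ht⟩ := ev_surj hu
        have hxt : x = ‖x‖ • ev t := by
          rw [← ht, smul_smul, mul_inv_cancel₀ hn.ne', one_smul]
        have hip : ⟪x, ev φ⟫ = ‖x‖ * Real.cos (t - φ) := by
          conv_lhs => rw [hxt]
          rw [real_inner_smul_left, d10_inner_ev]
        rw [hip]
        rcases le_or_gt (Real.cos (t - φ)) 0 with hc | hc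
        · exact (mul_nonpos_of_nonneg_of_nonpos hn.le hc).trans hpos.le
        · have hg : ‖x‖ * gauge K (ev t) ≤ 1 := by
            have := (hK.gauge_le_one x).2 hx
            rw [hxt, gauge_smul_of_nonneg hn.le, smul_eq_mul] at this
            exact this
          have hgp := hK.gauge_pos (d10_ev_ne t)
          refine le_trans ?_ (le_ciSup hb t)
          show ‖x‖ * Real.cos (t - φ) ≤ Real.cos (t - φ) / gauge K (ev t)
          rw [le_div_iff₀ hgp]
          nlinarith
  · exact ciSup_le hle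

theorem supp_pos {K : Set (E 2)} (hK : SymBody K) (φ : ℝ) : 0 < supp K (ev φ) := by
  have h := d10_le_supp hK (d10_bdry hK φ) (ev φ)
  rw [real_inner_smul_left, d10_inner_ev, sub_self, Real.cos_zero, mul_one] at h
  have := hK.gauge_pos (d10_ev_ne φ)
  exact lt_of_lt_of_le (by positivity) h

/-- `radial K u • u ∈ K` for a unit vector -/
private lemma d10_radial_mem {K : Set (E 2)} (hK : SymBody K) {u : E 2} (hu : ‖u‖ = 1) :
    radial K u • u ∈ K := by
  obtain ⟨t, rfl⟩ := ev_surj hu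
  rw [hK.radial_eq (d10_ev_ne t)]
  exact d10_bdry hK t

private lemma d10_le_radial {K : Set (E 2)} (hK : SymBody K) {u : E 2} (hu : ‖u‖ = 1) {r : ℝ}
    (hr : 0 ≤ r) (h : r • u ∈ K) : r ≤ radial K u := by
  obtain ⟨t, rfl⟩ := ev_surj hu
  rw [hK.radial_eq (d10_ev_ne t)]
  have hp := hK.gauge_pos (d10_ev_ne t)
  have h2 := (hK.gauge_le_one _).2 h
  rw [gauge_smul_of_nonneg hr, smul_eq_mul] at h2
  rw [← one_div, le_div_iff₀ hp]
  exact h2

theorem planar_cover {K : Set (E 2)} (hK : SymBody K) (φ : ℝ) :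
    ∃ u : E 2, ‖u‖ = 1 ∧ 0 < ⟪u, ev φ⟫ ∧ radial K u * ⟪u, ev φ⟫ = supp K (ev φ) := by
  have hs := supp_pos hK φ
  obtain ⟨x, hx, hxs⟩ : ∃ x ∈ K, supp K (ev φ) = ⟪x, ev φ⟫ := by
    obtain ⟨x, hx, h⟩ := hK.compact.exists_sSup_image_eq ⟨0, hK.zero_mem⟩
      (f := fun x : E 2 => ⟪x, ev φ⟫) (by fun_prop)
    exact ⟨x, hx, h⟩
  have hx0 : x ≠ 0 := by
    rintro rfl
    rw [inner_zero_left] at hxs
    exact hs.ne' hxs
  have hn : 0 < ‖x‖ := norm_pos_iff.2 hx0
  have hu : ‖(‖x‖⁻¹ • x)‖ = 1 := by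
    rw [norm_smul, norm_inv, norm_norm, inv_mul_cancel₀ hn.ne']
  have hxu : ‖x‖ • (‖x‖⁻¹ • x) = x := by
    rw [smul_smul, mul_inv_cancel₀ hn.ne', one_smul]
  have hip : ⟪‖x‖⁻¹ • x, ev φ⟫ = ‖x‖⁻¹ * supp K (ev φ) := by
    rw [real_inner_smul_left, hxs]
  have hpos : 0 < ⟪‖x‖⁻¹ • x, ev φ⟫ := by rw [hip]; positivity
  refine ⟨‖x‖⁻¹ • x, hu, hpos, le_antisymm ?_ ?_⟩
  · have h := d10_le_supp hK (d10_radial_mem hK hu) (ev φ)
    rwa [real_inner_smul_left] at h
  · have h := d10_le_radial hK hu hn.le (by rw [hxu]; exact hx)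
    calc supp K (ev φ) = ‖x‖ * ⟪‖x‖⁻¹ • x, ev φ⟫ := by
          rw [hip, ← mul_assoc, mul_inv_cancel₀ hn.ne', one_mul]
      _ ≤ _ := mul_le_mul_of_nonneg_right h hpos.le

theorem planar_supporting {K : Set (E 2)} (hK : SymBody K) {u : E 2} (hu : ‖u‖ = 1) :
    ∃ φ : ℝ, 0 < ⟪u, ev φ⟫ ∧ radial K u * ⟪u, ev φ⟫ = supp K (ev φ) := by
  obtain ⟨t, rfl⟩ := ev_surj hu
  have hgp := hK.gauge_pos (d10_ev_ne t)
  have hrad : radial K (ev t) = (gauge K (ev t))⁻¹ := hK.radial_eq (d10_ev_ne t)
  have hrp : 0 < radial K (ev t) := by rw [hrad]; positivity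
  have hb : radial K (ev t) • ev t ∉ interior K := by
    intro h
    have := interior_subset_gauge_lt_one K h
    rw [mem_ofPred_eq, hrad, gauge_smul_of_nonneg (by positivity), smul_eq_mul,
      inv_mul_cancel₀ hgp.ne'] at this
    exact lt_irrefl _ this
  obtain ⟨f, hf⟩ := geometric_hahn_banach_open_point hK.convex.interior isOpen_interior hb
  have h0 : (0 : E 2) ∈ interior K := mem_interior_iff_mem_nhds.2 (d10_nhds hK)
  have hf0 : 0 < f (radial K (ev t) • ev t) := by
    have := hf 0 h0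
    rwa [map_zero] at this
  have hfK : ∀ a ∈ K, f a ≤ f (radial K (ev t) • ev t) := by
    intro a ha
    have hcl : closure (interior K) = K := by
      rw [hK.convex.closure_interior_eq_closure_of_nonempty_interior ⟨0, h0⟩,
        hK.compact.isClosed.closure_eq]
    rw [← hcl] at ha
    have hsub : closure (interior K) ⊆ {a | f a ≤ f (radial K (ev t) • ev t)} :=
      closure_minimal (fun a ha => (hf a ha).le) (isClosed_le f.continuous continuous_const)
    exact hsub ha
  let w : E 2 := (InnerProductSpace.toDual ℝ (E 2)).symm f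
  have hw : ∀ x, ⟪w, x⟫ = f x := fun x => InnerProductSpace.toDual_symm_apply
  have hw0 : w ≠ 0 := by
    intro h
    rw [← hw, h, inner_zero_left] at hf0
    exact lt_irrefl _ hf0
  have hwn : 0 < ‖w‖ := norm_pos_iff.2 hw0
  have hwu : ‖(‖w‖⁻¹ • w)‖ = 1 := by
    rw [norm_smul, norm_inv, norm_norm, inv_mul_cancel₀ hwn.ne']
  obtain ⟨φ, hφ⟩ := ev_surj hwu
  have hip : ∀ x, ⟪x, ev φ⟫ = ‖w‖⁻¹ * f x := by
    intro x
    rw [← hφ, real_inner_smul_right, real_inner_comm, hw]
  refine ⟨φ, ?_, ?_⟩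
  · have h1 : 0 < ⟪radial K (ev t) • ev t, ev φ⟫ := by rw [hip]; positivity
    rw [real_inner_smul_left] at h1
    exact (mul_pos_iff_of_pos_left hrp).1 h1
  · rw [← real_inner_smul_left]
    apply le_antisymm
    · exact d10_le_supp hK (d10_radial_mem hK (ev_norm t)) _
    · refine csSup_le (Set.Nonempty.image _ ⟨0, hK.zero_mem⟩) ?_
      rintro _ ⟨x, hx, rfl⟩
      show ⟪x, ev φ⟫ ≤ ⟪radial K (ev t) • ev t, ev φ⟫
      rw [hip, hip]
      exact mul_le_mul_of_nonneg_left (hfK x hx) (by positivity)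

/-- the integral over the plane `E 2` in polar coordinates -/
private lemma d10_polar (f : E 2 → ℝ) :
    ∫ x, f x = ∫ q in polarCoord.target, q.1 * f (q.1 • ev q.2) := by
  have h1 : ∫ x, f x = ∫ q : ℝ × ℝ, f (!₂[q.1, q.2]) := by
    have e1 := (EuclideanSpace.volume_preserving_symm_measurableEquiv_toLp (Fin 2)).symm
    have e2 := (volume_preserving_finTwoArrow ℝ).symm
    have e3 := e1.comp e2
    rw [← (e3.integral_comp' (f := MeasurableEquiv.trans MeasurableEquiv.finTwoArrow.symm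
      (MeasurableEquiv.toLp 2 (Fin 2 → ℝ))) (g := f))]
    rfl
  rw [h1, ← integral_comp_polarCoord_symm]
  refine setIntegral_congr_fun polarCoord.open_target.measurableSet fun q _ => ?_
  simp only [smul_eq_mul]
  congr 2
  apply d10_ext <;> simp [ev]

private lemma d10_mem_iff {K : Set (E 2)} (hK : SymBody K) {r : ℝ} (hr : 0 < r) (t : ℝ) :
    r • ev t ∈ K ↔ r * gauge K (ev t) ≤ 1 := by
  rw [← hK.gauge_le_one, gauge_smul_of_nonneg hr.le, smul_eq_mul]

/-- polar coordinates for functions homogeneous of degree `p` on a symmetric body -/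
private lemma d10_int {K : Set (E 2)} (hK : SymBody K) {p : ℝ} (hp : 0 ≤ p) (f : E 2 → ℝ)
    (c : ℝ → ℝ) (hc : Continuous c) (hper : ∀ t, c (t + Real.pi) = c t)
    (hf : ∀ r t, 0 < r → f (r • ev t) = r ^ p * c t) :
    ∫ x in K, f x = 2 / (p + 2) * ∫ t in (0 : ℝ)..Real.pi, gauge K (ev t) ^ (-(p + 2)) * c t := by
  obtain ⟨R, hR, hKR⟩ := hK.toIsBody.exists_bound
  have hg := planar_gauge hK
  have hgc : Continuous fun θ => gauge K (ev θ) := hg.cont
  have hgp : ∀ θ, 0 < gauge K (ev θ) := hg.pos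
  obtain ⟨C, hC⟩ : ∃ C, ∀ t ∈ Icc (-Real.pi) Real.pi, ‖c t‖ ≤ C :=
    isCompact_Icc.exists_bound_of_continuousOn hc.continuousOn
  set S : Set (ℝ × ℝ) := {q | 0 < q.1 ∧ q.1 * gauge K (ev q.2) ≤ 1 ∧ q.2 ∈ Ioo (-Real.pi) Real.pi}
    with hS
  set G : ℝ × ℝ → ℝ := fun q => q.1 ^ (p + 1) * c q.2 with hG
  have hSm : MeasurableSet S := by
    have h1 : MeasurableSet {q : ℝ × ℝ | 0 < q.1} := measurableSet_lt measurable_const measurable_fst
    have h2 : MeasurableSet {q : ℝ × ℝ | q.1 * gauge K (ev q.2) ≤ 1} :=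
      measurableSet_le (measurable_fst.mul (hgc.measurable.comp measurable_snd)) measurable_const
    have h3 : MeasurableSet {q : ℝ × ℝ | q.2 ∈ Ioo (-Real.pi) Real.pi} :=
      measurable_snd measurableSet_Ioo
    exact h1.inter (h2.inter h3)
  have hSR : ∀ q ∈ S, 0 < q.1 ∧ q.1 ≤ R := by
    rintro q ⟨h1, h2, -⟩
    refine ⟨h1, ?_⟩
    have h4 := hKR ((d10_mem_iff hK h1 q.2).2 h2)
    rw [mem_closedBall_zero_iff, norm_smul, ev_norm, mul_one, Real.norm_eq_abs, abs_of_pos h1] at h4
    exact h4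
  have hGm : Measurable G :=
    (measurable_fst.pow_const (p + 1)).mul (hc.measurable.comp measurable_snd)
  have hGint : Integrable (S.indicator G) (volume.prod volume) := by
    rw [integrable_indicator_iff hSm]
    have hfin : (volume.prod volume : Measure (ℝ × ℝ)) S ≠ ⊤ := by
      have hsub : S ⊆ Icc 0 R ×ˢ Icc (-Real.pi) Real.pi := by
        rintro q hq
        exact ⟨⟨(hSR q hq).1.le, (hSR q hq).2⟩, Ioo_subset_Icc_self hq.2.2⟩
      refine ne_top_of_le_ne_top ?_ (measure_mono hsub)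
      rw [Measure.prod_prod, Real.volume_Icc, Real.volume_Icc]
      exact ENNReal.mul_ne_top ENNReal.ofReal_ne_top ENNReal.ofReal_ne_top
    refine Measure.integrableOn_of_bounded (M := R ^ (p + 1) * C) hfin hGm.aestronglyMeasurable ?_
    refine (ae_restrict_iff' hSm).2 (Eventually.of_forall fun q hq => ?_)
    have h1 := hSR q hq
    rw [hG]
    simp only [norm_mul]
    have h2 : ‖q.1 ^ (p + 1)‖ ≤ R ^ (p + 1) := by
      rw [Real.norm_eq_abs, abs_of_nonneg (Real.rpow_nonneg h1.1.le _)]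
      exact Real.rpow_le_rpow h1.1.le h1.2 (by linarith)
    exact mul_le_mul h2 (hC _ (Ioo_subset_Icc_self hq.2.2)) (norm_nonneg _)
      (Real.rpow_nonneg hR.le _)
  have step1 : ∫ x in K, f x = ∫ q, S.indicator G q ∂(volume.prod volume) := by
    rw [← integral_indicator hK.compact.measurableSet, d10_polar,
      ← integral_indicator polarCoord.open_target.measurableSet]
    refine integral_congr_ae (Eventually.of_forall fun q => ?_)
    show polarCoord.target.indicator (fun q => q.1 * K.indicator f (q.1 • ev q.2)) q =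
      S.indicator G q
    by_cases hq : q ∈ polarCoord.target
    · rw [indicator_of_mem hq]
      have hq' : 0 < q.1 ∧ q.2 ∈ Ioo (-Real.pi) Real.pi := ⟨hq.1, hq.2⟩
      by_cases hqK : q.1 • ev q.2 ∈ K
      · have hqS : q ∈ S := ⟨hq'.1, (d10_mem_iff hK hq'.1 _).1 hqK, hq'.2⟩
        rw [indicator_of_mem hqK, indicator_of_mem hqS, hf _ _ hq'.1, hG]
        simp only
        rw [Real.rpow_add_one hq'.1.ne']
        ring
      · have hqS : q ∉ S := fun h => hqK ((d10_mem_iff hK hq'.1 _).2 h.2.1)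
        rw [indicator_of_notMem hqK, indicator_of_notMem hqS, mul_zero]
    · have hqS : q ∉ S := fun h => hq ⟨h.1, h.2.2⟩
      rw [indicator_of_notMem hq, indicator_of_notMem hqS]
  have step2 : ∀ t : ℝ, ∫ r : ℝ, S.indicator G (r, t) =
      (Ioo (-Real.pi) Real.pi).indicator
        (fun t => (p + 2)⁻¹ * (gauge K (ev t) ^ (-(p + 2)) * c t)) t := by
    intro t
    by_cases ht : t ∈ Ioo (-Real.pi) Real.pi
    · rw [indicator_of_mem ht]
      have hgt := hgp t
      have h1 : (fun r : ℝ => S.indicator G (r, t)) =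
          (Ioc 0 (gauge K (ev t))⁻¹).indicator (fun r => r ^ (p + 1) * c t) := by
        funext r
        by_cases hr : r ∈ Ioc 0 (gauge K (ev t))⁻¹
        · have hS' : (r, t) ∈ S := by
            refine ⟨hr.1, ?_, ht⟩
            show r * gauge K (ev t) ≤ 1
            have := mul_le_mul_of_nonneg_right hr.2 hgt.le
            rwa [inv_mul_cancel₀ hgt.ne'] at this
          rw [indicator_of_mem hr, indicator_of_mem hS']
        · have hS' : (r, t) ∉ S := by
            intro h
            refine hr ⟨h.1, ?_⟩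
            have h2 : r * gauge K (ev t) ≤ 1 := h.2.1
            rw [← one_div, le_div_iff₀ hgt]
            exact h2
          rw [indicator_of_notMem hr, indicator_of_notMem hS']
      have hinv : 0 < (gauge K (ev t))⁻¹ := by positivity
      rw [h1, integral_indicator measurableSet_Ioc,
        ← intervalIntegral.integral_of_le hinv.le, intervalIntegral.integral_mul_const,
        integral_rpow (Or.inl (by linarith)), Real.zero_rpow (by linarith), sub_zero,
        show p + 1 + 1 = p + 2 by ring, Real.inv_rpow hgt.le, ← Real.rpow_neg hgt.le]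
      ring
    · rw [indicator_of_notMem ht]
      have h1 : (fun r : ℝ => S.indicator G (r, t)) = fun _ => 0 := by
        funext r
        exact indicator_of_notMem (fun h => ht h.2.2) _
      rw [h1, integral_zero]
  have hper2 : Function.Periodic (fun t => gauge K (ev t) ^ (-(p + 2)) * c t) Real.pi := by
    intro t
    show gauge K (ev (t + Real.pi)) ^ (-(p + 2)) * c (t + Real.pi) = _
    rw [hg.per t, hper t]
  have hFc : Continuous (fun t => gauge K (ev t) ^ (-(p + 2)) * c t) :=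
    (hgc.rpow_const fun t => Or.inl (hgp t).ne').mul hc
  rw [step1, integral_prod_symm _ hGint]
  simp_rw [step2]
  rw [integral_indicator measurableSet_Ioo, ← integral_Ioc_eq_integral_Ioo,
    ← intervalIntegral.integral_of_le (by linarith [Real.pi_pos]),
    intervalIntegral.integral_const_mul,
    ← intervalIntegral.integral_add_adjacent_intervals (a := -Real.pi) (b := 0) (c := Real.pi)
      (hFc.intervalIntegrable _ _) (hFc.intervalIntegrable _ _)]
  have h5 := hper2.intervalIntegral_add_eq (-Real.pi) 0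
  rw [neg_add_cancel, zero_add] at h5
  rw [h5]
  ring

theorem planar_moment {K : Set (E 2)} (hK : SymBody K) {p : ℝ} (hp : 0 < p) (φ : ℝ) :
    ∫ x in K, |⟪x, ev φ⟫| ^ p = 2 / (p + 2) * Gam (fun θ => gauge K (ev θ)) p φ := by
  refine d10_int hK hp.le (fun x => |⟪x, ev φ⟫| ^ p) (fun t => |Real.cos (t - φ)| ^ p) ?_ ?_ ?_
  · exact (Real.continuous_cos.comp (continuous_id.sub continuous_const)).abs.rpow_const
      fun _ => Or.inr hp.le
  · intro t
    show |Real.cos (t + Real.pi - φ)| ^ p = |Real.cos (t - φ)| ^ p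
    rw [show t + Real.pi - φ = (t - φ) + Real.pi by ring, Real.cos_add_pi, abs_neg]
  · intro r t hr
    show |⟪r • ev t, ev φ⟫| ^ p = r ^ p * |Real.cos (t - φ)| ^ p
    rw [real_inner_smul_left, d10_inner_ev, abs_mul, abs_of_pos hr,
      Real.mul_rpow hr.le (abs_nonneg _)]

theorem planar_vol {K : Set (E 2)} (hK : SymBody K) :
    volume.real K = ∫ t in (0 : ℝ)..Real.pi, gauge K (ev t) ^ (-2 : ℝ) := by
  have h := d10_int hK (le_refl 0) (fun _ => (1 : ℝ)) (fun _ => (1 : ℝ)) continuous_const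
    (fun _ => rfl) (fun r t _ => by simp)
  rw [setIntegral_const, smul_eq_mul, mul_one] at h
  rw [h]
  norm_num

end RMB
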