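import Pool.Agent.RMB.D1

/-!
# RMB-D2: the function `P = Z_p - (1-a²) χ`, and `Z_p`

* `Zp_odd`, `Zp_deriv`: `Z_p' = m_p - |a|^p` (`a |a|^p` has derivative `(p+1)|a|^p`).
* `Pf_deriv`: `P' = Z' + 2aχ - (1-a²)χ' = m_p - |a|^p + 2aχ - (aχ + m_p - |a|^p) = aχ`.
* `Pf_bound`: mean value inequality on `[a,b]`, `b < 1`, with `|aχ| ≤ 2`, then `b → 1`
  (`P(b) → Z_p(1) = m_p - 1/(p+1)` since `χ` is bounded): `|P(a) - (m_p - 1/(p+1))| ≤ 2(1-a)`.
* `Zp_bound`, `Pf_bdd`: crude bounds on `(-1,1)`.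
-/

set_option autoImplicit false

open MeasureTheory Set Metric Filter Topology
open scoped RealInnerProductSpace ENNReal

namespace RMB

/-- `P = Z_p - (1-a²) χ` -/
noncomputable def Pf (p : ℝ) (χ : ℝ → ℝ) (a : ℝ) : ℝ := Zp p a - (1 - a ^ 2) * χ a

variable {p : ℝ} {χ : ℝ → ℝ}

theorem Zp_odd (p a : ℝ) : Zp p (-a) = -Zp p a := by
  unfold Zp
  rw [abs_neg]
  ring

/-- the derivative of `a |a|^p` -/
private theorem d2_mul_abs_rpow (hp : 2 ≤ p) (a : ℝ) :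
    HasDerivAt (fun x : ℝ => x * |x| ^ p) ((p + 1) * |a| ^ p) a := by
  have hp1 : (1 : ℝ) < p := by linarith
  rcases eq_or_ne a 0 with rfl | ha
  · have h : HasDerivAt (fun x : ℝ => |x| ^ p) 0 0 := by
      have := hasDerivAt_abs_rpow (0 : ℝ) hp1
      simpa using this
    have h2 := (hasDerivAt_id (0 : ℝ)).mul h
    simp only [id, abs_zero, Real.zero_rpow (by linarith : p ≠ 0), mul_zero, add_zero] at h2 ⊢
    exact h2
  · have h := hasDerivAt_abs_rpow a hp1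
    have h2 := (hasDerivAt_id a).mul h
    refine h2.congr_deriv ?_
    have hpos : 0 < |a| := abs_pos.2 ha
    have e : |a| ^ p = |a| ^ (p - 2) * a ^ 2 := by
      have : |a| ^ (2 : ℝ) = a ^ 2 := by
        rw [Real.rpow_two, sq_abs]
      rw [← this, ← Real.rpow_add hpos]
      congr 1
      ring
    simp only [id]
    rw [e]
    ring

theorem Zp_deriv (hp : 2 ≤ p) (a : ℝ) : HasDerivAt (Zp p) (mcos p - |a| ^ p) a := by
  have h := ((hasDerivAt_id a).const_mul (mcos p)).sub ((d2_mul_abs_rpow hp a).div_const (p + 1))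
  have e : mcos p * 1 - (p + 1) * |a| ^ p / (p + 1) = mcos p - |a| ^ p := by
    have : p + 1 ≠ 0 := by linarith
    field_simp
  rw [e] at h
  exact h

theorem Pf_odd (hχ : IsChi p χ) (a : ℝ) : Pf p χ (-a) = -Pf p χ a := by
  unfold Pf
  rw [Zp_odd, hχ.odd]
  ring

theorem Pf_deriv (hp : 2 ≤ p) (hχ : IsChi p χ) {a : ℝ} (ha : a ∈ Ioo (-1 : ℝ) 1) :
    HasDerivAt (Pf p χ) (a * χ a) a := by
  have h1 : HasDerivAt (fun x : ℝ => 1 - x ^ 2) (-(2 * a)) a := by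
    have := ((hasDerivAt_pow 2 a).const_sub 1)
    simpa using this
  have h := (Zp_deriv hp a).sub (h1.mul (hχ.der a ha))
  refine h.congr_deriv ?_
  have hne : 1 - a ^ 2 ≠ 0 := by
    have : 0 < 1 - a ^ 2 := by nlinarith [ha.1, ha.2]
    exact this.ne'
  field_simp
  ring

theorem d2_Zp_cont (hp : 2 ≤ p) : Continuous (Zp p) :=
  continuous_iff_continuousAt.2 fun a => (Zp_deriv hp a).continuousAt

theorem Pf_bound (hp : 2 ≤ p) (hχ : IsChi p χ) {a : ℝ} (ha : a ∈ Ioo (-1 : ℝ) 1) :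
    |Pf p χ a - (mcos p - 1 / (p + 1))| ≤ 2 * (1 - a) := by
  -- for `a < b < 1`
  have key : ∀ b ∈ Ioo a 1, |Pf p χ b - Pf p χ a| ≤ 2 * (b - a) := by
    intro b hb
    have hab : a ≤ b := hb.1.le
    have hsub : ∀ x ∈ Icc a b, x ∈ Ioo (-1 : ℝ) 1 := fun x hx =>
      ⟨lt_of_lt_of_le ha.1 hx.1, lt_of_le_of_lt hx.2 hb.2⟩
    have h := norm_image_sub_le_of_norm_deriv_le_segment' (f := Pf p χ) (f' := fun x => x * χ x)
      (C := 2) (a := a) (b := b)
      (fun x hx => (Pf_deriv hp hχ (hsub x hx)).hasDerivWithinAt)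
      (fun x hx => by
        have hx' := hsub x ⟨hx.1, hx.2.le⟩
        rw [Real.norm_eq_abs, abs_mul]
        have h1 : |x| ≤ 1 := abs_le.2 ⟨hx'.1.le, hx'.2.le⟩
        have h2 := hχ.bdd x hx'
        calc |x| * |χ x| ≤ 1 * 2 := mul_le_mul h1 h2 (abs_nonneg _) zero_le_one
          _ = 2 := one_mul 2)
      b (right_mem_Icc.2 hab)
    rw [Real.norm_eq_abs] at h
    exact h
  -- the limit
  have hlim : Tendsto (fun b : ℝ => Pf p χ b) (𝓝[<] 1) (𝓝 (mcos p - 1 / (p + 1))) := by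
    have h1 : Tendsto (Zp p) (𝓝[<] 1) (𝓝 (mcos p - 1 / (p + 1))) := by
      have := ((d2_Zp_cont hp).tendsto 1).mono_left (nhdsWithin_le_nhds (s := Iio (1 : ℝ)))
      have e : Zp p 1 = mcos p - 1 / (p + 1) := by
        unfold Zp
        simp
      rwa [e] at this
    have h2 : Tendsto (fun b : ℝ => (1 - b ^ 2) * χ b) (𝓝[<] 1) (𝓝 0) := by
      have hz : Tendsto (fun b : ℝ => (1 - b ^ 2) * 2) (𝓝[<] 1) (𝓝 0) := by
        have hc : Continuous (fun b : ℝ => (1 - b ^ 2) * 2) := by fun_prop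
        have := (hc.tendsto 1).mono_left (nhdsWithin_le_nhds (s := Iio (1 : ℝ)))
        simpa using this
      refine squeeze_zero_norm' ?_ hz
      have hm : ∀ᶠ b in 𝓝[<] (1 : ℝ), b ∈ Ioo (-1 : ℝ) 1 :=
        Ioo_mem_nhdsLT (by norm_num)
      filter_upwards [hm] with b hb
      rw [Real.norm_eq_abs, abs_mul]
      have : 0 ≤ 1 - b ^ 2 := by nlinarith [hb.1, hb.2]
      rw [abs_of_nonneg this]
      exact mul_le_mul_of_nonneg_left (hχ.bdd b hb) this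
    have := h1.sub h2
    simpa [Pf] using this
  have hlim2 : Tendsto (fun b : ℝ => |Pf p χ b - Pf p χ a|) (𝓝[<] 1)
      (𝓝 |(mcos p - 1 / (p + 1)) - Pf p χ a|) := (hlim.sub_const _).abs
  have hlim3 : Tendsto (fun b : ℝ => 2 * (b - a)) (𝓝[<] 1) (𝓝 (2 * (1 - a))) := by
    have hc : Continuous (fun b : ℝ => 2 * (b - a)) := by fun_prop
    exact (hc.tendsto 1).mono_left nhdsWithin_le_nhds
  rw [abs_sub_comm]
  refine le_of_tendsto_of_tendsto hlim2 hlim3 ?_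
  have hm : ∀ᶠ b in 𝓝[<] (1 : ℝ), b ∈ Ioo a 1 := Ioo_mem_nhdsLT ha.2
  filter_upwards [hm] with b hb
  exact key b hb

theorem Pf_bdd (hp : 2 ≤ p) (hχ : IsChi p χ) {a : ℝ} (ha : a ∈ Ioo (-1 : ℝ) 1) :
    |Pf p χ a| ≤ 4 ∧ |Zp p a| ≤ 2 := by
  have hm := mcos_mem (p := p) (by linarith)
  have ha1 : |a| ≤ 1 := abs_le.2 ⟨ha.1.le, ha.2.le⟩
  have hZ : |Zp p a| ≤ 2 := by
    unfold Zp
    have h1 : |mcos p * a| ≤ 1 := by
      rw [abs_mul, abs_of_pos hm.1]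
      exact mul_le_one₀ hm.2 (abs_nonneg _) ha1
    have h2 : |a * |a| ^ p / (p + 1)| ≤ 1 := by
      rw [abs_div, abs_mul]
      have e1 : |(|a| ^ p)| ≤ 1 := by
        rw [abs_of_nonneg (Real.rpow_nonneg (abs_nonneg _) _)]
        exact Real.rpow_le_one (abs_nonneg _) ha1 (by linarith)
      have e2 : |a| * |(|a| ^ p)| ≤ 1 := mul_le_one₀ ha1 (abs_nonneg _) e1
      have e3 : 1 ≤ |p + 1| := by
        rw [abs_of_nonneg (by linarith)]
        linarith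
      rw [div_le_one (by linarith)]
      linarith
    calc |mcos p * a - a * |a| ^ p / (p + 1)| ≤ |mcos p * a| + |a * |a| ^ p / (p + 1)| :=
          abs_sub _ _
      _ ≤ 1 + 1 := add_le_add h1 h2
      _ = 2 := by norm_num
  refine ⟨?_, hZ⟩
  unfold Pf
  have h3 : |(1 - a ^ 2) * χ a| ≤ 2 := by
    rw [abs_mul]
    have e1 : |1 - a ^ 2| ≤ 1 := by
      rw [abs_le]
      constructor <;> nlinarith [ha.1, ha.2, sq_nonneg a]
    calc |1 - a ^ 2| * |χ a| ≤ 1 * 2 := mul_le_mul e1 (hχ.bdd a ha) (abs_nonneg _) zero_le_one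
      _ = 2 := one_mul 2
  calc |Zp p a - (1 - a ^ 2) * χ a| ≤ |Zp p a| + |(1 - a ^ 2) * χ a| := abs_sub _ _
    _ ≤ 2 + 2 := add_le_add hZ h3
    _ = 4 := by norm_num

end RMB
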