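import Pool.Agent.RMB.Defs

/-!
# RMB-D3: the functions `U`, `V`

`g` is `C²`, positive, `π`-periodic, `g + g'' > 0`.
* key: `φ(σ) = sin(s-σ) g'(t+σ) + cos(s-σ) g(t+σ)`, `φ' = sin(s-σ) (g+g'')(t+σ)`,
  `φ(0) = g(t) cos s + g'(t) sin s`, `φ(s) = g(t+s)`; so for `0 < s < π`: `U(t,s) g(t+s) = φ(0) < φ(s)`,
  i.e. `U < 1`, and `0 ≤ φ(s) - φ(0) ≤ s² max(g+g'')` (`max` exists by periodicity and continuity): `one_sub_Uf`.
* `Uf_pi_sub`: `U(t,π-s) = -U_{g~}(-t,s)` with `g~(t) = g(-t)` (periodicity), which gives `U > -1`.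
* `Vf_eq`: `V(t,s) = U_{g~}(-t-s,s)`; so `-1 < V < 1`.
* `Uf_symm`: `U(t+s,π-s) = -V(t,s)`, `V(t+s,π-s) = -U(t,s)` (periodicity).
* `gauge_bounds`: `0 < a ≤ g ≤ b` and `|g'| ≤ b`, `0 < g + g'' ≤ b`.
-/

set_option autoImplicit false

open MeasureTheory Set Metric Filter Topology
open scoped RealInnerProductSpace ENNReal

namespace RMB

variable {g : ℝ → ℝ}

private theorem d3_deriv_neg (f : ℝ → ℝ) :
    deriv (fun t => f (-t)) = fun t => -deriv f (-t) := by
  funext t
  exact deriv_comp_neg f t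

private theorem d3_deriv2_neg (f : ℝ → ℝ) (t : ℝ) :
    deriv (deriv (fun t => f (-t))) t = deriv (deriv f) (-t) := by
  rw [d3_deriv_neg]
  have h : (fun t => -deriv f (-t)) = -(fun t => deriv f (-t)) := rfl
  rw [h, deriv.neg, d3_deriv_neg (deriv f)]
  simp

theorem SmoothGauge.refl (hg : SmoothGauge g) : SmoothGauge (fun t => g (-t)) where
  smooth := hg.smooth.comp contDiff_neg
  pos t := hg.pos (-t)
  per t := by
    have h := hg.per (-(t + Real.pi))
    have e : -(t + Real.pi) + Real.pi = -t := by ring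
    rw [e] at h
    exact h.symm
  conv t := by
    rw [d3_deriv2_neg]
    exact hg.conv (-t)

theorem deriv_per (hg : SmoothGauge g) (t : ℝ) : deriv g (t + Real.pi) = deriv g t := by
  have h : (fun x => g (x + Real.pi)) = g := funext hg.per
  have h2 := deriv_comp_add_const g Real.pi t
  rw [h] at h2
  exact h2.symm

theorem deriv_deriv_per (hg : SmoothGauge g) (t : ℝ) :
    deriv (deriv g) (t + Real.pi) = deriv (deriv g) t := by
  have h : (fun x => deriv g (x + Real.pi)) = deriv g := funext (deriv_per hg)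
  have h2 := deriv_comp_add_const (deriv g) Real.pi t
  rw [h] at h2
  exact h2.symm

private theorem d3_cont (hg : SmoothGauge g) : Continuous g := hg.smooth.continuous

private theorem d3_contDiff1 (hg : SmoothGauge g) : ContDiff ℝ 1 (deriv g) := by
  have h : ContDiff ℝ (1 + 1) g := by
    have := hg.smooth
    norm_num
    exact this
  exact (contDiff_succ_iff_deriv.mp h).2.2

private theorem d3_cont' (hg : SmoothGauge g) : Continuous (deriv g) :=
  (d3_contDiff1 hg).continuous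

private theorem d3_cont'' (hg : SmoothGauge g) : Continuous (deriv (deriv g)) :=
  (d3_contDiff1 hg).continuous_deriv (le_refl 1)

private theorem d3_hasDeriv (hg : SmoothGauge g) (t : ℝ) : HasDerivAt g (deriv g t) t :=
  (hg.smooth.differentiable (by norm_num) t).hasDerivAt

private theorem d3_hasDeriv' (hg : SmoothGauge g) (t : ℝ) :
    HasDerivAt (deriv g) (deriv (deriv g) t) t :=
  ((d3_contDiff1 hg).differentiable (by norm_num) t).hasDerivAt

private theorem d3_bdd {F : ℝ → ℝ} (hF : Continuous F) (hp : ∀ t, F (t + Real.pi) = F t) :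
    ∃ M : ℝ, ∀ t, F t ≤ M := by
  obtain ⟨x, _, hx⟩ := (isCompact_Icc (a := (0 : ℝ)) (b := Real.pi)).exists_isMaxOn
    (nonempty_Icc.mpr Real.pi_pos.le) hF.continuousOn
  refine ⟨F x, fun t => ?_⟩
  obtain ⟨y, hy, hty⟩ := Function.Periodic.exists_mem_Ico₀ (f := F) hp Real.pi_pos t
  rw [hty]
  exact hx (Ico_subset_Icc_self hy)

private theorem d3_bddbelow {F : ℝ → ℝ} (hF : Continuous F) (hp : ∀ t, F (t + Real.pi) = F t)
    (hpos : ∀ t, 0 < F t) : ∃ a : ℝ, 0 < a ∧ ∀ t, a ≤ F t := by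
  obtain ⟨x, _, hx⟩ := (isCompact_Icc (a := (0 : ℝ)) (b := Real.pi)).exists_isMinOn
    (nonempty_Icc.mpr Real.pi_pos.le) hF.continuousOn
  refine ⟨F x, hpos x, fun t => ?_⟩
  obtain ⟨y, hy, hty⟩ := Function.Periodic.exists_mem_Ico₀ (f := F) hp Real.pi_pos t
  rw [hty]
  exact hx (Ico_subset_Icc_self hy)

theorem SmoothGauge.bounds (hg : SmoothGauge g) : ∃ a b : ℝ, 0 < a ∧
    ∀ t, a ≤ g t ∧ g t ≤ b ∧ |deriv g t| ≤ b ∧ g t + deriv (deriv g) t ≤ b := by
  obtain ⟨a, ha, ha'⟩ := d3_bddbelow (d3_cont hg) hg.per hg.pos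
  obtain ⟨b1, hb1⟩ := d3_bdd (d3_cont hg) hg.per
  obtain ⟨b2, hb2⟩ := d3_bdd (F := fun t => |deriv g t|) (d3_cont' hg).abs
    (fun t => by simp only [deriv_per hg])
  obtain ⟨b3, hb3⟩ := d3_bdd (F := fun t => g t + deriv (deriv g) t)
    ((d3_cont hg).add (d3_cont'' hg)) (fun t => by simp only [hg.per, deriv_deriv_per hg])
  refine ⟨a, max b1 (max b2 b3), ha, fun t => ⟨ha' t, ?_, ?_, ?_⟩⟩
  · exact (hb1 t).trans (le_max_left _ _)
  · exact (hb2 t).trans ((le_max_left _ _).trans (le_max_right _ _))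
  · exact (hb3 t).trans ((le_max_right _ _).trans (le_max_right _ _))

private noncomputable def d3_phi (g : ℝ → ℝ) (t s σ : ℝ) : ℝ :=
  Real.sin (s - σ) * deriv g (t + σ) + Real.cos (s - σ) * g (t + σ)

private theorem d3_phi_deriv (hg : SmoothGauge g) (t s σ : ℝ) :
    HasDerivAt (d3_phi g t s) (Real.sin (s - σ) * (g (t + σ) + deriv (deriv g) (t + σ))) σ := by
  have h1 : HasDerivAt (fun x : ℝ => s - x) (-1) σ := by
    simpa using (hasDerivAt_id σ).const_sub s
  have h2 : HasDerivAt (fun x : ℝ => t + x) 1 σ := by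
    simpa using (hasDerivAt_id σ).const_add t
  have hs : HasDerivAt (fun x : ℝ => Real.sin (s - x)) (Real.cos (s - σ) * (-1)) σ := h1.sin
  have hc : HasDerivAt (fun x : ℝ => Real.cos (s - x)) (-Real.sin (s - σ) * (-1)) σ := h1.cos
  have hg1 : HasDerivAt (fun x : ℝ => g (t + x)) (deriv g (t + σ) * 1) σ :=
    (d3_hasDeriv hg (t + σ)).comp σ h2
  have hg2 : HasDerivAt (fun x : ℝ => deriv g (t + x)) (deriv (deriv g) (t + σ) * 1) σ :=
    (d3_hasDeriv' hg (t + σ)).comp σ h2
  have h := (hs.mul hg2).add (hc.mul hg1)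
  refine h.congr_deriv ?_
  ring

private theorem d3_phi_zero (g : ℝ → ℝ) (t s : ℝ) :
    d3_phi g t s 0 = g t * Real.cos s + deriv g t * Real.sin s := by
  unfold d3_phi
  rw [sub_zero, add_zero]
  ring

private theorem d3_phi_self (g : ℝ → ℝ) (t s : ℝ) : d3_phi g t s s = g (t + s) := by
  unfold d3_phi
  rw [sub_self, Real.sin_zero, Real.cos_zero]
  ring

private theorem d3_Uf_eq (g : ℝ → ℝ) (t s : ℝ) : Uf g t s = d3_phi g t s 0 / g (t + s) := by
  rw [d3_phi_zero]
  rfl

private theorem d3_lt (hg : SmoothGauge g) (t : ℝ) {s : ℝ} (hs : s ∈ Ioo (0 : ℝ) Real.pi) :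
    d3_phi g t s 0 < d3_phi g t s s := by
  have hmono : StrictMonoOn (d3_phi g t s) (Icc 0 s) := by
    apply strictMonoOn_of_deriv_pos (convex_Icc 0 s)
    · exact fun σ _ => (d3_phi_deriv hg t s σ).continuousAt.continuousWithinAt
    · intro σ hσ
      rw [interior_Icc] at hσ
      rw [(d3_phi_deriv hg t s σ).deriv]
      have h1 : 0 < Real.sin (s - σ) := Real.sin_pos_of_pos_of_lt_pi (by linarith [hσ.2])
        (by linarith [hσ.1, hs.2])
      exact mul_pos h1 (hg.conv _)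
  exact hmono (left_mem_Icc.mpr hs.1.le) (right_mem_Icc.mpr hs.1.le) hs.1

private theorem d3_Uf_lt (hg : SmoothGauge g) (t : ℝ) {s : ℝ} (hs : s ∈ Ioo (0 : ℝ) Real.pi) :
    Uf g t s < 1 := by
  rw [d3_Uf_eq, div_lt_one (hg.pos _)]
  have h := d3_lt hg t hs
  rwa [d3_phi_self] at h

theorem Uf_pi_sub (hg : SmoothGauge g) (t s : ℝ) :
    Uf g t (Real.pi - s) = -Uf (fun t => g (-t)) (-t) s := by
  unfold Uf
  rw [d3_deriv_neg]
  have e1 : g (t + (Real.pi - s)) = g (-(-t + s)) := by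
    have e : t + (Real.pi - s) = -(-t + s) + Real.pi := by ring
    rw [e, hg.per]
  simp only [neg_neg, Real.cos_pi_sub, Real.sin_pi_sub]
  rw [e1, ← neg_div]
  congr 1
  ring

theorem Uf_mem (hg : SmoothGauge g) (t : ℝ) {s : ℝ} (hs : s ∈ Ioo (0 : ℝ) Real.pi) :
    Uf g t s ∈ Ioo (-1 : ℝ) 1 := by
  refine ⟨?_, d3_Uf_lt hg t hs⟩
  have hs' : Real.pi - s ∈ Ioo (0 : ℝ) Real.pi := ⟨by linarith [hs.2], by linarith [hs.1]⟩
  have h1 := Uf_pi_sub hg t (Real.pi - s)
  have e : Real.pi - (Real.pi - s) = s := by ring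
  rw [e] at h1
  rw [h1]
  have h2 := d3_Uf_lt hg.refl (-t) hs'
  linarith

private theorem d3_Vf_eq (g : ℝ → ℝ) (t s : ℝ) :
    Vf g t s = Uf (fun t => g (-t)) (-t - s) s := by
  unfold Vf Uf
  rw [d3_deriv_neg]
  have e1 : -(-t - s) = t + s := by ring
  have e2 : -(-t - s + s) = t := by ring
  simp only [e1, e2]
  congr 1
  ring

theorem Vf_mem (hg : SmoothGauge g) (t : ℝ) {s : ℝ} (hs : s ∈ Ioo (0 : ℝ) Real.pi) :
    Vf g t s ∈ Ioo (-1 : ℝ) 1 := by
  rw [d3_Vf_eq]
  exact Uf_mem hg.refl _ hs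

theorem one_sub_Uf (hg : SmoothGauge g) : ∃ C > 0, ∀ t : ℝ, ∀ s ∈ Ioo (0 : ℝ) Real.pi,
    1 - Uf g t s ≤ C * s ^ 2 := by
  obtain ⟨a, b, ha, hab⟩ := hg.bounds
  have hb : 0 < b := lt_of_lt_of_le (hg.pos 0) (hab 0).2.1
  refine ⟨b / a, div_pos hb ha, fun t s hs => ?_⟩
  have hgs : 0 < g (t + s) := hg.pos _
  have hmv : d3_phi g t s s - d3_phi g t s 0 ≤ (s * b) * (s - 0) := by
    apply (convex_Icc (0 : ℝ) s).image_sub_le_mul_sub_of_deriv_le
    · exact fun σ _ => (d3_phi_deriv hg t s σ).continuousAt.continuousWithinAt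
    · exact fun σ _ => (d3_phi_deriv hg t s σ).differentiableAt.differentiableWithinAt
    · intro σ hσ
      rw [interior_Icc] at hσ
      rw [(d3_phi_deriv hg t s σ).deriv]
      have h1 : 0 < Real.sin (s - σ) := Real.sin_pos_of_pos_of_lt_pi (by linarith [hσ.2])
        (by linarith [hσ.1, hs.2])
      have h2 : Real.sin (s - σ) ≤ s := by
        have h3 := Real.sin_le (show 0 ≤ s - σ by linarith [hσ.2])
        linarith [hσ.1]
      exact mul_le_mul h2 (hab _).2.2.2 (hg.conv _).le hs.1.le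
    · exact left_mem_Icc.mpr hs.1.le
    · exact right_mem_Icc.mpr hs.1.le
    · exact hs.1.le
  rw [d3_phi_self] at hmv
  have e : 1 - Uf g t s = (g (t + s) - d3_phi g t s 0) / g (t + s) := by
    rw [d3_Uf_eq]
    field_simp
  rw [e]
  have h1 : (g (t + s) - d3_phi g t s 0) / g (t + s) ≤ (s * b * (s - 0)) / g (t + s) :=
    div_le_div_of_nonneg_right hmv hgs.le
  have h2 : (s * b * (s - 0)) / g (t + s) ≤ (s * b * (s - 0)) / a := by
    apply div_le_div_of_nonneg_left _ ha (hab _).1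
    have := hs.1
    rw [sub_zero]
    positivity
  have h3 : (s * b * (s - 0)) / a = b / a * s ^ 2 := by ring
  linarith

theorem Uf_symm (hg : SmoothGauge g) (t s : ℝ) :
    Uf g (t + s) (Real.pi - s) = -Vf g t s ∧ Vf g (t + s) (Real.pi - s) = -Uf g t s := by
  have e : t + s + (Real.pi - s) = t + Real.pi := by ring
  constructor
  · unfold Uf Vf
    rw [e, hg.per, Real.cos_pi_sub, Real.sin_pi_sub, ← neg_div]
    congr 1
    ring
  · unfold Uf Vf
    rw [e, hg.per, deriv_per hg, Real.cos_pi_sub, Real.sin_pi_sub, ← neg_div]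
    congr 1
    ring

theorem Uf_cont (hg : SmoothGauge g) : Continuous (fun z : ℝ × ℝ => Uf g z.1 z.2) := by
  unfold Uf
  have h1 := d3_cont hg
  have h2 := d3_cont' hg
  refine Continuous.div ?_ ?_ (fun z => (hg.pos _).ne')
  · exact ((h1.comp continuous_fst).mul (Real.continuous_cos.comp continuous_snd)).add
      ((h2.comp continuous_fst).mul (Real.continuous_sin.comp continuous_snd))
  · exact h1.comp (continuous_fst.add continuous_snd)

theorem Vf_cont (hg : SmoothGauge g) : Continuous (fun z : ℝ × ℝ => Vf g z.1 z.2) := by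
  unfold Vf
  have h1 := d3_cont hg
  have h2 := d3_cont' hg
  refine Continuous.div ?_ ?_ (fun z => (hg.pos _).ne')
  · exact ((h1.comp (continuous_fst.add continuous_snd)).mul
      (Real.continuous_cos.comp continuous_snd)).sub
      ((h2.comp (continuous_fst.add continuous_snd)).mul
        (Real.continuous_sin.comp continuous_snd))
  · exact h1.comp continuous_fst

theorem Uf_per (hg : SmoothGauge g) (t s : ℝ) : Uf g (t + Real.pi) s = Uf g t s := by
  unfold Uf
  have e : t + Real.pi + s = t + s + Real.pi := by ring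
  rw [e, hg.per, hg.per, deriv_per hg]

theorem Vf_per (hg : SmoothGauge g) (t s : ℝ) : Vf g (t + Real.pi) s = Vf g t s := by
  unfold Vf
  have e : t + Real.pi + s = t + s + Real.pi := by ring
  rw [e, hg.per, hg.per, deriv_per hg]

end RMB
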