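import Pool.Agent.RMB.D2
import Pool.Agent.RMB.D3

/-!
# RMB-D4: the pointwise identity

`W(t,s) = g(t)/(g(t+s) sin s) Z(U)`, `B(t,s) = W(t,s) - g(t+s)/(g(t) sin s) P(U)`, `U = Uf g t s`,
`V = Vf g t s`.  For `0 < s < π`:

`g(t)(g(t)+g''(t)) g(t+s)^(-2) (|U|^p - m_p) = -∂_t W + ∂_s B - (U-V)(χ(U) - Z(U))/sin² s`.

PROOF.  Write `c = cos s`, `S = sin s`, `g₀ = g t`, `g₁ = g' t`, `g₂ = g'' t`, `h₀ = g(t+s)`,
`h₁ = g'(t+s)`.  `U = (g₀c + g₁S)/h₀`, `V = (h₀c - h₁S)/g₀`,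
`U_t = (g₁c + g₂S)/h₀ - (g₀c + g₁S)h₁/h₀²`, `U_s = (-g₀S + g₁c)/h₀ - (g₀c + g₁S)h₁/h₀²`,
`W_t = (g₁/h₀ - g₀h₁/h₀²)/S · Z(U) + g₀/(h₀S) (m_p - |U|^p) U_t`,
`W_s = (-g₀h₁/(h₀²S) - g₀c/(h₀S²)) Z(U) + g₀/(h₀S) (m_p - |U|^p) U_s`,
so (as `U_s - U_t = -S(g₀+g₂)/h₀`)
`-W_t + W_s = g₀(g₀+g₂)/h₀² (|U|^p - m_p) - U Z(U)/S²`;
`Y = h₀/(g₀S) P(U)`: `Y_s = (h₁/(g₀S) - h₀c/(g₀S²)) P(U) + h₀/(g₀S) U χ(U) U_s
   = (-V P(U) + U χ(U) (U V - 1))/S²` (because `U_s h₀/(g₀S) = (U V - 1)/S²`, using `c²+S²=1`);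
and `-U Z + V P - U χ (U V - 1) = (U - V)(χ - Z)(U)` as `P = Z - (1-U²)χ`.
Only `-W_t + B_s` and continuity matter below: `Wt`, `Bs` are the explicit formulas above
(`B = W - Y`); they are continuous on `{0 < s < π}` (`U ∈ (-1,1)` there, and `χ` is differentiable,
hence continuous, on `(-1,1)`).
-/

set_option autoImplicit false

open MeasureTheory Set Metric Filter Topology
open scoped RealInnerProductSpace ENNReal

namespace RMB

variable {g : ℝ → ℝ} {p : ℝ} {χ : ℝ → ℝ}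

/-- see the header -/
noncomputable def Wf (g : ℝ → ℝ) (p : ℝ) (t s : ℝ) : ℝ :=
  g t / (g (t + s) * Real.sin s) * Zp p (Uf g t s)

/-- see the header -/
noncomputable def Bf (g : ℝ → ℝ) (p : ℝ) (χ : ℝ → ℝ) (t s : ℝ) : ℝ :=
  Wf g p t s - g (t + s) / (g t * Real.sin s) * Pf p χ (Uf g t s)

/-- the last term: `(U-V)(χ-Z)(U)/sin² s` -/
noncomputable def Hf (g : ℝ → ℝ) (p : ℝ) (χ : ℝ → ℝ) (t s : ℝ) : ℝ :=
  (Uf g t s - Vf g t s) * (χ (Uf g t s) - Zp p (Uf g t s)) / Real.sin s ^ 2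

/-- `U_t` -/
private noncomputable def Ut (g : ℝ → ℝ) (t s : ℝ) : ℝ :=
  (deriv g t * Real.cos s + deriv (deriv g) t * Real.sin s) / g (t + s) -
    (g t * Real.cos s + deriv g t * Real.sin s) * deriv g (t + s) / g (t + s) ^ 2

/-- `U_s` -/
private noncomputable def Us (g : ℝ → ℝ) (t s : ℝ) : ℝ :=
  (deriv g t * Real.cos s - g t * Real.sin s) / g (t + s) -
    (g t * Real.cos s + deriv g t * Real.sin s) * deriv g (t + s) / g (t + s) ^ 2

/-- `W_t` -/
private noncomputable def WtF (g : ℝ → ℝ) (p : ℝ) (t s : ℝ) : ℝ :=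
  (deriv g t / g (t + s) - g t * deriv g (t + s) / g (t + s) ^ 2) / Real.sin s * Zp p (Uf g t s) +
    g t / (g (t + s) * Real.sin s) * ((mcos p - |Uf g t s| ^ p) * Ut g t s)

/-- `W_s` -/
private noncomputable def WsF (g : ℝ → ℝ) (p : ℝ) (t s : ℝ) : ℝ :=
  -(g t * (deriv g (t + s) * Real.sin s + g (t + s) * Real.cos s)) /
    (g (t + s) * Real.sin s) ^ 2 * Zp p (Uf g t s) +
    g t / (g (t + s) * Real.sin s) * ((mcos p - |Uf g t s| ^ p) * Us g t s)

/-- `Y_s` -/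
private noncomputable def YsF (g : ℝ → ℝ) (p : ℝ) (χ : ℝ → ℝ) (t s : ℝ) : ℝ :=
  (deriv g (t + s) * (g t * Real.sin s) - g (t + s) * (g t * Real.cos s)) /
    (g t * Real.sin s) ^ 2 * Pf p χ (Uf g t s) +
    g (t + s) / (g t * Real.sin s) * (Uf g t s * χ (Uf g t s) * Us g t s)

private theorem D4_hd (hg : SmoothGauge g) (t : ℝ) : HasDerivAt g (deriv g t) t :=
  ((hg.smooth.differentiable (by norm_num)) t).hasDerivAt

private theorem D4_c1 (hg : SmoothGauge g) : ContDiff ℝ 1 (deriv g) := by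
  have h : ContDiff ℝ (1 + 1) g := by
    have := hg.smooth
    norm_num
    exact this
  exact (contDiff_succ_iff_deriv.mp h).2.2

private theorem D4_hdd (hg : SmoothGauge g) (t : ℝ) :
    HasDerivAt (deriv g) (deriv (deriv g) t) t :=
  (((D4_c1 hg).differentiable (by norm_num)) t).hasDerivAt

private theorem D4_cdd (hg : SmoothGauge g) : Continuous (deriv (deriv g)) :=
  (D4_c1 hg).continuous_deriv (by norm_num)

private theorem hasDeriv_Ut (hg : SmoothGauge g) (t s : ℝ) :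
    HasDerivAt (fun t => Uf g t s) (Ut g t s) t := by
  have h1 := D4_hd hg t
  have h2 : HasDerivAt (fun t => g (t + s)) (deriv g (t + s)) t :=
    (D4_hd hg (t + s)).comp_add_const t s
  have h3 := D4_hdd hg t
  have hne : g (t + s) ≠ 0 := (hg.pos _).ne'
  have h4 := ((h1.mul_const (Real.cos s)).add (h3.mul_const (Real.sin s))).div h2 hne
  refine h4.congr_deriv ?_
  simp only [Ut, Pi.add_apply]
  field_simp

private theorem hasDeriv_Us (hg : SmoothGauge g) (t s : ℝ) :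
    HasDerivAt (fun s => Uf g t s) (Us g t s) s := by
  have h2 : HasDerivAt (fun s => g (t + s)) (deriv g (t + s)) s :=
    (D4_hd hg (t + s)).comp_const_add t s
  have hne : g (t + s) ≠ 0 := (hg.pos _).ne'
  have h4 := (((Real.hasDerivAt_cos s).const_mul (g t)).add
    ((Real.hasDerivAt_sin s).const_mul (deriv g t))).div h2 hne
  refine h4.congr_deriv ?_
  simp only [Us, Pi.add_apply]
  field_simp
  ring

theorem pointwise (hg : SmoothGauge g) (hp : 2 ≤ p) (hχ : IsChi p χ) :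
    ∃ Wt Bs : ℝ → ℝ → ℝ,
      ContinuousOn (fun z : ℝ × ℝ => Wt z.1 z.2) (univ ×ˢ Ioo (0 : ℝ) Real.pi) ∧
      ContinuousOn (fun z : ℝ × ℝ => Bs z.1 z.2) (univ ×ˢ Ioo (0 : ℝ) Real.pi) ∧
      (∀ t : ℝ, ∀ s ∈ Ioo (0 : ℝ) Real.pi,
        HasDerivAt (fun t => Wf g p t s) (Wt t s) t ∧
        HasDerivAt (fun s => Bf g p χ t s) (Bs t s) s ∧
        g t * (g t + deriv (deriv g) t) * g (t + s) ^ (-2 : ℝ) * (|Uf g t s| ^ p - mcos p) =
          -Wt t s + Bs t s - Hf g p χ t s) := by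
  have hgc : Continuous g := hg.smooth.continuous
  have hg1c : Continuous (deriv g) := (D4_c1 hg).continuous
  have hg2c := D4_cdd hg
  have hSne : ∀ s ∈ Ioo (0 : ℝ) Real.pi, Real.sin s ≠ 0 := fun s hs =>
    (Real.sin_pos_of_pos_of_lt_pi hs.1 hs.2).ne'
  have hgne : ∀ t, g t ≠ 0 := fun t => (hg.pos t).ne'
  -- continuity of all ingredients on the strip
  have a0 : ContinuousOn (fun z : ℝ × ℝ => g z.1) (univ ×ˢ Ioo (0 : ℝ) Real.pi) :=
    (hgc.comp continuous_fst).continuousOn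
  have a1 : ContinuousOn (fun z : ℝ × ℝ => deriv g z.1) (univ ×ˢ Ioo (0 : ℝ) Real.pi) :=
    (hg1c.comp continuous_fst).continuousOn
  have a2 : ContinuousOn (fun z : ℝ × ℝ => deriv (deriv g) z.1) (univ ×ˢ Ioo (0 : ℝ) Real.pi) :=
    (hg2c.comp continuous_fst).continuousOn
  have b0 : ContinuousOn (fun z : ℝ × ℝ => g (z.1 + z.2)) (univ ×ˢ Ioo (0 : ℝ) Real.pi) :=
    (hgc.comp (continuous_fst.add continuous_snd)).continuousOn
  have b1 : ContinuousOn (fun z : ℝ × ℝ => deriv g (z.1 + z.2)) (univ ×ˢ Ioo (0 : ℝ) Real.pi) :=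
    (hg1c.comp (continuous_fst.add continuous_snd)).continuousOn
  have ac : ContinuousOn (fun z : ℝ × ℝ => Real.cos z.2) (univ ×ˢ Ioo (0 : ℝ) Real.pi) :=
    (Real.continuous_cos.comp continuous_snd).continuousOn
  have as : ContinuousOn (fun z : ℝ × ℝ => Real.sin z.2) (univ ×ˢ Ioo (0 : ℝ) Real.pi) :=
    (Real.continuous_sin.comp continuous_snd).continuousOn
  have n0 : ∀ z ∈ (univ ×ˢ Ioo (0 : ℝ) Real.pi : Set (ℝ × ℝ)), g z.1 ≠ 0 := fun z _ => hgne _
  have m0 : ∀ z ∈ (univ ×ˢ Ioo (0 : ℝ) Real.pi : Set (ℝ × ℝ)), g (z.1 + z.2) ≠ 0 :=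
    fun z _ => hgne _
  have ms : ∀ z ∈ (univ ×ˢ Ioo (0 : ℝ) Real.pi : Set (ℝ × ℝ)), Real.sin z.2 ≠ 0 :=
    fun z hz => hSne _ hz.2
  have cU : ContinuousOn (fun z : ℝ × ℝ => Uf g z.1 z.2) (univ ×ˢ Ioo (0 : ℝ) Real.pi) :=
    (Uf_cont hg).continuousOn
  have hUm : MapsTo (fun z : ℝ × ℝ => Uf g z.1 z.2) (univ ×ˢ Ioo (0 : ℝ) Real.pi) (Ioo (-1) 1) :=
    fun z hz => Uf_mem hg z.1 hz.2
  have hZc : Continuous (Zp p) := by
    rw [continuous_iff_continuousAt]
    intro a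
    exact (Zp_deriv hp a).continuousAt
  have hχc : ContinuousOn χ (Ioo (-1) 1) := fun a ha => (hχ.der a ha).continuousAt.continuousWithinAt
  have cZ : ContinuousOn (fun z : ℝ × ℝ => Zp p (Uf g z.1 z.2)) (univ ×ˢ Ioo (0 : ℝ) Real.pi) :=
    hZc.comp_continuousOn cU
  have cX : ContinuousOn (fun z : ℝ × ℝ => χ (Uf g z.1 z.2)) (univ ×ˢ Ioo (0 : ℝ) Real.pi) :=
    hχc.comp cU hUm
  have cA : ContinuousOn (fun z : ℝ × ℝ => |Uf g z.1 z.2| ^ p) (univ ×ˢ Ioo (0 : ℝ) Real.pi) :=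
    cU.abs.rpow_const (fun _ _ => Or.inr (by linarith))
  have cP : ContinuousOn (fun z : ℝ × ℝ => Pf p χ (Uf g z.1 z.2)) (univ ×ˢ Ioo (0 : ℝ) Real.pi) :=
    cZ.sub ((continuousOn_const.sub (cU.pow 2)).mul cX)
  have cUt : ContinuousOn (fun z : ℝ × ℝ => Ut g z.1 z.2) (univ ×ˢ Ioo (0 : ℝ) Real.pi) :=
    (((a1.mul ac).add (a2.mul as)).div b0 m0).sub
      ((((a0.mul ac).add (a1.mul as)).mul b1).div (b0.pow 2) (fun z hz => pow_ne_zero 2 (m0 z hz)))
  have cUs : ContinuousOn (fun z : ℝ × ℝ => Us g z.1 z.2) (univ ×ˢ Ioo (0 : ℝ) Real.pi) :=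
    (((a1.mul ac).sub (a0.mul as)).div b0 m0).sub
      ((((a0.mul ac).add (a1.mul as)).mul b1).div (b0.pow 2) (fun z hz => pow_ne_zero 2 (m0 z hz)))
  refine ⟨WtF g p, fun t s => WsF g p t s - YsF g p χ t s, ?_, ?_, ?_⟩
  · exact ((((a1.div b0 m0).sub ((a0.mul b1).div (b0.pow 2)
      (fun z hz => pow_ne_zero 2 (m0 z hz)))).div as ms).mul cZ).add
      ((a0.div (b0.mul as) (fun z hz => mul_ne_zero (m0 z hz) (ms z hz))).mul
        ((continuousOn_const.sub cA).mul cUt))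
  · have cW : ContinuousOn (fun z : ℝ × ℝ => WsF g p z.1 z.2) (univ ×ˢ Ioo (0 : ℝ) Real.pi) :=
      (((a0.mul ((b1.mul as).add (b0.mul ac))).neg.div ((b0.mul as).pow 2)
        (fun z hz => pow_ne_zero 2 (mul_ne_zero (m0 z hz) (ms z hz)))).mul cZ).add
      ((a0.div (b0.mul as) (fun z hz => mul_ne_zero (m0 z hz) (ms z hz))).mul
        ((continuousOn_const.sub cA).mul cUs))
    have cY : ContinuousOn (fun z : ℝ × ℝ => YsF g p χ z.1 z.2) (univ ×ˢ Ioo (0 : ℝ) Real.pi) :=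
      ((((b1.mul (a0.mul as)).sub (b0.mul (a0.mul ac))).div ((a0.mul as).pow 2)
        (fun z hz => pow_ne_zero 2 (mul_ne_zero (n0 z hz) (ms z hz)))).mul cP).add
      ((b0.div (a0.mul as) (fun z hz => mul_ne_zero (n0 z hz) (ms z hz))).mul
        ((cU.mul cX).mul cUs))
    exact cW.sub cY
  · intro t s hs
    have hS := hSne s hs
    have h0 := hgne t
    have hh0 := hgne (t + s)
    refine ⟨?_, ?_, ?_⟩
    · have h1 := D4_hd hg t
      have h2 : HasDerivAt (fun t => g (t + s)) (deriv g (t + s)) t :=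
        (D4_hd hg (t + s)).comp_add_const t s
      have h3 := h1.div (h2.mul_const (Real.sin s)) (mul_ne_zero hh0 hS)
      have h4 : HasDerivAt (fun t => Zp p (Uf g t s)) ((mcos p - |Uf g t s| ^ p) * Ut g t s) t :=
        HasDerivAt.comp (h₂ := Zp p) (h := fun t => Uf g t s) t (Zp_deriv hp (Uf g t s))
          (hasDeriv_Ut hg t s)
      have h5 := h3.mul h4
      refine h5.congr_deriv ?_
      simp only [WtF, Pi.div_apply]
      congr 1
      field_simp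
    · have h2 : HasDerivAt (fun s => g (t + s)) (deriv g (t + s)) s :=
        (D4_hd hg (t + s)).comp_const_add t s
      have h3 := (hasDerivAt_const s (g t)).div (h2.mul (Real.hasDerivAt_sin s)) (mul_ne_zero hh0 hS)
      have h4 : HasDerivAt (fun s => Zp p (Uf g t s)) ((mcos p - |Uf g t s| ^ p) * Us g t s) s :=
        (Zp_deriv hp (Uf g t s)).comp s (hasDeriv_Us hg t s)
      have h5 : HasDerivAt (fun s => Pf p χ (Uf g t s)) (Uf g t s * χ (Uf g t s) * Us g t s) s :=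
        (Pf_deriv hp hχ (Uf_mem hg t hs)).comp s (hasDeriv_Us hg t s)
      have h6 := h2.div ((Real.hasDerivAt_sin s).const_mul (g t)) (mul_ne_zero h0 hS)
      have h7 := (h3.mul h4).sub (h6.mul h5)
      refine h7.congr_deriv ?_
      simp only [WsF, YsF, Pi.div_apply, Pi.mul_apply]
      ring
    · have hcs := Real.sin_sq_add_cos_sq s
      have hr : g (t + s) ^ (-2 : ℝ) = (g (t + s) ^ 2)⁻¹ := by
        rw [Real.rpow_neg (hg.pos _).le, Real.rpow_two]
      rw [hr]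
      have k1 : -WtF g p t s + WsF g p t s = g t * (g t + deriv (deriv g) t) / g (t + s) ^ 2 *
          (|Uf g t s| ^ p - mcos p) - Uf g t s * Zp p (Uf g t s) / Real.sin s ^ 2 := by
        simp only [WtF, WsF]
        generalize Zp p (Uf g t s) = Z
        generalize |Uf g t s| ^ p = A
        simp only [Uf, Ut, Us]
        field_simp
        ring
      have k2 : YsF g p χ t s = (-(Vf g t s) * Pf p χ (Uf g t s) +
          Uf g t s * χ (Uf g t s) * (Uf g t s * Vf g t s - 1)) / Real.sin s ^ 2 := by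
        have k3 : (deriv g (t + s) * (g t * Real.sin s) - g (t + s) * (g t * Real.cos s)) /
            (g t * Real.sin s) ^ 2 = -(Vf g t s) / Real.sin s ^ 2 := by
          simp only [Vf]
          field_simp
          ring
        have k4 : g (t + s) / (g t * Real.sin s) * Us g t s =
            (Uf g t s * Vf g t s - 1) / Real.sin s ^ 2 := by
          simp only [Uf, Vf, Us]
          field_simp
          linear_combination (-(g t * g (t + s))) * hcs
        simp only [YsF]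
        rw [k3]
        linear_combination (Uf g t s * χ (Uf g t s)) * k4
      have k5 : Pf p χ (Uf g t s) = Zp p (Uf g t s) - (1 - Uf g t s ^ 2) * χ (Uf g t s) := rfl
      have k6 : -WtF g p t s + (WsF g p t s - YsF g p χ t s) - Hf g p χ t s =
          (-WtF g p t s + WsF g p t s) - YsF g p χ t s - Hf g p χ t s := by ring
      rw [k6, k1, k2, k5]
      simp only [Hf]
      ring

end RMB
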