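import Pool.Agent.RMB.D4

/-!
# RMB-D5: the integrated inequality on `[ε, π - ε]`

`F(t,s) = g(t)(g+g'')(t) g(t+s)^(-2) (|U|^p - m_p)`.  For `0 < ε < π/2`:

`∫_ε^{π-ε} ∫_0^π F(t,s) dt ds ≤ ∫_0^π B(t,π-ε) dt - ∫_0^π B(t,ε) dt`.

PROOF.  Integrate the identity of D4 over `t ∈ [0,π]`, `s ∈ [ε,π-ε]` (everything is continuous there).
`∫_0^π W_t dt = W(π,s) - W(0,s) = 0` (periodicity of `g`, `U`).  `∫_ε^{π-ε} B_s ds = B(t,π-ε) - B(t,ε)`
(Fubini, `intervalIntegral.integral_integral_swap`/`integral_prod`).  For the last term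
`T = ∫_ε^{π-ε} ∫_0^π H(t,s) dt ds`, `H = Hf`: substitute `s → π - s`, then `t → t + s`
(`H(·,s)` is `π`-periodic): `T = ∫_ε^{π-ε}∫_0^π H(t+s,π-s) dt ds`, and by `Uf_symm` and oddness of
`χ - Z`: `H(t+s,π-s) = -(U-V)(χ-Z)(V)/sin² s`.  Hence
`2T = ∫∫ (U-V)((χ-Z)(U) - (χ-Z)(V))/sin² s ≥ 0` by monotonicity (`U,V ∈ (-1,1)`).
-/

set_option autoImplicit false

open MeasureTheory Set Metric Filter Topology
open scoped RealInnerProductSpace ENNReal

namespace RMB

variable {g : ℝ → ℝ} {p : ℝ} {χ : ℝ → ℝ}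

private theorem D5_clamp {a b : ℝ} (ha : 0 < a) (hab : a ≤ b) (hb : b < Real.pi) {G : ℝ → ℝ → ℝ}
    (hG : ContinuousOn (fun z : ℝ × ℝ => G z.1 z.2) (univ ×ˢ Ioo (0 : ℝ) Real.pi)) :
    Continuous (fun z : ℝ × ℝ => G z.1 (max a (min b z.2))) := by
  have h := hG.comp_continuous (f := fun z : ℝ × ℝ => (z.1, max a (min b z.2))) (by fun_prop)
    (by
      intro z
      refine ⟨mem_univ _, ?_, ?_⟩
      · exact lt_of_lt_of_le ha (le_max_left _ _)
      · exact lt_of_le_of_lt (max_le hab (min_le_left _ _)) hb)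
  exact h

private theorem D5_cl_eq {a b s : ℝ} (hs : s ∈ Icc a b) : max a (min b s) = s := by
  rw [min_eq_right hs.2, max_eq_right hs.1]

private theorem D5_L1 {a b : ℝ} (ha : 0 < a) (hab : a ≤ b) (hb : b < Real.pi) {G : ℝ → ℝ → ℝ}
    (hG : ContinuousOn (fun z : ℝ × ℝ => G z.1 z.2) (univ ×ˢ Ioo (0 : ℝ) Real.pi)) :
    ContinuousOn (fun s => ∫ t in (0 : ℝ)..Real.pi, G t s) (Icc a b) := by
  have h : Continuous (fun s => ∫ t in (0 : ℝ)..Real.pi, G t (max a (min b s))) := by
    apply intervalIntegral.continuous_parametric_intervalIntegral_of_continuous'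
    have := D5_clamp ha hab hb hG
    exact this.comp (f := fun q : ℝ × ℝ => (q.2, q.1)) (by fun_prop)
  apply h.continuousOn.congr
  intro s hs
  simp only [D5_cl_eq hs]

private theorem D5_L3 {s : ℝ} (hs : s ∈ Ioo (0 : ℝ) Real.pi) {G : ℝ → ℝ → ℝ}
    (hG : ContinuousOn (fun z : ℝ × ℝ => G z.1 z.2) (univ ×ˢ Ioo (0 : ℝ) Real.pi)) :
    Continuous (fun t => G t s) :=
  hG.comp_continuous (f := fun t : ℝ => (t, s)) (by fun_prop) (fun t => ⟨mem_univ _, hs⟩)

private theorem D5_L4 (t : ℝ) {a b : ℝ} (ha : 0 < a) (hb : b < Real.pi) {G : ℝ → ℝ → ℝ}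
    (hG : ContinuousOn (fun z : ℝ × ℝ => G z.1 z.2) (univ ×ˢ Ioo (0 : ℝ) Real.pi)) :
    ContinuousOn (fun s => G t s) (Icc a b) :=
  hG.comp (f := fun s : ℝ => (t, s)) (by fun_prop)
    (fun s hs => ⟨mem_univ _, lt_of_lt_of_le ha hs.1, lt_of_le_of_lt hs.2 hb⟩)

private theorem D5_L2 {a b : ℝ} (ha : 0 < a) (hab : a ≤ b) (hb : b < Real.pi) {G : ℝ → ℝ → ℝ}
    (hG : ContinuousOn (fun z : ℝ × ℝ => G z.1 z.2) (univ ×ˢ Ioo (0 : ℝ) Real.pi)) :
    ∫ s in a..b, ∫ t in (0 : ℝ)..Real.pi, G t s = ∫ t in (0 : ℝ)..Real.pi, ∫ s in a..b, G t s := by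
  have hpi : (0 : ℝ) ≤ Real.pi := Real.pi_pos.le
  have e1 : ∫ s in a..b, ∫ t in (0 : ℝ)..Real.pi, G t s =
      ∫ s in Ioc a b, ∫ t in Ioc (0 : ℝ) Real.pi, G t (max a (min b s)) := by
    rw [intervalIntegral.integral_of_le hab]
    apply setIntegral_congr_fun measurableSet_Ioc
    intro s hs
    simp only [D5_cl_eq ⟨hs.1.le, hs.2⟩]
    rw [intervalIntegral.integral_of_le hpi]
  have e2 : ∫ t in (0 : ℝ)..Real.pi, ∫ s in a..b, G t s =
      ∫ t in Ioc (0 : ℝ) Real.pi, ∫ s in Ioc a b, G t (max a (min b s)) := by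
    rw [intervalIntegral.integral_of_le hpi]
    apply setIntegral_congr_fun measurableSet_Ioc
    intro t _
    simp only []
    rw [intervalIntegral.integral_of_le hab]
    apply setIntegral_congr_fun measurableSet_Ioc
    intro s hs
    simp only [D5_cl_eq ⟨hs.1.le, hs.2⟩]
  rw [e1, e2]
  apply integral_integral_swap
  have hc : Continuous (Function.uncurry (fun s t : ℝ => G t (max a (min b s)))) :=
    (D5_clamp ha hab hb hG).comp (f := fun q : ℝ × ℝ => (q.2, q.1)) (by fun_prop)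
  rw [Measure.prod_restrict]
  have h1 : IntegrableOn (Function.uncurry (fun s t : ℝ => G t (max a (min b s))))
      (Icc a b ×ˢ Icc (0 : ℝ) Real.pi) (volume.prod volume) :=
    hc.continuousOn.integrableOn_compact (isCompact_Icc.prod isCompact_Icc)
  exact h1.mono_set (prod_mono Ioc_subset_Icc_self Ioc_subset_Icc_self)

private theorem D5_Zp_cont (hp : 2 ≤ p) : Continuous (Zp p) :=
  continuous_iff_continuousAt.2 fun a => (Zp_deriv hp a).continuousAt

private theorem D5_chi_cont (hχ : IsChi p χ) : ContinuousOn χ (Ioo (-1) 1) :=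
  fun a ha => (hχ.der a ha).continuousAt.continuousWithinAt

private theorem D5_H_cont (hg : SmoothGauge g) (hp : 2 ≤ p) (hχ : IsChi p χ) :
    ContinuousOn (fun z : ℝ × ℝ => Hf g p χ z.1 z.2) (univ ×ˢ Ioo (0 : ℝ) Real.pi) := by
  unfold Hf
  have hU := Uf_cont hg
  have hV := Vf_cont hg
  have hmaps : MapsTo (fun z : ℝ × ℝ => Uf g z.1 z.2) (univ ×ˢ Ioo (0 : ℝ) Real.pi)
      (Ioo (-1) 1) := fun z hz => Uf_mem hg z.1 hz.2
  apply ContinuousOn.div
  · apply ContinuousOn.mul
    · exact (hU.sub hV).continuousOn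
    · apply ContinuousOn.sub
      · exact (D5_chi_cont hχ).comp hU.continuousOn hmaps
      · exact ((D5_Zp_cont hp).comp hU).continuousOn
  · fun_prop
  · intro z hz
    have := Real.sin_pos_of_pos_of_lt_pi hz.2.1 hz.2.2
    positivity

private theorem D5_B_cont (hg : SmoothGauge g) (hp : 2 ≤ p) (hχ : IsChi p χ) {s : ℝ}
    (hs : s ∈ Ioo (0 : ℝ) Real.pi) : Continuous (fun t => Bf g p χ t s) := by
  have hsin := Real.sin_pos_of_pos_of_lt_pi hs.1 hs.2
  have hgc : Continuous g := hg.smooth.continuous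
  have hU : Continuous (fun t => Uf g t s) :=
    (Uf_cont hg).comp (f := fun t : ℝ => (t, s)) (by fun_prop)
  have hP : ContinuousOn (Pf p χ) (Ioo (-1) 1) := fun a ha =>
    (Pf_deriv hp hχ ha).continuousAt.continuousWithinAt
  unfold Bf Wf
  apply Continuous.sub
  · apply Continuous.mul
    · apply Continuous.div hgc
      · fun_prop
      · intro t
        exact mul_ne_zero (hg.pos _).ne' hsin.ne'
    · exact (D5_Zp_cont hp).comp hU
  · apply Continuous.mul
    · apply Continuous.div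
      · fun_prop
      · fun_prop
      · intro t
        exact mul_ne_zero (hg.pos _).ne' hsin.ne'
    · exact hP.comp_continuous hU (fun t => Uf_mem hg t hs)

private theorem D5_H_per (hg : SmoothGauge g) (s : ℝ) :
    Function.Periodic (fun t => Hf g p χ t s) Real.pi := by
  intro t
  simp only [Hf, Uf_per hg, Vf_per hg]

private theorem D5_H_symm (hg : SmoothGauge g) (hχ : IsChi p χ) (t s : ℝ) :
    Hf g p χ (t + s) (Real.pi - s) =
      -((Uf g t s - Vf g t s) * (χ (Vf g t s) - Zp p (Vf g t s)) / Real.sin s ^ 2) := by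
  unfold Hf
  rw [(Uf_symm hg t s).1, (Uf_symm hg t s).2, hχ.odd, Zp_odd, Real.sin_pi_sub]
  ring

private theorem D5_T (hg : SmoothGauge g) (hp : 2 ≤ p) (hχ : IsChi p χ) {ε : ℝ} (h0 : 0 < ε)
    (h1 : ε < Real.pi / 2) :
    0 ≤ ∫ s in ε..(Real.pi - ε), ∫ t in (0 : ℝ)..Real.pi, Hf g p χ t s := by
  set h : ℝ → ℝ := fun s => ∫ t in (0 : ℝ)..Real.pi, Hf g p χ t s with hh
  have hab : ε ≤ Real.pi - ε := by linarith
  have hb : Real.pi - ε < Real.pi := by linarith
  have hHc := D5_H_cont (χ := χ) hg hp hχ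
  have hcont : ContinuousOn h (Icc ε (Real.pi - ε)) := D5_L1 h0 hab hb hHc
  have hcont2 : ContinuousOn (fun s => h (Real.pi - s)) (Icc ε (Real.pi - ε)) := by
    apply hcont.comp (f := fun s => Real.pi - s) (by fun_prop)
    intro s hs
    exact ⟨by linarith [hs.2], by linarith [hs.1]⟩
  have hrefl : ∫ s in ε..(Real.pi - ε), h (Real.pi - s) = ∫ s in ε..(Real.pi - ε), h s := by
    rw [intervalIntegral.integral_comp_sub_left]
    congr 1
    ring
  have hI1 : IntervalIntegrable h volume ε (Real.pi - ε) := by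
    apply ContinuousOn.intervalIntegrable
    rwa [uIcc_of_le hab]
  have hI2 : IntervalIntegrable (fun s => h (Real.pi - s)) volume ε (Real.pi - ε) := by
    apply ContinuousOn.intervalIntegrable
    rwa [uIcc_of_le hab]
  have hsum : ∫ s in ε..(Real.pi - ε), (h s + h (Real.pi - s)) =
      2 * ∫ s in ε..(Real.pi - ε), h s := by
    rw [intervalIntegral.integral_add hI1 hI2, hrefl]
    ring
  have hnn : 0 ≤ ∫ s in ε..(Real.pi - ε), (h s + h (Real.pi - s)) := by
    apply intervalIntegral.integral_nonneg hab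
    intro s hs
    have hs0 : s ∈ Ioo (0 : ℝ) Real.pi := ⟨by linarith [hs.1], by linarith [hs.2]⟩
    have hs1 : Real.pi - s ∈ Ioo (0 : ℝ) Real.pi := ⟨by linarith [hs.2], by linarith [hs.1]⟩
    have hsin := Real.sin_pos_of_pos_of_lt_pi hs0.1 hs0.2
    have hc1 : Continuous (fun t => Hf g p χ t s) := D5_L3 hs0 hHc
    have hc2 : Continuous (fun t => Hf g p χ t (Real.pi - s)) := D5_L3 hs1 hHc
    have hshift : h (Real.pi - s) =
        ∫ t in (0 : ℝ)..Real.pi, Hf g p χ (t + s) (Real.pi - s) := by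
      rw [hh]
      simp only []
      rw [intervalIntegral.integral_comp_add_right (fun t => Hf g p χ t (Real.pi - s))]
      have := (D5_H_per (p := p) (χ := χ) hg (Real.pi - s)).intervalIntegral_add_eq 0 s
      rw [zero_add] at this
      rw [this, zero_add, add_comm s Real.pi]
    rw [hshift, hh]
    simp only []
    have hc3 : Continuous (fun t => Hf g p χ (t + s) (Real.pi - s)) :=
      hc2.comp (f := fun t : ℝ => t + s) (by fun_prop)
    rw [← intervalIntegral.integral_add (hc1.intervalIntegrable _ _)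
      (hc3.intervalIntegrable _ _)]
    apply intervalIntegral.integral_nonneg Real.pi_pos.le
    intro t _
    rw [D5_H_symm hg hχ]
    unfold Hf
    have e : (Uf g t s - Vf g t s) * (χ (Uf g t s) - Zp p (Uf g t s)) / Real.sin s ^ 2 +
        -((Uf g t s - Vf g t s) * (χ (Vf g t s) - Zp p (Vf g t s)) / Real.sin s ^ 2) =
        ((Uf g t s - Vf g t s) * ((χ (Uf g t s) - Zp p (Uf g t s)) -
          (χ (Vf g t s) - Zp p (Vf g t s)))) / Real.sin s ^ 2 := by ring
    rw [e]
    apply div_nonneg _ (by positivity)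
    have hU := Uf_mem hg t hs0
    have hV := Vf_mem hg t hs0
    rcases le_total (Uf g t s) (Vf g t s) with hle | hle
    · have := hχ.mono hU hV hle
      simp only [] at this
      nlinarith
    · have := hχ.mono hV hU hle
      simp only [] at this
      nlinarith
  linarith

theorem integrated (hg : SmoothGauge g) (hp : 2 ≤ p) (hχ : IsChi p χ) {ε : ℝ} (h0 : 0 < ε)
    (h1 : ε < Real.pi / 2) :
    ∫ s in ε..(Real.pi - ε), ∫ t in (0 : ℝ)..Real.pi,
      g t * (g t + deriv (deriv g) t) * g (t + s) ^ (-2 : ℝ) * (|Uf g t s| ^ p - mcos p) ≤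
    (∫ t in (0 : ℝ)..Real.pi, Bf g p χ t (Real.pi - ε)) - ∫ t in (0 : ℝ)..Real.pi, Bf g p χ t ε := by
  obtain ⟨Wt, Bs, hW, hB, hpt⟩ := pointwise hg hp hχ
  have hab : ε ≤ Real.pi - ε := by linarith
  have hb : Real.pi - ε < Real.pi := by linarith
  have hHc := D5_H_cont (χ := χ) hg hp hχ
  have hstep : ∀ s ∈ Icc ε (Real.pi - ε), ∫ t in (0 : ℝ)..Real.pi,
      g t * (g t + deriv (deriv g) t) * g (t + s) ^ (-2 : ℝ) * (|Uf g t s| ^ p - mcos p) =
      (∫ t in (0 : ℝ)..Real.pi, Bs t s) - ∫ t in (0 : ℝ)..Real.pi, Hf g p χ t s := by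
    intro s hs
    have hs0 : s ∈ Ioo (0 : ℝ) Real.pi := ⟨by linarith [hs.1], by linarith [hs.2]⟩
    have hcW : Continuous (fun t => Wt t s) := D5_L3 hs0 hW
    have hcB : Continuous (fun t => Bs t s) := D5_L3 hs0 hB
    have hcH : Continuous (fun t => Hf g p χ t s) := D5_L3 hs0 hHc
    have e : ∀ t : ℝ, g t * (g t + deriv (deriv g) t) * g (t + s) ^ (-2 : ℝ) *
        (|Uf g t s| ^ p - mcos p) = (Bs t s - Hf g p χ t s) - Wt t s := by
      intro t
      rw [(hpt t s hs0).2.2]
      ring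
    simp_rw [e]
    have hcBH : Continuous (fun t => Bs t s - Hf g p χ t s) := hcB.sub hcH
    rw [intervalIntegral.integral_sub (hcBH.intervalIntegrable _ _)
      (hcW.intervalIntegrable _ _), intervalIntegral.integral_sub (hcB.intervalIntegrable _ _)
      (hcH.intervalIntegrable _ _)]
    have hWz : ∫ t in (0 : ℝ)..Real.pi, Wt t s = 0 := by
      rw [intervalIntegral.integral_eq_sub_of_hasDerivAt (f := fun t => Wf g p t s)
        (fun t _ => (hpt t s hs0).1) (hcW.intervalIntegrable _ _)]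
      have : Wf g p Real.pi s = Wf g p 0 s := by
        have h := Uf_per hg 0 s
        rw [zero_add] at h
        unfold Wf
        rw [h]
        have h2 := hg.per 0
        have h3 := hg.per s
        rw [zero_add] at h2
        rw [h2, add_comm Real.pi s, h3, zero_add]
      rw [this, sub_self]
    rw [hWz, sub_zero]
  have hmain : ∫ s in ε..(Real.pi - ε), ∫ t in (0 : ℝ)..Real.pi,
      g t * (g t + deriv (deriv g) t) * g (t + s) ^ (-2 : ℝ) * (|Uf g t s| ^ p - mcos p) =
      (∫ s in ε..(Real.pi - ε), ∫ t in (0 : ℝ)..Real.pi, Bs t s) -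
        ∫ s in ε..(Real.pi - ε), ∫ t in (0 : ℝ)..Real.pi, Hf g p χ t s := by
    rw [← intervalIntegral.integral_sub]
    · apply intervalIntegral.integral_congr
      intro s hs
      rw [uIcc_of_le hab] at hs
      exact hstep s hs
    · apply ContinuousOn.intervalIntegrable
      rw [uIcc_of_le hab]
      exact D5_L1 h0 hab hb hB
    · apply ContinuousOn.intervalIntegrable
      rw [uIcc_of_le hab]
      exact D5_L1 h0 hab hb hHc
  have hBint : ∫ s in ε..(Real.pi - ε), ∫ t in (0 : ℝ)..Real.pi, Bs t s =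
      (∫ t in (0 : ℝ)..Real.pi, Bf g p χ t (Real.pi - ε)) -
        ∫ t in (0 : ℝ)..Real.pi, Bf g p χ t ε := by
    rw [D5_L2 h0 hab hb hB, ← intervalIntegral.integral_sub
      ((D5_B_cont hg hp hχ ⟨by linarith, by linarith⟩).intervalIntegrable _ _)
      ((D5_B_cont hg hp hχ ⟨by linarith, by linarith⟩).intervalIntegrable _ _)]
    apply intervalIntegral.integral_congr
    intro t _
    simp only []
    rw [intervalIntegral.integral_eq_sub_of_hasDerivAt (f := fun s => Bf g p χ t s)]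
    · intro s hs
      rw [uIcc_of_le hab] at hs
      exact (hpt t s ⟨by linarith [hs.1], by linarith [hs.2]⟩).2.1
    · apply ContinuousOn.intervalIntegrable
      rw [uIcc_of_le hab]
      exact D5_L4 t h0 hb hB
  rw [hmain, hBint]
  have := D5_T hg hp hχ h0 h1
  linarith

end RMB
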