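import Pool.Agent.RMB.D4

/-!
# RMB-D6: the boundary terms

`∫_0^π B(t,ε) dt → 0` and `∫_0^π B(t,π-ε) dt → 0` as `ε → 0+`.

PROOF.  `Z = P + (1-U²)χ(U)`, so with `r = g(t)/g(t+s)`:
`B(t,s) = [r (1-U²) χ(U) + (r - 1/r)(P(U) - P₁) + (r - 1/r) P₁]/sin s`, `P₁ = m_p - 1/(p+1)`.
* `0 ≤ 1-U² ≤ 2(1-U) ≤ 2C s²` (`one_sub_Uf`), `|χ| ≤ 2`, `r` bounded: first term `O(s²)/sin s`.
* `|P(U)-P₁| ≤ 2(1-U) ≤ 2C s²` (`Pf_bound`), `r - 1/r` bounded: second term `O(s²)/sin s`.
* third: `|r - 1/r - 2 log r| ≤ (r-1)²/r`, `∫_0^π log r dt = 0` (periodicity).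
So `|∫_0^π B(t,s) dt| ≤ C s²/sin s ≤ C' s` for `0 < s ≤ π/2`.
The other end: with `g~(t) = g(-t)` one has `B_g(t,π-s) = -B_{g~}(-t,s)` (`Uf_pi_sub`,
`g(t+π-s) = g(t-s) = g~(-t+s)`, `Z`, `P` odd, `sin(π-s) = sin s`), and
`∫_0^π B_{g~}(-t,s) dt = ∫_0^π B_{g~}(t,s) dt` by periodicity.
-/

set_option autoImplicit false

open MeasureTheory Set Metric Filter Topology
open scoped RealInnerProductSpace ENNReal

namespace RMB

variable {g : ℝ → ℝ} {p : ℝ} {χ : ℝ → ℝ}

private theorem D6_log {x : ℝ} (hx : 0 < x) : |x - 1 / x - 2 * Real.log x| ≤ (x - 1) ^ 2 / x := by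
  have h1 := Real.log_le_sub_one_of_pos hx
  have h2 := Real.one_sub_inv_le_log_of_pos hx
  have h3 : (x - 1) ^ 2 / x = (x - 1) - (1 - x⁻¹) := by
    field_simp
  rw [h3, one_div, abs_le]
  constructor <;> linarith

private theorem D6_logint (hg : SmoothGauge g) (s : ℝ) :
    (∫ t in (0 : ℝ)..Real.pi, Real.log (g t / g (t + s))) = 0 := by
  have hc : Continuous (fun t => Real.log (g t)) :=
    Continuous.log hg.smooth.continuous (fun t => (hg.pos t).ne')
  have hp : Function.Periodic (fun t => Real.log (g t)) Real.pi := by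
    intro t
    show Real.log (g (t + Real.pi)) = Real.log (g t)
    rw [hg.per t]
  have h1 : ∀ t, Real.log (g t / g (t + s)) = Real.log (g t) - Real.log (g (t + s)) :=
    fun t => Real.log_div (hg.pos t).ne' (hg.pos _).ne'
  simp only [h1]
  have hc' : Continuous (fun t => Real.log (g (t + s))) := hc.comp (continuous_add_const s)
  rw [intervalIntegral.integral_sub (hc.intervalIntegrable _ _) (hc'.intervalIntegrable _ _)]
  have h2 : (∫ t in (0 : ℝ)..Real.pi, Real.log (g (t + s))) =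
      ∫ t in (0 + s)..(Real.pi + s), Real.log (g t) :=
    intervalIntegral.integral_comp_add_right (fun t => Real.log (g t)) s
  have h3 := hp.intervalIntegral_add_eq 0 s
  rw [zero_add] at h3
  rw [h2, h3, zero_add, add_comm Real.pi s, sub_self]

private theorem D6_key (hg : SmoothGauge g) (hp : 2 ≤ p) (hχ : IsChi p χ) :
    ∃ C : ℝ, 0 < C ∧ ∀ s : ℝ, 0 < s → s ≤ Real.pi / 2 →
      |∫ t in (0 : ℝ)..Real.pi, Bf g p χ t s| ≤ C * s := by
  obtain ⟨a, b, ha, hab⟩ := hg.bounds
  obtain ⟨C, hC, hCU⟩ := one_sub_Uf hg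
  have hb : 0 < b := lt_of_lt_of_le ha ((hab 0).1.trans (hab 0).2.1)
  have hpi := Real.pi_pos
  set P₁ : ℝ := mcos p - 1 / (p + 1) with hP₁
  set M : ℝ := b / a with hM
  have hM0 : 0 < M := div_pos hb ha
  set K : ℝ := M * (2 * C) * 2 + (M + M) * (2 * C) + M * (M * M) * |P₁| with hK
  have hK0 : 0 < K := by
    have := abs_nonneg P₁
    positivity
  refine ⟨K * Real.pi * (Real.pi / 2), by positivity, fun s hs hs2 => ?_⟩
  have hsin : 2 / Real.pi * s ≤ Real.sin s := Real.mul_le_sin hs.le hs2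
  have hsin0 : 0 < Real.sin s := Real.sin_pos_of_pos_of_lt_pi hs (by linarith)
  have hsI : s ∈ Ioo (0 : ℝ) Real.pi := ⟨hs, by linarith⟩
  -- the pointwise bound
  have hpt : ∀ t, |Bf g p χ t s - 2 * P₁ / Real.sin s * Real.log (g t / g (t + s))| ≤
      K * s ^ 2 / Real.sin s := by
    intro t
    have hgt := hg.pos t
    have hgs := hg.pos (t + s)
    set r : ℝ := g t / g (t + s) with hr
    have hr0 : 0 < r := div_pos hgt hgs
    have hrM : r ≤ M := by
      rw [hr, hM, div_le_div_iff₀ hgs ha]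
      have h1 := (hab t).2.1
      have h2 := (hab (t + s)).1
      nlinarith
    have hrM' : 1 / r ≤ M := by
      rw [hr, hM, one_div_div, div_le_div_iff₀ hgt ha]
      have h1 := (hab (t + s)).2.1
      have h2 := (hab t).1
      nlinarith
    have hr1 : |r - 1| ≤ M * s := by
      have h1 : r - 1 = (g t - g (t + s)) / g (t + s) := by
        rw [hr]
        field_simp
      have h2 : |g t - g (t + s)| ≤ b * s := by
        have h3 : ∀ x ∈ (univ : Set ℝ), ‖deriv g x‖ ≤ b := fun x _ => (hab x).2.2.1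
        have h4 := Convex.norm_image_sub_le_of_norm_deriv_le (f := g) (s := univ) (C := b)
          (x := t + s) (y := t)
          (fun x _ => (hg.smooth.differentiable (by norm_num)) x) h3 convex_univ (mem_univ _)
          (mem_univ _)
        rw [Real.norm_eq_abs, Real.norm_eq_abs] at h4
        have h5 : |t - (t + s)| = s := by
          rw [show t - (t + s) = -s by ring, abs_neg, abs_of_pos hs]
        rwa [h5] at h4
      rw [h1, abs_div, abs_of_pos hgs, hM, div_mul_eq_mul_div, div_le_div_iff₀ hgs ha]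
      have h6 := (hab (t + s)).1
      have h7 : 0 ≤ b * s := by positivity
      have h8 := mul_le_mul h2 h6 ha.le h7
      exact h8
    have hU := Uf_mem hg t hsI
    set U := Uf g t s with hUdef
    have hU1 : 1 - U ≤ C * s ^ 2 := hCU t s hsI
    have hU2 : |1 - U ^ 2| ≤ 2 * C * s ^ 2 := by
      have h1 : 1 - U ^ 2 = (1 - U) * (1 + U) := by ring
      rw [h1, abs_of_nonneg (mul_nonneg (by linarith [hU.2]) (by linarith [hU.1]))]
      have h2 : (1 - U) * (1 + U) ≤ (1 - U) * 2 :=
        mul_le_mul_of_nonneg_left (by linarith [hU.2]) (by linarith [hU.2])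
      linarith
    have hchi := hχ.bdd U hU
    have hPb : |Pf p χ U - P₁| ≤ 2 * C * s ^ 2 := by
      have := Pf_bound hp hχ hU
      linarith
    have hlog := D6_log hr0
    have hlog2 : |r - 1 / r - 2 * Real.log r| ≤ M * (M * M) * s ^ 2 := by
      refine hlog.trans ?_
      have h1 : (r - 1) ^ 2 / r = |r - 1| ^ 2 * (1 / r) := by
        rw [sq_abs]
        ring
      rw [h1]
      have h2 : |r - 1| ^ 2 ≤ (M * s) ^ 2 := pow_le_pow_left₀ (abs_nonneg _) hr1 2
      calc |r - 1| ^ 2 * (1 / r) ≤ (M * s) ^ 2 * M :=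
            mul_le_mul h2 hrM' (by positivity) (by positivity)
        _ = M * (M * M) * s ^ 2 := by ring
    have hB : Bf g p χ t s - 2 * P₁ / Real.sin s * Real.log r =
        (r * ((1 - U ^ 2) * χ U) + (r - 1 / r) * (Pf p χ U - P₁) +
          P₁ * (r - 1 / r - 2 * Real.log r)) / Real.sin s := by
      have hZ : Zp p U = Pf p χ U + (1 - U ^ 2) * χ U := by
        unfold Pf
        ring
      unfold Bf Wf
      rw [← hUdef, hZ, hr]
      field_simp
      ring
    rw [hB, abs_div, abs_of_pos hsin0]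
    refine div_le_div_of_nonneg_right ?_ hsin0.le
    have e1 : |r * ((1 - U ^ 2) * χ U)| ≤ M * (2 * C) * 2 * s ^ 2 := by
      rw [abs_mul, abs_mul, abs_of_pos hr0]
      calc r * (|1 - U ^ 2| * |χ U|) ≤ M * ((2 * C * s ^ 2) * 2) := by
            refine mul_le_mul hrM (mul_le_mul hU2 hchi (abs_nonneg _) (by positivity))
              (by positivity) hM0.le
        _ = M * (2 * C) * 2 * s ^ 2 := by ring
    have e2 : |(r - 1 / r) * (Pf p χ U - P₁)| ≤ (M + M) * (2 * C) * s ^ 2 := by
      rw [abs_mul]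
      have h1 : |r - 1 / r| ≤ M + M := by
        have h2 : 0 < 1 / r := by positivity
        rw [abs_le]
        constructor <;> linarith
      calc |r - 1 / r| * |Pf p χ U - P₁| ≤ (M + M) * (2 * C * s ^ 2) :=
            mul_le_mul h1 hPb (abs_nonneg _) (by positivity)
        _ = (M + M) * (2 * C) * s ^ 2 := by ring
    have e3 : |P₁ * (r - 1 / r - 2 * Real.log r)| ≤ M * (M * M) * |P₁| * s ^ 2 := by
      rw [abs_mul]
      calc |P₁| * |r - 1 / r - 2 * Real.log r| ≤ |P₁| * (M * (M * M) * s ^ 2) :=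
            mul_le_mul_of_nonneg_left hlog2 (abs_nonneg _)
        _ = M * (M * M) * |P₁| * s ^ 2 := by ring
    refine (abs_add_le _ _).trans ?_
    refine (add_le_add (abs_add_le _ _) le_rfl).trans ?_
    rw [hK]
    linarith
  -- the integral
  have hbound : |∫ t in (0 : ℝ)..Real.pi,
      (Bf g p χ t s - 2 * P₁ / Real.sin s * Real.log (g t / g (t + s)))| ≤
      K * s ^ 2 / Real.sin s * |Real.pi - 0| := by
    rw [← Real.norm_eq_abs (∫ t in (0 : ℝ)..Real.pi,
      (Bf g p χ t s - 2 * P₁ / Real.sin s * Real.log (g t / g (t + s))))]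
    exact intervalIntegral.norm_integral_le_of_norm_le_const (fun t _ => hpt t)
  have hfin : K * s ^ 2 / Real.sin s * |Real.pi - 0| ≤ K * Real.pi * (Real.pi / 2) * s := by
    rw [sub_zero, abs_of_pos hpi, div_mul_eq_mul_div, div_le_iff₀ hsin0]
    have h1 : s ≤ Real.pi / 2 * Real.sin s := by
      have h2 := mul_le_mul_of_nonneg_left hsin (by positivity : 0 ≤ Real.pi / 2)
      have h3 : Real.pi / 2 * (2 / Real.pi * s) = s := by
        field_simp
      linarith
    have h4 := mul_le_mul_of_nonneg_left h1 (by positivity : 0 ≤ K * Real.pi * s)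
    calc K * s ^ 2 * Real.pi = K * Real.pi * s * s := by ring
      _ ≤ K * Real.pi * s * (Real.pi / 2 * Real.sin s) := h4
      _ = K * Real.pi * (Real.pi / 2) * s * Real.sin s := by ring
  by_cases hint : IntervalIntegrable (fun t => Bf g p χ t s) volume 0 Real.pi
  · have hc : Continuous (fun t => Real.log (g t / g (t + s))) :=
      Continuous.log (hg.smooth.continuous.div (hg.smooth.continuous.comp (continuous_add_const s))
        (fun t => (hg.pos _).ne')) (fun t => (div_pos (hg.pos _) (hg.pos _)).ne')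
    rw [intervalIntegral.integral_sub hint ((hc.intervalIntegrable _ _).const_mul _),
      intervalIntegral.integral_const_mul, D6_logint hg s, mul_zero, sub_zero] at hbound
    exact hbound.trans hfin
  · rw [intervalIntegral.integral_undef hint, abs_zero]
    positivity

private theorem D6_refl (hg : SmoothGauge g) (hχ : IsChi p χ) (s : ℝ) :
    (∫ t in (0 : ℝ)..Real.pi, Bf g p χ t (Real.pi - s)) =
      -∫ t in (0 : ℝ)..Real.pi, Bf (fun t => g (-t)) p χ t s := by
  have h1 : ∀ t, Bf g p χ t (Real.pi - s) = -Bf (fun t => g (-t)) p χ (-t) s := by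
    intro t
    have e1 : g (t + (Real.pi - s)) = g (-(-t + s)) := by
      have := hg.per (t - s)
      rw [show t + (Real.pi - s) = t - s + Real.pi by ring, this]
      congr 1
      ring
    unfold Bf Wf
    rw [Uf_pi_sub hg, Zp_odd, Pf_odd hχ, Real.sin_pi_sub, e1]
    simp only [neg_neg]
    ring
  have h2 : ∀ t, Bf (fun t => g (-t)) p χ (t + Real.pi) s = Bf (fun t => g (-t)) p χ t s := by
    intro t
    have hg' := hg.refl
    have e1 : g (-(t + Real.pi)) = g (-t) := hg'.per t
    have e2 : g (-(t + Real.pi + s)) = g (-(t + s)) := by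
      have := hg'.per (t + s)
      rw [← this]
      congr 1
      ring
    unfold Bf Wf
    rw [Uf_per hg']
    simp only [e1, e2]
  have hper : Function.Periodic (fun t => Bf (fun t => g (-t)) p χ t s) Real.pi := h2
  simp only [h1]
  rw [intervalIntegral.integral_neg]
  congr 1
  rw [intervalIntegral.integral_comp_neg (fun t => Bf (fun t => g (-t)) p χ t s)]
  have h3 := hper.intervalIntegral_add_eq (-Real.pi) 0
  rw [neg_add_cancel, zero_add] at h3
  rw [neg_zero]
  exact h3

theorem boundary (hg : SmoothGauge g) (hp : 2 ≤ p) (hχ : IsChi p χ) :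
    Tendsto (fun ε => ∫ t in (0 : ℝ)..Real.pi, Bf g p χ t ε) (𝓝[>] 0) (𝓝 0) ∧
    Tendsto (fun ε => ∫ t in (0 : ℝ)..Real.pi, Bf g p χ t (Real.pi - ε)) (𝓝[>] 0) (𝓝 0) := by
  have key : ∀ {g : ℝ → ℝ}, SmoothGauge g →
      Tendsto (fun ε => ∫ t in (0 : ℝ)..Real.pi, Bf g p χ t ε) (𝓝[>] 0) (𝓝 0) := by
    intro g hg
    obtain ⟨C, hC, h⟩ := D6_key hg hp hχ
    rw [tendsto_zero_iff_norm_tendsto_zero]
    have h1 : Tendsto (fun ε : ℝ => C * ε) (𝓝[>] 0) (𝓝 0) := by
      have h2 : Tendsto (fun ε : ℝ => C * ε) (𝓝 0) (𝓝 (C * 0)) :=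
        (continuous_const.mul continuous_id).tendsto 0
      rw [mul_zero] at h2
      exact h2.mono_left nhdsWithin_le_nhds
    refine squeeze_zero' (Eventually.of_forall fun _ => norm_nonneg _) ?_ h1
    have h2 : Ioc (0 : ℝ) (Real.pi / 2) ∈ 𝓝[>] (0 : ℝ) :=
      Ioc_mem_nhdsGT (by positivity)
    filter_upwards [h2] with ε hε
    exact h ε hε.1 hε.2
  refine ⟨key hg, ?_⟩
  have h1 := (key hg.refl).neg
  rw [neg_zero] at h1
  refine h1.congr (fun ε => ?_)
  rw [D6_refl hg hχ]

end RMB
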