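import Pool.Agent.RMB.Defs

/-!
# RMB-D8: continuity properties of `hsup`, `Gam`, and smoothing

* `hsup_bounds`: `0 < a ≤ g ≤ b` gives `1/b ≤ hsup g φ ≤ 1/a` (take `t = φ`), boundedness of the sup.
* `hsup_cont`: Lipschitz in `φ` (`|cos(t-φ)-cos(t-φ')| ≤ |φ-φ'|`, `g ≥ a`).
* `hsup_diff`: `|hsup g φ - hsup G φ| ≤ sup |1/g - 1/G|`.
* `exists_smooth`: box averages.  For `δ > 0` let `A_δ f(t) = (2δ)⁻¹ ∫_{t-δ}^{t+δ} f`, and
  `G = A_δ A_δ g + δ`.  `A_δ g` is `C¹` (derivative `(g(t+δ)-g(t-δ))/(2δ)`), `A_δ A_δ g` is `C²`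
  (derivative `(A_δ g(t+δ) - A_δ g(t-δ))/(2δ)`).  Averages keep period `π`, positivity, and the inequality
  `2 cos d f(t) ≤ f(t+d) + f(t-d)`.  For a `C²` function `f` this inequality gives
  `f''(t) + f(t) ≥ 0` (expand at `d → 0`: `(f(t+d)+f(t-d)-2f(t))/d² → f''(t)`,
  `2(1-cos d)/d² → 1`).  So `G + G'' ≥ δ > 0`.  Uniform convergence as `δ = 1/(k+1) → 0`: `g` is
  uniformly continuous (continuous and periodic), `|A_δ A_δ g - g| ≤ ω(2δ)`.
-/

set_option autoImplicit false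

open MeasureTheory Set Metric Filter Topology
open scoped RealInnerProductSpace ENNReal

namespace RMB

private theorem D8_term {g : ℝ → ℝ} {a : ℝ} (ha : 0 < a) (h1 : ∀ t, a ≤ g t) (φ t : ℝ) :
    Real.cos (t - φ) / g t ≤ 1 / a := by
  have hg : 0 < g t := ha.trans_le (h1 t)
  calc Real.cos (t - φ) / g t ≤ 1 / g t := div_le_div_of_nonneg_right (Real.cos_le_one _) hg.le
    _ ≤ 1 / a := one_div_le_one_div_of_le ha (h1 t)

private theorem D8_bdd {g : ℝ → ℝ} {a : ℝ} (ha : 0 < a) (h1 : ∀ t, a ≤ g t) (φ : ℝ) :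
    BddAbove (range fun t : ℝ => Real.cos (t - φ) / g t) := by
  refine ⟨1 / a, ?_⟩
  rintro _ ⟨t, rfl⟩
  exact D8_term ha h1 φ t

theorem hsup_bounds {g : ℝ → ℝ} {a b : ℝ} (ha : 0 < a) (h1 : ∀ t, a ≤ g t) (h2 : ∀ t, g t ≤ b)
    (φ : ℝ) : 1 / b ≤ hsup g φ ∧ hsup g φ ≤ 1 / a ∧
      BddAbove (range fun t : ℝ => Real.cos (t - φ) / g t) := by
  have hb := D8_bdd ha h1 φ
  refine ⟨?_, ciSup_le (D8_term ha h1 φ), hb⟩
  have h3 := le_ciSup hb φ
  simp only [sub_self, Real.cos_zero] at h3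
  exact (one_div_le_one_div_of_le (ha.trans_le (h1 φ)) (h2 φ)).trans h3

theorem hsup_cont {g : ℝ → ℝ} {a : ℝ} (ha : 0 < a) (h1 : ∀ t, a ≤ g t) : Continuous (hsup g) := by
  have key : ∀ φ ψ : ℝ, hsup g φ ≤ hsup g ψ + 1 / a * |φ - ψ| := by
    intro φ ψ
    refine ciSup_le fun t => ?_
    have h3 := le_ciSup (D8_bdd ha h1 ψ) t
    have hg : 0 < g t := ha.trans_le (h1 t)
    have h4 : Real.cos (t - φ) / g t - Real.cos (t - ψ) / g t ≤ 1 / a * |φ - ψ| := by
      rw [← sub_div]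
      have h5 : Real.cos (t - φ) - Real.cos (t - ψ) ≤ |φ - ψ| := by
        refine (le_abs_self _).trans ((Real.abs_cos_sub_cos_le _ _).trans ?_)
        rw [show t - φ - (t - ψ) = -(φ - ψ) by ring, abs_neg]
      calc (Real.cos (t - φ) - Real.cos (t - ψ)) / g t ≤ |φ - ψ| / g t :=
            div_le_div_of_nonneg_right h5 hg.le
        _ ≤ |φ - ψ| / a := div_le_div_of_nonneg_left (abs_nonneg _) ha (h1 t)
        _ = 1 / a * |φ - ψ| := by ring
    have h6 : Real.cos (t - ψ) / g t ≤ hsup g ψ := h3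
    linarith
  have hl : LipschitzWith (1 / a).toNNReal (hsup g) := by
    refine LipschitzWith.of_le_add_mul' (1 / a) fun φ ψ => ?_
    rw [Real.dist_eq]
    exact key φ ψ
  exact hl.continuous

private theorem D8_diff1 {g G : ℝ → ℝ} {a d : ℝ} (ha : 0 < a) (h2 : ∀ t, a ≤ G t)
    (h3 : ∀ t, |(g t)⁻¹ - (G t)⁻¹| ≤ d) (φ : ℝ) : hsup g φ ≤ hsup G φ + d := by
  refine ciSup_le fun t => ?_
  have h4 : Real.cos (t - φ) / G t ≤ hsup G φ := le_ciSup (D8_bdd ha h2 φ) t
  have h5 : Real.cos (t - φ) / g t - Real.cos (t - φ) / G t ≤ d := by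
    rw [div_eq_mul_inv, div_eq_mul_inv, ← mul_sub]
    refine (le_abs_self _).trans ?_
    rw [abs_mul]
    calc |Real.cos (t - φ)| * |(g t)⁻¹ - (G t)⁻¹| ≤ 1 * |(g t)⁻¹ - (G t)⁻¹| :=
          mul_le_mul_of_nonneg_right (Real.abs_cos_le_one _) (abs_nonneg _)
      _ ≤ d := by rw [one_mul]; exact h3 t
  linarith

theorem hsup_diff {g G : ℝ → ℝ} {a d : ℝ} (ha : 0 < a) (h1 : ∀ t, a ≤ g t) (h2 : ∀ t, a ≤ G t)
    (h3 : ∀ t, |(g t)⁻¹ - (G t)⁻¹| ≤ d) (φ : ℝ) : |hsup g φ - hsup G φ| ≤ d := by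
  have e1 := D8_diff1 ha h2 h3 φ
  have e2 := D8_diff1 (g := G) (G := g) ha h1 (fun t => by rw [abs_sub_comm]; exact h3 t) φ
  rw [abs_le]
  constructor <;> linarith

theorem Gam_cont {g : ℝ → ℝ} (hg : Continuous g) (hpos : ∀ t, 0 < g t) {p : ℝ} (hp : 0 < p) :
    Continuous (Gam g p) := by
  unfold Gam
  refine intervalIntegral.continuous_parametric_intervalIntegral_of_continuous' ?_ _ _
  have h1 : Continuous fun z : ℝ × ℝ => g z.2 ^ (-(p + 2)) :=
    (hg.comp continuous_snd).rpow_const (fun z => Or.inl (hpos z.2).ne')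
  have h2 : Continuous fun z : ℝ × ℝ => |Real.cos (z.2 - z.1)| ^ p :=
    (Real.continuous_cos.comp (continuous_snd.sub continuous_fst)).abs.rpow_const
      (fun z => Or.inr hp.le)
  exact h1.mul h2

theorem Gauge2.bounds {g : ℝ → ℝ} (hg : Gauge2 g) : ∃ a b : ℝ, 0 < a ∧
    ∀ t, a ≤ g t ∧ g t ≤ b := by
  have hper : Function.Periodic g Real.pi := hg.per
  have hc := hper.compact_of_continuous Real.pi_ne_zero hg.cont
  obtain ⟨a, ⟨s, hs⟩, ha⟩ := hc.exists_isLeast (range_nonempty g)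
  obtain ⟨b, -, hb⟩ := hc.exists_isGreatest (range_nonempty g)
  exact ⟨a, b, hs ▸ hg.pos s, fun t => ⟨ha ⟨t, rfl⟩, hb ⟨t, rfl⟩⟩⟩

/-- the box average -/
private noncomputable def D8_av (δ : ℝ) (f : ℝ → ℝ) (t : ℝ) : ℝ :=
  (2 * δ)⁻¹ * ∫ u in (-δ)..δ, f (t + u)

private theorem D8_bound {δ : ℝ} (hδ : 0 < δ) {f : ℝ → ℝ} (hf : Continuous f) {t c η : ℝ}
    (h : ∀ u, |u| ≤ δ → |f (t + u) - c| ≤ η) : |D8_av δ f t - c| ≤ η := by
  have h1 : D8_av δ f t - c = (2 * δ)⁻¹ * ∫ u in (-δ)..δ, (f (t + u) - c) := by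
    have c1 : Continuous fun u => f (t + u) := hf.comp (continuous_const_add t)
    rw [intervalIntegral.integral_sub (c1.intervalIntegrable _ _)
      (continuous_const.intervalIntegrable _ _), intervalIntegral.integral_const, smul_eq_mul, D8_av]
    have : (2 * δ)⁻¹ * ((δ - -δ) * c) = c := by
      rw [show δ - -δ = 2 * δ by ring, ← mul_assoc, inv_mul_cancel₀ (by positivity), one_mul]
    rw [mul_sub, this]
  have h2 : ‖∫ u in (-δ)..δ, (f (t + u) - c)‖ ≤ η * |δ - -δ| := by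
    refine intervalIntegral.norm_integral_le_of_norm_le_const fun u hu => ?_
    rw [uIoc_of_le (by linarith)] at hu
    rw [Real.norm_eq_abs]
    exact h u (abs_le.2 ⟨hu.1.le, hu.2⟩)
  rw [h1, abs_mul, abs_of_pos (by positivity : 0 < (2 * δ)⁻¹), inv_mul_le_iff₀ (by positivity)]
  rw [Real.norm_eq_abs, show δ - -δ = 2 * δ by ring, abs_of_pos (by positivity : 0 < 2 * δ)] at h2
  linarith

private theorem D8_mono {δ : ℝ} (hδ : 0 < δ) {f₁ f₂ : ℝ → ℝ} (h1 : Continuous f₁)
    (h2 : Continuous f₂) (h : ∀ u, f₁ u ≤ f₂ u) :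
    (2 * δ)⁻¹ * ∫ u in (-δ)..δ, f₁ u ≤ (2 * δ)⁻¹ * ∫ u in (-δ)..δ, f₂ u :=
  mul_le_mul_of_nonneg_left (intervalIntegral.integral_mono (by linarith)
    (h1.intervalIntegrable _ _) (h2.intervalIntegrable _ _) h) (by positivity)

private theorem D8_lower {δ : ℝ} (hδ : 0 < δ) {f : ℝ → ℝ} (hf : Continuous f) {a : ℝ}
    (h : ∀ t, a ≤ f t) (t : ℝ) : a ≤ D8_av δ f t := by
  have h1 := D8_mono hδ (f₁ := fun _ => a) (f₂ := fun u => f (t + u)) continuous_const
    (hf.comp (continuous_const_add t)) (fun u => h _)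
  rw [intervalIntegral.integral_const, smul_eq_mul, show δ - -δ = 2 * δ by ring, ← mul_assoc,
    inv_mul_cancel₀ (by positivity), one_mul] at h1
  exact h1

private theorem D8_per {δ : ℝ} {f : ℝ → ℝ} (h : ∀ t, f (t + Real.pi) = f t) (t : ℝ) :
    D8_av δ f (t + Real.pi) = D8_av δ f t := by
  unfold D8_av
  congr 1
  refine intervalIntegral.integral_congr fun u _ => ?_
  rw [show t + Real.pi + u = t + u + Real.pi by ring, h]

private theorem D8_conv {δ : ℝ} (hδ : 0 < δ) {f : ℝ → ℝ} (hf : Continuous f)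
    (h : ∀ t d, 2 * Real.cos d * f t ≤ f (t + d) + f (t - d)) (t d : ℝ) :
    2 * Real.cos d * D8_av δ f t ≤ D8_av δ f (t + d) + D8_av δ f (t - d) := by
  have c1 : Continuous fun u => f (t + u) := hf.comp (continuous_const_add t)
  have c2 : Continuous fun u => f (t + d + u) := hf.comp (continuous_const_add _)
  have c3 : Continuous fun u => f (t - d + u) := hf.comp (continuous_const_add _)
  have h1 := D8_mono hδ (f₁ := fun u => 2 * Real.cos d * f (t + u))
    (f₂ := fun u => f (t + d + u) + f (t - d + u)) (c1.const_mul _) (c2.add c3) (fun u => by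
      have := h (t + u) d
      rw [show t + u + d = t + d + u by ring, show t + u - d = t - d + u by ring] at this
      exact this)
  rw [intervalIntegral.integral_const_mul, intervalIntegral.integral_add (c2.intervalIntegrable _ _)
    (c3.intervalIntegrable _ _)] at h1
  unfold D8_av
  calc _ = (2 * δ)⁻¹ * (2 * Real.cos d * ∫ u in (-δ)..δ, f (t + u)) := by ring
    _ ≤ _ := h1
    _ = _ := by ring

private theorem D8_deriv (δ : ℝ) {f : ℝ → ℝ} (hf : Continuous f) (t : ℝ) :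
    HasDerivAt (D8_av δ f) ((2 * δ)⁻¹ * (f (t + δ) - f (t - δ))) t := by
  have hF : ∀ x, HasDerivAt (fun x => ∫ y in (0 : ℝ)..x, f y) (f x) x := fun x =>
    intervalIntegral.integral_hasDerivAt_right (hf.intervalIntegrable _ _)
      (hf.stronglyMeasurableAtFilter _ _) hf.continuousAt
  have h1 : D8_av δ f = fun t => (2 * δ)⁻¹ * ((∫ y in (0 : ℝ)..(t + δ), f y) -
      ∫ y in (0 : ℝ)..(t - δ), f y) := by
    funext t
    unfold D8_av
    rw [intervalIntegral.integral_comp_add_left f t, intervalIntegral.integral_interval_sub_left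
      (hf.intervalIntegrable _ _) (hf.intervalIntegrable _ _), ← sub_eq_add_neg]
  rw [h1]
  have h2 : HasDerivAt (fun t => ∫ y in (0 : ℝ)..(t + δ), f y) (f (t + δ)) t :=
    (hF (t + δ)).comp_add_const t δ
  have h3 : HasDerivAt (fun t => ∫ y in (0 : ℝ)..(t - δ), f y) (f (t - δ)) t :=
    (hF (t - δ)).comp_sub_const t δ
  exact (h2.sub h3).const_mul _

private theorem D8_dd (δ : ℝ) {f : ℝ → ℝ} (hf : Continuous f) :
    deriv (D8_av δ f) = fun t => (2 * δ)⁻¹ * (f (t + δ) - f (t - δ)) :=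
  funext fun t => (D8_deriv δ hf t).deriv

private theorem D8_cont (δ : ℝ) {f : ℝ → ℝ} (hf : Continuous f) : Continuous (D8_av δ f) :=
  continuous_iff_continuousAt.2 fun t => (D8_deriv δ hf t).continuousAt

private theorem D8_C1 (δ : ℝ) {f : ℝ → ℝ} (hf : Continuous f) : ContDiff ℝ 1 (D8_av δ f) := by
  rw [contDiff_one_iff_deriv]
  refine ⟨fun t => (D8_deriv δ hf t).differentiableAt, ?_⟩
  rw [D8_dd δ hf]
  fun_prop

private theorem D8_C2 (δ : ℝ) {f : ℝ → ℝ} (hf : ContDiff ℝ 1 f) : ContDiff ℝ 2 (D8_av δ f) := by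
  have hc := hf.continuous
  rw [show (2 : WithTop ℕ∞) = 1 + 1 by norm_num, contDiff_succ_iff_deriv]
  refine ⟨fun t => (D8_deriv δ hc t).differentiableAt, by simp, ?_⟩
  rw [D8_dd δ hc]
  exact contDiff_const.mul ((hf.comp (contDiff_id.add contDiff_const)).sub
    (hf.comp (contDiff_id.sub contDiff_const)))

/-- a `C²` function with the convexity inequality -/
private theorem D8_second {f : ℝ → ℝ} (hf : ContDiff ℝ 2 f)
    (h : ∀ t d, 2 * Real.cos d * f t ≤ f (t + d) + f (t - d)) (t : ℝ) :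
    0 ≤ deriv (deriv f) t + f t := by
  by_contra hcon
  push Not at hcon
  have hf1 : ContDiff ℝ 1 (deriv f) := by
    have h2 := hf
    rw [show (2 : WithTop ℕ∞) = 1 + 1 by norm_num, contDiff_succ_iff_deriv] at h2
    exact h2.2.2
  have d1 : ∀ x, HasDerivAt f (deriv f x) x := fun x =>
    (hf.differentiable (by norm_num) x).hasDerivAt
  have d2 : ∀ x, HasDerivAt (deriv f) (deriv (deriv f) x) x := fun x =>
    (hf1.differentiable (by norm_num) x).hasDerivAt
  set k : ℝ → ℝ := fun d => 2 * Real.cos d * f t - (f (t + d) + f (t - d)) with hk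
  have k1 : ∀ d, HasDerivAt k (-2 * Real.sin d * f t - (deriv f (t + d) - deriv f (t - d))) d := by
    intro d
    have e1 : HasDerivAt (fun d => 2 * Real.cos d * f t) (2 * -Real.sin d * f t) d :=
      ((Real.hasDerivAt_cos d).const_mul 2).mul_const _
    have e2 : HasDerivAt (fun d => f (t + d)) (deriv f (t + d)) d :=
      (d1 (t + d)).comp_const_add t d
    have e3 : HasDerivAt (fun d => f (t - d)) (-deriv f (t - d)) d :=
      (d1 (t - d)).comp_const_sub t d
    have e4 := e1.sub (e2.add e3)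
    rw [show (2 * -Real.sin d * f t - (deriv f (t + d) + -deriv f (t - d))) =
      -2 * Real.sin d * f t - (deriv f (t + d) - deriv f (t - d)) by ring] at e4
    exact e4
  have k1' : deriv k = fun d => -2 * Real.sin d * f t - (deriv f (t + d) - deriv f (t - d)) :=
    funext fun d => (k1 d).deriv
  have k2 : deriv (deriv k) 0 = -2 * (deriv (deriv f) t + f t) := by
    rw [k1']
    have e1 : HasDerivAt (fun d => -2 * Real.sin d * f t) (-2 * Real.cos 0 * f t) 0 :=
      ((Real.hasDerivAt_sin 0).const_mul (-2)).mul_const _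
    have e2 : HasDerivAt (fun d => deriv f (t + d)) (deriv (deriv f) (t + 0)) 0 :=
      (d2 (t + 0)).comp_const_add t 0
    have e3 : HasDerivAt (fun d => deriv f (t - d)) (-deriv (deriv f) (t - 0)) 0 :=
      (d2 (t - 0)).comp_const_sub t 0
    have e4 : HasDerivAt (fun d => -2 * Real.sin d * f t - (deriv f (t + d) - deriv f (t - d)))
      (-2 * Real.cos 0 * f t - (deriv (deriv f) (t + 0) - -deriv (deriv f) (t - 0))) 0 :=
      e1.sub (e2.sub e3)
    rw [e4.deriv, Real.cos_zero, add_zero, sub_zero]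
    ring
  have hmin : IsLocalMin k 0 := by
    refine isLocalMin_of_deriv_deriv_pos ?_ ?_ (k1 0).continuousAt
    · rw [k2]
      linarith
    · rw [(k1 0).deriv, Real.sin_zero, add_zero, sub_zero]
      ring
  have hk0 : k 0 = 0 := by
    rw [hk]
    simp only [Real.cos_zero, add_zero, sub_zero]
    ring
  have hev : k =ᶠ[𝓝 0] fun _ => 0 := by
    filter_upwards [hmin] with d hd
    rw [hk0] at hd
    refine le_antisymm ?_ hd
    have := h t d
    rw [hk]
    simp only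
    linarith
  have h3 : deriv (deriv k) 0 = 0 := by
    have e1 : deriv k =ᶠ[𝓝 0] deriv fun _ : ℝ => (0 : ℝ) := hev.deriv
    rw [e1.deriv_eq]
    simp
  rw [k2] at h3
  linarith

private theorem D8_uc {g : ℝ → ℝ} (hg : Continuous g) (hper : ∀ t, g (t + Real.pi) = g t) {η : ℝ}
    (hη : 0 < η) : ∃ δ > 0, ∀ s t, |s - t| < δ → |g s - g t| ≤ η := by
  have hcomp : IsCompact (Icc (-1 : ℝ) (Real.pi + 1)) := isCompact_Icc
  have huc := hcomp.uniformContinuousOn_of_continuous hg.continuousOn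
  obtain ⟨δ, hδ, h⟩ := Metric.uniformContinuousOn_iff.1 huc η hη
  refine ⟨min δ 1, lt_min hδ one_pos, fun s t hst => ?_⟩
  have hper' : Function.Periodic g Real.pi := hper
  set n : ℤ := ⌊t / Real.pi⌋ with hn
  have hpi := Real.pi_pos
  have e1 : (n : ℝ) ≤ t / Real.pi := Int.floor_le _
  have e2 : t / Real.pi < n + 1 := Int.lt_floor_add_one _
  rw [le_div_iff₀ hpi] at e1
  rw [div_lt_iff₀ hpi] at e2
  have e3 := (lt_min_iff.1 hst).1
  have e4 := abs_lt.1 (lt_min_iff.1 hst).2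
  have hs := hper'.sub_int_mul_eq n (x := s)
  have ht := hper'.sub_int_mul_eq n (x := t)
  rw [← hs, ← ht]
  have h5 := h (s - n * Real.pi) ⟨by linarith, by linarith⟩ (t - n * Real.pi) ⟨by linarith, by linarith⟩
    (by rw [Real.dist_eq, show s - n * Real.pi - (t - n * Real.pi) = s - t by ring]; exact e3)
  rw [Real.dist_eq] at h5
  exact h5.le

theorem exists_smooth {g : ℝ → ℝ} (hg : Gauge2 g) : ∃ G : ℕ → ℝ → ℝ,
    (∀ k, SmoothGauge (G k)) ∧ TendstoUniformly G g atTop := by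
  have hgc := hg.cont
  refine ⟨fun k t => D8_av (1 / ((k : ℝ) + 1)) (D8_av (1 / ((k : ℝ) + 1)) g) t + 1 / ((k : ℝ) + 1),
    fun k => ?_, ?_⟩
  · set δ : ℝ := 1 / ((k : ℝ) + 1) with hδdef
    have hδ : 0 < δ := by positivity
    have c1 := D8_C1 δ hgc
    have c2 := D8_C2 δ c1
    have e1 : ∀ t, 0 ≤ D8_av δ g t := D8_lower hδ hgc (fun t => (hg.pos t).le)
    have e2 : ∀ t, 0 ≤ D8_av δ (D8_av δ g) t := D8_lower hδ c1.continuous e1
    refine ⟨c2.add contDiff_const, fun t => ?_, fun t => ?_, fun t => ?_⟩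
    · have := e2 t
      linarith
    · change D8_av δ (D8_av δ g) (t + Real.pi) + δ = D8_av δ (D8_av δ g) t + δ
      rw [D8_per (D8_per hg.per)]
    · have h1 := D8_second c2 (D8_conv hδ c1.continuous (D8_conv hδ hgc hg.conv)) t
      have h2 : deriv (deriv fun t => D8_av δ (D8_av δ g) t + δ) t =
          deriv (deriv (D8_av δ (D8_av δ g))) t := by
        congr 1
        funext x
        exact deriv_add_const _
      rw [h2]
      linarith
  · rw [Metric.tendstoUniformly_iff]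
    intro ε hε
    obtain ⟨δ₀, hδ₀, huc⟩ := D8_uc hgc hg.per (half_pos hε)
    have hm : 0 < min (δ₀ / 2) (ε / 2) := lt_min (by linarith) (by linarith)
    obtain ⟨N, hN⟩ := exists_nat_one_div_lt hm
    filter_upwards [eventually_ge_atTop N] with k hk t
    set δ : ℝ := 1 / ((k : ℝ) + 1) with hδdef
    have hδ : 0 < δ := by positivity
    have hδN : δ < min (δ₀ / 2) (ε / 2) := by
      refine lt_of_le_of_lt ?_ hN
      have : (N : ℝ) ≤ k := by exact_mod_cast hk
      exact one_div_le_one_div_of_le (by positivity) (by linarith)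
    have hδ1 := (lt_min_iff.1 hδN).1
    have hδ2 := (lt_min_iff.1 hδN).2
    have h1 : |D8_av δ (D8_av δ g) t - g t| ≤ ε / 2 := by
      refine D8_bound hδ (D8_C1 δ hgc).continuous fun u hu => ?_
      refine D8_bound hδ hgc fun v hv => ?_
      refine huc _ _ ?_
      rw [show t + u + v - t = u + v by ring]
      calc |u + v| ≤ |u| + |v| := abs_add_le _ _
        _ < δ₀ := by linarith
    rw [dist_comm, Real.dist_eq]
    calc |D8_av δ (D8_av δ g) t + δ - g t| = |(D8_av δ (D8_av δ g) t - g t) + δ| := by ring_nf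
      _ ≤ |D8_av δ (D8_av δ g) t - g t| + |δ| := abs_add_le _ _
      _ < ε := by
        rw [abs_of_pos hδ]
        linarith

end RMB
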