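import Pool.Agent.RMB.D5
import Pool.Agent.RMB.D6
import Pool.Agent.RMB.D8

/-!
# RMB-D7: the smooth planar inequality in the variables `(t,s)` and `(t,φ)`

`smooth_ineq`: let `ε → 0+` in D5 (the left side converges since its integrand is continuous on `ℝ × ℝ`,
the right side tends to 0 by D6), with some `χ` from `exists_chi`; then split
`|U|^p - m_p` and use `∫_0^π∫_0^π g(t)(g+g'')(t) g(t+s)^(-2) = (∫_0^π g(g+g''))(∫_0^π g^(-2))` (periodicity).

`smooth_ineq_phi`: `w(t) = g(t)(cos t, sin t) + g'(t)(-sin t, cos t) = |w| (cos φ, sin φ)`,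
`φ(t) = t + arctan(g'(t)/g(t))`, `|w|² = g² + g'²`.
* `U(t,s) g(t+s) = g(t) cos s + g'(t) sin s = ⟨(cos τ, sin τ), w(t)⟩ = |w(t)| cos(τ - φ(t))`, `τ = t+s`.
  So `∫_0^π g(t+s)^(-2) |U(t,s)|^p ds = |w(t)|^p Gam g p (φ(t))` (periodicity of the integrand of `Gam`,
  period `π`: shift by `t`).
* `hsup g (φ(t)) = 1/|w(t)|`: `cos(τ-φ(t))/g(τ) = U(t,τ-t)/|w(t)| ≤ 1/|w(t)|` for all `τ`
  (`|U| ≤ 1`: D3 for `τ - t` not a multiple of `π`, `U = ±1` otherwise), with equality at `τ = t`.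
* `φ'(t) = (g² + g g'')/(g² + g'²) = g(g+g'')/|w|² > 0`, `φ(t+π) = φ(t) + π`.
Hence (substitution `φ = φ(t)`, `intervalIntegral.integral_comp_mul_deriv` or the measurable
change of variables for the strictly increasing `C¹` map; note
`h(φ(t)) = 1/|w(t)|` is a `C¹` function of `t`, and `hsup`, `Gam` are continuous, `hsup` being Lipschitz)
`∫_0^π g(g+g'')(t) |w|^p Gam(φ(t)) dt = ∫_0^π φ'(t) |w|^(p+2) Gam(φ(t)) dt
  = ∫_{φ(0)}^{φ(0)+π} hsup^(-(p+2)) Gam = ∫_0^π hsup^(-(p+2)) Gam` (both factors `π`-periodic), and in the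
same way `∫_0^π g(g+g'') = ∫_0^π hsup^(-2)`.
-/

set_option autoImplicit false

open MeasureTheory Set Metric Filter Topology
open scoped RealInnerProductSpace ENNReal

namespace RMB

variable {g : ℝ → ℝ} {p : ℝ}

/-- shift of a periodic integral -/
theorem D7_shift {f : ℝ → ℝ} (hf : Function.Periodic f Real.pi) (t : ℝ) :
    ∫ s in (0 : ℝ)..Real.pi, f (t + s) = ∫ s in (0 : ℝ)..Real.pi, f s := by
  rw [intervalIntegral.integral_comp_add_left (fun x => f x) t]
  have := hf.intervalIntegral_add_eq t 0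
  rw [zero_add] at this
  rw [add_zero]
  exact this

theorem D7_swap {F : ℝ → ℝ → ℝ} (hF : Continuous fun z : ℝ × ℝ => F z.1 z.2) :
    ∫ s in (0 : ℝ)..Real.pi, ∫ t in (0 : ℝ)..Real.pi, F s t =
      ∫ t in (0 : ℝ)..Real.pi, ∫ s in (0 : ℝ)..Real.pi, F s t := by
  apply intervalIntegral_intervalIntegral_swap
  have h1 : IntegrableOn (Function.uncurry F) (Icc 0 Real.pi ×ˢ Icc 0 Real.pi) :=
    ContinuousOn.integrableOn_compact (isCompact_Icc.prod isCompact_Icc) hF.continuousOn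
  refine h1.mono_set ?_
  rw [uIoc_of_le Real.pi_pos.le]
  exact prod_mono Ioc_subset_Icc_self Ioc_subset_Icc_self

theorem D7_c1 (hg : SmoothGauge g) : Continuous (deriv g) :=
  hg.smooth.continuous_deriv (by norm_num)

theorem D7_cd (hg : SmoothGauge g) : ContDiff ℝ 1 (deriv g) := by
  have h2 : ContDiff ℝ (1 + 1) g := by
    have := hg.smooth
    norm_num
    exact this
  exact (contDiff_succ_iff_deriv.1 h2).2.2

theorem D7_c2 (hg : SmoothGauge g) : Continuous (deriv (deriv g)) :=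
  (D7_cd hg).continuous_deriv (by norm_num)

theorem D7_d1 (hg : SmoothGauge g) (t : ℝ) : HasDerivAt g (deriv g t) t :=
  ((hg.smooth.differentiable (by norm_num)) t).hasDerivAt

theorem D7_d2 (hg : SmoothGauge g) (t : ℝ) : HasDerivAt (deriv g) (deriv (deriv g) t) t :=
  (((D7_cd hg).differentiable (by norm_num)) t).hasDerivAt

/-- the integrand without the constant -/
theorem D7_cA (hg : SmoothGauge g) (hp : 2 ≤ p) : Continuous (fun z : ℝ × ℝ =>
    g z.2 * (g z.2 + deriv (deriv g) z.2) * g (z.2 + z.1) ^ (-2 : ℝ) * |Uf g z.2 z.1| ^ p) := by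
  have h0 : Continuous g := hg.smooth.continuous
  have h2 := D7_c2 hg
  have hU : Continuous (fun z : ℝ × ℝ => Uf g z.2 z.1) :=
    (Uf_cont hg).comp (continuous_snd.prodMk continuous_fst)
  have h3 : Continuous (fun z : ℝ × ℝ => g (z.2 + z.1) ^ (-2 : ℝ)) :=
    (h0.comp (continuous_snd.add continuous_fst)).rpow_const
      (fun z => Or.inl (hg.pos _).ne')
  have h4 : Continuous (fun z : ℝ × ℝ => |Uf g z.2 z.1| ^ p) :=
    hU.abs.rpow_const (fun z => Or.inr (by linarith))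
  exact (((h0.comp continuous_snd).mul ((h0.comp continuous_snd).add
    (h2.comp continuous_snd))).mul h3).mul h4

theorem D7_cB (hg : SmoothGauge g) : Continuous (fun z : ℝ × ℝ =>
    g z.2 * (g z.2 + deriv (deriv g) z.2) * g (z.2 + z.1) ^ (-2 : ℝ)) := by
  have h0 : Continuous g := hg.smooth.continuous
  have h2 := D7_c2 hg
  have h3 : Continuous (fun z : ℝ × ℝ => g (z.2 + z.1) ^ (-2 : ℝ)) :=
    (h0.comp (continuous_snd.add continuous_fst)).rpow_const
      (fun z => Or.inl (hg.pos _).ne')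
  exact ((h0.comp continuous_snd).mul ((h0.comp continuous_snd).add
    (h2.comp continuous_snd))).mul h3

theorem D7_perm2 (hg : SmoothGauge g) (q : ℝ) : Function.Periodic (fun t => g t ^ q) Real.pi :=
  fun t => by simp only [hg.per t]

theorem D7_B (hg : SmoothGauge g) :
    ∫ s in (0 : ℝ)..Real.pi, ∫ t in (0 : ℝ)..Real.pi,
      g t * (g t + deriv (deriv g) t) * g (t + s) ^ (-2 : ℝ) =
    (∫ t in (0 : ℝ)..Real.pi, g t * (g t + deriv (deriv g) t)) *
      ∫ t in (0 : ℝ)..Real.pi, g t ^ (-2 : ℝ) := by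
  rw [D7_swap (F := fun s t => g t * (g t + deriv (deriv g) t) * g (t + s) ^ (-2 : ℝ)) (D7_cB hg)]
  have h1 : ∀ t : ℝ, ∫ s in (0 : ℝ)..Real.pi,
      g t * (g t + deriv (deriv g) t) * g (t + s) ^ (-2 : ℝ) =
      g t * (g t + deriv (deriv g) t) * ∫ s in (0 : ℝ)..Real.pi, g s ^ (-2 : ℝ) := by
    intro t
    rw [intervalIntegral.integral_const_mul, D7_shift (D7_perm2 hg (-2 : ℝ)) t]
  simp_rw [h1]
  rw [intervalIntegral.integral_mul_const]

theorem smooth_ineq (hg : SmoothGauge g) (hp : 2 ≤ p) :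
    ∫ s in (0 : ℝ)..Real.pi, ∫ t in (0 : ℝ)..Real.pi,
      g t * (g t + deriv (deriv g) t) * g (t + s) ^ (-2 : ℝ) * |Uf g t s| ^ p ≤
    mcos p * ((∫ t in (0 : ℝ)..Real.pi, g t * (g t + deriv (deriv g) t)) *
      ∫ t in (0 : ℝ)..Real.pi, g t ^ (-2 : ℝ)) := by
  obtain ⟨χ, hχ⟩ := exists_chi hp
  set F : ℝ → ℝ → ℝ := fun s t =>
    g t * (g t + deriv (deriv g) t) * g (t + s) ^ (-2 : ℝ) * (|Uf g t s| ^ p - mcos p) with hF
  have hFeq : ∀ s t, F s t = g t * (g t + deriv (deriv g) t) * g (t + s) ^ (-2 : ℝ) *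
      |Uf g t s| ^ p - mcos p * (g t * (g t + deriv (deriv g) t) * g (t + s) ^ (-2 : ℝ)) := by
    intro s t
    simp only [hF]
    ring
  have hFc : Continuous (fun z : ℝ × ℝ => F z.1 z.2) := by
    simp_rw [hFeq]
    exact (D7_cA hg hp).sub ((D7_cB hg).const_mul _)
  have hI : Continuous (fun s => ∫ t in (0 : ℝ)..Real.pi, F s t) :=
    intervalIntegral.continuous_parametric_intervalIntegral_of_continuous' hFc 0 Real.pi
  set I : ℝ → ℝ := fun s => ∫ t in (0 : ℝ)..Real.pi, F s t with hIdef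
  have hint : ∀ a b : ℝ, IntervalIntegrable I volume a b := fun a b => hI.intervalIntegrable a b
  have hG : Continuous (fun x => ∫ s in (0 : ℝ)..x, I s) :=
    intervalIntegral.continuous_primitive hint 0
  have hlim : Tendsto (fun ε : ℝ => ∫ s in ε..(Real.pi - ε), I s) (𝓝[>] 0)
      (𝓝 (∫ s in (0 : ℝ)..Real.pi, I s)) := by
    have h1 : ∀ ε : ℝ, ∫ s in ε..(Real.pi - ε), I s =
        (∫ s in (0 : ℝ)..(Real.pi - ε), I s) - ∫ s in (0 : ℝ)..ε, I s := by
      intro ε
      rw [intervalIntegral.integral_interval_sub_left (hint _ _) (hint _ _)]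
    simp_rw [h1]
    have h2 : Continuous (fun ε : ℝ =>
        (∫ s in (0 : ℝ)..(Real.pi - ε), I s) - ∫ s in (0 : ℝ)..ε, I s) :=
      (hG.comp (continuous_const.sub continuous_id)).sub hG
    have h3 := (h2.tendsto 0).mono_left (nhdsWithin_le_nhds (s := Ioi (0 : ℝ)))
    simpa using h3
  have hle : ∫ s in (0 : ℝ)..Real.pi, I s ≤ 0 := by
    obtain ⟨hb0, hb1⟩ := boundary hg hp hχ
    have hb : Tendsto (fun ε => (∫ t in (0 : ℝ)..Real.pi, Bf g p χ t (Real.pi - ε)) -
        ∫ t in (0 : ℝ)..Real.pi, Bf g p χ t ε) (𝓝[>] 0) (𝓝 (0 - 0)) := hb1.sub hb0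
    rw [sub_zero] at hb
    refine le_of_tendsto_of_tendsto hlim hb ?_
    have hev : ∀ᶠ ε : ℝ in 𝓝[>] 0, ε < Real.pi / 2 :=
      mem_nhdsWithin_of_mem_nhds (Iio_mem_nhds (by positivity))
    filter_upwards [hev, self_mem_nhdsWithin] with ε h1 h0
    exact integrated hg hp hχ h0 h1
  have hsplit : ∫ s in (0 : ℝ)..Real.pi, I s =
      (∫ s in (0 : ℝ)..Real.pi, ∫ t in (0 : ℝ)..Real.pi,
        g t * (g t + deriv (deriv g) t) * g (t + s) ^ (-2 : ℝ) * |Uf g t s| ^ p) -
      mcos p * ∫ s in (0 : ℝ)..Real.pi, ∫ t in (0 : ℝ)..Real.pi,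
        g t * (g t + deriv (deriv g) t) * g (t + s) ^ (-2 : ℝ) := by
    have h1 : ∀ s : ℝ, I s = (∫ t in (0 : ℝ)..Real.pi,
        g t * (g t + deriv (deriv g) t) * g (t + s) ^ (-2 : ℝ) * |Uf g t s| ^ p) -
        mcos p * ∫ t in (0 : ℝ)..Real.pi,
          g t * (g t + deriv (deriv g) t) * g (t + s) ^ (-2 : ℝ) := by
      intro s
      simp only [hIdef]
      simp_rw [hFeq]
      rw [intervalIntegral.integral_sub, intervalIntegral.integral_const_mul]
      · exact ((D7_cA hg hp).comp (continuous_const.prodMk continuous_id)).intervalIntegrable _ _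
      · exact (((D7_cB hg).comp
          (continuous_const.prodMk continuous_id)).const_mul _).intervalIntegrable _ _
    simp_rw [h1]
    rw [intervalIntegral.integral_sub, intervalIntegral.integral_const_mul]
    · exact (intervalIntegral.continuous_parametric_intervalIntegral_of_continuous'
        (D7_cA hg hp) 0 Real.pi).intervalIntegrable _ _
    · exact ((intervalIntegral.continuous_parametric_intervalIntegral_of_continuous'
        (D7_cB hg) 0 Real.pi).const_mul _).intervalIntegrable _ _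
  rw [hsplit, D7_B hg] at hle
  linarith

/-- the length of `w(t)` -/
noncomputable def D7_N (g : ℝ → ℝ) (t : ℝ) : ℝ := Real.sqrt (g t ^ 2 + deriv g t ^ 2)

/-- the angle of `w(t)` -/
noncomputable def D7_ph (g : ℝ → ℝ) (t : ℝ) : ℝ := t + Real.arctan (deriv g t / g t)

theorem D7_Npos (hg : SmoothGauge g) (t : ℝ) : 0 < D7_N g t := by
  have := hg.pos t
  unfold D7_N
  positivity

theorem D7_Nsq (g : ℝ → ℝ) (t : ℝ) : D7_N g t ^ 2 = g t ^ 2 + deriv g t ^ 2 :=
  Real.sq_sqrt (by positivity)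

theorem D7_cos (hg : SmoothGauge g) (t s : ℝ) :
    D7_N g t * Real.cos (t + s - D7_ph g t) = g t * Real.cos s + deriv g t * Real.sin s := by
  have hgt := hg.pos t
  have h1 : t + s - D7_ph g t = s - Real.arctan (deriv g t / g t) := by
    unfold D7_ph; ring
  have h2 : D7_N g t = g t * √(1 + (deriv g t / g t) ^ 2) := by
    unfold D7_N
    rw [show g t ^ 2 + deriv g t ^ 2 = g t ^ 2 * (1 + (deriv g t / g t) ^ 2) by field_simp,
      Real.sqrt_mul (by positivity), Real.sqrt_sq hgt.le]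
  have h3 : 0 < √(1 + (deriv g t / g t) ^ 2) := Real.sqrt_pos.2 (by positivity)
  rw [h1, Real.cos_sub, Real.cos_arctan, Real.sin_arctan, h2]
  field_simp

theorem D7_U_abs_le (hg : SmoothGauge g) (t s : ℝ) : |Uf g t s| ≤ 1 := by
  have hper : Function.Periodic (fun s => |Uf g t s|) Real.pi := by
    intro s
    have : Uf g t (s + Real.pi) = -Uf g t s := by
      unfold Uf
      rw [Real.cos_add_pi, Real.sin_add_pi, ← add_assoc, hg.per]
      ring
    simp only [this, abs_neg]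
  obtain ⟨s', hs', h⟩ := hper.exists_mem_Ico₀ Real.pi_pos s
  rw [show |Uf g t s| = |Uf g t s'| from h]
  rcases eq_or_lt_of_le hs'.1 with h0 | h0
  · rw [← h0]
    unfold Uf
    rw [Real.cos_zero, Real.sin_zero, add_zero, mul_one, mul_zero, add_zero,
      div_self (hg.pos t).ne', abs_one]
  · have := Uf_mem hg t ⟨h0, hs'.2⟩
    exact abs_le.2 ⟨this.1.le, this.2.le⟩

theorem D7_cosg (hg : SmoothGauge g) (t τ : ℝ) :
    Real.cos (τ - D7_ph g t) / g τ = Uf g t (τ - t) / D7_N g t := by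
  have h1 := D7_cos hg t (τ - t)
  rw [show t + (τ - t) - D7_ph g t = τ - D7_ph g t by ring] at h1
  unfold Uf
  rw [← h1, show t + (τ - t) = τ by ring]
  have := (D7_Npos hg t).ne'
  have := (hg.pos τ).ne'
  field_simp

theorem D7_hsup (hg : SmoothGauge g) (t : ℝ) : hsup g (D7_ph g t) = (D7_N g t)⁻¹ := by
  have hN := D7_Npos hg t
  unfold hsup
  have hle : ∀ τ : ℝ, Real.cos (τ - D7_ph g t) / g τ ≤ (D7_N g t)⁻¹ := by
    intro τ
    rw [D7_cosg hg, div_eq_mul_inv]
    have := (abs_le.1 (D7_U_abs_le hg t (τ - t))).2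
    have h2 : 0 < (D7_N g t)⁻¹ := inv_pos.2 hN
    nlinarith
  apply le_antisymm
  · exact ciSup_le hle
  · have h1 : Real.cos (t - D7_ph g t) / g t = (D7_N g t)⁻¹ := by
      rw [D7_cosg hg]
      unfold Uf
      rw [sub_self, Real.cos_zero, Real.sin_zero, add_zero, mul_one, mul_zero, add_zero,
        div_self (hg.pos t).ne', one_div]
    rw [← h1]
    exact le_ciSup (f := fun τ : ℝ => Real.cos (τ - D7_ph g t) / g τ)
      ⟨(D7_N g t)⁻¹, by rintro _ ⟨τ, rfl⟩; exact hle τ⟩ t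

theorem D7_Gper (hg : SmoothGauge g) (p φ : ℝ) : Function.Periodic
    (fun t => g t ^ (-(p + 2)) * |Real.cos (t - φ)| ^ p) Real.pi := by
  intro t
  simp only
  rw [hg.per, show t + Real.pi - φ = t - φ + Real.pi by ring, Real.cos_add_pi, abs_neg]

theorem D7_Gam (hg : SmoothGauge g) (hp : 2 ≤ p) (t : ℝ) :
    ∫ s in (0 : ℝ)..Real.pi, g (t + s) ^ (-2 : ℝ) * |Uf g t s| ^ p =
      D7_N g t ^ p * Gam g p (D7_ph g t) := by
  have h1 : ∀ s : ℝ, g (t + s) ^ (-2 : ℝ) * |Uf g t s| ^ p = D7_N g t ^ p *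
      (g (t + s) ^ (-(p + 2)) * |Real.cos (t + s - D7_ph g t)| ^ p) := by
    intro s
    have hgs := hg.pos (t + s)
    have hN := D7_Npos hg t
    have h2 : |Uf g t s| = D7_N g t * |Real.cos (t + s - D7_ph g t)| * (g (t + s))⁻¹ := by
      unfold Uf
      rw [← D7_cos hg, abs_div, abs_mul, abs_of_pos hN, abs_of_pos hgs, div_eq_mul_inv]
    rw [h2, Real.mul_rpow (by positivity) (by positivity),
      Real.mul_rpow hN.le (abs_nonneg _), Real.inv_rpow hgs.le, ← Real.rpow_neg hgs.le,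
      show -(p + 2) = -2 + -p by ring, Real.rpow_add hgs]
    ring
  simp_rw [h1]
  rw [intervalIntegral.integral_const_mul]
  congr 1
  exact D7_shift (D7_Gper hg p (D7_ph g t)) t

theorem D7_phd (hg : SmoothGauge g) (t : ℝ) : HasDerivAt (D7_ph g)
    (g t * (g t + deriv (deriv g) t) / (g t ^ 2 + deriv g t ^ 2)) t := by
  have hgt := hg.pos t
  have h1 : HasDerivAt (fun t => deriv g t / g t)
      ((deriv (deriv g) t * g t - deriv g t * deriv g t) / g t ^ 2) t :=
    (D7_d2 hg t).div (D7_d1 hg t) hgt.ne'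
  have h2 := (hasDerivAt_id t).add h1.arctan
  refine h2.congr_deriv ?_
  have h3 : g t ^ 2 + deriv g t ^ 2 ≠ 0 := by positivity
  have h4 : 1 + (deriv g t / g t) ^ 2 ≠ 0 := by positivity
  field_simp
  ring

theorem D7_hper (hg : SmoothGauge g) : Function.Periodic (hsup g) Real.pi := by
  intro φ
  unfold hsup
  have h : ∀ t : ℝ, Real.cos (t - (φ + Real.pi)) / g t =
      (fun t => Real.cos (t - φ) / g t) (Equiv.subRight Real.pi t) := by
    intro t
    simp only [Equiv.subRight_apply]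
    have h1 := hg.per (t - Real.pi)
    rw [sub_add_cancel] at h1
    rw [h1, show t - (φ + Real.pi) = t - Real.pi - φ by ring]
  simp_rw [h]
  exact (Equiv.subRight Real.pi).iSup_comp (g := fun t => Real.cos (t - φ) / g t)

theorem D7_Gamper (g : ℝ → ℝ) (p : ℝ) : Function.Periodic (Gam g p) Real.pi := by
  intro φ
  unfold Gam
  refine intervalIntegral.integral_congr fun t _ => ?_
  rw [show t - (φ + Real.pi) = t - φ - Real.pi by ring, Real.cos_sub_pi, abs_neg]

theorem D7_subst (hg : SmoothGauge g) {ψ : ℝ → ℝ} (hψ : Continuous ψ)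
    (hper : Function.Periodic ψ Real.pi) :
    ∫ t in (0 : ℝ)..Real.pi, ψ (D7_ph g t) *
      (g t * (g t + deriv (deriv g) t) / (g t ^ 2 + deriv g t ^ 2)) =
      ∫ φ in (0 : ℝ)..Real.pi, ψ φ := by
  have h0 : Continuous g := hg.smooth.continuous
  have h1 := D7_c1 hg
  have h2 := D7_c2 hg
  have hne : ∀ t, g t ^ 2 + deriv g t ^ 2 ≠ 0 := fun t => by
    have := hg.pos t
    positivity
  have h3 : Continuous fun t => g t * (g t + deriv (deriv g) t) / (g t ^ 2 + deriv g t ^ 2) :=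
    (h0.mul (h0.add h2)).div ((h0.pow 2).add (h1.pow 2)) hne
  have h4 := intervalIntegral.integral_comp_mul_deriv (a := 0) (b := Real.pi)
    (fun x _ => D7_phd hg x) h3.continuousOn hψ
  simp only [Function.comp] at h4
  rw [h4]
  have h5 : D7_ph g Real.pi = D7_ph g 0 + Real.pi := by
    unfold D7_ph
    have e1 := hg.per 0
    have e2 := deriv_per hg 0
    rw [zero_add] at e1 e2
    rw [e1, e2]
    ring
  rw [h5]
  have := hper.intervalIntegral_add_eq (D7_ph g 0) 0
  rw [zero_add] at this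
  exact this

theorem smooth_ineq_phi (hg : SmoothGauge g) (hp : 2 ≤ p) :
    ∫ φ in (0 : ℝ)..Real.pi, hsup g φ ^ (-(p + 2)) * Gam g p φ ≤
    mcos p * ((∫ φ in (0 : ℝ)..Real.pi, hsup g φ ^ (-2 : ℝ)) *
      ∫ t in (0 : ℝ)..Real.pi, g t ^ (-2 : ℝ)) := by
  obtain ⟨a, b, ha, hab⟩ := hg.bounds
  have hh : Continuous (hsup g) := hsup_cont ha fun t => (hab t).1
  have hhpos : ∀ φ, 0 < hsup g φ := by
    intro φ
    obtain ⟨h1, -, -⟩ := hsup_bounds ha (fun t => (hab t).1) (fun t => (hab t).2.1) φ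
    have hb : 0 < b := ha.trans_le ((hab 0).1.trans (hab 0).2.1)
    exact lt_of_lt_of_le (by positivity) h1
  have hG : Continuous (Gam g p) := Gam_cont hg.smooth.continuous hg.pos (by linarith)
  have hc1 : Continuous fun φ => hsup g φ ^ (-(p + 2)) * Gam g p φ :=
    (hh.rpow_const fun φ => Or.inl (hhpos φ).ne').mul hG
  have hc2 : Continuous fun φ => hsup g φ ^ (-2 : ℝ) :=
    hh.rpow_const fun φ => Or.inl (hhpos φ).ne'
  have hp1 : Function.Periodic (fun φ => hsup g φ ^ (-(p + 2)) * Gam g p φ) Real.pi := by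
    intro φ
    simp only [D7_hper hg φ, D7_Gamper g p φ]
  have hp2 : Function.Periodic (fun φ => hsup g φ ^ (-2 : ℝ)) Real.pi := by
    intro φ
    simp only [D7_hper hg φ]
  rw [← D7_subst hg hc1 hp1, ← D7_subst hg hc2 hp2]
  have e1 : ∀ t, hsup g (D7_ph g t) ^ (-(p + 2)) * Gam g p (D7_ph g t) *
      (g t * (g t + deriv (deriv g) t) / (g t ^ 2 + deriv g t ^ 2)) =
      ∫ s in (0 : ℝ)..Real.pi,
        g t * (g t + deriv (deriv g) t) * g (t + s) ^ (-2 : ℝ) * |Uf g t s| ^ p := by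
    intro t
    have hN := D7_Npos hg t
    have h1 : ∀ s : ℝ, g t * (g t + deriv (deriv g) t) * g (t + s) ^ (-2 : ℝ) * |Uf g t s| ^ p =
        g t * (g t + deriv (deriv g) t) * (g (t + s) ^ (-2 : ℝ) * |Uf g t s| ^ p) :=
      fun s => by ring
    simp_rw [h1]
    rw [intervalIntegral.integral_const_mul, D7_Gam hg hp, D7_hsup hg, ← D7_Nsq g t,
      Real.inv_rpow hN.le, Real.rpow_neg hN.le, inv_inv, Real.rpow_add hN, Real.rpow_two]
    field_simp
  have e2 : ∀ t, hsup g (D7_ph g t) ^ (-2 : ℝ) *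
      (g t * (g t + deriv (deriv g) t) / (g t ^ 2 + deriv g t ^ 2)) =
      g t * (g t + deriv (deriv g) t) := by
    intro t
    have hN := D7_Npos hg t
    rw [D7_hsup hg, ← D7_Nsq g t, Real.inv_rpow hN.le, Real.rpow_neg hN.le, inv_inv,
      Real.rpow_two]
    field_simp
  simp_rw [e1, e2]
  rw [← D7_swap (F := fun s t =>
    g t * (g t + deriv (deriv g) t) * g (t + s) ^ (-2 : ℝ) * |Uf g t s| ^ p) (D7_cA hg hp)]
  exact smooth_ineq hg hp

end RMB
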