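import Pool.Agent.RMB.D7
import Pool.Agent.RMB.D8

/-!
# RMB-D9: the planar inequality for continuous gauges

Take `G k → g` uniformly (`exists_smooth`); for large `k`, `a/2 ≤ G k ≤ b+1` where `a ≤ g ≤ b`.
`smooth_ineq_phi` for `G k`, and pass to the limit: `hsup (G k) φ → hsup g φ`, `Gam (G k) p φ → Gam g p φ`
pointwise (dominated convergence), all integrands uniformly bounded on `[0,π]` (dominated convergence again);
continuity/measurability from D8.
-/

set_option autoImplicit false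

open MeasureTheory Set Metric Filter Topology
open scoped RealInnerProductSpace ENNReal

namespace RMB

private theorem D9_hsup {g : ℝ → ℝ} {G : ℕ → ℝ → ℝ} {α : ℝ} (hα : 0 < α) (h1 : ∀ t, α ≤ g t)
    (h2 : ∀ᶠ k in atTop, ∀ t, α ≤ G k t) (hlim : TendstoUniformly G g atTop) (φ : ℝ) :
    Tendsto (fun k => hsup (G k) φ) atTop (𝓝 (hsup g φ)) := by
  rw [Metric.tendsto_nhds]
  intro ε hε
  filter_upwards [h2, Metric.tendstoUniformly_iff.1 hlim (ε / 2 * α ^ 2) (by positivity)] with k hk hk2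
  rw [Real.dist_eq]
  refine lt_of_le_of_lt (hsup_diff (d := ε / 2) hα hk h1 (fun t => ?_) φ) (by linarith)
  have e1 : 0 < g t := hα.trans_le (h1 t)
  have e2 : 0 < G k t := hα.trans_le (hk t)
  have e3 := (hk2 t).le
  rw [Real.dist_eq] at e3
  rw [inv_sub_inv e2.ne' e1.ne', abs_div, abs_of_pos (mul_pos e2 e1), div_le_iff₀ (mul_pos e2 e1)]
  refine e3.trans (mul_le_mul_of_nonneg_left ?_ (by linarith))
  rw [pow_two]
  exact mul_le_mul (hk t) (h1 t) hα.le e2.le

private theorem D9_cos {p : ℝ} (hp : 2 ≤ p) (x : ℝ) : |Real.cos x| ^ p ≤ 1 :=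
  Real.rpow_le_one (abs_nonneg _) (Real.abs_cos_le_one x) (by linarith)

private theorem D9_int {G : ℝ → ℝ} {α p : ℝ} (hα : 0 < α) (hp : 2 ≤ p) (h : ∀ t, α ≤ G t) (φ t : ℝ) :
    ‖G t ^ (-(p + 2)) * |Real.cos (t - φ)| ^ p‖ ≤ α ^ (-(p + 2)) := by
  have e1 : 0 ≤ |Real.cos (t - φ)| ^ p := Real.rpow_nonneg (abs_nonneg _) _
  have e2 : 0 ≤ G t ^ (-(p + 2)) := Real.rpow_nonneg (hα.le.trans (h t)) _
  rw [Real.norm_of_nonneg (mul_nonneg e2 e1)]
  calc G t ^ (-(p + 2)) * |Real.cos (t - φ)| ^ p ≤ G t ^ (-(p + 2)) * 1 :=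
        mul_le_mul_of_nonneg_left (D9_cos hp _) e2
    _ = G t ^ (-(p + 2)) := mul_one _
    _ ≤ α ^ (-(p + 2)) := Real.rpow_le_rpow_of_nonpos hα (h t) (by linarith)

private theorem D9_Gam {g : ℝ → ℝ} {G : ℕ → ℝ → ℝ} {α p : ℝ} (hα : 0 < α) (hp : 2 ≤ p)
    (hGc : ∀ k, Continuous (G k)) (h1 : ∀ t, α ≤ g t)
    (h2 : ∀ᶠ k in atTop, ∀ t, α ≤ G k t) (hlim : ∀ t, Tendsto (fun k => G k t) atTop (𝓝 (g t)))
    (φ : ℝ) : Tendsto (fun k => Gam (G k) p φ) atTop (𝓝 (Gam g p φ)) := by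
  unfold Gam
  refine intervalIntegral.tendsto_integral_filter_of_dominated_convergence
    (fun _ => α ^ (-(p + 2))) ?_ ?_ (continuous_const.intervalIntegrable _ _) ?_
  · filter_upwards [h2] with k hk
    have c1 : Continuous fun t => G k t ^ (-(p + 2)) * |Real.cos (t - φ)| ^ p :=
      ((hGc k).rpow_const (fun t => Or.inl (hα.trans_le (hk t)).ne')).mul
        ((Real.continuous_cos.comp (continuous_id.sub continuous_const)).abs.rpow_const
          (fun t => Or.inr (by linarith)))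
    exact c1.aestronglyMeasurable
  · filter_upwards [h2] with k hk
    exact Filter.Eventually.of_forall fun t _ => D9_int hα hp hk φ t
  · refine Filter.Eventually.of_forall fun t _ => ?_
    exact ((hlim t).rpow_const (Or.inl (hα.trans_le (h1 t)).ne')).mul_const _

private theorem D9_Gam_bd {G : ℝ → ℝ} {α p : ℝ} (hα : 0 < α) (hp : 2 ≤ p) (h : ∀ t, α ≤ G t)
    (φ : ℝ) : ‖Gam G p φ‖ ≤ α ^ (-(p + 2)) * Real.pi := by
  unfold Gam
  have := intervalIntegral.norm_integral_le_of_norm_le_const (a := 0) (b := Real.pi)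
    (fun t _ => D9_int hα hp h φ t)
  rwa [sub_zero, abs_of_pos Real.pi_pos] at this

theorem gauge_ineq {g : ℝ → ℝ} (hg : Gauge2 g) {p : ℝ} (hp : 2 ≤ p) :
    ∫ φ in (0 : ℝ)..Real.pi, hsup g φ ^ (-(p + 2)) * Gam g p φ ≤
    mcos p * ((∫ φ in (0 : ℝ)..Real.pi, hsup g φ ^ (-2 : ℝ)) *
      ∫ t in (0 : ℝ)..Real.pi, g t ^ (-2 : ℝ)) := by
  obtain ⟨a, b, ha, hab⟩ := hg.bounds
  obtain ⟨G, hG, hlim⟩ := exists_smooth hg
  have hα : 0 < a / 2 := half_pos ha
  have hb : 0 < b := ha.trans_le ((hab 0).1.trans (hab 0).2)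
  have hev : ∀ᶠ k in atTop, ∀ t, a / 2 ≤ G k t ∧ G k t ≤ b + a / 2 := by
    filter_upwards [Metric.tendstoUniformly_iff.1 hlim (a / 2) hα] with k hk t
    have h1 := hk t
    rw [Real.dist_eq, abs_lt] at h1
    have h2 := hab t
    constructor <;> linarith [h1.1, h1.2, h2.1, h2.2]
  have hev1 : ∀ᶠ k in atTop, ∀ t, a / 2 ≤ G k t := hev.mono fun k h t => (h t).1
  have hg1 : ∀ t, a / 2 ≤ g t := fun t => by linarith [(hab t).1]
  have hpt : ∀ t, Tendsto (fun k => G k t) atTop (𝓝 (g t)) := fun t => hlim.tendsto_at t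
  have hGc : ∀ k, Continuous (G k) := fun k => (hG k).smooth.continuous
  have hh := D9_hsup hα hg1 hev1 hlim
  have hhpos : ∀ φ, 0 < hsup g φ := fun φ =>
    lt_of_lt_of_le (by positivity) (hsup_bounds ha (fun t => (hab t).1) (fun t => (hab t).2) φ).1
  have hpow : ∀ r : ℝ, r ≤ 0 → ∀ᶠ k in atTop, ∀ φ,
      ‖hsup (G k) φ ^ r‖ ≤ (1 / (b + a / 2)) ^ r ∧ 0 < hsup (G k) φ := by
    intro r hr
    filter_upwards [hev] with k hk φ
    have h1 := (hsup_bounds hα (fun t => (hk t).1) (fun t => (hk t).2) φ).1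
    have h2 : 0 < 1 / (b + a / 2) := by positivity
    have h3 : 0 < hsup (G k) φ := h2.trans_le h1
    refine ⟨?_, h3⟩
    rw [Real.norm_of_nonneg (Real.rpow_nonneg h3.le _)]
    exact Real.rpow_le_rpow_of_nonpos h2 h1 hr
  have hhc : ∀ r : ℝ, r ≤ 0 → ∀ᶠ k in atTop, Continuous fun φ => hsup (G k) φ ^ r := by
    intro r hr
    filter_upwards [hev1, hpow r hr] with k hk hk2
    exact (hsup_cont hα hk).rpow_const (fun φ => Or.inl (hk2 φ).2.ne')
  -- the three limits
  have l1 : Tendsto (fun k => ∫ φ in (0 : ℝ)..Real.pi, hsup (G k) φ ^ (-(p + 2)) * Gam (G k) p φ)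
      atTop (𝓝 (∫ φ in (0 : ℝ)..Real.pi, hsup g φ ^ (-(p + 2)) * Gam g p φ)) := by
    refine intervalIntegral.tendsto_integral_filter_of_dominated_convergence
      (fun _ => (1 / (b + a / 2)) ^ (-(p + 2)) * ((a / 2) ^ (-(p + 2)) * Real.pi)) ?_ ?_
      (continuous_const.intervalIntegrable _ _) ?_
    · filter_upwards [hev1, hhc (-(p + 2)) (by linarith)] with k hk hk2
      exact (hk2.mul (Gam_cont (hGc k) (fun t => hα.trans_le (hk t)) (by linarith))).aestronglyMeasurable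
    · filter_upwards [hev1, hpow (-(p + 2)) (by linarith)] with k hk hk2
      refine Filter.Eventually.of_forall fun φ _ => ?_
      rw [norm_mul]
      exact mul_le_mul (hk2 φ).1 (D9_Gam_bd hα hp hk φ) (norm_nonneg _) (by positivity)
    · refine Filter.Eventually.of_forall fun φ _ => ?_
      exact ((hh φ).rpow_const (Or.inl (hhpos φ).ne')).mul (D9_Gam hα hp hGc hg1 hev1 hpt φ)
  have l2 : Tendsto (fun k => ∫ φ in (0 : ℝ)..Real.pi, hsup (G k) φ ^ (-2 : ℝ))
      atTop (𝓝 (∫ φ in (0 : ℝ)..Real.pi, hsup g φ ^ (-2 : ℝ))) := by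
    refine intervalIntegral.tendsto_integral_filter_of_dominated_convergence
      (fun _ => (1 / (b + a / 2)) ^ (-2 : ℝ)) ?_ ?_
      (continuous_const.intervalIntegrable _ _) ?_
    · filter_upwards [hhc (-2) (by norm_num)] with k hk2
      exact hk2.aestronglyMeasurable
    · filter_upwards [hpow (-2) (by norm_num)] with k hk2
      exact Filter.Eventually.of_forall fun φ _ => (hk2 φ).1
    · refine Filter.Eventually.of_forall fun φ _ => ?_
      exact (hh φ).rpow_const (Or.inl (hhpos φ).ne')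
  have l3 : Tendsto (fun k => ∫ t in (0 : ℝ)..Real.pi, G k t ^ (-2 : ℝ))
      atTop (𝓝 (∫ t in (0 : ℝ)..Real.pi, g t ^ (-2 : ℝ))) := by
    refine intervalIntegral.tendsto_integral_filter_of_dominated_convergence
      (fun _ => (a / 2) ^ (-2 : ℝ)) ?_ ?_
      (continuous_const.intervalIntegrable _ _) ?_
    · filter_upwards [hev1] with k hk
      exact ((hGc k).rpow_const (fun t => Or.inl (hα.trans_le (hk t)).ne')).aestronglyMeasurable
    · filter_upwards [hev1] with k hk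
      refine Filter.Eventually.of_forall fun t _ => ?_
      rw [Real.norm_of_nonneg (Real.rpow_nonneg (hα.le.trans (hk t)) _)]
      exact Real.rpow_le_rpow_of_nonpos hα (hk t) (by norm_num)
    · refine Filter.Eventually.of_forall fun t _ => ?_
      exact (hpt t).rpow_const (Or.inl (hα.trans_le (hg1 t)).ne')
  exact le_of_tendsto_of_tendsto' l1 ((l2.mul l3).const_mul _) fun k => smooth_ineq_phi (hG k) hp

end RMB
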