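import Mathlib

/-!
# RMB project (MP_8abeec_gt): fixed points of the radial mean body operator

Common definitions.  Everything is in the namespace `RMB`.
-/

set_option autoImplicit false

open MeasureTheory Set Metric Filter Topology
open scoped RealInnerProductSpace ENNReal

noncomputable section

namespace RMB

/-- Euclidean `n`-space. -/
abbrev E (n : ℕ) : Type := EuclideanSpace ℝ (Fin n)

/-- A convex body: compact, convex, with nonempty interior. -/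
structure IsBody {n : ℕ} (K : Set (E n)) : Prop where
  compact : IsCompact K
  convex : Convex ℝ K
  int_nonempty : (interior K).Nonempty

/-- A convex body symmetric about the origin. -/
structure SymBody {n : ℕ} (K : Set (E n)) : Prop extends IsBody K where
  sym : ∀ x ∈ K, -x ∈ K

/-- The radial function `ρ_L(u) = max {r ≥ 0 : r u ∈ L}`. -/
def radial {n : ℕ} (L : Set (E n)) (u : E n) : ℝ := sSup {r : ℝ | 0 ≤ r ∧ r • u ∈ L}

/-- The radial function of the radial `p`-th mean body `R_p K`: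
`(Vol(K)⁻¹ ∫_K ρ_{K-x}(u)^p dx)^(1/p)`, and `exp (Vol(K)⁻¹ ∫_K log ρ_{K-x}(u) dx)` for `p = 0`. -/
def radialMean {n : ℕ} (p : ℝ) (K : Set (E n)) (u : E n) : ℝ :=
  if p = 0 then
    Real.exp ((volume.real K)⁻¹ * ∫ x in K, Real.log (radial ((fun y => y - x) '' K) u))
  else
    ((volume.real K)⁻¹ * ∫ x in K, radial ((fun y => y - x) '' K) u ^ p) ^ (1 / p)

/-- The radial `p`-th mean body `R_p K`: the star body with radial function `radialMean p K`. -/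
def RadialMeanBody {n : ℕ} (p : ℝ) (K : Set (E n)) : Set (E n) :=
  {z | ∃ u : E n, ‖u‖ = 1 ∧ ∃ r : ℝ, 0 ≤ r ∧ r ≤ radialMean p K u ∧ z = r • u}

/-- A centered ellipsoid: the image of the unit ball under an invertible linear map. -/
def IsEllipsoid {n : ℕ} (K : Set (E n)) : Prop :=
  ∃ A : E n ≃ₗ[ℝ] E n, K = A '' closedBall 0 1

/-! ## auxiliary notions used in the proofs -/

/-- `∫_K ρ_{K-x}(u)^p dx`. -/
def chordInt {n : ℕ} (p : ℝ) (K : Set (E n)) (u : E n) : ℝ :=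
  ∫ x in K, radial ((fun y => y - x) '' K) u ^ p

/-- The value `c^p` for the ball, written with `q = p - n`:
`∫∫_{B×B} |x-y|^q = kap * vol B * ∫_B |x|^q`. -/
def kap (n : ℕ) (q : ℝ) : ℝ :=
  (∫ x in closedBall (0 : E n) 1, ∫ y in closedBall (0 : E n) 1, ‖y - x‖ ^ q) /
    (volume.real (closedBall (0 : E n) 1) * ∫ x in closedBall (0 : E n) 1, ‖x‖ ^ q)

/-- The support function. -/
def supp {n : ℕ} (K : Set (E n)) (w : E n) : ℝ := sSup ((fun x => ⟪x, w⟫) '' K)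

/-- The oblique reflection `x ↦ x - 2 ⟨x,w⟩/⟨u,w⟩ u`. -/
def orefl {n : ℕ} (u w x : E n) : E n := x - (2 * ⟪x, w⟫ / ⟪u, w⟫) • u

/-- Steiner symmetrization with respect to the hyperplane `u^⊥` (`u` a unit vector):
`{(x + R x')/2 : x, x' ∈ K, x - x' ∈ ℝ u}`, `R` the reflection in `u^⊥`. -/
def steiner {n : ℕ} (u : E n) (K : Set (E n)) : Set (E n) :=
  {z | ∃ x ∈ K, ∃ x' ∈ K, (∃ r : ℝ, x - x' = r • u) ∧
    z = (1 / 2 : ℝ) • (x + (x' - (2 * ⟪x', u⟫) • u))}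

/-- `J K t = vol {(x,y) ∈ K × K : x - y ∈ t K}`. -/
def J {n : ℕ} (K : Set (E n)) (t : ℝ) : ℝ≥0∞ :=
  (volume.prod volume) {z : E n × E n | z.1 ∈ K ∧ z.2 ∈ K ∧ ∃ k ∈ K, z.1 - z.2 = t • k}

/-- The second moment `∫_K |x|²`. -/
def M2 {n : ℕ} (K : Set (E n)) : ℝ := ∫ x in K, ‖x‖ ^ 2

/-- Coordinates adapted to a direction: `Φ (s, y)` has inner products `s s' + ⟨y,y'⟩`,
`Φ` preserves volume and `Φ (1,0) = u`. -/
structure IsCoord {m : ℕ} (Φ : (ℝ × E m) ≃L[ℝ] E (m + 1)) (u : E (m + 1)) : Prop where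
  mp : MeasurePreserving Φ (volume.prod volume) volume
  ip : ∀ a b : ℝ × E m, ⟪Φ a, Φ b⟫ = a.1 * b.1 + ⟪a.2, b.2⟫
  dir : Φ (1, 0) = u

/-- The section `{s : Φ (s,y) ∈ K}`. -/
def sec {m : ℕ} (Φ : (ℝ × E m) ≃L[ℝ] E (m + 1)) (K : Set (E (m + 1))) (y : E m) : Set ℝ :=
  {s | Φ (s, y) ∈ K}

/-- The projection `{y : the section over y is nonempty}`. -/
def proj {m : ℕ} (Φ : (ℝ × E m) ≃L[ℝ] E (m + 1)) (K : Set (E (m + 1))) : Set (E m) :=
  {y | (sec Φ K y).Nonempty}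

/-- Half length of the section. -/
def hl {m : ℕ} (Φ : (ℝ × E m) ≃L[ℝ] E (m + 1)) (K : Set (E (m + 1))) (y : E m) : ℝ :=
  (sSup (sec Φ K y) - sInf (sec Φ K y)) / 2

/-- Midpoint of the section. -/
def mid {m : ℕ} (Φ : (ℝ × E m) ≃L[ℝ] E (m + 1)) (K : Set (E (m + 1))) (y : E m) : ℝ :=
  (sSup (sec Φ K y) + sInf (sec Φ K y)) / 2

/-- Isotropic position. -/
def Iso {n : ℕ} (K : Set (E n)) (l : ℝ) : Prop := ∀ v : E n, ∫ x in K, ⟪x, v⟫ ^ 2 = l * ‖v‖ ^ 2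

/-- area of `{(s,s') : |s| ≤ a₁, |s'| ≤ a₂, |s - s' + d| ≤ a₃}` -/
def V3 (a₁ a₂ a₃ d : ℝ) : ℝ≥0∞ :=
  (volume : Measure (ℝ × ℝ)) {z : ℝ × ℝ | |z.1| ≤ a₁ ∧ |z.2| ≤ a₂ ∧ |z.1 - z.2 + d| ≤ a₃}

/-- surface measure of the unit sphere of `E n` -/
abbrev sg (n : ℕ) : Measure (sphere (0 : E n) 1) := (volume : Measure (E n)).toSphere

/-- normalised Fourier transform of the surface measure: `jf n z = sg(S)⁻¹ ∫ cos ⟨u,z⟩ dsg(u)` -/
def jf (n : ℕ) (z : E n) : ℝ :=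
  ((sg n).real univ)⁻¹ * ∫ u : sphere (0 : E n) 1, Real.cos ⟪(u : E n), z⟫ ∂(sg n)

/-- normalised Fourier transform of the unit ball: `bf n z = vol(B)⁻¹ ∫_B cos ⟨x,z⟩ dx` -/
def bf (n : ℕ) (z : E n) : ℝ :=
  (volume.real (closedBall (0 : E n) 1))⁻¹ * ∫ x in closedBall (0 : E n) 1, Real.cos ⟪x, z⟫

/-! ## planar part -/

/-- mean of `|cos|^p` -/
def mcos (p : ℝ) : ℝ := Real.pi⁻¹ * ∫ s in (0 : ℝ)..Real.pi, |Real.cos s| ^ p

/-- `Z_p(a) = m_p a - a |a|^p/(p+1)`, a primitive of `m_p - |a|^p`. -/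
def Zp (p a : ℝ) : ℝ := mcos p * a - a * |a| ^ p / (p + 1)

/-- Smooth planar gauge: `g(θ) = ‖(cos θ, sin θ)‖_K` for a smooth strictly convex symmetric `K`. -/
structure SmoothGauge (g : ℝ → ℝ) : Prop where
  smooth : ContDiff ℝ 2 g
  pos : ∀ t, 0 < g t
  per : ∀ t, g (t + Real.pi) = g t
  conv : ∀ t, 0 < g t + deriv (deriv g) t

/-- `U(t,s)` -/
def Uf (g : ℝ → ℝ) (t s : ℝ) : ℝ := (g t * Real.cos s + deriv g t * Real.sin s) / g (t + s)

/-- `V(t,s)` -/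
def Vf (g : ℝ → ℝ) (t s : ℝ) : ℝ := (g (t + s) * Real.cos s - deriv g (t + s) * Real.sin s) / g t

/-- `S(t,s)` -/
def Sf (g : ℝ → ℝ) (t s : ℝ) : ℝ := Real.sin s / (g t * g (t + s))

/-- Continuous planar gauge. -/
structure Gauge2 (g : ℝ → ℝ) : Prop where
  cont : Continuous g
  pos : ∀ t, 0 < g t
  per : ∀ t, g (t + Real.pi) = g t
  conv : ∀ t d, 2 * Real.cos d * g t ≤ g (t + d) + g (t - d)

/-- The support function of the body with gauge `g`. -/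
def hsup (g : ℝ → ℝ) (φ : ℝ) : ℝ := ⨆ t : ℝ, Real.cos (t - φ) / g t

/-- `Γ_p(φ) = ∫_0^π g^(-(p+2)) |cos(t-φ)|^p dt` -/
def Gam (g : ℝ → ℝ) (p φ : ℝ) : ℝ :=
  ∫ t in (0 : ℝ)..Real.pi, g t ^ (-(p + 2)) * |Real.cos (t - φ)| ^ p

/-- The unit vector of angle `φ`. -/
def ev (φ : ℝ) : E 2 := !₂[Real.cos φ, Real.sin φ]

end RMB
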