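import Pool.Agent.RMB.Defs

/-!
# RMB-G1: coordinates adapted to a direction

`WithLp 2 (ℝ × E m)` is isometric to `E (m + 1)`; compose with a reflection.
-/

set_option autoImplicit false

open MeasureTheory Set Metric Filter Topology
open scoped RealInnerProductSpace ENNReal

namespace RMB

private theorem G1_iso (m : ℕ) (u : E (m + 1)) (hu : ‖u‖ = 1) :
    ∃ L : WithLp 2 (ℝ × E m) ≃ₗᵢ[ℝ] E (m + 1), L (WithLp.toLp 2 ((1 : ℝ), (0 : E m))) = u := by
  have hfin : Module.finrank ℝ (WithLp 2 (ℝ × E m)) = m + 1 := by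
    rw [(WithLp.linearEquiv 2 ℝ (ℝ × E m)).finrank_eq]
    rw [Module.finrank_prod]
    simp
    omega
  let L0 : WithLp 2 (ℝ × E m) ≃ₗᵢ[ℝ] E (m + 1) :=
    ((stdOrthonormalBasis ℝ (WithLp 2 (ℝ × E m))).reindex (finCongr hfin)).repr
  have hn : ‖(WithLp.toLp 2 ((1 : ℝ), (0 : E m)) : WithLp 2 (ℝ × E m))‖ = 1 := by
    rw [WithLp.prod_norm_eq_of_L2]
    simp
  have hv : ‖L0 (WithLp.toLp 2 ((1 : ℝ), (0 : E m)))‖ = ‖u‖ := by
    rw [LinearIsometryEquiv.norm_map, hn, hu]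
  refine ⟨L0.trans (Submodule.reflection (ℝ ∙ (L0 (WithLp.toLp 2 ((1 : ℝ), (0 : E m))) - u))ᗮ), ?_⟩
  rw [LinearIsometryEquiv.trans_apply]
  exact Submodule.reflection_sub hv

theorem exists_coord (m : ℕ) (u : E (m + 1)) (hu : ‖u‖ = 1) :
    ∃ Φ : (ℝ × E m) ≃L[ℝ] E (m + 1), IsCoord Φ u := by
  obtain ⟨L, hL⟩ := G1_iso m u hu
  refine ⟨(WithLp.prodContinuousLinearEquiv 2 ℝ ℝ (E m)).symm.trans L.toContinuousLinearEquiv,
    ?_, ?_, ?_⟩
  · have h1 : MeasurePreserving (@WithLp.toLp 2 (ℝ × E m)) :=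
      WithLp.volume_preserving_toLp ℝ (E m)
    have h2 : MeasurePreserving L := L.measurePreserving
    exact h2.comp h1
  · intro a b
    have h : ⟪L (WithLp.toLp 2 a), L (WithLp.toLp 2 b)⟫ = a.1 * b.1 + ⟪a.2, b.2⟫ := by
      rw [LinearIsometryEquiv.inner_map_map, WithLp.prod_inner_apply]
      simp [mul_comm]
    exact h
  · exact hL

end RMB
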