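import Pool.Agent.RMB.G9

/-!
# RMB-G10: bodies with many reflections are balls or ellipsoids

`ball_of_refl`: `n ≥ 1`.  Let `L` be a symmetric convex body invariant under all orthogonal reflections
`x ↦ x - 2⟨x,u⟩u`, `u` unit.  For unit vectors `a ≠ b`, the reflection with `u = (a-b)/‖a-b‖` exchanges `a`
and `b`, so `r a ∈ L ↔ r b ∈ L`: the radial function is constant, `L = closedBall 0 r`.

`ellipsoid_of_orefl`: let `K` be symmetric and invariant, for every unit `u`, under some `orefl u w`,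
`⟨u,w⟩ ≠ 0`.  Take `T` with `L = T K` isotropic (`exists_iso`).  For a unit vector `v` let
`u = T⁻¹ v/‖T⁻¹ v‖` and `w` the corresponding vector.  `σ = T ∘ orefl u w ∘ T⁻¹` is linear, maps `L` into
`L`, hence onto `L` (involution: `orefl u w (orefl u w x) = x`), `σ x = x - 2 φ(x) v` with a linear form
`φ`, `φ(v) = 1`.  It preserves volume up to sign (involution, `|det σ| = 1`), so
`∫_L ⟨σ x, z⟩² = ∫_L ⟨x,z⟩²` for all `z`, i.e. `‖σ* z‖² = ‖z‖²`: `σ*` and `σ` are orthogonal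
(`l > 0`).  Hence `φ(x) = ⟨x,v⟩`: for `x ⊥ v`: `‖x - 2φ(x)v‖² = ‖x‖² + 4 φ(x)² = ‖x‖²` gives `φ(x) = 0`.
So `L` is invariant under `x ↦ x - 2⟨x,v⟩v` for every unit `v`: `L = closedBall 0 r`, `r > 0`, and
`K = T⁻¹ (closedBall 0 r) = (r T⁻¹) (closedBall 0 1)`.

`ellipsoid_of_image`: if `T K` is a ball then `K` is an ellipsoid.
-/

set_option autoImplicit false

open MeasureTheory Set Metric Filter Topology
open scoped RealInnerProductSpace ENNReal

namespace RMB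

variable {n : ℕ}

theorem G10_swap {a b : E n} (ha : ‖a‖ = 1) (hb : ‖b‖ = 1) (hab : a ≠ b) :
    ‖(‖a - b‖⁻¹ • (a - b) : E n)‖ = 1 ∧
      a - (2 * ⟪a, (‖a - b‖⁻¹ • (a - b) : E n)⟫) • (‖a - b‖⁻¹ • (a - b) : E n) = b := by
  have h0 : 0 < ‖a - b‖ := norm_pos_iff.2 (sub_ne_zero.2 hab)
  constructor
  · rw [norm_smul, norm_inv, norm_norm, inv_mul_cancel₀ h0.ne']
  · have h1 : ‖a - b‖ ^ 2 = 2 * ⟪a, a - b⟫ := by
      rw [norm_sub_sq_real, inner_sub_right, real_inner_self_eq_norm_sq, ha, hb]; ring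
    rw [real_inner_smul_right, smul_smul]
    have h2 : 2 * (‖a - b‖⁻¹ * ⟪a, a - b⟫) * ‖a - b‖⁻¹ = 1 := by
      have h3 : 2 * (‖a - b‖⁻¹ * ⟪a, a - b⟫) * ‖a - b‖⁻¹ =
          (2 * ⟪a, a - b⟫) * (‖a - b‖⁻¹ * ‖a - b‖⁻¹) := by ring
      rw [h3, ← h1]
      field_simp
    rw [h2, one_smul]
    abel

theorem G10_unit (hn : 1 ≤ n) : ∃ u : E n, ‖u‖ = 1 := by
  refine ⟨EuclideanSpace.single ⟨0, by omega⟩ (1:ℝ), ?_⟩
  simp

theorem ball_of_refl (hn : 1 ≤ n) {L : Set (E n)} (hL : SymBody L)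
    (h : ∀ u : E n, ‖u‖ = 1 → ∀ x ∈ L, x - (2 * ⟪x, u⟫) • u ∈ L) :
    ∃ r > 0, L = closedBall 0 r := by
  obtain ⟨u0, hu0⟩ := G10_unit hn
  have hmove : ∀ a b : E n, ‖a‖ = 1 → ‖b‖ = 1 → ∀ r : ℝ, r • a ∈ L → r • b ∈ L := by
    intro a b ha hb r hr
    by_cases hab : a = b
    · rw [← hab]; exact hr
    · obtain ⟨h1, h2⟩ := G10_swap ha hb hab
      have h3 := h _ h1 _ hr
      have h4 : r • a - (2 * ⟪r • a, (‖a - b‖⁻¹ • (a - b) : E n)⟫) •
          (‖a - b‖⁻¹ • (a - b) : E n) = r • b := by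
        have h5 : r • (a - (2 * ⟪a, (‖a - b‖⁻¹ • (a - b) : E n)⟫) •
            (‖a - b‖⁻¹ • (a - b) : E n)) = r • b := by rw [h2]
        generalize (‖a - b‖⁻¹ • (a - b) : E n) = g at h5 ⊢
        rw [← h5, real_inner_smul_left, smul_sub, smul_smul r]
        congr 2
        ring
      rw [h4] at h3
      exact h3
  have hrad : ∀ a : E n, ‖a‖ = 1 → radial L a = radial L u0 := by
    intro a ha
    unfold radial
    congr 1
    ext r
    constructor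
    · rintro ⟨h1, h2⟩; exact ⟨h1, hmove a u0 ha hu0 r h2⟩
    · rintro ⟨h1, h2⟩; exact ⟨h1, hmove u0 a hu0 ha r h2⟩
  have hu00 : u0 ≠ 0 := by
    intro h1; rw [h1, norm_zero] at hu0; exact zero_ne_one hu0
  have hIcc := fun (a : E n) (ha : a ≠ 0) => radial_Icc hL.compact hL.convex hL.zero_mem ha
  refine ⟨radial L u0, ?_, ?_⟩
  · obtain ⟨ρ, hρ, hρL⟩ := hL.exists_ball
    have h1 : ρ ∈ {r : ℝ | 0 ≤ r ∧ r • u0 ∈ L} := by
      refine ⟨le_of_lt hρ, hρL ?_⟩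
      rw [mem_closedBall_zero_iff, norm_smul, hu0, mul_one, Real.norm_of_nonneg (le_of_lt hρ)]
    rw [hIcc u0 hu00] at h1
    exact lt_of_lt_of_le hρ h1.2
  · ext x
    rw [mem_closedBall_zero_iff]
    by_cases hx0 : x = 0
    · rw [hx0, norm_zero]
      exact ⟨fun _ => radial_nonneg _ _, fun _ => hL.zero_mem⟩
    have hxn : 0 < ‖x‖ := norm_pos_iff.2 hx0
    have hu : ‖(‖x‖⁻¹ • x : E n)‖ = 1 := by
      rw [norm_smul, norm_inv, norm_norm, inv_mul_cancel₀ hxn.ne']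
    have hu1 : (‖x‖⁻¹ • x : E n) ≠ 0 := by
      intro h1
      rw [h1, norm_zero] at hu
      exact zero_ne_one hu
    have hxu : ‖x‖ • (‖x‖⁻¹ • x : E n) = x := by
      rw [smul_smul, mul_inv_cancel₀ hxn.ne', one_smul]
    have h1 := hIcc _ hu1
    rw [hrad _ hu] at h1
    constructor
    · intro hx
      have h2 : ‖x‖ ∈ {r : ℝ | 0 ≤ r ∧ r • (‖x‖⁻¹ • x : E n) ∈ L} :=
        ⟨hxn.le, by rw [hxu]; exact hx⟩
      rw [h1] at h2
      exact h2.2
    · intro hx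
      have h2 : ‖x‖ ∈ Icc 0 (radial L u0) := ⟨hxn.le, hx⟩
      rw [← h1] at h2
      have h3 := h2.2
      rwa [hxu] at h3

theorem ellipsoid_of_image {K : Set (E n)} (T : E n ≃ₗ[ℝ] E n) {r : ℝ} (hr : 0 < r)
    (h : T '' K = closedBall 0 r) : IsEllipsoid K := by
  refine ⟨(LinearEquiv.smulOfNeZero ℝ (E n) r hr.ne').trans T.symm, ?_⟩
  ext x
  have h1 : x ∈ K ↔ T x ∈ T '' K := by
    constructor
    · intro hx; exact ⟨x, hx, rfl⟩
    · rintro ⟨y, hy, hyx⟩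
      rwa [← T.injective hyx]
  rw [h1, h, mem_closedBall_zero_iff]
  constructor
  · intro hx
    refine ⟨r⁻¹ • T x, ?_, ?_⟩
    · rw [mem_closedBall_zero_iff, norm_smul, norm_inv, Real.norm_of_nonneg hr.le,
        inv_mul_le_iff₀ hr, mul_one]
      exact hx
    · rw [LinearEquiv.trans_apply, LinearEquiv.smulOfNeZero_apply, smul_smul,
        mul_inv_cancel₀ hr.ne', one_smul, LinearEquiv.symm_apply_apply]
  · rintro ⟨y, hy, hyx⟩
    rw [mem_closedBall_zero_iff] at hy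
    rw [← hyx, LinearEquiv.trans_apply, LinearEquiv.smulOfNeZero_apply,
      LinearEquiv.apply_symm_apply, norm_smul, Real.norm_of_nonneg hr.le]
    calc r * ‖y‖ ≤ r * 1 := mul_le_mul_of_nonneg_left hy hr.le
      _ = r := mul_one r

/-- the reflection `x ↦ x - 2 ⟨x,q⟩ v` as a linear map -/
noncomputable def G10_map (q v : E n) : E n →ₗ[ℝ] E n where
  toFun x := x - (2 * ⟪x, q⟫) • v
  map_add' x y := by
    rw [inner_add_left, mul_add, add_smul]; abel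
  map_smul' c x := by
    simp only [RingHom.id_apply]
    rw [real_inner_smul_left, smul_sub, smul_smul]
    congr 2
    ring

theorem G10_invol (q v : E n) (h : ⟪v, q⟫ = (1:ℝ)) : Function.Involutive (G10_map q v) := by
  intro x
  show (x - (2 * ⟪x, q⟫) • v) - (2 * ⟪x - (2 * ⟪x, q⟫) • v, q⟫) • v = x
  rw [inner_sub_left, real_inner_smul_left, h, sub_sub, ← add_smul]
  have h1 : 2 * ⟪x, q⟫ + 2 * (⟪x, q⟫ - 2 * ⟪x, q⟫ * 1) = (0:ℝ) := by ring
  rw [h1, zero_smul, sub_zero]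

theorem G10_main {L : Set (E n)} (hL : SymBody L) {l : ℝ} (hl : 0 < l) (hI : Iso L l)
    {q v : E n} (hv : ‖v‖ = 1) (hvq : ⟪v, q⟫ = (1:ℝ))
    (hLq : ∀ x ∈ L, x - (2 * ⟪x, q⟫) • v ∈ L) : q = v := by
  let S : E n ≃ₗ[ℝ] E n := LinearEquiv.ofInvolutive (G10_map q v) (G10_invol q v hvq)
  have hSx : ∀ x, S x = x - (2 * ⟪x, q⟫) • v := fun x => rfl
  have hSL : S '' L = L := by
    apply Subset.antisymm
    · rintro _ ⟨x, hx, rfl⟩
      rw [hSx]; exact hLq x hx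
    · intro x hx
      refine ⟨S x, ?_, ?_⟩
      · rw [hSx]; exact hLq x hx
      · exact G10_invol q v hvq x
  have hcont : Continuous (fun x : E n => (⟪x, v⟫ : ℝ) ^ 2) := by fun_prop
  obtain ⟨d, hd, h1, h2, _⟩ := image_int hL S hcont
  rw [hSL] at h1 h2
  have hvol := hL.toIsBody.volume_pos
  have hd1 : d = 1 := by
    have h3 : (d - 1) * volume.real L = 0 := by linarith
    rcases mul_eq_zero.1 h3 with h4 | h4
    · linarith
    · exact absurd h4 hvol.ne'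
  rw [hd1, one_mul] at h2
  have h3 : ∀ x : E n, (⟪S x, v⟫ : ℝ) = ⟪x, v - (2:ℝ) • q⟫ := by
    intro x
    rw [hSx, inner_sub_left, real_inner_smul_left, real_inner_self_eq_norm_sq, hv,
      inner_sub_right, real_inner_smul_right]
    ring
  have h4 : ∫ x in L, (⟪S x, v⟫ : ℝ) ^ 2 = ∫ x in L, (⟪x, v - (2:ℝ) • q⟫ : ℝ) ^ 2 := by
    congr 1
    funext x
    rw [h3]
  rw [h4, hI v, hI (v - (2:ℝ) • q)] at h2
  have h5 : ‖v‖ ^ 2 = ‖v - (2:ℝ) • q‖ ^ 2 := mul_left_cancel₀ hl.ne' h2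
  rw [norm_sub_sq_real, real_inner_smul_right, hvq, norm_smul, hv, Real.norm_ofNat] at h5
  have h6 : ‖q‖ ^ 2 = 1 := by nlinarith
  have h7 : ‖q - v‖ ^ 2 = 0 := by
    rw [norm_sub_sq_real, real_inner_comm, hvq, h6, hv]; norm_num
  have h8 : ‖q - v‖ = 0 := by
    exact pow_eq_zero_iff (two_ne_zero) |>.1 h7
  exact sub_eq_zero.1 (norm_eq_zero.1 h8)

theorem ellipsoid_of_orefl (hn : 1 ≤ n) {K : Set (E n)} (hK : SymBody K)
    (h : ∀ u : E n, ‖u‖ = 1 → ∃ w : E n, ⟪u, w⟫ ≠ 0 ∧ ∀ x ∈ K, orefl u w x ∈ K) :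
    IsEllipsoid K := by
  obtain ⟨T, l, hl, hI⟩ := exists_iso hK
  have hL : SymBody (T '' K) := image_sym hK T
  have hrefl : ∀ v : E n, ‖v‖ = 1 → ∀ x ∈ T '' K, x - (2 * ⟪x, v⟫) • v ∈ T '' K := by
    intro v hv
    have hv0 : v ≠ 0 := by
      intro h1; rw [h1, norm_zero] at hv; exact zero_ne_one hv
    have hs0 : T.symm v ≠ 0 := by
      intro h1
      apply hv0
      have h2 := congrArg T h1
      rwa [LinearEquiv.apply_symm_apply, map_zero] at h2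
    have hsn : 0 < ‖T.symm v‖ := norm_pos_iff.2 hs0
    obtain ⟨w, hw, hwK⟩ := h (‖T.symm v‖⁻¹ • T.symm v) (by
      rw [norm_smul, norm_inv, norm_norm, inv_mul_cancel₀ hsn.ne'])
    obtain ⟨q, hq⟩ : ∃ q : E n, q = (⟪(‖T.symm v‖⁻¹ • T.symm v : E n), w⟫ * ‖T.symm v‖)⁻¹ •
      LinearMap.adjoint (T.symm : E n →ₗ[ℝ] E n) w := ⟨_, rfl⟩
    have hqx : ∀ x : E n, (⟪x, q⟫ : ℝ) =
        (⟪(‖T.symm v‖⁻¹ • T.symm v : E n), w⟫ * ‖T.symm v‖)⁻¹ * ⟪T.symm x, w⟫ := by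
      intro x
      rw [hq, real_inner_smul_right, LinearMap.adjoint_inner_right]
      rfl
    have hvq : ⟪v, q⟫ = (1:ℝ) := by
      rw [hqx]
      rw [real_inner_smul_left] at hw ⊢
      have h3 : (⟪T.symm v, w⟫ : ℝ) ≠ 0 := by
        intro h4; rw [h4, mul_zero] at hw; exact hw rfl
      field_simp
    have hinv : ∀ x ∈ T '' K, x - (2 * ⟪x, q⟫) • v ∈ T '' K := by
      rintro _ ⟨y, hy, rfl⟩
      refine ⟨orefl (‖T.symm v‖⁻¹ • T.symm v) w y, hwK y hy, ?_⟩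
      unfold orefl
      rw [map_sub, map_smul, map_smul, LinearEquiv.apply_symm_apply, smul_smul, hqx,
        LinearEquiv.symm_apply_apply]
      congr 2
      field_simp
    have hqv := G10_main hL hl hI hv hvq hinv
    rw [hqv] at hinv
    exact hinv
  obtain ⟨r, hr, hball⟩ := ball_of_refl hn hL hrefl
  exact ellipsoid_of_image T hr hball

end RMB
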