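import Pool.Agent.RMB.Defs

/-!
# RMB-G2: sections of a compact convex set along a direction

`sec Φ K y = {s : Φ (s,y) ∈ K}` is compact and convex, hence an interval (if nonempty).
Measurability: for `c : ℝ`, `{y ∈ proj : c ≤ sSup (sec y)}` is the projection of the compact set
`{(s,y) : Φ (s,y) ∈ K, c ≤ s}`, hence compact (the sup is attained); outside `proj` both
`sSup` and `sInf` of the empty set are 0, so `hl = mid = 0` there.  `proj` is the image of
`K` under `y`-coordinate of `Φ.symm`: compact and convex.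
-/

set_option autoImplicit false

open MeasureTheory Set Metric Filter Topology
open scoped RealInnerProductSpace ENNReal

namespace RMB

variable {m : ℕ} {Φ : (ℝ × E m) ≃L[ℝ] E (m + 1)} {K : Set (E (m + 1))}

private theorem g2_KK (hK : IsCompact K) : IsCompact {z : ℝ × E m | Φ z ∈ K} := by
  have h1 : {z : ℝ × E m | Φ z ∈ K} = Φ.symm '' K := by
    ext z
    simp only [mem_ofPred_eq, mem_image]
    constructor
    · intro h
      exact ⟨Φ z, h, Φ.symm_apply_apply z⟩
    · rintro ⟨x, hx, rfl⟩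
      rwa [Φ.apply_symm_apply]
  rw [h1]
  exact hK.image Φ.symm.continuous

private theorem g2_sec (hK : IsCompact K) (y : E m) : IsCompact (sec Φ K y) := by
  have h1 : sec Φ K y = Prod.fst '' ({z : ℝ × E m | Φ z ∈ K} ∩ {z | z.2 = y}) := by
    ext s
    simp only [sec, mem_ofPred_eq, mem_image, mem_inter_iff, Prod.exists]
    constructor
    · intro h
      exact ⟨s, y, ⟨h, rfl⟩, rfl⟩
    · rintro ⟨s', y', ⟨h, h2⟩, h3⟩
      subst h2
      subst h3
      exact h
  rw [h1]
  refine ((g2_KK hK).inter_right ?_).image continuous_fst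
  exact isClosed_eq continuous_snd continuous_const

theorem sec_eq (hK : IsCompact K) (hc : Convex ℝ K) {y : E m} (hy : y ∈ proj Φ K) :
    sec Φ K y = Icc (mid Φ K y - hl Φ K y) (mid Φ K y + hl Φ K y) := by
  have hcon : Convex ℝ (sec Φ K y) := by
    intro s hs t ht a b ha hb hab
    have h1 := hc hs ht ha hb hab
    have h2 : Φ (a • s + b • t, y) = a • Φ (s, y) + b • Φ (t, y) := by
      rw [← map_smul, ← map_smul, ← map_add]
      congr 1
      ext1
      · simp
      · simp only [Prod.smul_mk, Prod.mk_add_mk]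
        rw [← add_smul, hab, one_smul]
    show Φ (a • s + b • t, y) ∈ K
    rw [h2]
    exact h1
  have h3 := eq_Icc_of_connected_compact ⟨hy, hcon.isPreconnected⟩ (g2_sec hK y)
  have h4 : mid Φ K y - hl Φ K y = sInf (sec Φ K y) := by
    unfold mid hl
    ring
  have h5 : mid Φ K y + hl Φ K y = sSup (sec Φ K y) := by
    unfold mid hl
    ring
  rw [h4, h5]
  exact h3

theorem hl_nonneg (hK : IsCompact K) (y : E m) : 0 ≤ hl Φ K y := by
  unfold hl
  have h1 := g2_sec (Φ := Φ) hK y
  have h2 : sInf (sec Φ K y) ≤ sSup (sec Φ K y) :=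
    Real.sInf_le_sSup _ h1.bddBelow h1.bddAbove
  linarith

theorem hl_mid_of_notMem {y : E m} (hy : y ∉ proj Φ K) : hl Φ K y = 0 ∧ mid Φ K y = 0 := by
  have h1 : sec Φ K y = ∅ := not_nonempty_iff_eq_empty.1 hy
  unfold hl mid
  rw [h1, Real.sSup_empty, Real.sInf_empty]
  norm_num

private theorem g2_proj : proj Φ K = Prod.snd '' {z : ℝ × E m | Φ z ∈ K} := by
  ext y
  simp only [proj, sec, mem_ofPred_eq, mem_image, Prod.exists, Set.Nonempty]
  constructor
  · rintro ⟨s, hs⟩
    exact ⟨s, y, hs, rfl⟩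
  · rintro ⟨s, y', hs, h⟩
    subst h
    exact ⟨s, hs⟩

theorem isCompact_proj (hK : IsCompact K) : IsCompact (proj Φ K) := by
  rw [g2_proj]
  exact (g2_KK hK).image continuous_snd

theorem convex_proj (hc : Convex ℝ K) : Convex ℝ (proj Φ K) := by
  rintro y ⟨s, hs⟩ y' ⟨s', hs'⟩ a b ha hb hab
  refine ⟨a • s + b • s', ?_⟩
  have h1 := hc hs hs' ha hb hab
  have h2 : Φ (a • s + b • s', a • y + b • y') = a • Φ (s, y) + b • Φ (s', y') := by
    rw [← map_smul, ← map_smul, ← map_add]
    rfl
  show Φ (a • s + b • s', a • y + b • y') ∈ K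
  rw [h2]
  exact h1

private theorem g2_meas_sup (hK : IsCompact K) : Measurable fun y => sSup (sec Φ K y) := by
  apply measurable_of_Ici
  intro c
  have h1 : (fun y => sSup (sec Φ K y)) ⁻¹' Ici c =
      (Prod.snd '' ({z : ℝ × E m | Φ z ∈ K} ∩ {z | c ≤ z.1})) ∪ ((proj Φ K)ᶜ ∩ {_y | c ≤ 0}) := by
    ext y
    simp only [mem_preimage, mem_Ici, mem_union, mem_image, mem_inter_iff, mem_ofPred_eq,
      Prod.exists, mem_compl_iff]
    by_cases hy : y ∈ proj Φ K
    · constructor
      · intro h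
        exact Or.inl ⟨_, y, ⟨(g2_sec hK y).sSup_mem hy, h⟩, rfl⟩
      · rintro (⟨s, y', ⟨hs, hcs⟩, h⟩ | h)
        · subst h
          exact hcs.trans (le_csSup (g2_sec hK y').bddAbove hs)
        · exact absurd hy h.1
    · have h2 : sec Φ K y = ∅ := not_nonempty_iff_eq_empty.1 hy
      rw [h2, Real.sSup_empty]
      constructor
      · intro h
        exact Or.inr ⟨hy, h⟩
      · rintro (⟨s, y', ⟨hs, hcs⟩, h⟩ | h)
        · subst h
          exact absurd ⟨s, hs⟩ hy
        · exact h.2
  rw [h1]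
  refine MeasurableSet.union ?_ (((isCompact_proj hK).measurableSet.compl).inter
    (MeasurableSet.const _))
  refine IsCompact.measurableSet (((g2_KK hK).inter_right ?_).image continuous_snd)
  exact isClosed_le continuous_const continuous_fst

private theorem g2_meas_inf (hK : IsCompact K) : Measurable fun y => sInf (sec Φ K y) := by
  apply measurable_of_Iic
  intro c
  have h1 : (fun y => sInf (sec Φ K y)) ⁻¹' Iic c =
      (Prod.snd '' ({z : ℝ × E m | Φ z ∈ K} ∩ {z | z.1 ≤ c})) ∪ ((proj Φ K)ᶜ ∩ {_y | 0 ≤ c}) := by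
    ext y
    simp only [mem_preimage, mem_Iic, mem_union, mem_image, mem_inter_iff, mem_ofPred_eq,
      Prod.exists, mem_compl_iff]
    by_cases hy : y ∈ proj Φ K
    · constructor
      · intro h
        exact Or.inl ⟨_, y, ⟨(g2_sec hK y).sInf_mem hy, h⟩, rfl⟩
      · rintro (⟨s, y', ⟨hs, hcs⟩, h⟩ | h)
        · subst h
          exact (csInf_le (g2_sec hK y').bddBelow hs).trans hcs
        · exact absurd hy h.1
    · have h2 : sec Φ K y = ∅ := not_nonempty_iff_eq_empty.1 hy
      rw [h2, Real.sInf_empty]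
      constructor
      · intro h
        exact Or.inr ⟨hy, h⟩
      · rintro (⟨s, y', ⟨hs, hcs⟩, h⟩ | h)
        · subst h
          exact absurd ⟨s, hs⟩ hy
        · exact h.2
  rw [h1]
  refine MeasurableSet.union ?_ (((isCompact_proj hK).measurableSet.compl).inter
    (MeasurableSet.const _))
  refine IsCompact.measurableSet (((g2_KK hK).inter_right ?_).image continuous_snd)
  exact isClosed_le continuous_fst continuous_const

theorem measurable_hl (hK : IsCompact K) : Measurable (hl Φ K) := by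
  unfold hl
  exact ((g2_meas_sup hK).sub (g2_meas_inf hK)).div_const 2

theorem measurable_mid (hK : IsCompact K) : Measurable (mid Φ K) := by
  unfold mid
  exact ((g2_meas_sup hK).add (g2_meas_inf hK)).div_const 2

/-- bounds -/
theorem hl_bdd (hK : IsCompact K) : ∃ C : ℝ, ∀ y, hl Φ K y ≤ C ∧ |mid Φ K y| ≤ C := by
  obtain ⟨R, hR⟩ := (g2_KK (Φ := Φ) hK).isBounded.exists_norm_le
  have hb : ∀ y, ∀ s ∈ sec Φ K y, |s| ≤ R := by
    intro y s hs
    have h1 := hR (s, y) hs
    exact (norm_fst_le (s, y)).trans h1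
  refine ⟨max R 0, fun y => ?_⟩
  by_cases hy : y ∈ proj Φ K
  · have h1 := abs_le.1 (hb y _ ((g2_sec hK y).sSup_mem hy))
    have h2 := abs_le.1 (hb y _ ((g2_sec hK y).sInf_mem hy))
    have h3 := le_max_left R 0
    unfold hl mid
    refine ⟨by linarith [h1.2, h2.1], abs_le.2 ⟨by linarith [h1.1, h2.1], by linarith [h1.2, h2.2]⟩⟩
  · obtain ⟨h1, h2⟩ := hl_mid_of_notMem (Φ := Φ) hy
    rw [h1, h2, abs_zero]
    exact ⟨le_max_right _ _, le_max_right _ _⟩

end RMB
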