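import Pool.Agent.RMB.G2

/-!
# RMB-G3: sections over the interior of the projection

PROOF.  `sSup (sec y)` is concave and `sInf (sec y)` is convex on the convex set `proj` (convexity of
`K`), so both are continuous on the interior: `ConcaveOn.continuousOn_interior`,
`ConvexOn.continuousOn_interior` (finite dimensional; or `ConcaveOn.continuousOn` on open sets).
Hence `hl` is concave (used below) and `hl, mid` are continuous there.  Positivity: `K` has an
interior point, so `hl y₀ > 0` for some `y₀ ∈ proj`; for `y` in the interior of `proj` write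
`y = (1-a) y₀ + a z` with `z ∈ proj`, `a < 1`; concavity gives `hl y ≥ (1-a) hl y₀ > 0`.
The boundary of a convex set is a null set: `Convex.addHaar_frontier`.
If `K` is symmetric: `sec (-y) = -sec y`, so `hl` is even and `mid` is odd, and
`0 ∈ interior proj` (`0` is interior to `K`, project).
-/

set_option autoImplicit false

open MeasureTheory Set Metric Filter Topology
open scoped RealInnerProductSpace ENNReal

namespace RMB

variable {m : ℕ} {Φ : (ℝ × E m) ≃L[ℝ] E (m + 1)} {K : Set (E (m + 1))}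

private theorem top_mem (hK : IsCompact K) (hc : Convex ℝ K) {y : E m} (hy : y ∈ proj Φ K) :
    Φ (mid Φ K y + hl Φ K y, y) ∈ K := by
  have h := sec_eq hK hc hy
  have h0 := hl_nonneg (Φ := Φ) hK y
  have : mid Φ K y + hl Φ K y ∈ sec Φ K y := by
    rw [h]; exact ⟨by linarith, le_refl _⟩
  exact this

private theorem bot_mem (hK : IsCompact K) (hc : Convex ℝ K) {y : E m} (hy : y ∈ proj Φ K) :
    Φ (mid Φ K y - hl Φ K y, y) ∈ K := by
  have h := sec_eq hK hc hy
  have h0 := hl_nonneg (Φ := Φ) hK y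
  have : mid Φ K y - hl Φ K y ∈ sec Φ K y := by
    rw [h]; exact ⟨le_refl _, by linarith⟩
  exact this

private theorem bounds (hK : IsCompact K) (hc : Convex ℝ K) {y : E m} {s : ℝ}
    (hs : Φ (s, y) ∈ K) : mid Φ K y - hl Φ K y ≤ s ∧ s ≤ mid Φ K y + hl Φ K y := by
  have hy : y ∈ proj Φ K := ⟨s, hs⟩
  have h := sec_eq hK hc hy
  have h1 : s ∈ sec Φ K y := hs
  rw [h] at h1
  exact h1

private theorem comb (hc : Convex ℝ K) {y z : E m} {s t a b : ℝ} (hs : Φ (s, y) ∈ K)
    (ht : Φ (t, z) ∈ K) (ha : 0 ≤ a) (hb : 0 ≤ b) (hab : a + b = 1) :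
    Φ (a * s + b * t, a • y + b • z) ∈ K := by
  have h := hc hs ht ha hb hab
  rw [← map_smul, ← map_smul, ← map_add] at h
  exact h

private theorem up_concave (hK : IsCompact K) (hc : Convex ℝ K) :
    ConcaveOn ℝ (proj Φ K) (fun y => mid Φ K y + hl Φ K y) := by
  refine ⟨convex_proj hc, ?_⟩
  intro y hy z hz a b ha hb hab
  have h := comb hc (top_mem hK hc hy) (top_mem hK hc hz) ha hb hab
  exact (bounds hK hc h).2

private theorem lo_convex (hK : IsCompact K) (hc : Convex ℝ K) :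
    ConvexOn ℝ (proj Φ K) (fun y => mid Φ K y - hl Φ K y) := by
  refine ⟨convex_proj hc, ?_⟩
  intro y hy z hz a b ha hb hab
  have h := comb hc (bot_mem hK hc hy) (bot_mem hK hc hz) ha hb hab
  exact (bounds hK hc h).1

theorem concaveOn_hl (hK : IsCompact K) (hc : Convex ℝ K) : ConcaveOn ℝ (proj Φ K) (hl Φ K) := by
  refine ⟨convex_proj hc, ?_⟩
  intro y hy z hz a b ha hb hab
  have h1 := (up_concave (Φ := Φ) hK hc).2 hy hz ha hb hab
  have h2 := (lo_convex (Φ := Φ) hK hc).2 hy hz ha hb hab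
  simp only [smul_eq_mul] at h1 h2 ⊢
  linarith

theorem continuousOn_hl (hK : IsCompact K) (hc : Convex ℝ K) :
    ContinuousOn (hl Φ K) (interior (proj Φ K)) :=
  (concaveOn_hl hK hc).continuousOn_interior

theorem continuousOn_mid (hK : IsCompact K) (hc : Convex ℝ K) :
    ContinuousOn (mid Φ K) (interior (proj Φ K)) := by
  have h1 := (up_concave (Φ := Φ) hK hc).continuousOn_interior
  have h2 := continuousOn_hl (Φ := Φ) hK hc
  have h3 := h1.sub h2
  refine h3.congr fun y _ => ?_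
  simp

private theorem pr_mem {x : E (m + 1)} (hx : x ∈ K) : (Φ.symm x).2 ∈ proj Φ K := by
  refine ⟨(Φ.symm x).1, ?_⟩
  show Φ ((Φ.symm x).1, (Φ.symm x).2) ∈ K
  rw [Prod.mk.eta, Φ.apply_symm_apply]
  exact hx

private theorem pr_interior {x : E (m + 1)} (hx : x ∈ interior K) :
    (Φ.symm x).2 ∈ interior (proj Φ K) := by
  have hopen : IsOpen ((fun z : E (m + 1) => (Φ.symm z).2) '' interior K) := by
    have h1 : IsOpenMap (fun z : E (m + 1) => (Φ.symm z).2) :=
      isOpenMap_snd.comp Φ.symm.toHomeomorph.isOpenMap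
    exact h1 _ isOpen_interior
  refine mem_interior.mpr ⟨_, ?_, hopen, ⟨x, hx, rfl⟩⟩
  rintro _ ⟨z, hz, rfl⟩
  exact pr_mem (interior_subset hz)

theorem interior_proj_nonempty (hK : IsBody K) : (interior (proj Φ K)).Nonempty := by
  obtain ⟨x, hx⟩ := hK.int_nonempty
  exact ⟨_, pr_interior hx⟩

private theorem hl_pos_aux (hK : IsBody K) : ∃ y₀ ∈ proj Φ K, 0 < hl Φ K y₀ := by
  obtain ⟨x, hx⟩ := hK.int_nonempty
  set s₀ := (Φ.symm x).1 with hs0
  set y₀ := (Φ.symm x).2 with hy0
  have hx' : Φ (s₀, y₀) = x := by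
    rw [hs0, hy0, Prod.mk.eta, Φ.apply_symm_apply]
  have hcont : Continuous fun s : ℝ => Φ (s, y₀) := Φ.continuous.comp (by fun_prop)
  have hmem : (fun s : ℝ => Φ (s, y₀)) ⁻¹' interior K ∈ 𝓝 s₀ := by
    refine hcont.continuousAt.preimage_mem_nhds ?_
    show interior K ∈ 𝓝 (Φ (s₀, y₀))
    rw [hx']
    exact isOpen_interior.mem_nhds hx
  obtain ⟨ε, hε, hb⟩ := Metric.mem_nhds_iff.mp hmem
  have h1 : Φ (s₀ + ε / 2, y₀) ∈ K := by
    refine interior_subset (hb ?_)
    rw [Metric.mem_ball, Real.dist_eq]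
    have : s₀ + ε / 2 - s₀ = ε / 2 := by ring
    rw [this, abs_of_pos (by linarith)]
    linarith
  have h2 : Φ (s₀ - ε / 2, y₀) ∈ K := by
    refine interior_subset (hb ?_)
    rw [Metric.mem_ball, Real.dist_eq]
    have : s₀ - ε / 2 - s₀ = -(ε / 2) := by ring
    rw [this, abs_neg, abs_of_pos (by linarith)]
    linarith
  refine ⟨y₀, ⟨_, h1⟩, ?_⟩
  have b1 := (bounds hK.compact hK.convex h1).2
  have b2 := (bounds hK.compact hK.convex h2).1
  linarith

theorem hl_pos (hK : IsBody K) {y : E m} (hy : y ∈ interior (proj Φ K)) : 0 < hl Φ K y := by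
  obtain ⟨y₀, hy₀, hpos⟩ := hl_pos_aux (Φ := Φ) hK
  have hcont : Continuous fun t : ℝ => y + t • (y - y₀) := by fun_prop
  have hmem : (fun t : ℝ => y + t • (y - y₀)) ⁻¹' interior (proj Φ K) ∈ 𝓝 (0 : ℝ) := by
    refine hcont.continuousAt.preimage_mem_nhds ?_
    show interior (proj Φ K) ∈ 𝓝 (y + (0 : ℝ) • (y - y₀))
    rw [zero_smul, add_zero]
    exact isOpen_interior.mem_nhds hy
  obtain ⟨ε, hε, hb⟩ := Metric.mem_nhds_iff.mp hmem
  set t := ε / 2 with ht
  have htpos : 0 < t := by rw [ht]; linarith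
  have hz : y + t • (y - y₀) ∈ proj Φ K := by
    refine interior_subset (hb ?_)
    rw [Metric.mem_ball, Real.dist_eq, sub_zero, abs_of_pos htpos]
    rw [ht]; linarith
  have h1t : 0 < 1 + t := by linarith
  have hcomb := (concaveOn_hl (Φ := Φ) hK.compact hK.convex).2 hz hy₀
    (show 0 ≤ 1 / (1 + t) by positivity) (show 0 ≤ t / (1 + t) by positivity)
    (by field_simp)
  have hyeq : (1 / (1 + t)) • (y + t • (y - y₀)) + (t / (1 + t)) • y₀ = y := by
    have e1 : y + t • (y - y₀) = (1 + t) • y - t • y₀ := by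
      rw [smul_sub, add_smul, one_smul]; abel
    rw [e1, smul_sub, smul_smul, smul_smul, one_div, inv_mul_cancel₀ h1t.ne', one_smul,
      div_eq_inv_mul]
    abel
  rw [hyeq] at hcomb
  have hzn := hl_nonneg (Φ := Φ) hK.compact (y + t • (y - y₀))
  simp only [smul_eq_mul] at hcomb
  have p1 : 0 ≤ 1 / (1 + t) * hl Φ K (y + t • (y - y₀)) := by positivity
  have p2 : 0 < t / (1 + t) * hl Φ K y₀ := by positivity
  linarith

theorem frontier_proj_null (hK : IsBody K) : volume (frontier (proj Φ K)) = 0 :=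
  (convex_proj hK.convex).addHaar_frontier volume

private theorem sec_neg (hK : SymBody K) (y : E m) : sec Φ K (-y) = -sec Φ K y := by
  ext s
  rw [Set.mem_neg]
  show Φ (s, -y) ∈ K ↔ Φ (-s, y) ∈ K
  have e : Φ (-s, y) = -Φ (s, -y) := by
    rw [← map_neg]
    congr 1
    simp
  rw [e]
  constructor
  · exact fun h => hK.sym _ h
  · intro h
    have := hK.sym _ h
    rwa [neg_neg] at this

private theorem sSup_sec_neg (hK : SymBody K) (y : E m) :
    sSup (sec Φ K (-y)) = -sInf (sec Φ K y) := by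
  rw [sec_neg hK, Real.sInf_def, neg_neg]

private theorem sInf_sec_neg (hK : SymBody K) (y : E m) :
    sInf (sec Φ K (-y)) = -sSup (sec Φ K y) := by
  rw [sec_neg hK, Real.sInf_def, neg_neg]

theorem hl_neg (hK : SymBody K) (y : E m) : hl Φ K (-y) = hl Φ K y := by
  unfold hl
  rw [sSup_sec_neg hK, sInf_sec_neg hK]
  ring

theorem mid_neg (hK : SymBody K) (y : E m) : mid Φ K (-y) = -mid Φ K y := by
  unfold mid
  rw [sSup_sec_neg hK, sInf_sec_neg hK]
  ring

theorem neg_mem_proj (hK : SymBody K) {y : E m} (hy : y ∈ proj Φ K) : -y ∈ proj Φ K := by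
  obtain ⟨s, hs⟩ := hy
  refine ⟨-s, ?_⟩
  rw [sec_neg hK, Set.mem_neg, neg_neg]
  exact hs

theorem zero_mem_interior_proj (hK : SymBody K) : (0 : E m) ∈ interior (proj Φ K) := by
  obtain ⟨y, hy⟩ := interior_proj_nonempty (Φ := Φ) hK.toIsBody
  have hny : -y ∈ interior (proj Φ K) := by
    have hopen : IsOpen ((fun z : E m => -z) ⁻¹' interior (proj Φ K)) :=
      isOpen_interior.preimage continuous_neg
    refine mem_interior.mpr ⟨_, ?_, hopen, ?_⟩
    · intro z hz
      have h1 : -z ∈ proj Φ K := interior_subset hz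
      have h2 := neg_mem_proj hK h1
      rwa [neg_neg] at h2
    · show -(-y) ∈ interior (proj Φ K)
      rwa [neg_neg]
  have hci : Convex ℝ (interior (proj Φ K)) := (convex_proj hK.convex).interior
  have h := hci hy hny (show (0 : ℝ) ≤ 1 / 2 by norm_num) (show (0 : ℝ) ≤ 1 / 2 by norm_num)
    (by norm_num)
  have e : (1 / 2 : ℝ) • y + (1 / 2 : ℝ) • (-y) = 0 := by rw [smul_neg, add_neg_cancel]
  rwa [e] at h

end RMB
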