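import Pool.Agent.RMB.G2

/-!
# RMB-G4: Fubini along a direction

PROOF.  `IsCoord.mp`: pull back to `ℝ × E m` (`MeasurePreserving.lintegral_comp`,
`MeasurePreserving.setIntegral_preimage_emb`, the homeomorphism is a measurable embedding), then
Tonelli `lintegral_prod_symm` / `integral_prod_symm`; for fixed `y` the indicator of `K` restricts
to the indicator of `sec Φ K y`, which is the interval of `sec_eq` for `y ∈ proj` and empty
otherwise.  For the integral version `f` is bounded on the compact set `K`, hence integrable on it.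
-/

set_option autoImplicit false

open MeasureTheory Set Metric Filter Topology
open scoped RealInnerProductSpace ENNReal

namespace RMB

variable {m : ℕ} {Φ : (ℝ × E m) ≃L[ℝ] E (m + 1)} {u : E (m + 1)} {K : Set (E (m + 1))}

private theorem G4_ind {X : Type*} [Zero X] (f : E (m + 1) → X) (y : E m) (s : ℝ) :
    K.indicator f (Φ (s, y)) = (sec Φ K y).indicator (fun s => f (Φ (s, y))) s := by
  by_cases h : Φ (s, y) ∈ K
  · have h' : s ∈ sec Φ K y := h
    rw [indicator_of_mem h, indicator_of_mem h']
  · have h' : s ∉ sec Φ K y := h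
    rw [indicator_of_notMem h, indicator_of_notMem h']

theorem lintegral_body (hΦ : IsCoord Φ u) (hK : IsCompact K) (hc : Convex ℝ K)
    {f : E (m + 1) → ℝ≥0∞} (hf : Measurable f) :
    ∫⁻ x in K, f x = ∫⁻ y in proj Φ K,
      ∫⁻ s in Icc (mid Φ K y - hl Φ K y) (mid Φ K y + hl Φ K y), f (Φ (s, y)) := by
  have hKm : MeasurableSet K := hK.measurableSet
  have hPm : MeasurableSet (proj Φ K) := (isCompact_proj hK).measurableSet
  have hfi : Measurable (K.indicator f) := hf.indicator hKm
  have h1 : ∫⁻ x in K, f x = ∫⁻ z, (K.indicator f) (Φ z) ∂(volume.prod volume) := by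
    rw [hΦ.mp.lintegral_comp hfi, lintegral_indicator hKm]
  have hm : Measurable (fun z : ℝ × E m => K.indicator f (Φ z)) :=
    hfi.comp Φ.continuous.measurable
  rw [h1, lintegral_prod_symm _ hm.aemeasurable,
    ← lintegral_indicator hPm]
  refine lintegral_congr fun y => ?_
  simp_rw [G4_ind]
  by_cases hy : y ∈ proj Φ K
  · rw [indicator_of_mem hy, sec_eq hK hc hy, lintegral_indicator measurableSet_Icc]
  · have he : sec Φ K y = ∅ := not_nonempty_iff_eq_empty.1 hy
    rw [indicator_of_notMem hy, he]
    simp

/-- Version for real functions: `f` measurable and bounded on `K`. -/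
theorem integral_body (hΦ : IsCoord Φ u) (hK : IsCompact K) (hc : Convex ℝ K)
    {f : E (m + 1) → ℝ} (hf : IntegrableOn f K) :
    IntegrableOn (fun y => ∫ s in (mid Φ K y - hl Φ K y)..(mid Φ K y + hl Φ K y), f (Φ (s, y)))
      (proj Φ K) ∧
    ∫ x in K, f x = ∫ y in proj Φ K,
      ∫ s in (mid Φ K y - hl Φ K y)..(mid Φ K y + hl Φ K y), f (Φ (s, y)) := by
  have hKm : MeasurableSet K := hK.measurableSet
  have hPm : MeasurableSet (proj Φ K) := (isCompact_proj hK).measurableSet
  have hemb : MeasurableEmbedding (Φ : ℝ × E m → E (m + 1)) :=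
    Φ.toHomeomorph.measurableEmbedding
  have h0 : Integrable (K.indicator f) := (integrable_indicator_iff hKm).2 hf
  have h1 : Integrable (fun z : ℝ × E m => K.indicator f (Φ z)) (volume.prod volume) :=
    (hΦ.mp.integrable_comp_emb hemb).2 h0
  have hkey : ∀ y : E m, ∫ s, K.indicator f (Φ (s, y)) =
      (proj Φ K).indicator (fun y => ∫ s in (mid Φ K y - hl Φ K y)..(mid Φ K y + hl Φ K y),
        f (Φ (s, y))) y := by
    intro y
    simp_rw [G4_ind]
    by_cases hy : y ∈ proj Φ K
    · have hh := hl_nonneg (Φ := Φ) hK y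
      rw [indicator_of_mem hy, sec_eq hK hc hy, integral_indicator measurableSet_Icc,
        intervalIntegral.integral_of_le (by linarith), integral_Icc_eq_integral_Ioc]
    · have he : sec Φ K y = ∅ := not_nonempty_iff_eq_empty.1 hy
      rw [indicator_of_notMem hy, he]
      simp
  constructor
  · have h2 := h1.integral_prod_right
    simp_rw [hkey] at h2
    exact (integrable_indicator_iff hPm).1 h2
  · rw [← integral_indicator hKm, ← hΦ.mp.integral_comp hemb, integral_prod_symm _ h1]
    simp_rw [hkey]
    rw [integral_indicator hPm]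

theorem volume_body (hΦ : IsCoord Φ u) (hK : IsCompact K) (hc : Convex ℝ K) :
    volume K = ∫⁻ y in proj Φ K, ENNReal.ofReal (2 * hl Φ K y) := by
  have h := lintegral_body hΦ hK hc (f := fun _ => 1) measurable_const
  rw [setLIntegral_const, one_mul] at h
  rw [h]
  refine setLIntegral_congr_fun (isCompact_proj hK).measurableSet ?_
  intro y _
  simp only [setLIntegral_const, one_mul, Real.volume_Icc]
  congr 1
  ring

end RMB
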