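import Pool.Agent.RMB.Defs

/-!
# RMB-G5: basic facts on radial functions and symmetric bodies

Elementary: `{r ≥ 0 : r u ∈ L}` is a compact interval containing 0 if `L` is compact, convex and
`0 ∈ L`, `u ≠ 0`.  A symmetric convex body contains a ball around 0 (average an interior ball with its
mirror image) and is contained in a ball; its gauge is a norm: continuous, `gauge K x ≤ 1 ↔ x ∈ K`,
and `radial K u = 1 / gauge K u` for `u ≠ 0`.
-/

set_option autoImplicit false

open MeasureTheory Set Metric Filter Topology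
open scoped RealInnerProductSpace ENNReal

namespace RMB

variable {n : ℕ}

theorem radial_nonneg (L : Set (E n)) (u : E n) : 0 ≤ radial L u :=
  Real.sSup_nonneg (fun _ hr => hr.1)

/-- `{r ≥ 0 : r u ∈ L} = [0, ρ_L(u)]` -/
theorem radial_Icc {L : Set (E n)} (hL : IsCompact L) (hc : Convex ℝ L) (h0 : (0 : E n) ∈ L)
    {u : E n} (hu : u ≠ 0) : {r : ℝ | 0 ≤ r ∧ r • u ∈ L} = Icc 0 (radial L u) := by
  have hclosed : IsClosed {r : ℝ | 0 ≤ r ∧ r • u ∈ L} := by
    have h1 : IsClosed {r : ℝ | 0 ≤ r} := isClosed_le continuous_const continuous_id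
    have h2 : IsClosed {r : ℝ | r • u ∈ L} :=
      hL.isClosed.preimage (continuous_id.smul continuous_const)
    exact h1.inter h2
  have hne : ({r : ℝ | 0 ≤ r ∧ r • u ∈ L}).Nonempty := ⟨0, le_refl _, by simpa using h0⟩
  obtain ⟨R, hR⟩ := hL.isBounded.exists_norm_le
  have hupos : 0 < ‖u‖ := norm_pos_iff.mpr hu
  have hbdd : BddAbove {r : ℝ | 0 ≤ r ∧ r • u ∈ L} := by
    refine ⟨R / ‖u‖, ?_⟩
    rintro r ⟨hr0, hr⟩
    have := hR _ hr
    rw [norm_smul, Real.norm_of_nonneg hr0] at this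
    rw [le_div_iff₀ hupos]
    exact this
  have hmem : radial L u ∈ {r : ℝ | 0 ≤ r ∧ r • u ∈ L} := hclosed.csSup_mem hne hbdd
  ext r
  constructor
  · intro hr
    exact ⟨hr.1, le_csSup hbdd hr⟩
  · rintro ⟨hr0, hr⟩
    refine ⟨hr0, ?_⟩
    rcases eq_or_lt_of_le (radial_nonneg L u) with h | h
    · have : r = 0 := le_antisymm (by rw [← h] at hr; exact hr) hr0
      subst this
      simpa using h0
    · have hseg := hc.smul_mem_of_zero_mem h0 hmem.2 (t := r / radial L u)
        ⟨div_nonneg hr0 h.le, (div_le_one h).mpr hr⟩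
      rwa [smul_smul, div_mul_cancel₀ _ h.ne'] at hseg

open scoped Pointwise in
theorem radial_smul_set {L : Set (E n)} {c : ℝ} (hc : 0 < c) (u : E n) :
    radial ((fun x => c • x) '' L) u = c * radial L u := by
  have h : {r : ℝ | 0 ≤ r ∧ r • u ∈ (fun x => c • x) '' L}
      = (c • {r : ℝ | 0 ≤ r ∧ r • u ∈ L} : Set ℝ) := by
    ext r
    rw [Set.mem_smul_set]
    constructor
    · rintro ⟨hr, x, hx, hxr⟩
      refine ⟨c⁻¹ * r, ⟨by positivity, ?_⟩, ?_⟩
      · have : (c⁻¹ * r) • u = x := by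
          rw [mul_smul, ← hxr]
          simp only
          rw [inv_smul_smul₀ hc.ne']
        rw [this]
        exact hx
      · rw [smul_eq_mul, mul_inv_cancel_left₀ hc.ne']
    · rintro ⟨s, ⟨hs0, hs⟩, rfl⟩
      refine ⟨by rw [smul_eq_mul]; positivity, s • u, hs, ?_⟩
      rw [smul_eq_mul, mul_smul]
  unfold radial
  rw [h, Real.sSup_smul_of_nonneg hc.le, smul_eq_mul]

theorem SymBody.exists_ball {K : Set (E n)} (hK : SymBody K) :
    ∃ r > 0, closedBall (0 : E n) r ⊆ K := by
  obtain ⟨x, hx⟩ := hK.int_nonempty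
  obtain ⟨r, hr, hrK⟩ := Metric.mem_nhds_iff.mp (mem_interior_iff_mem_nhds.mp hx)
  refine ⟨r / 2, half_pos hr, ?_⟩
  intro z hz
  have hz' : ‖z‖ < r := by
    have := mem_closedBall_zero_iff.mp hz
    linarith
  have h1 : x + z ∈ K := hrK (by simpa [mem_ball, dist_eq_norm] using hz')
  have h2 : x - z ∈ K := hrK (by simpa [mem_ball, dist_eq_norm] using hz')
  have h3 := hK.sym _ h2
  have h4 := hK.convex h1 h3 (a := 1 / 2) (b := 1 / 2) (by norm_num) (by norm_num) (by norm_num)
  have h5 : (1 / 2 : ℝ) • (x + z) + (1 / 2 : ℝ) • (-(x - z)) = z := by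
    module
  rwa [h5] at h4

theorem IsBody.exists_bound {K : Set (E n)} (hK : IsBody K) :
    ∃ R > 0, K ⊆ closedBall (0 : E n) R := by
  obtain ⟨R, hR, h⟩ := hK.compact.isBounded.subset_closedBall_lt 0 0
  exact ⟨R, hR, h⟩

private theorem G5_nhds {K : Set (E n)} (hK : SymBody K) : K ∈ 𝓝 (0 : E n) := by
  obtain ⟨r, hr, h⟩ := hK.exists_ball
  exact Filter.mem_of_superset (closedBall_mem_nhds _ hr) h

theorem SymBody.gauge_le_one {K : Set (E n)} (hK : SymBody K) (x : E n) :
    gauge K x ≤ 1 ↔ x ∈ K := by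
  rw [gauge_le_one_iff_mem_closure hK.convex (G5_nhds hK), hK.compact.isClosed.closure_eq]

theorem SymBody.gauge_cont {K : Set (E n)} (hK : SymBody K) : Continuous (gauge K) :=
  continuous_gauge hK.convex (G5_nhds hK)

theorem SymBody.gauge_pos {K : Set (E n)} (hK : SymBody K) {x : E n} (hx : x ≠ 0) :
    0 < gauge K x :=
  (_root_.gauge_pos (absorbent_nhds_zero (G5_nhds hK))
    ((NormedSpace.isVonNBounded_iff ℝ).mpr hK.compact.isBounded)).mpr hx

theorem SymBody.zero_mem {K : Set (E n)} (hK : SymBody K) : (0 : E n) ∈ K := by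
  obtain ⟨r, hr, h⟩ := hK.exists_ball
  exact h (mem_closedBall_self hr.le)

theorem SymBody.radial_eq {K : Set (E n)} (hK : SymBody K) {u : E n} (hu : u ≠ 0) :
    radial K u = (gauge K u)⁻¹ := by
  have hg := hK.gauge_pos hu
  have h : {r : ℝ | 0 ≤ r ∧ r • u ∈ K} = Icc 0 (gauge K u)⁻¹ := by
    ext r
    constructor
    · rintro ⟨hr, h⟩
      refine ⟨hr, ?_⟩
      rw [← hK.gauge_le_one, gauge_smul_of_nonneg hr, smul_eq_mul] at h
      rw [← one_div]
      exact (le_div_iff₀ hg).mpr h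
    · rintro ⟨hr, h⟩
      refine ⟨hr, ?_⟩
      rw [← hK.gauge_le_one, gauge_smul_of_nonneg hr, smul_eq_mul]
      calc r * gauge K u ≤ (gauge K u)⁻¹ * gauge K u :=
            mul_le_mul_of_nonneg_right h hg.le
        _ = 1 := inv_mul_cancel₀ hg.ne'
  unfold radial
  rw [h, csSup_Icc (inv_nonneg.mpr hg.le)]

theorem closedBall_sym {r : ℝ} (hr : 0 < r) : SymBody (closedBall (0 : E n) r) where
  compact := isCompact_closedBall 0 r
  convex := convex_closedBall 0 r
  int_nonempty := ⟨0, by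
    rw [mem_interior_iff_mem_nhds]
    exact closedBall_mem_nhds _ hr⟩
  sym := by
    intro x hx
    simpa [mem_closedBall_zero_iff] using hx

theorem IsBody.volume_pos {K : Set (E n)} (hK : IsBody K) : 0 < volume.real K := by
  rw [Measure.real, ENNReal.toReal_pos_iff]
  exact ⟨Measure.measure_pos_of_nonempty_interior _ hK.int_nonempty, hK.compact.measure_lt_top⟩

end RMB
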