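import Pool.Agent.RMB.H2

/-!
# RMB-G6: a fixed point is symmetric and satisfies the radial equation

PROOF.  Let `h : RadialMeanBody p K = c • K`, `p > 0` (so `p ≠ 0` in `radialMean`).
(0) There is a unit vector (`1 ≤ n`), so `0 ∈ RadialMeanBody p K` (with `r = 0`; `radialMean ≥ 0`, it is a
power of a nonnegative number), so `0 ∈ K`.
(1) For unit `u`: `{r ≥ 0 : r u ∈ RadialMeanBody p K} = [0, radialMean p K u]`: if `r u = r' u'` with
`r, r' ≥ 0` and unit `u,u'` then `r = r'` (norms) and `u = u'` if `r > 0`.  So the radial function of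
`RadialMeanBody p K` is `radialMean p K` and, by `radial_smul_set`, `radialMean p K u = c ρ_K(u)`.
(2) Raise to the power `p`: `vol(K)⁻¹ chordInt p K u = (c ρ_K(u))^p` (`chordInt ≥ 0`,
`Real.rpow_natCast`..., `(x^(1/p))^p = x`).
(3) `chordInt_neg` gives `ρ_K(-u) = ρ_K(u)` for unit `u` (`t ↦ t^p` is injective on `t ≥ 0`).
(4) If `x ∈ K`, `x ≠ 0`, `u = x/|x|`: `|x| ∈ [0, ρ_K(u)] = [0, ρ_K(-u)]` (`radial_Icc`, `0 ∈ K`), so
`-x = |x| (-u) ∈ K`.
-/

set_option autoImplicit false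

open MeasureTheory Set Metric Filter Topology
open scoped RealInnerProductSpace ENNReal

namespace RMB

theorem G6_unit {n : ℕ} (hn : 1 ≤ n) : ∃ u : E n, ‖u‖ = 1 := by
  refine ⟨EuclideanSpace.single ⟨0, by omega⟩ (1:ℝ), ?_⟩
  simp

theorem G6_chord_nonneg {n : ℕ} (p : ℝ) (K : Set (E n)) (u : E n) : 0 ≤ chordInt p K u := by
  unfold chordInt
  apply integral_nonneg
  intro x
  exact Real.rpow_nonneg (radial_nonneg _ _) _

theorem G6_mean {n : ℕ} {p : ℝ} (hp : 0 < p) (K : Set (E n)) (u : E n) :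
    radialMean p K u = ((volume.real K)⁻¹ * chordInt p K u) ^ (1 / p) := by
  unfold radialMean chordInt
  rw [if_neg hp.ne']

theorem G6_mean_nonneg {n : ℕ} {p : ℝ} (hp : 0 < p) (K : Set (E n)) (u : E n) :
    0 ≤ radialMean p K u := by
  rw [G6_mean hp]
  exact Real.rpow_nonneg (mul_nonneg (inv_nonneg.2 measureReal_nonneg) (G6_chord_nonneg _ _ _)) _

theorem G6_radial {n : ℕ} {p : ℝ} (hp : 0 < p) (K : Set (E n)) {u : E n} (hu : ‖u‖ = 1) :
    radial (RadialMeanBody p K) u = radialMean p K u := by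
  have h1 : {r : ℝ | 0 ≤ r ∧ r • u ∈ RadialMeanBody p K} = Icc 0 (radialMean p K u) := by
    ext r
    constructor
    · rintro ⟨hr, u', hu', r', hr', hle, he⟩
      have hn : r = r' := by
        have h2 := congrArg norm he
        rw [norm_smul, norm_smul, hu, hu', mul_one, mul_one, Real.norm_of_nonneg hr,
          Real.norm_of_nonneg hr'] at h2
        exact h2
      subst hn
      rcases hr.eq_or_lt with h0 | h0
      · rw [← h0]
        exact ⟨le_refl _, G6_mean_nonneg hp K u⟩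
      · have h3 : u = u' := smul_right_injective _ h0.ne' he
        rw [h3]
        exact ⟨hr, hle⟩
    · rintro ⟨h1, h2⟩
      exact ⟨h1, u, hu, r, h1, h2, rfl⟩
  unfold radial
  rw [h1, csSup_Icc (G6_mean_nonneg hp K u)]

theorem fixed_basic {n : ℕ} (hn : 1 ≤ n) {K : Set (E n)} (hK : IsBody K) {p : ℝ} (hp : 0 < p)
    {c : ℝ} (hc : 0 < c) (h : RadialMeanBody p K = (fun x => c • x) '' K) :
    SymBody K ∧ ∀ u : E n, ‖u‖ = 1 →
      chordInt p K u = volume.real K * (c * radial K u) ^ p := by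
  have h0 : (0 : E n) ∈ K := by
    obtain ⟨u, hu⟩ := G6_unit hn
    have h1 : (0 : E n) ∈ RadialMeanBody p K :=
      ⟨u, hu, 0, le_refl _, G6_mean_nonneg hp K u, by rw [zero_smul]⟩
    rw [h] at h1
    obtain ⟨x, hx, hx0⟩ := h1
    have h2 : x = 0 := by
      rcases smul_eq_zero.1 hx0 with h3 | h3
      · exact absurd h3 hc.ne'
      · exact h3
    rwa [h2] at hx
  have hmean : ∀ u : E n, ‖u‖ = 1 → radialMean p K u = c * radial K u := by
    intro u hu
    rw [← G6_radial hp K hu, h, radial_smul_set hc]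
  have hchord : ∀ u : E n, ‖u‖ = 1 →
      chordInt p K u = volume.real K * (c * radial K u) ^ p := by
    intro u hu
    rw [← hmean u hu, G6_mean hp]
    have hv := hK.volume_pos
    have h1 : 0 ≤ (volume.real K)⁻¹ * chordInt p K u :=
      mul_nonneg (inv_nonneg.2 hv.le) (G6_chord_nonneg _ _ _)
    rw [← Real.rpow_mul h1, one_div, inv_mul_cancel₀ hp.ne', Real.rpow_one]
    field_simp
  refine ⟨⟨hK, ?_⟩, hchord⟩
  have hsym : ∀ u : E n, ‖u‖ = 1 → radial K (-u) = radial K u := by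
    intro u hu
    have hu' : ‖-u‖ = 1 := by rw [norm_neg]; exact hu
    have h1 : radialMean p K (-u) = radialMean p K u := by
      rw [G6_mean hp, G6_mean hp, chordInt_neg hK hp hu]
    rw [hmean u hu, hmean (-u) hu'] at h1
    exact mul_left_cancel₀ hc.ne' h1
  intro x hx
  by_cases hx0 : x = 0
  · rw [hx0, neg_zero]; exact h0
  have hxn : 0 < ‖x‖ := norm_pos_iff.2 hx0
  have hu : ‖(‖x‖⁻¹ • x : E n)‖ = 1 := by
    rw [norm_smul, norm_inv, norm_norm, inv_mul_cancel₀ hxn.ne']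
  have hu0 : (‖x‖⁻¹ • x : E n) ≠ 0 := by
    intro h1
    rw [h1, norm_zero] at hu
    exact zero_ne_one hu
  have hxu : ‖x‖ • (‖x‖⁻¹ • x : E n) = x := by
    rw [smul_smul, mul_inv_cancel₀ hxn.ne', one_smul]
  have h1 := radial_Icc hK.compact hK.convex h0 hu0
  have h2 := radial_Icc hK.compact hK.convex h0 (neg_ne_zero.2 hu0)
  have h3 : ‖x‖ ∈ {r : ℝ | 0 ≤ r ∧ r • (‖x‖⁻¹ • x : E n) ∈ K} := by
    refine ⟨hxn.le, ?_⟩
    rw [hxu]; exact hx
  rw [h1, ← hsym _ hu, ← h2] at h3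
  have h4 := h3.2
  rw [smul_neg, hxu] at h4
  exact h4

end RMB
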