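import Pool.Agent.RMB.G5

/-!
# RMB-G7: polar coordinates

`Measure.toSphere`, `measurePreserving_homeomorphUnitSphereProd`,
`MeasureTheory.Measure.volumeIoiPow` give `∫ F = ∫_S ∫_0^∞ r^(n-1) F(r u) dr dsg(u)` for integrable `F`
(the origin is a null set since `1 ≤ n`).

`polar_body`: apply it to `F = 1_L f`: for unit `u`, `{r ≥ 0 : r u ∈ L} = [0, ρ_L(u)]` (`radial_Icc`).
`polar_star`: with `f (r u) = r^q f(u)`: `∫_0^ρ r^(n-1+q) dr = ρ^(n+q)/(n+q)`.
`measurable_radial`: `{u : c ≤ ρ_L(u)} = {u : c u ∈ L}` for `c > 0`.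
-/

set_option autoImplicit false

open MeasureTheory Set Metric Filter Topology
open scoped RealInnerProductSpace ENNReal

namespace RMB

variable {n : ℕ}

private theorem G7_ne {u : E n} (hu : u ∈ sphere (0 : E n) 1) : u ≠ 0 := by
  intro h
  rw [h] at hu
  simp at hu

theorem measurable_radial {L : Set (E n)} (hL : IsCompact L) (hc : Convex ℝ L)
    (h0 : (0 : E n) ∈ L) : Measurable (fun u : sphere (0 : E n) 1 => radial L (u : E n)) := by
  apply measurable_of_Ici
  intro c
  by_cases hcpos : 0 ≤ c
  · have h : (fun u : sphere (0 : E n) 1 => radial L (u : E n)) ⁻¹' Ici c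
        = {u : sphere (0 : E n) 1 | c • (u : E n) ∈ L} := by
      ext u
      have hI := radial_Icc hL hc h0 (G7_ne u.2)
      constructor
      · intro h
        have : c ∈ Icc 0 (radial L (u : E n)) := ⟨hcpos, h⟩
        rw [← hI] at this
        exact this.2
      · intro h
        have : c ∈ {r : ℝ | 0 ≤ r ∧ r • (u : E n) ∈ L} := ⟨hcpos, h⟩
        rw [hI] at this
        exact this.2
    rw [h]
    apply IsClosed.measurableSet
    have hcont : Continuous (fun u : sphere (0 : E n) 1 => c • (u : E n)) :=
      (continuous_const_smul c).comp continuous_subtype_val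
    exact hL.isClosed.preimage hcont
  · have h : (fun u : sphere (0 : E n) 1 => radial L (u : E n)) ⁻¹' Ici c = univ := by
      ext u
      simp only [mem_preimage, mem_Ici, mem_univ, iff_true]
      exact (not_le.mp hcpos).le.trans (radial_nonneg _ _)
    rw [h]
    exact MeasurableSet.univ

/-- polar coordinates for integrable functions -/
theorem G7_polar (hn : 1 ≤ n) {F : E n → ℝ} (hF : Integrable F) :
    ∫ x, F x = ∫ u : sphere (0 : E n) 1,
      (∫ r in Ioi (0 : ℝ), r ^ (n - 1) * F (r • (u : E n))) ∂(sg n) := by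
  have : Nonempty (Fin n) := ⟨⟨0, hn⟩⟩
  have : Nontrivial (E n) := inferInstance
  have hd : Module.finrank ℝ (E n) = n := by simp
  have hmp := (volume : Measure (E n)).measurePreserving_homeomorphUnitSphereProd
  have hemb : MeasurableEmbedding (homeomorphUnitSphereProd (E n)) :=
    Homeomorph.measurableEmbedding _
  set G : sphere (0 : E n) 1 × Ioi (0 : ℝ) → ℝ := fun p => F (p.2.1 • p.1.1) with hG
  have hcomp : ∀ x : ({(0 : E n)}ᶜ : Set (E n)), G (homeomorphUnitSphereProd (E n) x) = F x.1 := by
    intro x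
    have hx : ‖(x : E n)‖ ≠ 0 :=
      norm_ne_zero_iff.mpr (fun h => x.2 (mem_singleton_iff.mpr h))
    simp only [hG, homeomorphUnitSphereProd_apply_fst_coe, homeomorphUnitSphereProd_apply_snd_coe]
    rw [smul_smul, mul_inv_cancel₀ hx, one_smul]
  have h1 : ∫ x, F x = ∫ x : ({(0 : E n)}ᶜ : Set (E n)), F x.1 ∂((volume : Measure (E n)).comap (↑)) := by
    rw [integral_subtype_comap (measurableSet_singleton _).compl fun x => F x,
      restrict_compl_singleton]
  have h2 : ∫ x : ({(0 : E n)}ᶜ : Set (E n)), F x.1 ∂((volume : Measure (E n)).comap (↑))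
      = ∫ p, G p ∂((volume : Measure (E n)).toSphere.prod (Measure.volumeIoiPow (n - 1))) := by
    rw [hd] at hmp
    rw [← hmp.integral_comp hemb]
    exact integral_congr_ae (Eventually.of_forall (fun x => (hcomp x).symm))
  have hGi : Integrable G ((volume : Measure (E n)).toSphere.prod (Measure.volumeIoiPow (n - 1))) := by
    rw [hd] at hmp
    rw [← hmp.integrable_comp_emb hemb]
    have : G ∘ (homeomorphUnitSphereProd (E n)) = fun x : ({(0 : E n)}ᶜ : Set (E n)) => F x.1 := by
      funext x
      exact hcomp x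
    rw [this]
    have h3 := (integrableOn_iff_comap_subtypeVal (μ := (volume : Measure (E n))) (f := F)
      (measurableSet_singleton (0 : E n)).compl).mp hF.integrableOn
    exact h3
  rw [h1, h2, integral_prod _ hGi]
  apply integral_congr_ae
  apply Eventually.of_forall
  intro u
  simp only [hG, Measure.volumeIoiPow, ENNReal.ofReal]
  rw [integral_withDensity_eq_integral_smul,
    integral_subtype_comap measurableSet_Ioi
      fun a => Real.toNNReal (a ^ (n - 1)) • F (a • (u : E n)),
    setIntegral_congr_fun measurableSet_Ioi fun x hx => ?_]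
  · rw [NNReal.smul_def, Real.coe_toNNReal _ (pow_nonneg (le_of_lt hx) _), smul_eq_mul]
  · exact (measurable_subtype_coe.pow_const _).real_toNNReal

theorem polar_body (hn : 1 ≤ n) {L : Set (E n)} (hL : IsCompact L) (hc : Convex ℝ L)
    (h0 : (0 : E n) ∈ L) {f : E n → ℝ} (hf : Continuous f) :
    ∫ x in L, f x = ∫ u : sphere (0 : E n) 1,
      (∫ r in (0 : ℝ)..radial L (u : E n), r ^ (n - 1) * f (r • (u : E n))) ∂(sg n) := by
  have hF : Integrable (L.indicator f) :=
    (hf.continuousOn.integrableOn_compact hL).integrable_indicator hL.measurableSet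
  rw [← integral_indicator hL.measurableSet, G7_polar hn hF]
  apply integral_congr_ae
  apply Eventually.of_forall
  intro u
  simp only
  have hI := radial_Icc hL hc h0 (G7_ne u.2)
  rw [intervalIntegral.integral_of_le (radial_nonneg _ _)]
  have h1 : ∫ r in Ioi (0 : ℝ), r ^ (n - 1) * L.indicator f (r • (u : E n))
      = ∫ r in Ioi (0 : ℝ), (Ioc 0 (radial L (u : E n))).indicator
          (fun r => r ^ (n - 1) * f (r • (u : E n))) r := by
    apply setIntegral_congr_fun measurableSet_Ioi
    intro r hr
    simp only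
    by_cases h : r • (u : E n) ∈ L
    · have hr' : r ∈ Icc 0 (radial L (u : E n)) := by
        rw [← hI]
        exact ⟨le_of_lt hr, h⟩
      rw [indicator_of_mem h, indicator_of_mem (show r ∈ Ioc 0 (radial L (u : E n)) from ⟨hr, hr'.2⟩)]
    · have hr' : r ∉ Ioc 0 (radial L (u : E n)) := by
        intro h'
        have : r ∈ Icc 0 (radial L (u : E n)) := ⟨h'.1.le, h'.2⟩
        rw [← hI] at this
        exact h this.2
      rw [indicator_of_notMem h, indicator_of_notMem hr', mul_zero]
  rw [h1, setIntegral_indicator measurableSet_Ioc]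
  congr 2
  ext r
  constructor
  · intro h
    exact h.2
  · intro h
    exact ⟨h.1, h⟩

theorem polar_star (hn : 1 ≤ n) {L : Set (E n)} (hL : IsCompact L) (hc : Convex ℝ L)
    (h0 : (0 : E n) ∈ L) {q : ℝ} (hq : 0 ≤ q) {f : E n → ℝ} (hf : Continuous f)
    (hhom : ∀ r : ℝ, 0 < r → ∀ x, f (r • x) = r ^ q * f x) :
    ∫ x in L, f x = (1 / ((n : ℝ) + q)) * ∫ u : sphere (0 : E n) 1,
      f (u : E n) * radial L (u : E n) ^ ((n : ℝ) + q) ∂(sg n) := by
  have hnq : 0 < (n : ℝ) + q := by
    have : (1 : ℝ) ≤ n := by exact_mod_cast hn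
    linarith
  rw [polar_body hn hL hc h0 hf, ← integral_const_mul]
  apply integral_congr_ae
  apply Eventually.of_forall
  intro u
  simp only
  have h1 : ∫ r in (0 : ℝ)..radial L (u : E n), r ^ (n - 1) * f (r • (u : E n))
      = ∫ r in (0 : ℝ)..radial L (u : E n), f (u : E n) * r ^ ((n : ℝ) + q - 1) := by
    rw [intervalIntegral.integral_of_le (radial_nonneg _ _),
      intervalIntegral.integral_of_le (radial_nonneg _ _)]
    apply setIntegral_congr_fun measurableSet_Ioc
    intro r hr
    simp only
    have hr0 : 0 < r := hr.1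
    rw [hhom r hr0, ← Real.rpow_natCast, ← mul_assoc, ← Real.rpow_add hr0, mul_comm]
    congr 2
    rw [Nat.cast_sub hn]
    push_cast
    ring
  rw [h1, intervalIntegral.integral_const_mul, integral_rpow (Or.inl (by linarith)),
    Real.zero_rpow (by linarith)]
  have : (n : ℝ) + q - 1 + 1 = n + q := by ring
  rw [this]
  ring

/-- total mass -/
theorem sg_univ (hn : 1 ≤ n) : (sg n).real univ = n * volume.real (closedBall (0 : E n) 1) ∧
    0 < (sg n).real univ := by
  have : Nonempty (Fin n) := ⟨⟨0, hn⟩⟩
  have : Nontrivial (E n) := inferInstance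
  have hd : Module.finrank ℝ (E n) = n := by simp
  have h1 : (sg n).real univ = n * volume.real (closedBall (0 : E n) 1) := by
    rw [Measure.toSphere_real_apply_univ, hd]
    congr 1
    rw [Measure.real, Measure.real, Measure.addHaar_closedBall_eq_addHaar_ball]
  refine ⟨h1, ?_⟩
  rw [h1]
  have h2 := (closedBall_sym (n := n) one_pos).toIsBody.volume_pos
  have h3 : (0 : ℝ) < n := by exact_mod_cast hn
  exact mul_pos h3 h2

end RMB
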