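import Pool.Agent.RMB.G7

/-!
# RMB-G8: the double integral and the fixed point identity

`double_int`: for `x ∈ K`, `∫_K f(y - x) dy = ∫_{K-x} f = (n+q)⁻¹ ∫_S f(u) ρ_{K-x}(u)^(n+q) dsg`
(`polar_star` for `L = K - x`, translation invariance), then Fubini in `x ∈ K`, `u ∈ S`:
the function `(x,u) ↦ ρ_{K-x}(u)` on `K × S` is bounded by `2R` and measurable, because for
`x ∈ K` it is the length of `{r ≥ 0 : x + r u ∈ K}` (closed set in `(x,u,r)`,
`measurable_measure_prodMk_left`).

`fixed_int`: insert `chordInt (n+q) K u = vol(K) (c ρ_K(u))^(n+q)` and use `polar_star` for `L = K`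
backwards (`(c ρ)^(n+q) = c^(n+q) ρ^(n+q)`).
-/

set_option autoImplicit false

open MeasureTheory Set Metric Filter Topology
open scoped RealInnerProductSpace ENNReal

namespace RMB

variable {n : ℕ}

private theorem G8_mem {K : Set (E n)} {x : E n} (r : ℝ) (u : E n) :
    r • u ∈ (fun y => y - x) '' K ↔ x + r • u ∈ K := by
  constructor
  · rintro ⟨z, hz, hzr⟩
    have h1 : x + r • u = z := by
      rw [← hzr]
      simp
    rw [h1]
    exact hz
  · intro h
    exact ⟨x + r • u, h, by simp⟩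

private theorem G8_image (K : Set (E n)) (hK : IsBody K) (x : E n) (hx : x ∈ K) :
    IsCompact ((fun y => y - x) '' K) ∧ Convex ℝ ((fun y => y - x) '' K) ∧
      (0 : E n) ∈ (fun y => y - x) '' K := by
  refine ⟨hK.compact.image (by fun_prop), ?_, ⟨x, hx, sub_self x⟩⟩
  have h := hK.convex.translate (-x)
  have he : (fun y => y - x) '' K = (fun z => -x + z) '' K := by
    apply image_congr
    intro a _
    abel
  rw [he]
  exact h

private theorem G8_rad {K : Set (E n)} (hK : IsBody K) {x : E n} (hx : x ∈ K)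
    (u : sphere (0 : E n) 1) :
    radial ((fun y => y - x) '' K) (u : E n) =
      ((volume : Measure ℝ) {r : ℝ | 0 ≤ r ∧ x + r • (u : E n) ∈ K}).toReal := by
  obtain ⟨h1, h2, h3⟩ := G8_image K hK x hx
  have hu : (u : E n) ≠ 0 := by
    intro h
    have h4 := u.2
    rw [mem_sphere_zero_iff_norm, h, norm_zero] at h4
    exact zero_ne_one h4
  have h4 := radial_Icc h1 h2 h3 hu
  have h5 : {r : ℝ | 0 ≤ r ∧ x + r • (u : E n) ∈ K} =
      Icc 0 (radial ((fun y => y - x) '' K) (u : E n)) := by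
    rw [← h4]
    ext r
    exact and_congr_right (fun _ => (G8_mem r (u : E n)).symm)
  rw [h5, Real.volume_Icc, sub_zero, ENNReal.toReal_ofReal (radial_nonneg _ _)]

private theorem G8_bdd {K : Set (E n)} (hK : IsBody K) {R : ℝ} (hR : K ⊆ closedBall (0 : E n) R)
    {x : E n} (hx : x ∈ K) (u : sphere (0 : E n) 1) :
    radial ((fun y => y - x) '' K) (u : E n) ≤ 2 * R := by
  obtain ⟨h1, h2, h3⟩ := G8_image K hK x hx
  have hn : ‖(u : E n)‖ = 1 := by
    have h4 := u.2
    rwa [mem_sphere_zero_iff_norm] at h4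
  have hu : (u : E n) ≠ 0 := by
    intro h
    rw [h, norm_zero] at hn
    exact zero_ne_one hn
  have h4 := radial_Icc h1 h2 h3 hu
  set ρ := radial ((fun y => y - x) '' K) (u : E n) with hρ
  have h0 : 0 ≤ ρ := radial_nonneg _ _
  have h5 : ρ ∈ {r : ℝ | 0 ≤ r ∧ r • (u : E n) ∈ (fun y => y - x) '' K} := by
    rw [h4]
    exact ⟨h0, le_refl _⟩
  have h6 : x + ρ • (u : E n) ∈ K := (G8_mem ρ (u : E n)).1 h5.2
  have h7 := hR h6
  have h8 := hR hx
  rw [mem_closedBall_zero_iff] at h7 h8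
  have h9 : ‖ρ • (u : E n)‖ = ρ := by
    rw [norm_smul, hn, mul_one, Real.norm_eq_abs, abs_of_nonneg h0]
  have h10 : ‖ρ • (u : E n)‖ ≤ ‖x + ρ • (u : E n)‖ + ‖x‖ := by
    have := norm_sub_le (x + ρ • (u : E n)) x
    rwa [add_sub_cancel_left] at this
  linarith

private theorem G8_meas (K : Set (E n)) (hK : IsCompact K) :
    Measurable (fun z : E n × sphere (0 : E n) 1 =>
      ((volume : Measure ℝ) {r : ℝ | 0 ≤ r ∧ z.1 + r • (z.2 : E n) ∈ K}).toReal) := by
  have hW : MeasurableSet {w : (E n × sphere (0 : E n) 1) × ℝ |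
      0 ≤ w.2 ∧ w.1.1 + w.2 • (w.1.2 : E n) ∈ K} := by
    apply IsClosed.measurableSet
    apply IsClosed.and
    · exact isClosed_le continuous_const continuous_snd
    · have hcont : Continuous (fun w : (E n × sphere (0 : E n) 1) × ℝ =>
          w.1.1 + w.2 • (w.1.2 : E n)) := by fun_prop
      exact hK.isClosed.preimage hcont
  exact (measurable_measure_prodMk_left hW).ennreal_toReal

theorem double_int (hn : 1 ≤ n) {K : Set (E n)} (hK : IsBody K) {q : ℝ} (hq : 0 ≤ q)
    {f : E n → ℝ} (hf : Continuous f) (hhom : ∀ r : ℝ, 0 < r → ∀ x, f (r • x) = r ^ q * f x) :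
    ∫ x in K, ∫ y in K, f (y - x) = (1 / ((n : ℝ) + q)) * ∫ u : sphere (0 : E n) 1,
      f (u : E n) * chordInt ((n : ℝ) + q) K (u : E n) ∂(sg n) := by
  have hKm : MeasurableSet K := hK.compact.measurableSet
  obtain ⟨R, hR0, hR⟩ := hK.exists_bound
  have hnq : 0 ≤ (n : ℝ) + q := by positivity
  -- step 1
  have h1 : ∀ x ∈ K, ∫ y in K, f (y - x) = (1 / ((n : ℝ) + q)) * ∫ u : sphere (0 : E n) 1,
      f (u : E n) * radial ((fun y => y - x) '' K) (u : E n) ^ ((n : ℝ) + q) ∂(sg n) := by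
    intro x hx
    obtain ⟨h1, h2, h3⟩ := G8_image K hK x hx
    rw [← polar_star hn h1 h2 h3 hq hf hhom]
    exact ((measurePreserving_sub_right volume x).setIntegral_image_emb
      (MeasurableEquiv.subRight x).measurableEmbedding f K).symm
  rw [setIntegral_congr_fun hKm h1, integral_const_mul]
  congr 1
  -- bound for f on the sphere
  obtain ⟨C, hC⟩ : ∃ C : ℝ, ∀ u : sphere (0 : E n) 1, |f (u : E n)| ≤ C := by
    obtain ⟨C, hC⟩ := (isCompact_sphere (0 : E n) 1).exists_bound_of_continuousOn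
      (f := f) hf.continuousOn
    exact ⟨C, fun u => by simpa [Real.norm_eq_abs] using hC u u.2⟩
  have hC0 : 0 ≤ C := by
    by_contra hneg
    have : IsEmpty (sphere (0 : E n) 1) := ⟨fun u => by
      have := (abs_nonneg _).trans (hC u)
      linarith⟩
    have h5 := (sg_univ hn).2
    have h6 : (univ : Set (sphere (0 : E n) 1)) = ∅ := Set.univ_eq_empty_iff.2 inferInstance
    rw [h6] at h5
    simp at h5
  have : IsFiniteMeasure (volume.restrict K) := ⟨by
    rw [Measure.restrict_apply_univ]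
    exact hK.compact.measure_lt_top⟩
  set Rf : E n × sphere (0 : E n) 1 → ℝ := fun z =>
      ((volume : Measure ℝ) {r : ℝ | 0 ≤ r ∧ z.1 + r • (z.2 : E n) ∈ K}).toReal with hRf
  have hRm : Measurable Rf := G8_meas K hK.compact
  have hcongr : ∀ x ∈ K, (∫ u : sphere (0 : E n) 1, f (u : E n) *
      radial ((fun y => y - x) '' K) (u : E n) ^ ((n : ℝ) + q) ∂(sg n)) =
      ∫ u : sphere (0 : E n) 1, f (u : E n) * Rf (x, u) ^ ((n : ℝ) + q) ∂(sg n) := by
    intro x hx
    apply integral_congr_ae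
    filter_upwards with u
    rw [G8_rad hK hx u]
  rw [setIntegral_congr_fun hKm hcongr]
  have hint : Integrable (Function.uncurry (fun (x : E n) (u : sphere (0 : E n) 1) =>
      f (u : E n) * Rf (x, u) ^ ((n : ℝ) + q))) ((volume.restrict K).prod (sg n)) := by
    have hmeas : Measurable (Function.uncurry (fun (x : E n) (u : sphere (0 : E n) 1) =>
      f (u : E n) * Rf (x, u) ^ ((n : ℝ) + q))) := by
      have h7 : Measurable (fun z : E n × sphere (0 : E n) 1 => f (z.2 : E n)) :=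
        hf.measurable.comp (measurable_subtype_coe.comp measurable_snd)
      exact h7.mul (hRm.pow_const _)
    refine Integrable.of_bound hmeas.aestronglyMeasurable (C * (2 * R) ^ ((n : ℝ) + q)) ?_
    have h8 : ∀ᵐ z ∂((volume.restrict K).prod (sg n)), z.1 ∈ K := by
      have h9 : ∀ᵐ x ∂(volume.restrict K), x ∈ K := ae_restrict_mem hKm
      exact Measure.quasiMeasurePreserving_fst.ae h9
    filter_upwards [h8] with z hz
    show ‖f (z.2 : E n) * Rf (z.1, z.2) ^ ((n : ℝ) + q)‖ ≤ _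
    rw [norm_mul, Real.norm_eq_abs, Real.norm_eq_abs]
    have h10 : Rf (z.1, z.2) = radial ((fun y => y - z.1) '' K) (z.2 : E n) :=
      (G8_rad hK hz z.2).symm
    have h11 : 0 ≤ Rf (z.1, z.2) := ENNReal.toReal_nonneg
    have h12 : Rf (z.1, z.2) ≤ 2 * R := by
      rw [h10]
      exact G8_bdd hK hR hz z.2
    rw [abs_of_nonneg (Real.rpow_nonneg h11 _)]
    exact mul_le_mul (hC z.2) (Real.rpow_le_rpow h11 h12 hnq) (Real.rpow_nonneg h11 _) hC0
  rw [integral_integral_swap hint]
  apply integral_congr_ae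
  filter_upwards with u
  rw [integral_const_mul]
  congr 1
  unfold chordInt
  apply setIntegral_congr_fun hKm
  intro x hx
  show Rf (x, u) ^ ((n : ℝ) + q) =
    radial ((fun y => y - x) '' K) (u : E n) ^ ((n : ℝ) + q)
  rw [G8_rad hK hx u]

theorem fixed_int (hn : 1 ≤ n) {K : Set (E n)} (hK : SymBody K) {q : ℝ} (hq : 0 ≤ q)
    {c : ℝ} (hc : 0 < c)
    (hfix : ∀ u : E n, ‖u‖ = 1 →
      chordInt ((n : ℝ) + q) K u = volume.real K * (c * radial K u) ^ ((n : ℝ) + q))
    {f : E n → ℝ} (hf : Continuous f) (hhom : ∀ r : ℝ, 0 < r → ∀ x, f (r • x) = r ^ q * f x) :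
    ∫ x in K, ∫ y in K, f (y - x) = c ^ ((n : ℝ) + q) * (volume.real K * ∫ x in K, f x) := by
  rw [double_int hn hK.toIsBody hq hf hhom,
    polar_star hn hK.compact hK.convex hK.zero_mem hq hf hhom]
  have h1 : ∫ u : sphere (0 : E n) 1,
      f (u : E n) * chordInt ((n : ℝ) + q) K (u : E n) ∂(sg n) =
      (c ^ ((n : ℝ) + q) * volume.real K) * ∫ u : sphere (0 : E n) 1,
        f (u : E n) * radial K (u : E n) ^ ((n : ℝ) + q) ∂(sg n) := by
    rw [← integral_const_mul]
    apply integral_congr_ae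
    filter_upwards with u
    have hu : ‖(u : E n)‖ = 1 := by
      have h4 := u.2
      rwa [mem_sphere_zero_iff_norm] at h4
    rw [hfix _ hu, Real.mul_rpow hc.le (radial_nonneg _ _)]
    ring
  rw [h1]
  ring

end RMB
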