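import Pool.Agent.RMB.G5

/-!
# RMB-G9: isotropic position

PROOF.  `B(v,w) = ∫_K ⟨x,v⟩⟨x,w⟩ dx` is a symmetric bilinear form, positive definite: if
`∫_K ⟨x,v⟩² = 0` then `⟨x,v⟩ = 0` for a.e. and (continuity) every `x` in the interior of `K`, so `v = 0`.
Let `C` be the positive definite symmetric operator (or matrix in the standard basis) with
`⟨C v, w⟩ = B(v,w)`; `T = C^(-1/2)` (spectral theorem: `LinearMap.IsSymmetric.eigenvectorBasis`, or a
`B`-orthonormal basis `e_i`, and `T` = adjoint of the map sending the standard basis to `e_i`: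
`∫_K ⟨T x, v⟩² = B(T* v, T* v) = ‖v‖²` for `T* ε_i = e_i`).
The change of variables for the linear map `T`:
`∫_{T K} ⟨x,v⟩² dx = |det T| ∫_K ⟨T x,v⟩² dx = |det T| ‖v‖²`; so `l = |det T| > 0`.
(`MeasureTheory.integral_image_eq_integral_abs_det_fderiv_smul` or `addHaar_image_linearMap`,
`integral_comp` for the linear equivalence.)
`image_sym`: the image of a symmetric convex body under a linear equivalence is one.
`image_int`: change of variables for continuous functions, in the form used later.
-/

set_option autoImplicit false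

open MeasureTheory Set Metric Filter Topology
open scoped RealInnerProductSpace ENNReal

namespace RMB

variable {n : ℕ}

theorem image_sym {K : Set (E n)} (hK : SymBody K) (T : E n ≃ₗ[ℝ] E n) : SymBody (T '' K) := by
  have hTc : Continuous T := T.toLinearMap.continuous_of_finiteDimensional
  have hTo : IsOpenMap T := T.toContinuousLinearEquiv.toHomeomorph.isOpenMap
  refine ⟨⟨hK.compact.image hTc, ?_, ?_⟩, ?_⟩
  · exact hK.convex.linear_image T.toLinearMap
  · obtain ⟨x, hx⟩ := hK.int_nonempty
    refine ⟨T x, ?_⟩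
    have h1 : IsOpen (T '' interior K) := hTo _ isOpen_interior
    exact interior_maximal (image_mono interior_subset) h1 ⟨x, hx, rfl⟩
  · rintro _ ⟨x, hx, rfl⟩
    exact ⟨-x, hK.sym x hx, by simp⟩

private theorem G9_cov {K : Set (E n)} (hK : MeasurableSet K) (T : E n ≃ₗ[ℝ] E n) (g : E n → ℝ) :
    (∫ x in T '' K, g x) = |LinearMap.det (T : E n →ₗ[ℝ] E n)| * ∫ x in K, g (T x) := by
  have hd : ∀ x ∈ K, HasFDerivWithinAt T
      (LinearMap.toContinuousLinearMap (T : E n →ₗ[ℝ] E n)) K x := by
    intro x _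
    exact (LinearMap.toContinuousLinearMap (T : E n →ₗ[ℝ] E n)).hasFDerivAt.hasFDerivWithinAt
  have h := integral_image_eq_integral_abs_det_fderiv_smul volume hK hd T.injective.injOn g
  rw [h]
  have e : (LinearMap.toContinuousLinearMap (T : E n →ₗ[ℝ] E n)).det =
      LinearMap.det (T : E n →ₗ[ℝ] E n) := by
    simp [ContinuousLinearMap.det]
  simp only [e, smul_eq_mul]
  rw [integral_const_mul]

private theorem G9_det_pos (T : E n ≃ₗ[ℝ] E n) : 0 < |LinearMap.det (T : E n →ₗ[ℝ] E n)| :=
  abs_pos.2 (LinearEquiv.isUnit_det' T).ne_zero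

/-- change of variables, normalised by the volume -/
theorem image_int {K : Set (E n)} (hK : SymBody K) (T : E n ≃ₗ[ℝ] E n) {f : E n → ℝ}
    (hf : Continuous f) :
    ∃ d > 0, volume.real (T '' K) = d * volume.real K ∧
      (∫ x in T '' K, f x) = d * ∫ x in K, f (T x) ∧
      (∫ x in T '' K, ∫ y in T '' K, f (y - x)) = d ^ 2 * ∫ x in K, ∫ y in K, f (T (y - x)) := by
  have hKm : MeasurableSet K := hK.compact.measurableSet
  refine ⟨|LinearMap.det (T : E n →ₗ[ℝ] E n)|, G9_det_pos T, ?_, G9_cov hKm T f, ?_⟩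
  · have h := Measure.addHaar_image_linearMap (volume : Measure (E n)) (T : E n →ₗ[ℝ] E n) K
    have e : ((T : E n →ₗ[ℝ] E n) : E n → E n) '' K = T '' K := rfl
    rw [e] at h
    rw [Measure.real, h, ENNReal.toReal_mul, ENNReal.toReal_ofReal (abs_nonneg _)]
    rfl
  · rw [G9_cov hKm T (fun x => ∫ y in T '' K, f (y - x))]
    have e : ∀ x : E n, (∫ y in T '' K, f (y - T x)) =
        |LinearMap.det (T : E n →ₗ[ℝ] E n)| * ∫ y in K, f (T (y - x)) := by
      intro x
      rw [G9_cov hKm T (fun y => f (y - T x))]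
      simp only [map_sub]
    simp only [e]
    rw [integral_const_mul]
    ring

private theorem G9_intble {K : Set (E n)} (hK : IsCompact K) {f : E n → ℝ} (hf : Continuous f) :
    IntegrableOn f K volume := hf.continuousOn.integrableOn_compact hK

private noncomputable def G9_B {K : Set (E n)} (hK : IsCompact K) : LinearMap.BilinForm ℝ (E n) :=
  LinearMap.mk₂ ℝ (fun v w => ∫ x in K, ⟪x, v⟫ * ⟪x, w⟫)
    (by
      intro v v' w
      rw [← integral_add (G9_intble hK (by fun_prop)) (G9_intble hK (by fun_prop))]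
      congr 1
      ext x
      rw [inner_add_right]
      ring)
    (by
      intro c v w
      rw [smul_eq_mul, ← integral_const_mul]
      congr 1
      ext x
      rw [inner_smul_right]
      ring)
    (by
      intro v w w'
      rw [← integral_add (G9_intble hK (by fun_prop)) (G9_intble hK (by fun_prop))]
      congr 1
      ext x
      rw [inner_add_right]
      ring)
    (by
      intro c v w
      rw [smul_eq_mul, ← integral_const_mul]
      congr 1
      ext x
      rw [inner_smul_right]
      ring)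

private theorem G9_B_apply {K : Set (E n)} (hK : IsCompact K) (v w : E n) :
    G9_B hK v w = ∫ x in K, ⟪x, v⟫ * ⟪x, w⟫ := rfl

private theorem G9_pos {K : Set (E n)} (hK : SymBody K) {v : E n} (hv : v ≠ 0) :
    0 < G9_B hK.compact v v := by
  rw [G9_B_apply]
  have hc : Continuous fun x : E n => ⟪x, v⟫ * ⟪x, v⟫ := by fun_prop
  rw [setIntegral_pos_iff_support_of_nonneg_ae
    (Eventually.of_forall fun x => mul_self_nonneg ⟪x, v⟫) (G9_intble hK.compact hc)]
  obtain ⟨r, hr, hrK⟩ := hK.exists_ball
  have ho : IsOpen ({x : E n | ⟪x, v⟫ ≠ 0} ∩ ball 0 r) := by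
    apply IsOpen.inter _ isOpen_ball
    exact isOpen_ne_fun (by fun_prop) continuous_const
  have hvn : 0 < ‖v‖ := norm_pos_iff.2 hv
  have hne : ({x : E n | ⟪x, v⟫ ≠ 0} ∩ ball 0 r).Nonempty := by
    refine ⟨(r / 2 / ‖v‖) • v, ?_, ?_⟩
    · show ⟪(r / 2 / ‖v‖) • v, v⟫ ≠ 0
      rw [real_inner_smul_left, real_inner_self_eq_norm_sq]
      positivity
    · rw [mem_ball_zero_iff, norm_smul, Real.norm_of_nonneg (by positivity),
        div_mul_cancel₀ _ hvn.ne']
      linarith
  refine lt_of_lt_of_le (ho.measure_pos volume hne) (measure_mono ?_)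
  rintro x ⟨hx1, hx2⟩
  refine ⟨?_, hrK (ball_subset_closedBall hx2)⟩
  rw [Function.mem_support]
  exact mul_self_ne_zero.2 hx1

theorem exists_iso {K : Set (E n)} (hK : SymBody K) :
    ∃ T : E n ≃ₗ[ℝ] E n, ∃ l > 0, Iso (T '' K) l := by
  set B := G9_B hK.compact with hB
  have hsymm : B.IsSymm := by
    constructor
    intro v w
    rw [hB, G9_B_apply, G9_B_apply]
    congr 1
    ext x
    ring
  obtain ⟨v, hv⟩ := LinearMap.BilinForm.exists_orthogonal_basis
    (LinearMap.BilinForm.isSymm_iff.1 hsymm)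
  have hfr : Module.finrank ℝ (E n) = n := by simp
  have hBpos : ∀ i, 0 < B (v i) (v i) := fun i => G9_pos hK (v.ne_zero i)
  set σ : Fin n ≃ Fin (Module.finrank ℝ (E n)) := finCongr hfr.symm with hσ
  -- the normalised basis
  set u : Fin n → E n := fun i => (√(B (v (σ i)) (v (σ i))))⁻¹ • v (σ i) with hu
  have hspos : ∀ i, 0 < √(B (v (σ i)) (v (σ i))) := fun i => Real.sqrt_pos.2 (hBpos _)
  have hBu : ∀ i j, B (u i) (u j) = if i = j then 1 else 0 := by
    intro i j
    simp only [hu, map_smul, LinearMap.smul_apply, smul_eq_mul]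
    split_ifs with h
    · subst h
      have h1 := Real.mul_self_sqrt (hBpos (σ i)).le
      have h2 := (hspos i).ne'
      field_simp
      nlinarith
    · have : B (v (σ i)) (v (σ j)) = 0 := hv (fun h' => h (σ.injective h'))
      rw [this]
      ring
  let T₀ : E n →ₗ[ℝ] E n :=
    { toFun := fun x => WithLp.toLp 2 (fun i => ⟪x, u i⟫)
      map_add' := by
        intro x y
        ext i
        simp [inner_add_left]
      map_smul' := by
        intro c x
        ext i
        simp [real_inner_smul_left] }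
  have hT₀ : ∀ x w : E n, ⟪T₀ x, w⟫ = ⟪x, ∑ i, w i • u i⟫ := by
    intro x w
    rw [inner_sum]
    simp only [inner_smul_right]
    rw [PiLp.inner_apply]
    apply Finset.sum_congr rfl
    intro i _
    simp only [T₀, LinearMap.coe_mk, AddHom.coe_mk, RCLike.inner_apply, conj_trivial]
  have hinj : Function.Injective T₀ := by
    rw [← LinearMap.ker_eq_bot, LinearMap.ker_eq_bot']
    intro x hx
    have h1 : ∀ i, ⟪x, u i⟫ = 0 := by
      intro i
      have := congrArg (fun z : E n => z i) hx
      simpa [T₀] using this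
    have h2 : ∀ j, ⟪x, v j⟫ = 0 := by
      intro j
      have h3 := h1 (σ.symm j)
      simp only [hu, Equiv.apply_symm_apply, inner_smul_right, mul_eq_zero, inv_eq_zero] at h3
      rcases h3 with h3 | h3
      · exact absurd h3 (Real.sqrt_pos.2 (hBpos j)).ne'
      · exact h3
    have h3 : ⟪x, x⟫ = 0 := by
      have h4 : ⟪x, x⟫ = ⟪x, ∑ j, v.repr x j • v j⟫ := by rw [v.sum_repr x]
      rw [h4, inner_sum]
      apply Finset.sum_eq_zero
      intro j _
      rw [inner_smul_right, h2 j, mul_zero]
    exact inner_self_eq_zero.1 h3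
  set T : E n ≃ₗ[ℝ] E n := LinearEquiv.ofInjectiveEndo T₀ hinj with hT
  have hTT : ∀ x, T x = T₀ x := fun x => rfl
  refine ⟨T, |LinearMap.det (T : E n →ₗ[ℝ] E n)|, G9_det_pos T, ?_⟩
  intro w
  rw [G9_cov hK.compact.measurableSet T (fun x => ⟪x, w⟫ ^ 2)]
  congr 1
  have e : ∀ x, ⟪T x, w⟫ ^ 2 = ⟪x, ∑ i, w i • u i⟫ * ⟪x, ∑ i, w i • u i⟫ := by
    intro x
    rw [hTT, hT₀, sq]
  simp only [e]
  rw [← G9_B_apply hK.compact, ← hB]
  simp only [map_sum, map_smul, LinearMap.sum_apply, LinearMap.smul_apply, smul_eq_mul, hBu]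
  rw [EuclideanSpace.real_norm_sq_eq]
  simp [sq]

end RMB
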