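import Pool.Agent.RMB.Defs

/-!
# RMB-H1: the chord inequality on one line

Let `F(β) = ∫_b^t |a s + β|^p ds`, `a > 0`.  Substituting, `F = a⁻¹ ∫_{x-h}^{x+h} |v|^p dv` with
`h = a (t-b)/2`, `x = a (b+t)/2 + β`.  The function `x ↦ ∫_{x-h}^{x+h} |v|^p dv` is
`∫_0^h (|x+v|^p + |x-v|^p) dv ≥ 2 ∫_0^h v^p dv = 2 h^(p+1)/(p+1)`, because `|x+v|^p + |x-v|^p ≥
2 v^p` by convexity (`v = ((v+x) + (v-x))/2`).  So `F ≥ a⁻¹ 2 h^(p+1)/(p+1)`, i.e.
`2^p F ≥ 2^(p+1) a^p ((t-b)/2)^(p+1)/(p+1) = a^p (t-b)^(p+1)/(p+1)`.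
For `p > 1` strict convexity: equality forces `x = 0` (the integrand is continuous and strictly
larger for every `v` if `x ≠ 0`).  For `x = 0` equality holds.
-/

set_option autoImplicit false

open MeasureTheory Set Metric Filter Topology
open scoped RealInnerProductSpace ENNReal

namespace RMB

theorem H1_conv {p x v : ℝ} (hp : 1 ≤ p) : 2 * |v| ^ p ≤ |x + v| ^ p + |x - v| ^ p := by
  have h1 := (convexOn_rpow hp).2 (mem_Ici.2 (abs_nonneg (x + v)))
    (mem_Ici.2 (abs_nonneg (x - v))) (by norm_num : (0:ℝ) ≤ 1/2)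
    (by norm_num : (0:ℝ) ≤ 1/2) (by norm_num)
  simp only [smul_eq_mul] at h1
  have h2 : |v| ≤ 1/2 * |x + v| + 1/2 * |x - v| := by
    have h3 : |(x + v) - (x - v)| ≤ |x + v| + |x - v| := abs_sub _ _
    have h4 : (x + v) - (x - v) = 2 * v := by ring
    rw [h4, abs_mul, abs_two] at h3
    linarith
  have h5 : |v| ^ p ≤ (1/2 * |x + v| + 1/2 * |x - v|) ^ p :=
    Real.rpow_le_rpow (abs_nonneg _) h2 (by linarith)
  linarith

theorem H1_cont (a β p : ℝ) (hp : 1 ≤ p) : Continuous (fun s : ℝ => |a * s + β| ^ p) := by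
  apply Continuous.rpow_const
  · fun_prop
  · intro x; right; linarith

/-- the centered integral -/
theorem H1_center {b t p : ℝ} (hbt : b ≤ t) (hp : 1 ≤ p) :
    ∫ s in b..t, |s - (b + t) / 2| ^ p = 2 * (((t - b) / 2) ^ (p + 1) / (p + 1)) := by
  have hc : Continuous (fun s : ℝ => |s - (b + t) / 2| ^ p) := by
    apply Continuous.rpow_const
    · fun_prop
    · intro x; right; linarith
  have hr : ∫ s in ((b + t) / 2)..t, |s - (b + t) / 2| ^ p = ((t - b) / 2) ^ (p + 1) / (p + 1) := by
    have h1 : ∫ s in ((b + t) / 2)..t, |s - (b + t) / 2| ^ p =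
        ∫ s in ((b + t) / 2)..t, (s - (b + t) / 2) ^ p := by
      apply intervalIntegral.integral_congr
      intro s hs
      rw [uIcc_of_le (by linarith)] at hs
      simp only
      rw [abs_of_nonneg (by linarith [hs.1])]
    rw [h1, intervalIntegral.integral_comp_sub_right (fun s => s ^ p), sub_self,
      integral_rpow (Or.inl (by linarith))]
    rw [Real.zero_rpow (by linarith), sub_zero]
    congr 2
    ring
  have hl : ∫ s in b..((b + t) / 2), |s - (b + t) / 2| ^ p =
      ∫ s in ((b + t) / 2)..t, |s - (b + t) / 2| ^ p := by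
    have h2 := intervalIntegral.integral_comp_sub_left (a := b) (b := (b + t) / 2)
      (fun s => |s - (b + t) / 2| ^ p) (b + t)
    have h3 : b + t - (b + t) / 2 = (b + t) / 2 := by ring
    have h4 : b + t - b = t := by ring
    rw [h3, h4] at h2
    rw [← h2]
    apply intervalIntegral.integral_congr
    intro s _
    simp only
    rw [← abs_neg (s - (b + t) / 2)]
    congr 2
    ring
  rw [← intervalIntegral.integral_add_adjacent_intervals (hc.intervalIntegrable b ((b + t) / 2))
    (hc.intervalIntegrable ((b + t) / 2) t), hl, hr]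
  ring

theorem H1_sym (b t a β p : ℝ) (hp : 1 ≤ p) :
    2 * ∫ s in b..t, |a * s + β| ^ p =
      ∫ s in b..t, (|(a * ((b + t) / 2) + β) + a * (s - (b + t) / 2)| ^ p +
        |(a * ((b + t) / 2) + β) - a * (s - (b + t) / 2)| ^ p) := by
  have hc := H1_cont a β p hp
  have h2 := intervalIntegral.integral_comp_sub_left (a := b) (b := t)
      (fun s => |a * s + β| ^ p) (b + t)
  have h3 : b + t - t = b := by ring
  have h4 : b + t - b = t := by ring
  rw [h3, h4] at h2
  have h5 : 2 * ∫ s in b..t, |a * s + β| ^ p =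
      (∫ s in b..t, |a * s + β| ^ p) + ∫ s in b..t, |a * (b + t - s) + β| ^ p := by
    rw [h2]; ring
  have hc' : Continuous (fun s : ℝ => |a * (b + t - s) + β| ^ p) := by
    apply Continuous.rpow_const
    · fun_prop
    · intro x; right; linarith
  rw [h5, ← intervalIntegral.integral_add (hc.intervalIntegrable b t)
    (hc'.intervalIntegrable b t)]
  apply intervalIntegral.integral_congr
  intro s _
  simp only
  congr 3
  · ring
  · ring

theorem H1_const {b t a p : ℝ} (hbt : b ≤ t) (ha : 0 < a) (hp : 1 ≤ p) :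
    2 ^ p * (a ^ p * (2 * (((t - b) / 2) ^ (p + 1) / (p + 1)))) =
      a ^ p * ((t - b) ^ (p + 1) / (p + 1)) := by
  rw [Real.div_rpow (by linarith) (by norm_num)]
  have h1 : (2:ℝ) ^ (p + 1) = 2 ^ p * 2 := by
    rw [Real.rpow_add (by norm_num), Real.rpow_one]
  rw [h1]
  have h2 : (0:ℝ) < 2 ^ p := by positivity
  have h3 : (0:ℝ) < p + 1 := by linarith
  field_simp

theorem H1_scale {b t a p : ℝ} (hbt : b ≤ t) (ha : 0 < a) (hp : 1 ≤ p) :
    ∫ s in b..t, |a * (s - (b + t) / 2)| ^ p = a ^ p * (2 * (((t - b) / 2) ^ (p + 1) / (p + 1))) := by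
  rw [← H1_center hbt hp, ← intervalIntegral.integral_const_mul]
  apply intervalIntegral.integral_congr
  intro s _
  simp only
  rw [abs_mul, Real.mul_rpow (abs_nonneg _) (abs_nonneg _), abs_of_pos ha]

theorem chord_ineq {b t a β p : ℝ} (hbt : b ≤ t) (ha : 0 < a) (hp : 1 ≤ p) :
    a ^ p * ((t - b) ^ (p + 1) / (p + 1)) ≤ 2 ^ p * ∫ s in b..t, |a * s + β| ^ p := by
  have h1 := H1_sym b t a β p hp
  have hc1 : Continuous (fun s : ℝ => 2 * |a * (s - (b + t) / 2)| ^ p) := by
    apply Continuous.mul continuous_const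
    apply Continuous.rpow_const
    · fun_prop
    · intro x; right; linarith
  have hc2 : Continuous (fun s : ℝ => |(a * ((b + t) / 2) + β) + a * (s - (b + t) / 2)| ^ p +
        |(a * ((b + t) / 2) + β) - a * (s - (b + t) / 2)| ^ p) := by
    apply Continuous.add
    · apply Continuous.rpow_const
      · fun_prop
      · intro x; right; linarith
    · apply Continuous.rpow_const
      · fun_prop
      · intro x; right; linarith
  have h2 : ∫ s in b..t, 2 * |a * (s - (b + t) / 2)| ^ p ≤
      ∫ s in b..t, (|(a * ((b + t) / 2) + β) + a * (s - (b + t) / 2)| ^ p +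
        |(a * ((b + t) / 2) + β) - a * (s - (b + t) / 2)| ^ p) := by
    apply intervalIntegral.integral_mono_on hbt (hc1.intervalIntegrable b t)
      (hc2.intervalIntegrable b t)
    intro s _
    exact H1_conv hp
  rw [intervalIntegral.integral_const_mul, H1_scale hbt ha hp, ← h1] at h2
  rw [← H1_const hbt ha hp]
  apply mul_le_mul_of_nonneg_left _ (by positivity)
  linarith

theorem chord_ineq_eq {b t a β p : ℝ} (hbt : b < t) (ha : 0 < a) (hp : 1 < p)
    (h : a ^ p * ((t - b) ^ (p + 1) / (p + 1)) = 2 ^ p * ∫ s in b..t, |a * s + β| ^ p) :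
    a * ((b + t) / 2) + β = 0 := by
  by_contra hne
  have hp1 : 1 ≤ p := hp.le
  have h1 := H1_sym b t a β p hp1
  have hc1 : Continuous (fun s : ℝ => 2 * |a * (s - (b + t) / 2)| ^ p) := by
    apply Continuous.mul continuous_const
    apply Continuous.rpow_const
    · fun_prop
    · intro x; right; linarith
  have hc2 : Continuous (fun s : ℝ => |(a * ((b + t) / 2) + β) + a * (s - (b + t) / 2)| ^ p +
        |(a * ((b + t) / 2) + β) - a * (s - (b + t) / 2)| ^ p) := by
    apply Continuous.add
    · apply Continuous.rpow_const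
      · fun_prop
      · intro x; right; linarith
    · apply Continuous.rpow_const
      · fun_prop
      · intro x; right; linarith
  have h2 : ∫ s in b..t, 2 * |a * (s - (b + t) / 2)| ^ p <
      ∫ s in b..t, (|(a * ((b + t) / 2) + β) + a * (s - (b + t) / 2)| ^ p +
        |(a * ((b + t) / 2) + β) - a * (s - (b + t) / 2)| ^ p) := by
    apply intervalIntegral.integral_lt_integral_of_continuousOn_of_le_of_exists_lt hbt
      hc1.continuousOn hc2.continuousOn
    · intro s _
      exact H1_conv hp1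
    · refine ⟨(b + t) / 2, ⟨by linarith, by linarith⟩, ?_⟩
      simp only [sub_self, mul_zero, abs_zero, add_zero, sub_zero]
      rw [Real.zero_rpow (by linarith), mul_zero]
      have h5 : 0 < |a * ((b + t) / 2) + β| ^ p := Real.rpow_pos_of_pos (abs_pos.2 hne) _
      linarith
  rw [intervalIntegral.integral_const_mul, H1_scale hbt.le ha hp1, ← h1] at h2
  rw [← H1_const hbt.le ha hp1] at h
  have h3 : (0:ℝ) < 2 ^ p := by positivity
  have h4 := mul_left_cancel₀ h3.ne' h
  linarith

theorem chord_centered {b t a β p : ℝ} (hbt : b ≤ t) (ha : 0 < a) (hp : 1 ≤ p)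
    (h : a * ((b + t) / 2) + β = 0) :
    a ^ p * ((t - b) ^ (p + 1) / (p + 1)) = 2 ^ p * ∫ s in b..t, |a * s + β| ^ p := by
  rw [← H1_const hbt ha hp, ← H1_scale hbt ha hp]
  congr 1
  apply intervalIntegral.integral_congr
  intro s _
  simp only
  congr 2
  linarith

end RMB
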