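import Pool.Agent.RMB.G1
import Pool.Agent.RMB.G4
import Pool.Agent.RMB.G5

/-!
# RMB-H2: `∫_K ρ_{K-x}(u)^p dx` by chords

PROOF.  For `x = Φ (s,y) ∈ K`, `(K - x) ∩ ℝ₊ u = {r u : Φ (s+r, y) ∈ K}`, so
`ρ_{K-x}(u) = mid y + hl y - s` and `ρ_{K-x}(-u) = s - (mid y - hl y)` (here `Φ (1,0) = u`,
linearity).  Integrability: `0 ≤ ρ ≤ 2R` and measurability on `K`: after the change of variables
the function is `(mid y + hl y - s)^p`, measurable.  (`integral_body` needs `IntegrableOn`; use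
`MeasurePreserving` to transport measurability, or go through `lintegral_body` for a measurable
function which agrees with the radial function on `K`: `x ↦ (mid + hl)(y(x)) - s(x)`.)
`∫_{mid-hl}^{mid+hl} (mid+hl-s)^p ds = (2 hl)^(p+1)/(p+1)` and the same for `-u`.
For `chordInt_neg` use `n = m+1` and `exists_coord` (both values are equal to the same integral).
-/

set_option autoImplicit false

open MeasureTheory Set Metric Filter Topology
open scoped RealInnerProductSpace ENNReal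

namespace RMB

private theorem H2_add {m : ℕ} {Φ : (ℝ × E m) ≃L[ℝ] E (m + 1)} {u : E (m + 1)}
    (hΦ : IsCoord Φ u) (r s : ℝ) (y : E m) : r • u + Φ (s, y) = Φ (s + r, y) := by
  rw [← hΦ.dir, ← map_smul, ← map_add]
  congr 1
  ext
  · simp [add_comm]
  · simp

private theorem H2_mem {m : ℕ} {Φ : (ℝ × E m) ≃L[ℝ] E (m + 1)} {u : E (m + 1)}
    (hΦ : IsCoord Φ u) {K : Set (E (m + 1))} (r s : ℝ) (y : E m) :
    r • u ∈ (fun z => z - Φ (s, y)) '' K ↔ s + r ∈ sec Φ K y := by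
  constructor
  · rintro ⟨z, hz, hzr⟩
    have h1 : z = r • u + Φ (s, y) := by
      rw [← hzr]
      simp
    rw [H2_add hΦ] at h1
    show Φ (s + r, y) ∈ K
    rw [← h1]
    exact hz
  · intro h
    refine ⟨Φ (s + r, y), h, ?_⟩
    show Φ (s + r, y) - Φ (s, y) = r • u
    rw [← H2_add hΦ]
    simp

private theorem H2_pos {m : ℕ} {Φ : (ℝ × E m) ≃L[ℝ] E (m + 1)} {u : E (m + 1)}
    (hΦ : IsCoord Φ u) {K : Set (E (m + 1))} (hK : IsCompact K) (hc : Convex ℝ K) {s : ℝ}
    {y : E m} (hx : Φ (s, y) ∈ K) :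
    radial ((fun z => z - Φ (s, y)) '' K) u = mid Φ K y + hl Φ K y - s := by
  have hy : y ∈ proj Φ K := ⟨s, hx⟩
  have hs : s ∈ sec Φ K y := hx
  rw [sec_eq hK hc hy] at hs
  have hset : {r : ℝ | 0 ≤ r ∧ r • u ∈ (fun z => z - Φ (s, y)) '' K} =
      Icc 0 (mid Φ K y + hl Φ K y - s) := by
    ext r
    rw [mem_setOf_eq, H2_mem hΦ, sec_eq hK hc hy, mem_Icc, mem_Icc]
    constructor
    · rintro ⟨h1, h2, h3⟩
      exact ⟨h1, by linarith⟩
    · rintro ⟨h1, h2⟩
      exact ⟨h1, by linarith [hs.1], by linarith⟩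
  unfold radial
  rw [hset, csSup_Icc (by linarith [hs.2])]

private theorem H2_neg {m : ℕ} {Φ : (ℝ × E m) ≃L[ℝ] E (m + 1)} {u : E (m + 1)}
    (hΦ : IsCoord Φ u) {K : Set (E (m + 1))} (hK : IsCompact K) (hc : Convex ℝ K) {s : ℝ}
    {y : E m} (hx : Φ (s, y) ∈ K) :
    radial ((fun z => z - Φ (s, y)) '' K) (-u) = s - (mid Φ K y - hl Φ K y) := by
  have hy : y ∈ proj Φ K := ⟨s, hx⟩
  have hs : s ∈ sec Φ K y := hx
  rw [sec_eq hK hc hy] at hs
  have hset : {r : ℝ | 0 ≤ r ∧ r • (-u) ∈ (fun z => z - Φ (s, y)) '' K} =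
      Icc 0 (s - (mid Φ K y - hl Φ K y)) := by
    ext r
    have h0 : r • (-u) = (-r) • u := by rw [smul_neg, neg_smul]
    rw [mem_setOf_eq, h0, H2_mem hΦ, sec_eq hK hc hy, mem_Icc, mem_Icc]
    constructor
    · rintro ⟨h1, h2, h3⟩
      exact ⟨h1, by linarith⟩
    · rintro ⟨h1, h2⟩
      exact ⟨h1, by linarith, by linarith [hs.2]⟩
  unfold radial
  rw [hset, csSup_Icc (by linarith [hs.1])]

private theorem H2_int1 (b h p : ℝ) (hp : 0 < p) (hh : 0 ≤ h) :
    ∫ s in (b - h)..(b + h), (b + h - s) ^ p = (2 * h) ^ (p + 1) / (p + 1) := by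
  rw [intervalIntegral.integral_comp_sub_left (fun t => t ^ p) (b + h), integral_rpow]
  · rw [show b + h - (b + h) = 0 by ring, show b + h - (b - h) = 2 * h by ring,
      Real.zero_rpow (by linarith), sub_zero]
  · left
    linarith

private theorem H2_int2 (b h p : ℝ) (hp : 0 < p) (hh : 0 ≤ h) :
    ∫ s in (b - h)..(b + h), (s - (b - h)) ^ p = (2 * h) ^ (p + 1) / (p + 1) := by
  rw [intervalIntegral.integral_comp_sub_right (fun t => t ^ p) (b - h), integral_rpow]
  · rw [show b - h - (b - h) = 0 by ring, show b + h - (b - h) = 2 * h by ring,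
      Real.zero_rpow (by linarith), sub_zero]
  · left
    linarith

private theorem H2_gen {m : ℕ} {Φ : (ℝ × E m) ≃L[ℝ] E (m + 1)} {u : E (m + 1)}
    (hΦ : IsCoord Φ u) {K : Set (E (m + 1))} (hK : IsBody K) {p : ℝ} (hp : 0 < p)
    (v : E (m + 1)) (G : ℝ × E m → ℝ) (hG : Measurable G) (C : ℝ)
    (hGC : ∀ s y, Φ (s, y) ∈ K → 0 ≤ G (s, y) ∧ G (s, y) ≤ C)
    (hrad : ∀ s y, Φ (s, y) ∈ K → radial ((fun z => z - Φ (s, y)) '' K) v = G (s, y))
    (hint : ∀ y, ∫ s in (mid Φ K y - hl Φ K y)..(mid Φ K y + hl Φ K y), G (s, y) ^ p =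
      (2 * hl Φ K y) ^ (p + 1) / (p + 1)) :
    chordInt p K v = ∫ y in proj Φ K, (2 * hl Φ K y) ^ (p + 1) / (p + 1) := by
  have hKm : MeasurableSet K := hK.compact.measurableSet
  unfold chordInt
  have h1 : ∫ x in K, radial ((fun y => y - x) '' K) v ^ p =
      ∫ x in K, (fun x => G (Φ.symm x) ^ p) x := by
    apply setIntegral_congr_fun hKm
    intro x hx
    have hx' : Φ (Φ.symm x) = x := Φ.apply_symm_apply x
    have h2 := hrad (Φ.symm x).1 (Φ.symm x).2 (by
      show Φ (Φ.symm x) ∈ K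
      rw [hx']
      exact hx)
    have h3 : Φ ((Φ.symm x).1, (Φ.symm x).2) = x := hx'
    rw [h3] at h2
    show radial ((fun y => y - x) '' K) v ^ p = G (Φ.symm x) ^ p
    rw [h2]
  have hmeas : Measurable (fun x => G (Φ.symm x) ^ p) :=
    (hG.comp Φ.symm.continuous.measurable).pow_const p
  have hI : IntegrableOn (fun x => G (Φ.symm x) ^ p) K := by
    apply Measure.integrableOn_of_bounded (M := C ^ p) hK.compact.measure_lt_top.ne
      hmeas.aestronglyMeasurable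
    rw [ae_restrict_iff' hKm]
    filter_upwards with x hx
    have hx' : Φ (Φ.symm x) = x := Φ.apply_symm_apply x
    have h2 := hGC (Φ.symm x).1 (Φ.symm x).2 (by
      show Φ (Φ.symm x) ∈ K
      rw [hx']
      exact hx)
    rw [Real.norm_eq_abs, abs_of_nonneg (Real.rpow_nonneg h2.1 p)]
    exact Real.rpow_le_rpow h2.1 h2.2 hp.le
  rw [h1, (integral_body hΦ hK.compact hK.convex hI).2]
  apply integral_congr_ae
  filter_upwards with y
  rw [← hint y]
  apply intervalIntegral.integral_congr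
  intro s _
  show G (Φ.symm (Φ (s, y))) ^ p = G (s, y) ^ p
  rw [Φ.symm_apply_apply]

theorem chordInt_eq {m : ℕ} {Φ : (ℝ × E m) ≃L[ℝ] E (m + 1)} {u : E (m + 1)} (hΦ : IsCoord Φ u)
    {K : Set (E (m + 1))} (hK : IsBody K) {p : ℝ} (hp : 0 < p) :
    chordInt p K u = ∫ y in proj Φ K, (2 * hl Φ K y) ^ (p + 1) / (p + 1) := by
  obtain ⟨C, hC⟩ := hl_bdd (Φ := Φ) hK.compact
  apply H2_gen hΦ hK hp u (fun z => mid Φ K z.2 + hl Φ K z.2 - z.1)
    (((measurable_mid hK.compact).comp measurable_snd).add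
      ((measurable_hl hK.compact).comp measurable_snd) |>.sub measurable_fst) (2 * C)
  · intro s y hx
    have hy : y ∈ proj Φ K := ⟨s, hx⟩
    have hs : s ∈ sec Φ K y := hx
    rw [sec_eq hK.compact hK.convex hy] at hs
    exact ⟨by show 0 ≤ mid Φ K y + hl Φ K y - s; linarith [hs.2],
      by show mid Φ K y + hl Φ K y - s ≤ 2 * C; linarith [hs.1, (hC y).1]⟩
  · intro s y hx
    exact H2_pos hΦ hK.compact hK.convex hx
  · intro y
    exact H2_int1 _ _ p hp (hl_nonneg hK.compact y)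

private theorem H2_eq_neg {m : ℕ} {Φ : (ℝ × E m) ≃L[ℝ] E (m + 1)} {u : E (m + 1)}
    (hΦ : IsCoord Φ u) {K : Set (E (m + 1))} (hK : IsBody K) {p : ℝ} (hp : 0 < p) :
    chordInt p K (-u) = ∫ y in proj Φ K, (2 * hl Φ K y) ^ (p + 1) / (p + 1) := by
  obtain ⟨C, hC⟩ := hl_bdd (Φ := Φ) hK.compact
  apply H2_gen hΦ hK hp (-u) (fun z => z.1 - (mid Φ K z.2 - hl Φ K z.2))
    (measurable_fst.sub (((measurable_mid hK.compact).comp measurable_snd).sub
      ((measurable_hl hK.compact).comp measurable_snd))) (2 * C)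
  · intro s y hx
    have hy : y ∈ proj Φ K := ⟨s, hx⟩
    have hs : s ∈ sec Φ K y := hx
    rw [sec_eq hK.compact hK.convex hy] at hs
    exact ⟨by show 0 ≤ s - (mid Φ K y - hl Φ K y); linarith [hs.1],
      by show s - (mid Φ K y - hl Φ K y) ≤ 2 * C; linarith [hs.2, (hC y).1]⟩
  · intro s y hx
    exact H2_neg hΦ hK.compact hK.convex hx
  · intro y
    exact H2_int2 _ _ p hp (hl_nonneg hK.compact y)

theorem chordInt_neg {n : ℕ} {K : Set (E n)} (hK : IsBody K) {p : ℝ} (hp : 0 < p)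
    {u : E n} (hu : ‖u‖ = 1) : chordInt p K (-u) = chordInt p K u := by
  cases n with
  | zero =>
    exfalso
    have h0 : u = 0 := Subsingleton.elim _ _
    rw [h0, norm_zero] at hu
    exact zero_ne_one hu
  | succ m =>
    obtain ⟨Φ, hΦ⟩ := exists_coord m u hu
    rw [chordInt_eq hΦ hK hp, H2_eq_neg hΦ hK hp]

end RMB
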