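import Pool.Agent.RMB.G3
import Pool.Agent.RMB.H1
import Pool.Agent.RMB.H2

/-!
# RMB-H3: the chord inequality `chordInt p K u ⟨u,w⟩^p ≤ 2^p ∫_K |⟨x,w⟩|^p`

PROOF.  `n = m+1`, `Φ` from `exists_coord`.  `⟨Φ(s,y), w⟩ = s ⟨u,w⟩ + β(y)`,
`β(y) = ⟨Φ(0,y), w⟩`.  By `chordInt_eq`, `integral_body` (with `f = |⟨·,w⟩|^p`, continuous) and
`chord_ineq` on each section (with `b = mid - hl`, `t = mid + hl`).
EQUALITY (`p > 1`): the nonnegative difference of the two integrands over `proj` has integral 0, so it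
vanishes for almost every `y ∈ proj`; for `y` in the interior of `proj`, `hl y > 0` and
`chord_ineq_eq` gives `⟨u,w⟩ mid y + β y = 0` for a.e. such `y`, hence for all `y` in the interior
(`mid` is continuous there; a null set has dense complement).  Then for `x = Φ(s,y) ∈ K` with `y` in the
interior, `orefl u w x = x - 2 ((s⟨u,w⟩+β y)/⟨u,w⟩) u = Φ(2 mid y - s, y) ∈ K`.  The points of `K` with
`y ∈ interior proj` are dense in `K` (contain the interior of `K`; a convex body is the closure of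
its interior) and `orefl` is continuous, `K` closed.
CONVERSELY (`CH_refl`): if `orefl u w` maps `K` into itself then it maps every section to itself (it is an
involution), so `mid y = -β(y)/⟨u,w⟩` for all `y ∈ proj` and `chord_centered` applies.
-/

set_option autoImplicit false

open MeasureTheory Set Metric Filter Topology
open scoped RealInnerProductSpace ENNReal

namespace RMB

section H3

variable {m : ℕ} {Φ : (ℝ × E m) ≃L[ℝ] E (m + 1)} {u w : E (m + 1)} {K : Set (E (m + 1))} {p : ℝ}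

private theorem H3_split (hΦ : IsCoord Φ u) (s : ℝ) (y : E m) :
    Φ (s, y) = s • u + Φ (0, y) := by
  rw [← hΦ.dir, ← map_smul, ← map_add]
  congr 1
  ext
  · simp
  · simp

private theorem H3_inner (hΦ : IsCoord Φ u) (s : ℝ) (y : E m) :
    ⟪Φ (s, y), w⟫ = ⟪u, w⟫ * s + ⟪Φ (0, y), w⟫ := by
  rw [H3_split hΦ, inner_add_left, real_inner_smul_left, mul_comm]

private theorem H3_orefl (hΦ : IsCoord Φ u) (huw : 0 < ⟪u, w⟫) (s : ℝ) (y : E m) :
    orefl u w (Φ (s, y)) = Φ (-s - 2 * ⟪Φ (0, y), w⟫ / ⟪u, w⟫, y) := by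
  unfold orefl
  rw [H3_inner hΦ, H3_split hΦ s y, H3_split hΦ (-s - 2 * ⟪Φ (0, y), w⟫ / ⟪u, w⟫) y]
  have h1 : 2 * (⟪u, w⟫ * s + ⟪Φ (0, y), w⟫) / ⟪u, w⟫ =
      2 * s + 2 * ⟪Φ (0, y), w⟫ / ⟪u, w⟫ := by
    field_simp
  rw [h1]
  module

private theorem H3_int (hK : IsBody K) (hp : 0 < p) :
    IntegrableOn (fun x : E (m + 1) => |⟪x, w⟫| ^ p) K := by
  apply ContinuousOn.integrableOn_compact hK.compact
  apply Continuous.continuousOn
  exact (continuous_abs.comp (continuous_id.inner continuous_const)).rpow_const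
    (fun _ => Or.inr hp.le)

private theorem H3_sec (hΦ : IsCoord Φ u) (hK : IsBody K) (hp : 0 < p) :
    IntegrableOn (fun y => ∫ s in (mid Φ K y - hl Φ K y)..(mid Φ K y + hl Φ K y),
      |⟪u, w⟫ * s + ⟪Φ (0, y), w⟫| ^ p) (proj Φ K) ∧
    ∫ x in K, |⟪x, w⟫| ^ p = ∫ y in proj Φ K,
      ∫ s in (mid Φ K y - hl Φ K y)..(mid Φ K y + hl Φ K y),
        |⟪u, w⟫ * s + ⟪Φ (0, y), w⟫| ^ p := by
  have h1 := integral_body hΦ hK.compact hK.convex (H3_int (w := w) hK hp)
  have h2 : (fun y => ∫ s in (mid Φ K y - hl Φ K y)..(mid Φ K y + hl Φ K y),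
      |⟪Φ (s, y), w⟫| ^ p) = fun y => ∫ s in (mid Φ K y - hl Φ K y)..(mid Φ K y + hl Φ K y),
      |⟪u, w⟫ * s + ⟪Φ (0, y), w⟫| ^ p := by
    funext y
    congr 1
    funext s
    rw [H3_inner hΦ]
  rw [h2] at h1
  exact h1

private theorem H3_intL (hK : IsBody K) (hp : 0 < p) :
    IntegrableOn (fun y => (2 * hl Φ K y) ^ (p + 1) / (p + 1)) (proj Φ K) := by
  obtain ⟨C, hC⟩ := hl_bdd (Φ := Φ) hK.compact
  have hc := isCompact_proj (Φ := Φ) hK.compact
  apply Measure.integrableOn_of_bounded (M := (2 * C) ^ (p + 1) / (p + 1)) hc.measure_lt_top.ne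
  · exact ((((measurable_hl hK.compact).const_mul 2).pow_const _).div_const _).aestronglyMeasurable
  · filter_upwards with y
    have h0 := hl_nonneg (Φ := Φ) hK.compact y
    have h1 : 0 ≤ (2 * hl Φ K y) ^ (p + 1) / (p + 1) := by positivity
    rw [Real.norm_eq_abs, abs_of_nonneg h1]
    apply div_le_div_of_nonneg_right _ (by linarith)
    apply Real.rpow_le_rpow (by linarith) _ (by linarith)
    linarith [(hC y).1]

private theorem H3_le (hK : IsBody K) (huw : 0 < ⟪u, w⟫) (hp : 1 ≤ p) (y : E m) :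
    ⟪u, w⟫ ^ p * ((2 * hl Φ K y) ^ (p + 1) / (p + 1)) ≤
      2 ^ p * ∫ s in (mid Φ K y - hl Φ K y)..(mid Φ K y + hl Φ K y),
        |⟪u, w⟫ * s + ⟪Φ (0, y), w⟫| ^ p := by
  have h0 := hl_nonneg (Φ := Φ) hK.compact y
  have h := chord_ineq (b := mid Φ K y - hl Φ K y) (t := mid Φ K y + hl Φ K y)
    (β := ⟪Φ (0, y), w⟫) (by linarith) huw hp
  rwa [show mid Φ K y + hl Φ K y - (mid Φ K y - hl Φ K y) = 2 * hl Φ K y by ring] at h

private theorem H3_CH (hΦ : IsCoord Φ u) (hK : IsBody K) (huw : 0 < ⟪u, w⟫) (hp : 1 ≤ p) :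
    chordInt p K u * ⟪u, w⟫ ^ p ≤ 2 ^ p * ∫ x in K, |⟪x, w⟫| ^ p := by
  have hp0 : 0 < p := by linarith
  rw [chordInt_eq hΦ hK hp0, (H3_sec hΦ hK hp0).2, mul_comm, ← integral_const_mul,
    ← integral_const_mul]
  apply integral_mono ((H3_intL hK hp0).const_mul _) ((H3_sec hΦ hK hp0).1.const_mul _)
  intro y
  exact H3_le hK huw hp y

private theorem H3_mid (hΦ : IsCoord Φ u) (hK : IsBody K) (huw : 0 < ⟪u, w⟫) (hp : 1 < p)
    (h : chordInt p K u * ⟪u, w⟫ ^ p = 2 ^ p * ∫ x in K, |⟪x, w⟫| ^ p) :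
    ∀ y ∈ interior (proj Φ K), ⟪u, w⟫ * mid Φ K y + ⟪Φ (0, y), w⟫ = 0 := by
  have hp0 : 0 < p := by linarith
  rw [chordInt_eq hΦ hK hp0, (H3_sec hΦ hK hp0).2, mul_comm, ← integral_const_mul,
    ← integral_const_mul] at h
  have h1 := (integral_eq_iff_of_ae_le ((H3_intL hK hp0).const_mul _)
    ((H3_sec (w := w) hΦ hK hp0).1.const_mul _)
    (Eventually.of_forall (fun y => H3_le hK huw hp.le y))).1 h
  have h2 : ∀ᵐ y ∂(volume.restrict (interior (proj Φ K))),
      ⟪u, w⟫ * mid Φ K y + ⟪Φ (0, y), w⟫ = 0 := by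
    have h3 := ae_restrict_of_ae_restrict_of_subset interior_subset h1
    have h4 : ∀ᵐ y ∂(volume.restrict (interior (proj Φ K))), y ∈ interior (proj Φ K) :=
      ae_restrict_mem isOpen_interior.measurableSet
    filter_upwards [h3, h4] with y hy hy'
    have hpos := hl_pos hK hy'
    have h5 := chord_ineq_eq (b := mid Φ K y - hl Φ K y) (t := mid Φ K y + hl Φ K y)
      (β := ⟪Φ (0, y), w⟫) (by linarith) huw hp (by
        rw [show mid Φ K y + hl Φ K y - (mid Φ K y - hl Φ K y) = 2 * hl Φ K y by ring]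
        exact hy)
    rwa [show (mid Φ K y - hl Φ K y + (mid Φ K y + hl Φ K y)) / 2 = mid Φ K y by ring] at h5
  have hcont : ContinuousOn (fun y => ⟪u, w⟫ * mid Φ K y + ⟪Φ (0, y), w⟫)
      (interior (proj Φ K)) := by
    apply ContinuousOn.add
    · exact continuousOn_const.mul (continuousOn_mid hK.compact hK.convex)
    · apply Continuous.continuousOn
      have h6 : Continuous (fun y : E m => Φ ((0 : ℝ), y)) :=
        Φ.continuous.comp (by fun_prop)
      exact h6.inner continuous_const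
  have hopen : IsOpen (interior (proj Φ K) ∩
      (fun y => ⟪u, w⟫ * mid Φ K y + ⟪Φ (0, y), w⟫) ⁻¹' {0}ᶜ) :=
    hcont.isOpen_inter_preimage isOpen_interior isOpen_compl_singleton
  have hnull : volume (interior (proj Φ K) ∩
      (fun y => ⟪u, w⟫ * mid Φ K y + ⟪Φ (0, y), w⟫) ⁻¹' {0}ᶜ) = 0 := by
    rw [ae_restrict_iff' isOpen_interior.measurableSet, ae_iff] at h2
    refine measure_mono_null ?_ h2
    rintro y ⟨hy1, hy2⟩
    rw [Set.mem_ofPred_eq]
    intro h7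
    exact hy2 (h7 hy1)
  have hempty := hopen.measure_eq_zero_iff volume |>.1 hnull
  intro y hy
  by_contra hne
  have h8 : y ∈ interior (proj Φ K) ∩
      (fun y => ⟪u, w⟫ * mid Φ K y + ⟪Φ (0, y), w⟫) ⁻¹' {0}ᶜ := ⟨hy, hne⟩
  rw [hempty] at h8
  exact h8

private theorem H3_eq (hΦ : IsCoord Φ u) (hK : IsBody K) (huw : 0 < ⟪u, w⟫) (hp : 1 < p)
    (h : chordInt p K u * ⟪u, w⟫ ^ p = 2 ^ p * ∫ x in K, |⟪x, w⟫| ^ p) :
    ∀ x ∈ K, orefl u w x ∈ K := by
  have hmid := H3_mid hΦ hK huw hp h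
  have hcl : IsClosed {x : E (m + 1) | orefl u w x ∈ K} := by
    have hcont : Continuous (fun x : E (m + 1) => orefl u w x) := by
      unfold orefl
      have h1 : Continuous (fun x : E (m + 1) => ⟪x, w⟫) := continuous_id.inner continuous_const
      exact continuous_id.sub (((h1.const_mul 2).div_const _).smul continuous_const)
    exact hK.compact.isClosed.preimage hcont
  have hint : interior K ⊆ {x : E (m + 1) | orefl u w x ∈ K} := by
    intro x hx
    have hop : IsOpenMap (fun z : E (m + 1) => (Φ.symm z).2) :=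
      isOpenMap_snd.comp Φ.symm.toHomeomorph.isOpenMap
    have hsub : (fun z : E (m + 1) => (Φ.symm z).2) '' interior K ⊆ proj Φ K := by
      rintro y ⟨z, hz, rfl⟩
      refine ⟨(Φ.symm z).1, ?_⟩
      show Φ ((Φ.symm z).1, (Φ.symm z).2) ∈ K
      have h1 : Φ ((Φ.symm z).1, (Φ.symm z).2) = z := Φ.apply_symm_apply z
      rw [h1]
      exact interior_subset hz
    have hy : (Φ.symm x).2 ∈ interior (proj Φ K) :=
      interior_maximal hsub (hop _ isOpen_interior) ⟨x, hx, rfl⟩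
    have hyp : (Φ.symm x).2 ∈ proj Φ K := interior_subset hy
    have h2 : Φ ((Φ.symm x).1, (Φ.symm x).2) = x := Φ.apply_symm_apply x
    show orefl u w x ∈ K
    have h3 := H3_orefl hΦ huw (Φ.symm x).1 (Φ.symm x).2
    rw [h2] at h3
    rw [h3]
    have hs : (Φ.symm x).1 ∈ sec Φ K (Φ.symm x).2 := by
      show Φ ((Φ.symm x).1, (Φ.symm x).2) ∈ K
      rw [h2]
      exact interior_subset hx
    have h4 : -(Φ.symm x).1 - 2 * ⟪Φ (0, (Φ.symm x).2), w⟫ / ⟪u, w⟫ ∈
        sec Φ K (Φ.symm x).2 := by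
      have h5 := hmid _ hy
      have h6 : 2 * ⟪Φ (0, (Φ.symm x).2), w⟫ / ⟪u, w⟫ = -2 * mid Φ K (Φ.symm x).2 := by
        rw [div_eq_iff huw.ne']
        linarith
      rw [h6]
      rw [sec_eq hK.compact hK.convex hyp, mem_Icc] at hs ⊢
      exact ⟨by linarith [hs.2], by linarith [hs.1]⟩
    exact h4
  intro x hx
  have h7 : x ∈ closure (interior K) := by
    rw [hK.convex.closure_interior_eq_closure_of_nonempty_interior hK.int_nonempty]
    exact subset_closure hx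
  exact closure_minimal hint hcl h7

private theorem H3_refl (hΦ : IsCoord Φ u) (hK : IsBody K) (huw : 0 < ⟪u, w⟫) (hp : 1 ≤ p)
    (h : ∀ x ∈ K, orefl u w x ∈ K) :
    chordInt p K u * ⟪u, w⟫ ^ p = 2 ^ p * ∫ x in K, |⟪x, w⟫| ^ p := by
  have hp0 : 0 < p := by linarith
  rw [chordInt_eq hΦ hK hp0, (H3_sec hΦ hK hp0).2, mul_comm, ← integral_const_mul,
    ← integral_const_mul]
  apply setIntegral_congr_fun (isCompact_proj hK.compact).measurableSet
  intro y hy
  have h0 := hl_nonneg (Φ := Φ) hK.compact y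
  have hsec := sec_eq hK.compact hK.convex hy
  have hmap : ∀ s ∈ sec Φ K y, -s - 2 * ⟪Φ (0, y), w⟫ / ⟪u, w⟫ ∈ sec Φ K y := by
    intro s hs
    have h1 := h _ hs
    rw [H3_orefl hΦ huw] at h1
    exact h1
  rw [hsec] at hmap
  have h2 := hmap (mid Φ K y - hl Φ K y) ⟨le_refl _, by linarith⟩
  have h3 := hmap (mid Φ K y + hl Φ K y) ⟨by linarith, le_refl _⟩
  rw [mem_Icc] at h2 h3
  have h4 : 2 * ⟪Φ (0, y), w⟫ / ⟪u, w⟫ = -2 * mid Φ K y := by
    linarith [h2.2, h3.1]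
  rw [div_eq_iff huw.ne'] at h4
  have h5 := chord_centered (b := mid Φ K y - hl Φ K y) (t := mid Φ K y + hl Φ K y)
    (a := ⟪u, w⟫) (β := ⟪Φ (0, y), w⟫) (p := p) (by linarith) huw hp (by
      rw [show (mid Φ K y - hl Φ K y + (mid Φ K y + hl Φ K y)) / 2 = mid Φ K y by ring]
      linarith)
  rw [show mid Φ K y + hl Φ K y - (mid Φ K y - hl Φ K y) = 2 * hl Φ K y by ring] at h5
  exact h5

end H3

variable {n : ℕ} {K : Set (E n)} {u w : E n} {p : ℝ}

private theorem H3_zero {u : E 0} (hu : ‖u‖ = 1) : False := by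
  have h0 : u = 0 := Subsingleton.elim _ _
  rw [h0, norm_zero] at hu
  exact zero_ne_one hu

theorem CH (hK : IsBody K) (hu : ‖u‖ = 1) (huw : 0 < ⟪u, w⟫) (hp : 1 ≤ p) :
    chordInt p K u * ⟪u, w⟫ ^ p ≤ 2 ^ p * ∫ x in K, |⟪x, w⟫| ^ p := by
  cases n with
  | zero => exact (H3_zero hu).elim
  | succ m =>
    obtain ⟨Φ, hΦ⟩ := exists_coord m u hu
    exact H3_CH hΦ hK huw hp

theorem CH_eq (hK : IsBody K) (hu : ‖u‖ = 1) (huw : 0 < ⟪u, w⟫) (hp : 1 < p)
    (h : chordInt p K u * ⟪u, w⟫ ^ p = 2 ^ p * ∫ x in K, |⟪x, w⟫| ^ p) :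
    ∀ x ∈ K, orefl u w x ∈ K := by
  cases n with
  | zero => exact (H3_zero hu).elim
  | succ m =>
    obtain ⟨Φ, hΦ⟩ := exists_coord m u hu
    exact H3_eq hΦ hK huw hp h

theorem CH_refl (hK : IsBody K) (hu : ‖u‖ = 1) (huw : 0 < ⟪u, w⟫) (hp : 1 ≤ p)
    (h : ∀ x ∈ K, orefl u w x ∈ K) :
    chordInt p K u * ⟪u, w⟫ ^ p = 2 ^ p * ∫ x in K, |⟪x, w⟫| ^ p := by
  cases n with
  | zero => exact (H3_zero hu).elim
  | succ m =>
    obtain ⟨Φ, hΦ⟩ := exists_coord m u hu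
    exact H3_refl hΦ hK huw hp h

end RMB
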