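import Pool.Agent.RMB.G8
import Pool.Agent.RMB.H3

/-!
# RMB-H4: the constant of the ball

For unit `w`: `2^p ∫_B |⟨x,w⟩|^p = kap n q · vol(B)`, `p = n + q`.

PROOF.  For unit `u` the ball is invariant under `orefl u u` (orthogonal reflection), so `CH_refl` with
`w = u`, `⟨u,u⟩ = 1` gives `chordInt p B u = 2^p ∫_B |⟨x,u⟩|^p =: C`, and `C` does not depend on the unit
vector `u` (a reflection exchanging two unit vectors preserves volume and `B`).
`double_int` with `f x = ‖x‖^q` (continuous as `q ≥ 0`, homogeneous; `q = 0`: `x^0 = 1`) gives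
`∫∫_{B×B} ‖y-x‖^q = p⁻¹ C sg(S)`, and `polar_star` gives `∫_B ‖x‖^q = p⁻¹ sg(S)` (`ρ_B = 1` on `S`).
Divide: `kap n q = C / vol(B)` (`sg(S) > 0`: `sg_univ`).
`kap_pos`: numerator and denominator are positive.
`kap_zero`: `q = 0`.  `kap_two`: `∫∫_{B×B} |x-y|² = 2 vol(B) ∫_B |x|²` (the mixed term
`∫∫ ⟨x,y⟩ = 0` by symmetry).
-/

set_option autoImplicit false

open MeasureTheory Set Metric Filter Topology
open scoped RealInnerProductSpace ENNReal

namespace RMB

variable {n : ℕ}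

private lemma H4_self {u : E n} (hu : ‖u‖ = 1) : ⟪u, u⟫ = (1 : ℝ) := by
  rw [real_inner_self_eq_norm_sq, hu]
  norm_num

private lemma H4_refl {u : E n} (hu : ‖u‖ = 1) :
    ∀ x ∈ closedBall (0 : E n) 1, orefl u u x ∈ closedBall (0 : E n) 1 := by
  intro x hx
  rw [mem_closedBall_zero_iff] at hx ⊢
  have h2 : ‖orefl u u x‖ ^ 2 = ‖x‖ ^ 2 := by
    unfold orefl
    rw [H4_self hu, div_one, norm_sub_sq_real, real_inner_smul_right, norm_smul, mul_pow, hu,
      Real.norm_eq_abs, sq_abs]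
    ring
  have h3 : ‖orefl u u x‖ = ‖x‖ := by
    rwa [sq_eq_sq₀ (norm_nonneg _) (norm_nonneg _)] at h2
  rwa [h3]

private lemma H4_inv {p : ℝ} {u w : E n} (hu : ‖u‖ = 1) (hw : ‖w‖ = 1) :
    ∫ x in closedBall (0 : E n) 1, |⟪x, u⟫| ^ p = ∫ x in closedBall (0 : E n) 1, |⟪x, w⟫| ^ p := by
  set R : E n ≃ₗᵢ[ℝ] E n := Submodule.reflection (Submodule.span ℝ {u - w})ᗮ with hR
  have hRu : R u = w := Submodule.reflection_sub (by rw [hu, hw])
  have hmp : MeasurePreserving R volume volume := R.measurePreserving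
  have hpre : R ⁻¹' closedBall (0 : E n) 1 = closedBall (0 : E n) 1 := by
    ext x
    rw [Set.mem_preimage, mem_closedBall_zero_iff, mem_closedBall_zero_iff,
      LinearIsometryEquiv.norm_map]
  have key := hmp.setIntegral_preimage_emb R.toHomeomorph.measurableEmbedding
    (fun x => |⟪x, w⟫| ^ p) (closedBall (0 : E n) 1)
  rw [hpre] at key
  rw [← key]
  refine integral_congr_ae (Eventually.of_forall fun x => ?_)
  show |⟪x, u⟫| ^ p = |⟪R x, w⟫| ^ p
  rw [← hRu, LinearIsometryEquiv.inner_map_map]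

private lemma H4_p {q : ℝ} (hn : 1 ≤ n) (hq : 0 ≤ q) : 1 ≤ (n : ℝ) + q := by
  have : (1 : ℝ) ≤ n := by exact_mod_cast hn
  linarith

private lemma H4_cont {q : ℝ} (hq : 0 ≤ q) : Continuous (fun x : E n => ‖x‖ ^ q) :=
  continuous_norm.rpow_const fun _ => Or.inr hq

private lemma H4_hom {q : ℝ} : ∀ r : ℝ, 0 < r → ∀ x : E n, ‖r • x‖ ^ q = r ^ q * ‖x‖ ^ q := by
  intro r hr x
  rw [norm_smul, Real.norm_eq_abs, abs_of_pos hr, Real.mul_rpow hr.le (norm_nonneg _)]

private lemma H4_num (hn : 1 ≤ n) {q : ℝ} (hq : 0 ≤ q) {w : E n} (hw : ‖w‖ = 1) :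
    ∫ x in closedBall (0 : E n) 1, ∫ y in closedBall (0 : E n) 1, ‖y - x‖ ^ q =
      (1 / ((n : ℝ) + q)) * ((sg n).real univ * ((2 : ℝ) ^ ((n : ℝ) + q) *
        ∫ x in closedBall (0 : E n) 1, |⟪x, w⟫| ^ ((n : ℝ) + q))) := by
  rw [double_int hn (closedBall_sym one_pos).toIsBody hq (f := fun x : E n => ‖x‖ ^ q)
    (H4_cont hq) H4_hom]
  congr 1
  have h1 : ∀ u : sphere (0 : E n) 1, ‖(u : E n)‖ ^ q *
      chordInt ((n : ℝ) + q) (closedBall (0 : E n) 1) (u : E n) = (2 : ℝ) ^ ((n : ℝ) + q) *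
        ∫ x in closedBall (0 : E n) 1, |⟪x, w⟫| ^ ((n : ℝ) + q) := by
    intro u
    have hu : ‖(u : E n)‖ = 1 := by simp
    have h2 := CH_refl (closedBall_sym (n := n) one_pos).toIsBody hu
      (show 0 < ⟪(u : E n), (u : E n)⟫ by rw [H4_self hu]; exact one_pos) (H4_p hn hq)
      (H4_refl hu)
    rw [H4_self hu, Real.one_rpow, mul_one] at h2
    rw [hu, Real.one_rpow, one_mul, h2, H4_inv hu hw]
  rw [integral_congr_ae (Eventually.of_forall h1), integral_const, smul_eq_mul]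

private lemma H4_radial {u : E n} (hu : ‖u‖ = 1) : radial (closedBall (0 : E n) 1) u = 1 := by
  unfold radial
  have h : {r : ℝ | 0 ≤ r ∧ r • u ∈ closedBall (0 : E n) 1} = Icc 0 1 := by
    ext r
    rw [Set.mem_ofPred_eq, mem_closedBall_zero_iff, norm_smul, hu, mul_one, mem_Icc]
    constructor
    · rintro ⟨h1, h2⟩
      exact ⟨h1, by rwa [Real.norm_eq_abs, abs_of_nonneg h1] at h2⟩
    · rintro ⟨h1, h2⟩
      exact ⟨h1, by rwa [Real.norm_eq_abs, abs_of_nonneg h1]⟩
  rw [h, csSup_Icc zero_le_one]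

private lemma H4_den (hn : 1 ≤ n) {q : ℝ} (hq : 0 ≤ q) :
    ∫ x in closedBall (0 : E n) 1, ‖x‖ ^ q = (1 / ((n : ℝ) + q)) * (sg n).real univ := by
  have hB := closedBall_sym (n := n) one_pos
  rw [polar_star hn hB.compact hB.convex hB.zero_mem hq (f := fun x : E n => ‖x‖ ^ q)
    (H4_cont hq) H4_hom]
  congr 1
  have h1 : ∀ u : sphere (0 : E n) 1, ‖(u : E n)‖ ^ q *
      radial (closedBall (0 : E n) 1) (u : E n) ^ ((n : ℝ) + q) = 1 := by
    intro u
    have hu : ‖(u : E n)‖ = 1 := by simp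
    rw [hu, H4_radial hu, Real.one_rpow, Real.one_rpow, one_mul]
  rw [integral_congr_ae (Eventually.of_forall h1), integral_const, smul_eq_mul, mul_one]

private lemma H4_vol : 0 < volume.real (closedBall (0 : E n) 1) :=
  (closedBall_sym (n := n) one_pos).toIsBody.volume_pos

theorem ball_kappa (hn : 1 ≤ n) {q : ℝ} (hq : 0 ≤ q) {w : E n} (hw : ‖w‖ = 1) :
    (2 : ℝ) ^ ((n : ℝ) + q) * ∫ x in closedBall (0 : E n) 1, |⟪x, w⟫| ^ ((n : ℝ) + q) =
      kap n q * volume.real (closedBall (0 : E n) 1) := by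
  unfold kap
  rw [H4_num hn hq hw, H4_den hn hq]
  have h1 := (sg_univ hn).2
  have h2 := H4_vol (n := n)
  have h3 := H4_p hn hq
  have h4 : (n : ℝ) + q ≠ 0 := by linarith
  field_simp

private lemma H4_unit (hn : 1 ≤ n) : ∃ w : E n, ‖w‖ = 1 :=
  ⟨EuclideanSpace.single ⟨0, hn⟩ 1, by rw [EuclideanSpace.norm_single, norm_one]⟩

theorem kap_pos (hn : 1 ≤ n) {q : ℝ} (hq : 0 ≤ q) : 0 < kap n q := by
  obtain ⟨w, hw⟩ := H4_unit hn
  have h1 := ball_kappa hn hq hw
  have h2 := H4_vol (n := n)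
  have hp := H4_p hn hq
  have hc : Continuous (fun x : E n => |⟪x, w⟫| ^ ((n : ℝ) + q)) :=
    (continuous_abs.comp (continuous_id.inner continuous_const)).rpow_const
      fun _ => Or.inr (by linarith)
  have h3 : 0 < ∫ x in closedBall (0 : E n) 1, |⟪x, w⟫| ^ ((n : ℝ) + q) := by
    rw [setIntegral_pos_iff_support_of_nonneg_ae]
    · have hopen : IsOpen ({x : E n | ⟪x, w⟫ ≠ 0} ∩ ball (0 : E n) 1) :=
        (isOpen_ne_fun (continuous_id.inner continuous_const) continuous_const).inter isOpen_ball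
      have hne : ({x : E n | ⟪x, w⟫ ≠ 0} ∩ ball (0 : E n) 1).Nonempty := by
        refine ⟨(1 / 2 : ℝ) • w, ?_, ?_⟩
        · show ⟪(1 / 2 : ℝ) • w, w⟫ ≠ 0
          rw [real_inner_smul_left, H4_self hw]
          norm_num
        · rw [mem_ball_zero_iff, norm_smul, hw]
          norm_num
      refine lt_of_lt_of_le (hopen.measure_pos volume hne) (measure_mono ?_)
      rintro x ⟨hx1, hx2⟩
      refine ⟨?_, ball_subset_closedBall hx2⟩
      rw [Function.mem_support]
      exact (Real.rpow_pos_of_pos (abs_pos.2 hx1) _).ne'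
    · exact Eventually.of_forall fun x => Real.rpow_nonneg (abs_nonneg _) _
    · exact hc.continuousOn.integrableOn_compact (isCompact_closedBall _ _)
  have h4 : 0 < (2 : ℝ) ^ ((n : ℝ) + q) * ∫ x in closedBall (0 : E n) 1,
      |⟪x, w⟫| ^ ((n : ℝ) + q) := by positivity
  rw [h1] at h4
  exact (pos_iff_pos_of_mul_pos h4).2 h2

theorem kap_zero (hn : 1 ≤ n) : kap n 0 = 1 := by
  have h2 := H4_vol (n := n)
  unfold kap
  simp only [Real.rpow_zero]
  rw [setIntegral_const, setIntegral_const, smul_eq_mul, smul_eq_mul, mul_one]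
  exact div_self (by positivity)

theorem kap_two (hn : 1 ≤ n) : kap n 2 = 2 := by
  have hvol := H4_vol (n := n)
  have hint : ∀ {f : E n → ℝ}, Continuous f → IntegrableOn f (closedBall (0 : E n) 1) volume :=
    fun hf => hf.continuousOn.integrableOn_compact (isCompact_closedBall _ _)
  have hpos : 0 < ∫ x in closedBall (0 : E n) 1, ‖x‖ ^ (2 : ℝ) := by
    rw [H4_den hn (by norm_num)]
    have h1 := (sg_univ hn).2
    have h3 := H4_p hn (show (0 : ℝ) ≤ 2 by norm_num)
    positivity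
  have hodd : ∀ x : E n, ∫ y in closedBall (0 : E n) 1, ⟪y, x⟫ = 0 := by
    intro x
    have hmp : MeasurePreserving (Neg.neg : E n → E n) volume volume := Measure.measurePreserving_neg _
    have key := hmp.setIntegral_preimage_emb (MeasurableEquiv.neg (E n)).measurableEmbedding
      (fun y => ⟪y, x⟫) (closedBall (0 : E n) 1)
    have hpre : (Neg.neg : E n → E n) ⁻¹' closedBall (0 : E n) 1 = closedBall (0 : E n) 1 := by
      ext y
      rw [Set.mem_preimage, mem_closedBall_zero_iff, mem_closedBall_zero_iff, norm_neg]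
    rw [hpre] at key
    simp only [inner_neg_left] at key
    rw [integral_neg] at key
    linarith
  have hin : ∀ x : E n, ∫ y in closedBall (0 : E n) 1, ‖y - x‖ ^ (2 : ℝ) =
      (∫ y in closedBall (0 : E n) 1, ‖y‖ ^ (2 : ℝ)) +
        volume.real (closedBall (0 : E n) 1) * ‖x‖ ^ (2 : ℝ) := by
    intro x
    have h1 : ∀ y : E n, ‖y - x‖ ^ (2 : ℝ) = (‖y‖ ^ (2 : ℝ) - 2 * ⟪y, x⟫) + ‖x‖ ^ (2 : ℝ) := by
      intro y
      rw [Real.rpow_two, Real.rpow_two, Real.rpow_two, norm_sub_sq_real]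
    have c1 : Continuous (fun y : E n => ‖y‖ ^ (2 : ℝ)) := H4_cont (by norm_num)
    have c2 : Continuous (fun y : E n => 2 * ⟪y, x⟫) :=
      continuous_const.mul (continuous_id.inner continuous_const)
    have c12 : Continuous (fun y : E n => ‖y‖ ^ (2 : ℝ) - 2 * ⟪y, x⟫) := c1.sub c2
    have c3 : Continuous (fun _ : E n => ‖x‖ ^ (2 : ℝ)) := continuous_const
    rw [integral_congr_ae (Eventually.of_forall h1), integral_add (hint c12) (hint c3),
      integral_sub (hint c1) (hint c2), integral_const_mul, hodd x, setIntegral_const, smul_eq_mul]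
    ring
  have c4 : Continuous (fun _ : E n => ∫ y in closedBall (0 : E n) 1, ‖y‖ ^ (2 : ℝ)) :=
    continuous_const
  have c5 : Continuous (fun x : E n =>
      volume.real (closedBall (0 : E n) 1) * ‖x‖ ^ (2 : ℝ)) :=
    continuous_const.mul (H4_cont (by norm_num))
  unfold kap
  rw [integral_congr_ae (Eventually.of_forall hin), integral_add (hint c4) (hint c5),
    integral_const_mul, setIntegral_const, smul_eq_mul, div_eq_iff (by positivity)]
  ring

end RMB
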