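import Pool.Agent.RMB.G3
import Pool.Agent.RMB.G5

/-!
# RMB-R1: Steiner symmetrization, set theoretic part

PROOF.  `steiner u K` is the image of `{(x,x') ∈ K × K : x - x' ∈ ℝ u}` (compact, convex, symmetric)
under the linear map `(x,x') ↦ (x + R x')/2`, `R x' = x' - 2⟨x',u⟩u` (the reflection; linear isometry).
So it is compact, convex, symmetric.
Monotone: clear.  `steiner u (closedBall 0 r) = closedBall 0 r`: `⊆` by `‖(x+Rx')/2‖ ≤ r`;
`⊇`: for `‖z‖ ≤ r` take `x = z`, `x' = R z` (`x - x' = 2⟨z,u⟩u`, `R x' = z`).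
Nonempty interior: `K ⊇ closedBall 0 r` with `r > 0`.

Sections (`Φ` adapted to `u`): `x = Φ(s,y)`, `x' = Φ(s',y)` (same `y` because `x - x' ∈ ℝ u`),
`⟨x',u⟩ = s'`, `R x' = Φ(-s',y)`, so `(x+Rx')/2 = Φ((s-s')/2, y)` with `s, s' ∈ sec Φ K y`:
the section is `{(s-s')/2 : s,s' ∈ sec Φ K y} = [-hl, hl]` (`sec_eq`).
-/

set_option autoImplicit false

open MeasureTheory Set Metric Filter Topology
open scoped RealInnerProductSpace ENNReal

namespace RMB

theorem steiner_mono {n : ℕ} {u : E n} {K L : Set (E n)} (h : K ⊆ L) :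
    steiner u K ⊆ steiner u L := by
  rintro z ⟨x, hx, x', hx', hr, hz⟩
  exact ⟨x, h hx, x', h hx', hr, hz⟩

private theorem r1_norm {n : ℕ} {u : E n} (hu : ‖u‖ = 1) (x : E n) :
    ‖x - (2 * ⟪x, u⟫) • u‖ = ‖x‖ := by
  have h1 : ‖x - (2 * ⟪x, u⟫) • u‖ ^ 2 = ‖x‖ ^ 2 := by
    rw [norm_sub_sq_real, inner_smul_right, norm_smul, hu, Real.norm_eq_abs, mul_one, sq_abs]
    ring
  exact (pow_left_inj₀ (norm_nonneg _) (norm_nonneg _) (by norm_num)).1 h1

theorem steiner_ball {n : ℕ} {u : E n} (hu : ‖u‖ = 1) (r : ℝ) :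
    steiner u (closedBall (0 : E n) r) = closedBall 0 r := by
  ext z
  constructor
  · rintro ⟨x, hx, x', hx', -, rfl⟩
    rw [mem_closedBall_zero_iff] at *
    rw [norm_smul]
    have h1 := norm_add_le x (x' - (2 * ⟪x', u⟫) • u)
    rw [r1_norm hu] at h1
    have h2 : ‖(1 / 2 : ℝ)‖ = 1 / 2 := by norm_num
    rw [h2]
    linarith
  · intro hz
    have hz' := hz
    rw [mem_closedBall_zero_iff] at hz'
    refine ⟨z, hz, z - (2 * ⟪z, u⟫) • u, ?_, ⟨2 * ⟪z, u⟫, by abel⟩, ?_⟩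
    · rw [mem_closedBall_zero_iff, r1_norm hu]
      exact hz'
    · have h1 : ⟪z - (2 * ⟪z, u⟫) • u, u⟫ = -⟪z, u⟫ := by
        rw [inner_sub_left, inner_smul_left, real_inner_self_eq_norm_sq, hu]
        simp only [conj_trivial]
        ring
      rw [h1]
      have h2 : z + (z - (2 * ⟪z, u⟫) • u - (2 * -⟪z, u⟫) • u) = (2 : ℝ) • z := by
        rw [mul_neg, neg_smul, sub_neg_eq_add, sub_add_cancel, two_smul]
      rw [h2, smul_smul]
      norm_num

theorem steiner_body {n : ℕ} {u : E n} (hu : ‖u‖ = 1) {K : Set (E n)} (hK : SymBody K) :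
    SymBody (steiner u K) := by
  refine ⟨⟨?_, ?_, ?_⟩, ?_⟩
  · -- compact
    have h1 : steiner u K = (fun p : E n × E n => (1 / 2 : ℝ) •
        (p.1 + (p.2 - (2 * ⟪p.2, u⟫) • u))) ''
        ((K ×ˢ K) ∩ {p | p.1 - p.2 ∈ Submodule.span ℝ ({u} : Set (E n))}) := by
      ext z
      constructor
      · rintro ⟨x, hx, x', hx', ⟨r, hr⟩, hz⟩
        exact ⟨(x, x'), ⟨⟨hx, hx'⟩, Submodule.mem_span_singleton.2 ⟨r, hr.symm⟩⟩, hz.symm⟩
      · rintro ⟨⟨x, x'⟩, ⟨⟨hx, hx'⟩, hr⟩, hz⟩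
        obtain ⟨r, hr⟩ := Submodule.mem_span_singleton.1 hr
        exact ⟨x, hx, x', hx', ⟨r, hr.symm⟩, hz.symm⟩
    rw [h1]
    refine ((hK.compact.prod hK.compact).inter_right ?_).image ?_
    · exact (Submodule.closed_of_finiteDimensional _).preimage
        (continuous_fst.sub continuous_snd)
    · fun_prop
  · -- convex
    rintro z ⟨x, hx, x', hx', ⟨r, hr⟩, rfl⟩ w ⟨y, hy, y', hy', ⟨s, hs⟩, rfl⟩ a b ha hb hab
    refine ⟨a • x + b • y, hK.convex hx hy ha hb hab, a • x' + b • y',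
      hK.convex hx' hy' ha hb hab, ⟨a * r + b * s, ?_⟩, ?_⟩
    · have : a • x + b • y - (a • x' + b • y') = a • (x - x') + b • (y - y') := by
        rw [smul_sub, smul_sub]; abel
      rw [this, hr, hs, smul_smul, smul_smul, add_smul]
    · rw [inner_add_left, inner_smul_left, inner_smul_left]
      simp only [conj_trivial]
      module
  · -- interior
    obtain ⟨r, hr, hb⟩ := hK.exists_ball
    have h1 : closedBall (0 : E n) r ⊆ steiner u K := by
      rw [← steiner_ball hu r]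
      exact steiner_mono hb
    refine ⟨0, ?_⟩
    have h2 : ball (0 : E n) r ⊆ steiner u K := ball_subset_closedBall.trans h1
    exact interior_maximal h2 isOpen_ball (mem_ball_self hr)
  · rintro z ⟨x, hx, x', hx', ⟨r, hr⟩, rfl⟩
    refine ⟨-x, hK.sym x hx, -x', hK.sym x' hx', ⟨-r, ?_⟩, ?_⟩
    · rw [neg_smul, ← hr]; abel
    · rw [inner_neg_left]
      module

private theorem r1_sec {m : ℕ} {Φ : (ℝ × E m) ≃L[ℝ] E (m + 1)} {u : E (m + 1)} (hΦ : IsCoord Φ u)
    (K : Set (E (m + 1))) (y : E m) (s : ℝ) :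
    s ∈ sec Φ (steiner u K) y ↔ ∃ s1 ∈ sec Φ K y, ∃ s2 ∈ sec Φ K y, s = (s1 - s2) / 2 := by
  have hin : ∀ (t : ℝ) (w : E m), ⟪Φ (t, w), u⟫ = t := by
    intro t w
    have h := hΦ.ip (t, w) (1, 0)
    rw [hΦ.dir] at h
    rw [h]
    simp
  have key : ∀ (s1 s2 : ℝ) (w : E m), (1 / 2 : ℝ) • (Φ (s1, w) + (Φ (s2, w) - (2 * s2) • u))
      = Φ ((s1 - s2) / 2, w) := by
    intro s1 s2 w
    have h1 : Φ ((s1 - s2) / 2, w)
        = Φ ((1 / 2 : ℝ) • ((s1, w) + ((s2, w) - (2 * s2) • ((1 : ℝ), (0 : E m))))) := by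
      refine congrArg Φ (Prod.ext ?_ ?_)
      · simp
        ring
      · show w = (1 / 2 : ℝ) • (w + (w - (2 * s2) • (0 : E m)))
        rw [smul_zero, sub_zero, ← two_smul ℝ w, smul_smul]
        norm_num
    rw [h1, map_smul, map_add, map_sub, map_smul, hΦ.dir]
  constructor
  · rintro ⟨x, hx, x', hx', ⟨r, hr⟩, hz⟩
    obtain ⟨⟨s1, y1⟩, rfl⟩ := Φ.surjective x
    obtain ⟨⟨s2, y2⟩, rfl⟩ := Φ.surjective x'
    have h1 : (s1, y1) - (s2, y2) = ((r, 0) : ℝ × E m) := by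
      apply Φ.injective
      rw [map_sub, hr]
      have : ((r, 0) : ℝ × E m) = r • ((1 : ℝ), (0 : E m)) := by simp
      rw [this, map_smul, hΦ.dir]
    have h2 : y1 = y2 := by
      have := congrArg Prod.snd h1
      simpa [sub_eq_zero] using this
    subst h2
    rw [hin, key] at hz
    have h3 := Φ.injective hz
    rw [Prod.mk.injEq] at h3
    obtain ⟨h4, h5⟩ := h3
    subst h5
    exact ⟨s1, hx, s2, hx', h4⟩
  · rintro ⟨s1, h1, s2, h2, rfl⟩
    refine ⟨Φ (s1, y), h1, Φ (s2, y), h2, ⟨s1 - s2, ?_⟩, ?_⟩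
    · rw [← map_sub]
      have : ((s1, y) - (s2, y) : ℝ × E m) = (s1 - s2) • ((1 : ℝ), (0 : E m)) := by
        ext <;> simp
      rw [this, map_smul, hΦ.dir]
    · rw [hin, key]

theorem steiner_sec {m : ℕ} {Φ : (ℝ × E m) ≃L[ℝ] E (m + 1)} {u : E (m + 1)} (hΦ : IsCoord Φ u)
    {K : Set (E (m + 1))} (hK : SymBody K) :
    proj Φ (steiner u K) = proj Φ K ∧
      ∀ y, hl Φ (steiner u K) y = hl Φ K y ∧ mid Φ (steiner u K) y = 0 := by
  have hp : ∀ y, (sec Φ (steiner u K) y).Nonempty ↔ (sec Φ K y).Nonempty := by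
    intro y
    constructor
    · rintro ⟨s, hs⟩
      obtain ⟨s1, h1, -⟩ := (r1_sec hΦ K y s).1 hs
      exact ⟨s1, h1⟩
    · rintro ⟨s, hs⟩
      exact ⟨0, (r1_sec hΦ K y 0).2 ⟨s, hs, s, hs, by simp⟩⟩
  refine ⟨?_, fun y => ?_⟩
  · ext y
    exact hp y
  · by_cases hy : y ∈ proj Φ K
    · have h0 := hl_nonneg (Φ := Φ) hK.compact y
      have hs := sec_eq (Φ := Φ) hK.compact hK.convex hy
      have h1 : sec Φ (steiner u K) y = Icc (-hl Φ K y) (hl Φ K y) := by
        ext s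
        rw [r1_sec hΦ, hs]
        constructor
        · rintro ⟨s1, h1, s2, h2, rfl⟩
          rw [mem_Icc] at *
          constructor <;> linarith [h1.1, h1.2, h2.1, h2.2]
        · intro h
          rw [mem_Icc] at h
          refine ⟨mid Φ K y + s, ?_, mid Φ K y - s, ?_, by ring⟩
          · rw [mem_Icc]; constructor <;> linarith [h.1, h.2]
          · rw [mem_Icc]; constructor <;> linarith [h.1, h.2]
      have h2 : -hl Φ K y ≤ hl Φ K y := by linarith
      constructor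
      · show (sSup (sec Φ (steiner u K) y) - sInf (sec Φ (steiner u K) y)) / 2 = _
        rw [h1, csSup_Icc h2, csInf_Icc h2]
        ring
      · show (sSup (sec Φ (steiner u K) y) + sInf (sec Φ (steiner u K) y)) / 2 = _
        rw [h1, csSup_Icc h2, csInf_Icc h2]
        ring
    · have hy' : y ∉ proj Φ (steiner u K) := fun h => hy ((hp y).1 h)
      rw [(hl_mid_of_notMem hy).1, (hl_mid_of_notMem hy').1, (hl_mid_of_notMem hy').2]
      exact ⟨rfl, rfl⟩

end RMB
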