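import Pool.Agent.RMB.R8

/-!
# RMB-R9: midpoints are linear

Let `D = interior proj` (open, convex, symmetric, contains 0), `a = hl > 0` and `mu = mid` continuous on
`D`, `mu` odd, `mu 0 = 0`.  From `eq_mid` (for every `t > 0`):
(i) near 0: choose `e > 0` with `ball 0 (2e) ⊆ D` and `|a y - a 0| < a 0/4` on it.  For
`y, y' ∈ ball 0 e`, `t = 1`: `|a y - a y'| < a 0/2 < a(y-y') < 5/4 a 0 < a y + a y'`; so
`mu y - mu y' = mu (y - y')`.  With `mu` odd: `mu` is additive on small vectors and continuous, hence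
there is a linear form `ℓ` with `mu = ℓ` on `ball 0 e` (define `ℓ x = mu (s x)/s` for small `s > 0`;
additive + continuous (bounded) implies homogeneous: e.g. `mu (y/2) = mu y/2`,..., or use
`AddMonoidHom.toRealLinearMap` after extending `ℓ x := 2^k mu (x/2^k)`, `k` large).
(ii) Let `y ∈ D`.  Put `t = min 1 (a y/(2 a 0))`.  For `y'` close to `y`: `(y-y')/t ∈ ball 0 e`,
`t a((y-y')/t) ∈ (3/4 t a 0, 5/4 t a 0)`, `|a y - a y'| < 3/4 t a 0`, and
`5/4 t a 0 ≤ 5/8 a y < a y + a y'`.  So `mu y - mu y' = t ℓ((y-y')/t) = ℓ(y-y')`: the function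
`mu - ℓ` is locally constant on the connected set `D`, so it is 0 (value at 0): `mu = ℓ` on `D`
(`IsPreconnected.constant_of_...` / `IsLocallyConstant`, or derivative along the segment from 0 to `y`).
(iii) There is `w` with `⟨Φ(s,y), w⟩ = s - ℓ(y)` (Riesz representation of the linear form
`x ↦ s - ℓ(y)`, `Φ` a linear equivalence); `⟨u,w⟩ = 1` (`Φ(1,0) = u`), and for `x = Φ(s,y) ∈ K`, `y ∈ D`:
`orefl u w x = x - 2(s-ℓ y)u = Φ(2ℓ y - s, y) ∈ K` (reflection of the section at its midpoint).  The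
points of `K` with `y ∈ D` are dense in `K` and `K` is closed.
-/

set_option autoImplicit false

open MeasureTheory Set Metric Filter Topology
open scoped RealInnerProductSpace ENNReal

namespace RMB

/-- a function that is additive near `0` and continuous at `0` is linear near `0` -/
private theorem r9_lin {V : Type*} [NormedAddCommGroup V] [NormedSpace ℝ V] (mu : V → ℝ) (e : ℝ)
    (he : 0 < e)
    (hadd : ∀ y y', ‖y‖ < e → ‖y'‖ < e → mu (y + y') = mu y + mu y') (hc : ContinuousAt mu 0) :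
    ∃ ℓ : V →L[ℝ] ℝ, ∀ y, ‖y‖ < e → mu y = ℓ y := by
  have h0 : mu 0 = 0 := by
    have := hadd 0 0 (by simpa using he) (by simpa using he)
    rw [add_zero] at this
    linarith
  -- homogeneity for natural numbers
  have hnat : ∀ (j : ℕ) (y : V), ‖(j : ℝ) • y‖ < e → mu ((j : ℝ) • y) = j * mu y := by
    intro j
    induction j with
    | zero => intro y _; simp [h0]
    | succ j ih =>
      intro y hy
      rw [norm_smul, Real.norm_of_nonneg (by positivity)] at hy
      have hj : (0 : ℝ) ≤ j := by positivity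
      push_cast at hy
      have h1 : ‖(j : ℝ) • y‖ < e := by
        rw [norm_smul, Real.norm_of_nonneg hj]
        nlinarith [norm_nonneg y]
      have h2 : ‖y‖ < e := by nlinarith [norm_nonneg y]
      have h3 : (((j + 1 : ℕ) : ℝ)) • y = (j : ℝ) • y + y := by
        push_cast
        rw [add_smul, one_smul]
      rw [h3, hadd _ _ h1 h2, ih y h1]
      push_cast
      ring
  -- the extension
  set N : V → ℕ := fun x => ⌊‖x‖ / e⌋₊ + 1 with hN
  have hNpos : ∀ x, (0 : ℝ) < N x := fun x => by simp only [hN]; positivity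
  have hNlt : ∀ x, ‖x‖ < N x * e := fun x => by
    have := Nat.lt_floor_add_one (‖x‖ / e)
    rw [div_lt_iff₀ he] at this
    simpa [hN] using this
  set L : V → ℝ := fun x => N x * mu ((N x : ℝ)⁻¹ • x) with hL
  have hwell : ∀ (x : V) (k : ℕ), 0 < k → ‖x‖ < k * e → L x = k * mu ((k : ℝ)⁻¹ • x) := by
    intro x k hk hx
    have hk' : (0 : ℝ) < k := by exact_mod_cast hk
    have e1 : (k : ℝ)⁻¹ • x = (N x : ℝ) • (((k : ℝ) * N x)⁻¹ • x) := by
      rw [smul_smul]
      congr 1
      field_simp [hNpos x]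
      have := (hNpos x).ne'
      field_simp
    have e2 : (N x : ℝ)⁻¹ • x = (k : ℝ) • (((k : ℝ) * N x)⁻¹ • x) := by
      rw [smul_smul]
      congr 1
      have := (hNpos x).ne'
      field_simp
    have f1 : ‖(k : ℝ)⁻¹ • x‖ < e := by
      rw [norm_smul, Real.norm_of_nonneg (by positivity), inv_mul_lt_iff₀ hk']
      exact hx
    have f2 : ‖(N x : ℝ)⁻¹ • x‖ < e := by
      rw [norm_smul, Real.norm_of_nonneg (by positivity), inv_mul_lt_iff₀ (hNpos x)]
      exact hNlt x
    have g1 := hnat (N x) (((k : ℝ) * N x)⁻¹ • x) (by rw [← e1]; exact f1)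
    have g2 := hnat k (((k : ℝ) * N x)⁻¹ • x) (by rw [← e2]; exact f2)
    rw [← e1] at g1
    rw [← e2] at g2
    simp only [hL]
    rw [g1, g2]
    ring
  have hsmall : ∀ y, ‖y‖ < e → L y = mu y := by
    intro y hy
    rw [hwell y 1 one_pos (by simpa using hy)]
    simp
  have hLadd : ∀ x y, L (x + y) = L x + L y := by
    intro x y
    obtain ⟨k, hk⟩ := exists_nat_gt (max 1 ((‖x‖ + ‖y‖) / e))
    have hk1 : (1 : ℝ) < k := lt_of_le_of_lt (le_max_left _ _) hk
    have hk2 : (‖x‖ + ‖y‖) / e < k := lt_of_le_of_lt (le_max_right _ _) hk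
    rw [div_lt_iff₀ he] at hk2
    have hk0 : 0 < k := by
      have : (0 : ℝ) < k := by linarith
      exact_mod_cast this
    have hk' : (0 : ℝ) < k := by linarith
    have hx := norm_nonneg x
    have hy := norm_nonneg y
    have hxy := norm_add_le x y
    rw [hwell (x + y) k hk0 (by linarith), hwell x k hk0 (by linarith),
      hwell y k hk0 (by linarith), smul_add, hadd]
    · ring
    · rw [norm_smul, Real.norm_of_nonneg (by positivity), inv_mul_lt_iff₀ hk']
      linarith
    · rw [norm_smul, Real.norm_of_nonneg (by positivity), inv_mul_lt_iff₀ hk']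
      linarith
  let F : V →+ ℝ := AddMonoidHom.mk' L hLadd
  have hF : Continuous F := by
    refine continuous_of_continuousAt_zero F ?_
    have : (F : V → ℝ) =ᶠ[𝓝 0] mu := by
      filter_upwards [ball_mem_nhds (0 : V) he] with y hy
      exact hsmall y (by simpa using hy)
    exact hc.congr this.symm
  exact ⟨F.toRealLinearMap hF, fun y hy => (hsmall y hy).symm⟩

/-- a function that is locally constant on an open convex set is constant -/
private theorem r9_const {V : Type*} [NormedAddCommGroup V] [NormedSpace ℝ V] {D : Set V}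
    (hD : IsOpen D) (hc : Convex ℝ D) (f : V → ℝ)
    (hf : ∀ y ∈ D, ∀ᶠ y' in 𝓝 y, f y' = f y) {x y : V} (hx : x ∈ D) (hy : y ∈ D) : f x = f y := by
  have h1 : ∀ y ∈ D, HasFDerivAt f (0 : V →L[ℝ] ℝ) y := by
    intro y hy
    exact (hasFDerivAt_const (f y) y).congr_of_eventuallyEq (hf y hy)
  exact hD.is_const_of_fderiv_eq_zero (𝕜 := ℝ) hc.isPreconnected
    (fun z hz => (h1 z hz).differentiableAt.differentiableWithinAt)
    (fun z hz => (h1 z hz).fderiv) hx hy

/-- midpoints are linear -/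
private theorem r9_mid {m : ℕ} {Φ : (ℝ × E m) ≃L[ℝ] E (m + 1)} {u : E (m + 1)}
    (hΦ : IsCoord Φ u) {K : Set (E (m + 1))} (hK : SymBody K)
    (hJ : ∀ t : ℝ, 0 < t → J (steiner u K) t = J K t) :
    ∃ ℓ : E m →L[ℝ] ℝ, ∀ y ∈ interior (proj Φ K), mid Φ K y = ℓ y := by
  have hDo : IsOpen (interior (proj Φ K)) := isOpen_interior
  have hD0 : (0 : E m) ∈ interior (proj Φ K) := zero_mem_interior_proj hK
  have hDc : Convex ℝ (interior (proj Φ K)) := (convex_proj hK.convex).interior
  have ha : ContinuousOn (hl Φ K) (interior (proj Φ K)) := continuousOn_hl hK.compact hK.convex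
  have hm : ContinuousOn (mid Φ K) (interior (proj Φ K)) := continuousOn_mid hK.compact hK.convex
  have hpos : ∀ y ∈ interior (proj Φ K), 0 < hl Φ K y := fun y hy => hl_pos hK.toIsBody hy
  have ha0 := hpos 0 hD0
  have hm0 : mid Φ K 0 = 0 := by
    have := mid_neg (Φ := Φ) hK 0
    rw [neg_zero] at this
    linarith
  -- choice of `e`
  obtain ⟨e, he, hball⟩ : ∃ e > 0, ∀ y : E m, ‖y‖ < 2 * e →
      y ∈ interior (proj Φ K) ∧ |hl Φ K y - hl Φ K 0| < hl Φ K 0 / 4 := by
    have h1 : ∀ᶠ y in 𝓝 (0 : E m), y ∈ interior (proj Φ K) := hDo.mem_nhds hD0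
    have h2 : ∀ᶠ y in 𝓝 (0 : E m), |hl Φ K y - hl Φ K 0| < hl Φ K 0 / 4 := by
      have h3 : ContinuousAt (hl Φ K) 0 := ha.continuousAt (hDo.mem_nhds hD0)
      have h4 := Metric.tendsto_nhds.1 h3 (hl Φ K 0 / 4) (by positivity)
      filter_upwards [h4] with y hy
      rwa [Real.dist_eq] at hy
    obtain ⟨r, hr, hr'⟩ := Metric.eventually_nhds_iff.1 (h1.and h2)
    refine ⟨r / 2, by positivity, fun y hy => hr' ?_⟩
    rw [dist_zero_right]
    linarith
  -- the relation near zero
  have hsub : ∀ y y' : E m, ‖y‖ < e → ‖y'‖ < e → mid Φ K y - mid Φ K y' = mid Φ K (y - y') := by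
    intro y y' hy hy'
    have hn : ‖y - y'‖ < 2 * e := by
      have := norm_sub_le y y'
      linarith
    have b1 := hball y (by linarith)
    have b2 := hball y' (by linarith)
    have b3 := hball (y - y') hn
    have c1 := abs_lt.1 b1.2
    have c2 := abs_lt.1 b2.2
    have c3 := abs_lt.1 b3.2
    have h := eq_mid hΦ hK one_pos (hJ 1 one_pos) b1.1 b2.1 (by simpa using b3.1)
      (by
        rw [inv_one, one_smul, one_mul, abs_lt]
        constructor <;> linarith [c1.1, c1.2, c2.1, c2.2, c3.1, c3.2])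
      (by
        rw [inv_one, one_smul, one_mul]
        linarith [c1.1, c1.2, c2.1, c2.2, c3.1, c3.2])
    rw [inv_one, one_smul, one_mul] at h
    exact h
  have hadd : ∀ y y' : E m, ‖y‖ < e → ‖y'‖ < e → mid Φ K (y + y') = mid Φ K y + mid Φ K y' := by
    intro y y' hy hy'
    have h := hsub y (-y') hy (by simpa using hy')
    rw [mid_neg hK, sub_neg_eq_add, sub_neg_eq_add] at h
    exact h.symm
  obtain ⟨ℓ, hℓ⟩ := r9_lin (mid Φ K) e he hadd (hm.continuousAt (hDo.mem_nhds hD0))
  refine ⟨ℓ, ?_⟩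
  -- locally constant
  have hloc : ∀ y ∈ interior (proj Φ K), ∀ᶠ y' in 𝓝 y,
      (fun z => mid Φ K z - ℓ z) y' = (fun z => mid Φ K z - ℓ z) y := by
    intro y hy
    have hay := hpos y hy
    set t : ℝ := min 1 (hl Φ K y / (2 * hl Φ K 0)) with ht
    have ht0 : 0 < t := lt_min one_pos (by positivity)
    have ht2 : t * hl Φ K 0 ≤ hl Φ K y / 2 := by
      have : t ≤ hl Φ K y / (2 * hl Φ K 0) := min_le_right _ _
      rw [le_div_iff₀ (by positivity)] at this
      linarith
    have h1 : ∀ᶠ y' in 𝓝 y, y' ∈ interior (proj Φ K) := hDo.mem_nhds hy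
    have h2 : ∀ᶠ y' in 𝓝 y, ‖t⁻¹ • (y - y')‖ < e := by
      have hcont : ContinuousAt (fun y' : E m => ‖t⁻¹ • (y - y')‖) y := by fun_prop
      have h3 : Tendsto (fun y' : E m => ‖t⁻¹ • (y - y')‖) (𝓝 y) (𝓝 0) := by
        have := hcont.tendsto
        simpa using this
      exact h3.eventually (gt_mem_nhds he)
    have h3 : ∀ᶠ y' in 𝓝 y, |hl Φ K y' - hl Φ K y| < 3 / 4 * t * hl Φ K 0 := by
      have h4 : ContinuousAt (hl Φ K) y := ha.continuousAt (hDo.mem_nhds hy)
      have h5 := Metric.tendsto_nhds.1 h4 (3 / 4 * t * hl Φ K 0) (by positivity)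
      filter_upwards [h5] with y' hy'
      rwa [Real.dist_eq] at hy'
    filter_upwards [h1, h2, h3] with y' hy1 hy2 hy3
    have b := hball (t⁻¹ • (y - y')) (by linarith)
    have c := abs_lt.1 b.2
    have hay' := hpos y' hy1
    have d1 : 3 / 4 * (t * hl Φ K 0) < t * hl Φ K (t⁻¹ • (y - y')) := by
      have : 3 / 4 * hl Φ K 0 < hl Φ K (t⁻¹ • (y - y')) := by linarith [c.1]
      nlinarith
    have d2 : t * hl Φ K (t⁻¹ • (y - y')) < 5 / 4 * (t * hl Φ K 0) := by
      have : hl Φ K (t⁻¹ • (y - y')) < 5 / 4 * hl Φ K 0 := by linarith [c.2]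
      nlinarith
    have h := eq_mid hΦ hK ht0 (hJ t ht0) hy hy1 b.1
      (by
        rw [abs_sub_comm]
        linarith)
      (by linarith)
    have hz : mid Φ K (t⁻¹ • (y - y')) = t⁻¹ * (ℓ y - ℓ y') := by
      rw [hℓ _ hy2, map_smul, map_sub, smul_eq_mul]
    rw [hz, mul_inv_cancel_left₀ ht0.ne'] at h
    linarith
  intro y hy
  have h := r9_const hDo hDc (fun z => mid Φ K z - ℓ z) hloc hy hD0
  simp only [map_zero, hm0, sub_zero] at h
  linarith

theorem orefl_of_J {n : ℕ} {u : E n} (hu : ‖u‖ = 1) {K : Set (E n)} (hK : SymBody K)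
    (hJ : ∀ t : ℝ, 0 < t → J (steiner u K) t = J K t) :
    ∃ w : E n, ⟪u, w⟫ ≠ 0 ∧ ∀ x ∈ K, orefl u w x ∈ K := by
  have hn : n ≠ 0 := by
    rintro rfl
    have h0 : u = 0 := Subsingleton.elim _ _
    rw [h0, norm_zero] at hu
    exact zero_ne_one hu
  obtain ⟨m, rfl⟩ := Nat.exists_eq_succ_of_ne_zero hn
  obtain ⟨Φ, hΦ⟩ := exists_coord m u hu
  obtain ⟨ℓ, hℓ⟩ := r9_mid hΦ hK hJ
  -- the linear form
  let F : E (m + 1) →L[ℝ] ℝ :=
    (ContinuousLinearMap.fst ℝ ℝ (E m) - ℓ.comp (ContinuousLinearMap.snd ℝ ℝ (E m))).comp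
      (Φ.symm : E (m + 1) →L[ℝ] ℝ × E m)
  have hF : ∀ s y, F (Φ (s, y)) = s - ℓ y := by
    intro s y
    simp [F]
  let w : E (m + 1) := (InnerProductSpace.toDual ℝ (E (m + 1))).symm F
  have hw : ∀ x, ⟪x, w⟫ = F x := by
    intro x
    rw [real_inner_comm]
    exact InnerProductSpace.toDual_symm_apply
  have huw : ⟪u, w⟫ = 1 := by
    rw [hw, ← hΦ.dir, hF]
    simp
  refine ⟨w, by rw [huw]; exact one_ne_zero, ?_⟩
  -- interior points
  have hint : ∀ x ∈ interior K, orefl u w x ∈ K := by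
    intro x hx
    obtain ⟨⟨s, y⟩, rfl⟩ : ∃ z : ℝ × E m, Φ z = x := ⟨Φ.symm x, by simp⟩
    have hxK : Φ (s, y) ∈ K := interior_subset hx
    have hy : y ∈ interior (proj Φ K) := by
      have hopen : IsOpen ((fun z : ℝ × E m => z.2) '' (Φ ⁻¹' (interior K))) :=
        isOpenMap_snd _ (isOpen_interior.preimage Φ.continuous)
      refine interior_maximal ?_ hopen ⟨(s, y), hx, rfl⟩
      rintro _ ⟨z, hz, rfl⟩
      have hzK : Φ (z.1, z.2) ∈ K := interior_subset (s := K) hz
      exact ⟨z.1, hzK⟩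
    have hyp : y ∈ proj Φ K := interior_subset hy
    have hsec := sec_eq (Φ := Φ) hK.compact hK.convex hyp
    rw [hℓ y hy] at hsec
    have hs : s ∈ sec Φ K y := hxK
    rw [hsec] at hs
    have hs' : 2 * ℓ y - s ∈ sec Φ K y := by
      rw [hsec]
      constructor
      · have := hs.2
        linarith
      · have := hs.1
        linarith
    have h1 : Φ (2 * ℓ y - s, y) ∈ K := hs'
    have h2 : orefl u w (Φ (s, y)) = Φ (2 * ℓ y - s, y) := by
      unfold orefl
      rw [huw, hw, hF, div_one, ← hΦ.dir, ← map_smul, ← map_sub]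
      congr 1
      ext1
      · simp
        ring
      · simp
    rw [h2]
    exact h1
  have hclosed : IsClosed {x : E (m + 1) | orefl u w x ∈ K} := by
    refine hK.compact.isClosed.preimage ?_
    unfold orefl
    fun_prop
  have hcl : closure (interior K) = closure K :=
    hK.convex.closure_interior_eq_closure_of_nonempty_interior hK.int_nonempty
  intro x hx
  have hx' : x ∈ closure (interior K) := by
    rw [hcl]
    exact subset_closure hx
  exact closure_minimal (fun z hz => hint z hz) hclosed hx'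

end RMB
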