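import Pool.Agent.RMB.R7
import Pool.Agent.RMB.R9

/-!
# RMB-R10: equality in the Riesz inequality implies ellipsoid

PROOF.  By `gauge_eq_J`, `J K t (volume B)² = J B t (volume K)²` for all `t > 0`.  For unit `u`:
`J K t ≤ J (steiner u K) t` (`J_steiner_le`) and `J (steiner u K) t (volume B)² ≤ J B t (volume K)²`
(`riesz_J` for `steiner u K`, `steiner_volume`), so `J (steiner u K) t = J K t` (`volume B` is positive and
finite).  `orefl_of_J` and `ellipsoid_of_orefl`.
-/

set_option autoImplicit false

open MeasureTheory Set Metric Filter Topology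
open scoped RealInnerProductSpace ENNReal

namespace RMB

theorem ellipsoid_of_gauge_eq {n : ℕ} (hn : 1 ≤ n) {K : Set (E n)} (hK : SymBody K) {q : ℝ}
    (hq : 0 < q)
    (h : kap n q * (volume.real K * ∫ x in K, gauge K x ^ q) =
      ∫ x in K, ∫ y in K, gauge K (y - x) ^ q) : IsEllipsoid K := by
  refine ellipsoid_of_orefl hn hK fun u hu => orefl_of_J hu hK fun t ht => ?_
  have hB0 : volume (closedBall (0 : E n) 1) ≠ 0 :=
    (measure_closedBall_pos volume (0 : E n) one_pos).ne'
  have hBt : volume (closedBall (0 : E n) 1) ≠ ⊤ := measure_closedBall_lt_top.ne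
  have h1 := gauge_eq_J hn hK hq h ht
  have h2 := riesz_J hn (steiner_body hu hK) ht
  rw [steiner_volume hu hK, ← h1] at h2
  refine le_antisymm ?_ (J_steiner_le hu hK ht)
  exact (ENNReal.mul_le_mul_iff_left (pow_ne_zero 2 hB0) (ENNReal.pow_ne_top hBt)).1 h2

end RMB
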