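import Pool.Agent.RMB.G1
import Pool.Agent.RMB.G4
import Pool.Agent.RMB.R1

/-!
# RMB-R2: Steiner symmetrization, volume and second moment

PROOF.  `n = m+1` (there is a unit vector), `Φ` from `exists_coord`.
Volume: `volume_body` and `steiner_sec`.
Second moment: `‖Φ(s,y)‖² = s² + ‖y‖²`, so by `integral_body`
`M2 K = ∫_{proj} (2 hl ‖y‖² + ∫_{mid-hl}^{mid+hl} s² ds) = ∫_{proj} (2 hl ‖y‖² + 2hl³/3 + 2 hl mid²)`,
and `M2 (steiner u K)` is the same without the last term.  Equality implies `hl mid² = 0` a.e. on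
`proj`, hence `mid = 0` a.e. and then everywhere on `interior proj` (continuity, `hl > 0` there), so
`x = Φ(s,y) ∈ K`, `y ∈ interior proj` implies `x - 2⟨x,u⟩u = Φ(-s,y) ∈ K`; such `x` are dense in `K`
(they contain the interior; `K` is the closure of its interior) and `K` is closed.
-/

set_option autoImplicit false

open MeasureTheory Set Metric Filter Topology
open scoped RealInnerProductSpace ENNReal

namespace RMB

variable {n : ℕ} {u : E n} {K : Set (E n)}

private theorem r2_succ {n : ℕ} {u : E n} (hu : ‖u‖ = 1) : n ≠ 0 := by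
  rintro rfl
  have h0 : u = 0 := Subsingleton.elim _ _
  rw [h0, norm_zero] at hu
  exact zero_ne_one hu

private theorem r2_norm {m : ℕ} {Φ : (ℝ × E m) ≃L[ℝ] E (m + 1)} {u : E (m + 1)}
    (hΦ : IsCoord Φ u) (s : ℝ) (y : E m) : ‖Φ (s, y)‖ ^ 2 = s ^ 2 + ‖y‖ ^ 2 := by
  have h := hΦ.ip (s, y) (s, y)
  rw [real_inner_self_eq_norm_sq, real_inner_self_eq_norm_sq] at h
  rw [h]
  ring

private theorem r2_inner {m : ℕ} {Φ : (ℝ × E m) ≃L[ℝ] E (m + 1)} {u : E (m + 1)}
    (hΦ : IsCoord Φ u) (s : ℝ) (y : E m) : ⟪Φ (s, y), u⟫ = s := by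
  have h := hΦ.ip (s, y) (1, 0)
  rw [hΦ.dir] at h
  rw [h]
  simp

private theorem r2_int {m : ℕ} {Φ : (ℝ × E m) ≃L[ℝ] E (m + 1)} {u : E (m + 1)}
    (hΦ : IsCoord Φ u) (c h : ℝ) (y : E m) :
    ∫ s in (c - h)..(c + h), ‖Φ (s, y)‖ ^ 2 = 2 * h * ‖y‖ ^ 2 + 2 * h ^ 3 / 3 + 2 * h * c ^ 2 := by
  have h1 : ∀ s : ℝ, ‖Φ (s, y)‖ ^ 2 = s ^ 2 + ‖y‖ ^ 2 := fun s => r2_norm hΦ s y
  simp only [h1]
  rw [intervalIntegral.integral_add
    ((by fun_prop : Continuous (fun s : ℝ => s ^ 2)).intervalIntegrable _ _)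
    ((by fun_prop : Continuous (fun _ : ℝ => ‖y‖ ^ 2)).intervalIntegrable _ _)]
  rw [integral_pow, intervalIntegral.integral_const]
  simp only [smul_eq_mul]
  push_cast
  ring

/-- The second moment in coordinates. -/
private theorem r2_M2 {m : ℕ} {Φ : (ℝ × E m) ≃L[ℝ] E (m + 1)} {u : E (m + 1)}
    (hΦ : IsCoord Φ u) {K : Set (E (m + 1))} (hK : SymBody K) :
    IntegrableOn (fun y => 2 * hl Φ K y * ‖y‖ ^ 2 + 2 * hl Φ K y ^ 3 / 3
      + 2 * hl Φ K y * mid Φ K y ^ 2) (proj Φ K) ∧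
    M2 K = ∫ y in proj Φ K, (2 * hl Φ K y * ‖y‖ ^ 2 + 2 * hl Φ K y ^ 3 / 3
      + 2 * hl Φ K y * mid Φ K y ^ 2) := by
  have hi : IntegrableOn (fun x : E (m + 1) => ‖x‖ ^ 2) K :=
    (by fun_prop : Continuous (fun x : E (m + 1) => ‖x‖ ^ 2)).continuousOn.integrableOn_compact
      hK.compact
  have h := integral_body hΦ hK.compact hK.convex hi
  simp only [r2_int hΦ] at h
  exact h

private theorem r2_diff {m : ℕ} {Φ : (ℝ × E m) ≃L[ℝ] E (m + 1)} {u : E (m + 1)}
    (hu : ‖u‖ = 1) (hΦ : IsCoord Φ u) {K : Set (E (m + 1))} (hK : SymBody K) :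
    IntegrableOn (fun y => 2 * hl Φ K y * mid Φ K y ^ 2) (proj Φ K) ∧
    M2 K = M2 (steiner u K) + ∫ y in proj Φ K, 2 * hl Φ K y * mid Φ K y ^ 2 := by
  have h1 := r2_M2 hΦ hK
  have h2 := r2_M2 hΦ (steiner_body hu hK)
  have hs := steiner_sec hΦ hK
  have hs1 : ∀ y, hl Φ (steiner u K) y = hl Φ K y := fun y => (hs.2 y).1
  have hs2 : ∀ y, mid Φ (steiner u K) y = 0 := fun y => (hs.2 y).2
  rw [hs.1] at h2
  simp only [hs1, hs2] at h2
  have h3 : IntegrableOn (fun y => 2 * hl Φ K y * mid Φ K y ^ 2) (proj Φ K) := by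
    have h4 := h1.1.sub h2.1
    refine h4.congr (Filter.Eventually.of_forall fun y => ?_)
    simp only [Pi.sub_apply]
    ring
  refine ⟨h3, ?_⟩
  rw [h1.2, h2.2, ← integral_add h2.1 h3]
  refine integral_congr_ae (Filter.Eventually.of_forall fun y => ?_)
  simp only
  ring

theorem steiner_volume (hu : ‖u‖ = 1) (hK : SymBody K) : volume (steiner u K) = volume K := by
  obtain ⟨m, rfl⟩ := Nat.exists_eq_succ_of_ne_zero (r2_succ hu)
  obtain ⟨Φ, hΦ⟩ := exists_coord m u hu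
  have hS := steiner_body hu hK
  have hs := steiner_sec hΦ hK
  have hs1 : ∀ y, hl Φ (steiner u K) y = hl Φ K y := fun y => (hs.2 y).1
  rw [volume_body hΦ hS.compact hS.convex, volume_body hΦ hK.compact hK.convex, hs.1]
  simp only [hs1]

theorem steiner_M2_le (hu : ‖u‖ = 1) (hK : SymBody K) : M2 (steiner u K) ≤ M2 K := by
  obtain ⟨m, rfl⟩ := Nat.exists_eq_succ_of_ne_zero (r2_succ hu)
  obtain ⟨Φ, hΦ⟩ := exists_coord m u hu
  have h := r2_diff hu hΦ hK
  have h0 : 0 ≤ ∫ y in proj Φ K, 2 * hl Φ K y * mid Φ K y ^ 2 := by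
    refine integral_nonneg fun y => ?_
    have := hl_nonneg (Φ := Φ) hK.compact y
    positivity
  linarith [h.2]

theorem steiner_M2_eq (hu : ‖u‖ = 1) (hK : SymBody K) (h : M2 (steiner u K) = M2 K) :
    ∀ x ∈ K, x - (2 * ⟪x, u⟫) • u ∈ K := by
  obtain ⟨m, rfl⟩ := Nat.exists_eq_succ_of_ne_zero (r2_succ hu)
  obtain ⟨Φ, hΦ⟩ := exists_coord m u hu
  have hd := r2_diff hu hΦ hK
  have h0 : ∫ y in proj Φ K, 2 * hl Φ K y * mid Φ K y ^ 2 = 0 := by linarith [hd.2]
  have hnn : ∀ y, 0 ≤ 2 * hl Φ K y * mid Φ K y ^ 2 := fun y => by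
    have := hl_nonneg (Φ := Φ) hK.compact y
    positivity
  have hae : (fun y => 2 * hl Φ K y * mid Φ K y ^ 2) =ᵐ[volume.restrict (proj Φ K)] 0 :=
    (integral_eq_zero_iff_of_nonneg hnn hd.1).1 h0
  have hae2 : (fun y => 2 * hl Φ K y * mid Φ K y ^ 2)
      =ᵐ[volume.restrict (interior (proj Φ K))] (fun _ => (0 : ℝ)) :=
    ae_mono (Measure.restrict_mono interior_subset le_rfl) hae
  have hcont : ContinuousOn (fun y => 2 * hl Φ K y * mid Φ K y ^ 2) (interior (proj Φ K)) :=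
    (continuousOn_const.mul (continuousOn_hl hK.compact hK.convex)).mul
      ((continuousOn_mid hK.compact hK.convex).pow 2)
  have heq := Measure.eqOn_open_of_ae_eq hae2 isOpen_interior hcont continuousOn_const
  have hmid : ∀ y ∈ interior (proj Φ K), mid Φ K y = 0 := by
    intro y hy
    have h1 := heq hy
    have h2 := hl_pos hK.toIsBody hy
    have h3 : (2 * hl Φ K y) * mid Φ K y ^ 2 = 0 := h1
    have h4 : (2 * hl Φ K y) ≠ 0 := by positivity
    rcases mul_eq_zero.1 h3 with h5 | h5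
    · exact absurd h5 h4
    · exact pow_eq_zero_iff (two_ne_zero) |>.1 h5
  -- interior points
  have hint : ∀ x ∈ interior K, x - (2 * ⟪x, u⟫) • u ∈ K := by
    intro x hx
    obtain ⟨⟨s, y⟩, rfl⟩ : ∃ z : ℝ × E m, Φ z = x := ⟨Φ.symm x, by simp⟩
    have hxK : Φ (s, y) ∈ K := interior_subset hx
    have hy : y ∈ interior (proj Φ K) := by
      have hopen : IsOpen ((fun z : ℝ × E m => z.2) '' (Φ ⁻¹' (interior K))) :=
        isOpenMap_snd _ (isOpen_interior.preimage Φ.continuous)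
      refine interior_maximal ?_ hopen ⟨(s, y), hx, rfl⟩
      rintro _ ⟨z, hz, rfl⟩
      have hzK : Φ (z.1, z.2) ∈ K := interior_subset (s := K) hz
      exact ⟨z.1, hzK⟩
    have hyp : y ∈ proj Φ K := interior_subset hy
    have hsec := sec_eq (Φ := Φ) hK.compact hK.convex hyp
    rw [hmid y hy] at hsec
    have hs : s ∈ sec Φ K y := hxK
    rw [hsec] at hs
    have hs' : -s ∈ sec Φ K y := by
      rw [hsec]
      constructor
      · have := hs.2
        linarith
      · have := hs.1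
        linarith
    have h1 : Φ (-s, y) ∈ K := hs'
    rw [r2_inner hΦ]
    have h2 : Φ (-s, y) = Φ (s, y) - (2 * s) • u := by
      rw [← hΦ.dir, ← map_smul, ← map_sub]
      congr 1
      ext1
      · simp
        ring
      · simp
    rw [← h2]
    exact h1
  have hclosed : IsClosed {x : E (m + 1) | x - (2 * ⟪x, u⟫) • u ∈ K} :=
    hK.compact.isClosed.preimage (by fun_prop)
  have hcl : closure (interior K) = closure K :=
    hK.convex.closure_interior_eq_closure_of_nonempty_interior hK.int_nonempty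
  intro x hx
  have hx' : x ∈ closure (interior K) := by
    rw [hcl]
    exact subset_closure hx
  exact closure_minimal (fun z hz => hint z hz) hclosed hx'

end RMB
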