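import Pool.Agent.RMB.Defs

/-!
# RMB-R3: three intervals (the one dimensional Riesz inequality)

`V3 a₁ a₂ a₃ d` = area of `{|s| ≤ a₁, |s'| ≤ a₂, |s - s' + d| ≤ a₃}`.

PROOF.  Substituting `v = s - s'` (shear, measure preserving), `V3 = ∫_{-a₃-d}^{a₃-d} c(v) dv` where
`c(v)` = length of `{s : |s| ≤ a₁, |s - v| ≤ a₂}` is
`c(v) = max 0 (min (2 min(a₁,a₂)) (a₁ + a₂ - |v|))`: even and nonincreasing in `|v|`.
Hence `d ↦ ∫_{-a₃-d}^{a₃-d} c` is even with derivative `-(c(a₃-d) - c(-a₃-d)) = c(a₃+d) - c(a₃-d) ≤ 0` for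
`d ≥ 0` (`|a₃+d| ≥ |a₃-d|`).  (Or: `∫_{-a₃}^{a₃} c - ∫_{-a₃-d}^{a₃-d} c = ∫_{a₃-d}^{a₃} c - ∫_{-a₃-d}^{-a₃} c =
∫_0^d (c(a₃-r) - c(a₃+r)) dr ≥ 0`.)
Strictness: if `|a₁-a₂| < a₃ < a₁+a₂` and `d > 0`, then for small `r > 0`, `c(a₃-r) > c(a₃+r)` since `c` is
strictly decreasing on `[|a₁-a₂|, a₁+a₂]`; by continuity the integral is positive.
The case `d < 0` by symmetry `(s,s') → (-s,-s')`.  Finiteness: `V3 ≤ (2a₁)(2a₂)`.
-/

set_option autoImplicit false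

open MeasureTheory Set Metric Filter Topology
open scoped RealInnerProductSpace ENNReal

namespace RMB

/-- the length of `{s : |v + s| ≤ a₁, |s| ≤ a₂}` -/
private noncomputable def r3c (a₁ a₂ v : ℝ) : ℝ :=
  max 0 (min (min (2 * a₁) (2 * a₂)) (a₁ + a₂ - |v|))

private lemma r3c_aux (a₁ a₂ v : ℝ) :
    min (a₁ - v) a₂ - max (-a₁ - v) (-a₂) = min (min (2 * a₁) (2 * a₂)) (a₁ + a₂ - |v|) := by
  simp only [min_def, max_def, abs_eq_max_neg]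
  split_ifs <;> linarith

private lemma r3c_len (a₁ a₂ v : ℝ) :
    (volume : Measure ℝ) {s : ℝ | |v + s| ≤ a₁ ∧ |s| ≤ a₂} = ENNReal.ofReal (r3c a₁ a₂ v) := by
  have h1 : {s : ℝ | |v + s| ≤ a₁ ∧ |s| ≤ a₂} = Icc (max (-a₁ - v) (-a₂)) (min (a₁ - v) a₂) := by
    ext s
    rw [mem_setOf_eq, mem_Icc, abs_le, abs_le, max_le_iff, le_min_iff]
    constructor
    · rintro ⟨⟨h1, h2⟩, h3, h4⟩
      exact ⟨⟨by linarith, h3⟩, by linarith, h4⟩
    · rintro ⟨⟨h1, h2⟩, h3, h4⟩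
      exact ⟨⟨by linarith, by linarith⟩, h2, h4⟩
  rw [h1, Real.volume_Icc, r3c_aux, r3c]
  rcases le_total 0 (min (min (2 * a₁) (2 * a₂)) (a₁ + a₂ - |v|)) with h | h
  · rw [max_eq_right h]
  · rw [max_eq_left h, ENNReal.ofReal_of_nonpos h, ENNReal.ofReal_zero]

private lemma r3c_cont (a₁ a₂ : ℝ) : Continuous (r3c a₁ a₂) := by
  unfold r3c
  fun_prop

private lemma r3c_nonneg (a₁ a₂ v : ℝ) : 0 ≤ r3c a₁ a₂ v := le_max_left _ _

private lemma r3c_neg (a₁ a₂ v : ℝ) : r3c a₁ a₂ (-v) = r3c a₁ a₂ v := by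
  unfold r3c
  rw [abs_neg]

private lemma r3c_anti {a₁ a₂ v w : ℝ} (h : |v| ≤ |w|) : r3c a₁ a₂ w ≤ r3c a₁ a₂ v := by
  unfold r3c
  apply max_le_max le_rfl
  apply min_le_min le_rfl
  linarith

/-- `V3` as a one dimensional integral -/
private lemma r3_formula {a₁ a₂ a₃ : ℝ} (h₃ : 0 ≤ a₃) (d : ℝ) :
    V3 a₁ a₂ a₃ d = ENNReal.ofReal (∫ v in (-a₃ - d)..(a₃ - d), r3c a₁ a₂ v) := by
  have hmeas : MeasurableSet {z : ℝ × ℝ | |z.1| ≤ a₁ ∧ |z.2| ≤ a₂ ∧ |z.1 - z.2 + d| ≤ a₃} := by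
    apply IsClosed.measurableSet
    have e1 : IsClosed {z : ℝ × ℝ | |z.1| ≤ a₁} := isClosed_le (by fun_prop) continuous_const
    have e2 : IsClosed {z : ℝ × ℝ | |z.2| ≤ a₂} := isClosed_le (by fun_prop) continuous_const
    have e3 : IsClosed {z : ℝ × ℝ | |z.1 - z.2 + d| ≤ a₃} :=
      isClosed_le (by fun_prop) continuous_const
    exact e1.inter (e2.inter e3)
  have hmp := measurePreserving_add_prod (volume : Measure ℝ) (volume : Measure ℝ)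
  have h1 : V3 a₁ a₂ a₃ d = (volume : Measure (ℝ × ℝ))
      ((fun z : ℝ × ℝ => (z.1 + z.2, z.2)) ⁻¹'
        {z : ℝ × ℝ | |z.1| ≤ a₁ ∧ |z.2| ≤ a₂ ∧ |z.1 - z.2 + d| ≤ a₃}) := by
    unfold V3
    rw [Measure.volume_eq_prod]
    exact (hmp.measure_preimage hmeas.nullMeasurableSet).symm
  rw [h1, Measure.volume_eq_prod, Measure.prod_apply (hmp.measurable hmeas)]
  have h2 : ∀ v : ℝ, (volume : Measure ℝ) (Prod.mk v ⁻¹' ((fun z : ℝ × ℝ => (z.1 + z.2, z.2)) ⁻¹'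
      {z : ℝ × ℝ | |z.1| ≤ a₁ ∧ |z.2| ≤ a₂ ∧ |z.1 - z.2 + d| ≤ a₃})) =
      (Icc (-a₃ - d) (a₃ - d)).indicator (fun v => ENNReal.ofReal (r3c a₁ a₂ v)) v := by
    intro v
    by_cases hv : v ∈ Icc (-a₃ - d) (a₃ - d)
    · rw [indicator_of_mem hv, ← r3c_len]
      apply congrArg
      ext s
      simp only [mem_preimage, mem_setOf_eq]
      constructor
      · rintro ⟨e1, e2, _⟩
        exact ⟨e1, e2⟩
      · rintro ⟨e1, e2⟩
        refine ⟨e1, e2, ?_⟩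
        rw [mem_Icc] at hv
        rw [abs_le]
        constructor
        · linarith [hv.1]
        · linarith [hv.2]
    · rw [indicator_of_notMem hv]
      have h3 : (Prod.mk v ⁻¹' ((fun z : ℝ × ℝ => (z.1 + z.2, z.2)) ⁻¹'
          {z : ℝ × ℝ | |z.1| ≤ a₁ ∧ |z.2| ≤ a₂ ∧ |z.1 - z.2 + d| ≤ a₃})) = (∅ : Set ℝ) := by
        rw [eq_empty_iff_forall_notMem]
        intro s hs
        simp only [mem_preimage, mem_setOf_eq] at hs
        apply hv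
        obtain ⟨_, _, e3⟩ := hs
        rw [abs_le] at e3
        rw [mem_Icc]
        constructor
        · linarith [e3.1]
        · linarith [e3.2]
      rw [h3, measure_empty]
  have h4 : ∫⁻ v : ℝ, (volume : Measure ℝ) (Prod.mk v ⁻¹' ((fun z : ℝ × ℝ => (z.1 + z.2, z.2)) ⁻¹'
      {z : ℝ × ℝ | |z.1| ≤ a₁ ∧ |z.2| ≤ a₂ ∧ |z.1 - z.2 + d| ≤ a₃})) =
      ∫⁻ v in Icc (-a₃ - d) (a₃ - d), ENNReal.ofReal (r3c a₁ a₂ v) := by
    rw [← lintegral_indicator measurableSet_Icc]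
    exact lintegral_congr h2
  rw [h4, intervalIntegral.integral_of_le (by linarith), ← integral_Icc_eq_integral_Ioc,
    ofReal_integral_eq_lintegral_ofReal]
  · exact ((r3c_cont a₁ a₂).continuousOn).integrableOn_compact isCompact_Icc
  · exact Eventually.of_forall (fun v => r3c_nonneg a₁ a₂ v)

/-- the difference of the integrals -/
private lemma r3_diff {a₁ a₂ a₃ : ℝ} (d : ℝ) :
    (∫ v in (-a₃ - 0)..(a₃ - 0), r3c a₁ a₂ v) - ∫ v in (-a₃ - d)..(a₃ - d), r3c a₁ a₂ v =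
      ∫ r in (0 : ℝ)..d, (r3c a₁ a₂ (a₃ - r) - r3c a₁ a₂ (a₃ + r)) := by
  have hi : ∀ a b : ℝ, IntervalIntegrable (r3c a₁ a₂) volume a b :=
    fun a b => (r3c_cont a₁ a₂).intervalIntegrable a b
  have h1 : ∫ r in (0 : ℝ)..d, r3c a₁ a₂ (a₃ - r) = ∫ v in (a₃ - d)..(a₃ - 0), r3c a₁ a₂ v :=
    intervalIntegral.integral_comp_sub_left (fun v => r3c a₁ a₂ v) a₃
  have h2 : ∫ r in (0 : ℝ)..d, r3c a₁ a₂ (a₃ + r) = ∫ v in (-a₃ - d)..(-a₃ - 0), r3c a₁ a₂ v := by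
    have h3 : ∫ r in (0 : ℝ)..d, r3c a₁ a₂ (-a₃ - r) =
        ∫ v in (-a₃ - d)..(-a₃ - 0), r3c a₁ a₂ v :=
      intervalIntegral.integral_comp_sub_left (fun v => r3c a₁ a₂ v) (-a₃)
    rw [← h3]
    apply intervalIntegral.integral_congr
    intro r _
    show r3c a₁ a₂ (a₃ + r) = r3c a₁ a₂ (-a₃ - r)
    rw [← r3c_neg]
    congr 1
    ring
  have hc1 : IntervalIntegrable (fun r => r3c a₁ a₂ (a₃ - r)) volume 0 d :=
    ((r3c_cont a₁ a₂).comp (continuous_const.sub continuous_id)).intervalIntegrable 0 d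
  have hc2 : IntervalIntegrable (fun r => r3c a₁ a₂ (a₃ + r)) volume 0 d :=
    ((r3c_cont a₁ a₂).comp (continuous_const.add continuous_id)).intervalIntegrable 0 d
  rw [intervalIntegral.integral_sub hc1 hc2, h1, h2]
  have e1 := intervalIntegral.integral_add_adjacent_intervals (hi (-a₃ - d) (-a₃ - 0))
    (hi (-a₃ - 0) (a₃ - 0))
  have e2 := intervalIntegral.integral_add_adjacent_intervals (hi (-a₃ - d) (a₃ - d))
    (hi (a₃ - d) (a₃ - 0))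
  linarith

private lemma r3_even {a₁ a₂ a₃ : ℝ} (h₃ : 0 ≤ a₃) (d : ℝ) :
    V3 a₁ a₂ a₃ (-d) = V3 a₁ a₂ a₃ d := by
  rw [r3_formula h₃, r3_formula h₃]
  congr 1
  have h1 : ∫ v in (-a₃ - d)..(a₃ - d), r3c a₁ a₂ (-v) =
      ∫ v in (-(a₃ - d))..(-(-a₃ - d)), r3c a₁ a₂ v :=
    intervalIntegral.integral_comp_neg (fun v => r3c a₁ a₂ v)
  have h2 : ∫ v in (-a₃ - d)..(a₃ - d), r3c a₁ a₂ (-v) =
      ∫ v in (-a₃ - d)..(a₃ - d), r3c a₁ a₂ v := by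
    apply intervalIntegral.integral_congr
    intro r _
    exact r3c_neg a₁ a₂ r
  rw [← h2, h1]
  have e1 : -(a₃ - d) = -a₃ - -d := by ring
  have e2 : -(-a₃ - d) = a₃ - -d := by ring
  rw [e1, e2]

private lemma r3_nonneg {a₁ a₂ a₃ d r : ℝ} (h₃ : 0 ≤ a₃) (hr : r ∈ Icc 0 d) :
    0 ≤ r3c a₁ a₂ (a₃ - r) - r3c a₁ a₂ (a₃ + r) := by
  rw [sub_nonneg]
  apply r3c_anti
  rw [mem_Icc] at hr
  rw [abs_of_nonneg (by linarith [hr.1] : 0 ≤ a₃ + r), abs_le]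
  constructor
  · linarith [hr.1]
  · linarith [hr.1]

theorem V3_lt_top (a₁ a₂ a₃ d : ℝ) : V3 a₁ a₂ a₃ d < ⊤ := by
  have h1 : {z : ℝ × ℝ | |z.1| ≤ a₁ ∧ |z.2| ≤ a₂ ∧ |z.1 - z.2 + d| ≤ a₃} ⊆
      Icc (-a₁) a₁ ×ˢ Icc (-a₂) a₂ := by
    rintro z ⟨e1, e2, _⟩
    rw [abs_le] at e1 e2
    exact ⟨⟨e1.1, e1.2⟩, e2.1, e2.2⟩
  unfold V3
  exact (measure_mono h1).trans_lt (isCompact_Icc.prod isCompact_Icc).measure_lt_top

theorem V3_le {a₁ a₂ a₃ : ℝ} (h₁ : 0 ≤ a₁) (h₂ : 0 ≤ a₂) (h₃ : 0 ≤ a₃) (d : ℝ) :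
    V3 a₁ a₂ a₃ d ≤ V3 a₁ a₂ a₃ 0 := by
  have key : ∀ d : ℝ, 0 ≤ d → V3 a₁ a₂ a₃ d ≤ V3 a₁ a₂ a₃ 0 := by
    intro d hd
    rw [r3_formula h₃, r3_formula h₃]
    apply ENNReal.ofReal_le_ofReal
    rw [← sub_nonneg, r3_diff]
    exact intervalIntegral.integral_nonneg hd (fun r hr => r3_nonneg h₃ hr)
  rcases le_total 0 d with h | h
  · exact key d h
  · have h2 := key (-d) (by linarith)
    rwa [r3_even h₃] at h2

theorem V3_lt {a₁ a₂ a₃ d : ℝ} (h₁ : 0 ≤ a₁) (h₂ : 0 ≤ a₂) (h₃ : 0 ≤ a₃) (hd : d ≠ 0)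
    (h : |a₁ - a₂| < a₃) (h' : a₃ < a₁ + a₂) : V3 a₁ a₂ a₃ d < V3 a₁ a₂ a₃ 0 := by
  have key : ∀ d : ℝ, 0 < d → V3 a₁ a₂ a₃ d < V3 a₁ a₂ a₃ 0 := by
    intro d hd
    have hpos : 0 < ∫ r in (0 : ℝ)..d, (r3c a₁ a₂ (a₃ - r) - r3c a₁ a₂ (a₃ + r)) := by
      apply intervalIntegral.integral_pos hd
      · apply Continuous.continuousOn
        exact ((r3c_cont a₁ a₂).comp (continuous_const.sub continuous_id)).sub
          ((r3c_cont a₁ a₂).comp (continuous_const.add continuous_id))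
      · intro r hr
        exact r3_nonneg (d := d) h₃ ⟨hr.1.le, hr.2⟩
      · -- the point
        have habs := abs_lt.mp h
        obtain ⟨c, hc0, hcd, hc1, hc2⟩ : ∃ c : ℝ, 0 < c ∧ c ≤ d ∧ c ≤ a₃ - |a₁ - a₂| ∧
            c ≤ a₁ + a₂ - a₃ := by
          refine ⟨min d (min (a₃ - |a₁ - a₂|) (a₁ + a₂ - a₃)), ?_, min_le_left _ _, ?_, ?_⟩
          · exact lt_min hd (lt_min (by linarith) (by linarith))
          · exact (min_le_right _ _).trans (min_le_left _ _)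
          · exact (min_le_right _ _).trans (min_le_right _ _)
        refine ⟨c, ⟨hc0.le, hcd⟩, ?_⟩
        have hA : 0 ≤ |a₁ - a₂| := abs_nonneg _
        have hB1 : a₁ - a₂ ≤ |a₁ - a₂| := le_abs_self _
        have hB2 : -(a₁ - a₂) ≤ |a₁ - a₂| := neg_le_abs _
        have e1 : a₁ + a₂ - a₃ + c ≤ r3c a₁ a₂ (a₃ - c) := by
          unfold r3c
          refine le_trans ?_ (le_max_right _ _)
          rw [abs_of_nonneg (by linarith : 0 ≤ a₃ - c)]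
          refine le_min (le_min ?_ ?_) ?_
          · linarith
          · linarith
          · linarith
        have e2 : r3c a₁ a₂ (a₃ + c) ≤ a₁ + a₂ - a₃ - c := by
          unfold r3c
          rw [abs_of_nonneg (by linarith : 0 ≤ a₃ + c)]
          apply max_le
          · linarith
          · exact (min_le_right _ _).trans (by linarith)
        linarith
    rw [← r3_diff] at hpos
    have hnn : 0 ≤ ∫ v in (-a₃ - d)..(a₃ - d), r3c a₁ a₂ v :=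
      intervalIntegral.integral_nonneg (by linarith) (fun v _ => r3c_nonneg a₁ a₂ v)
    rw [r3_formula h₃, r3_formula h₃, ENNReal.ofReal_lt_ofReal_iff (by linarith)]
    linarith
  rcases lt_or_gt_of_ne hd with hd' | hd'
  · have h2 := key (-d) (by linarith)
    rwa [r3_even h₃] at h2
  · exact key d hd'

/-- joint measurability -/
theorem measurable_V3 :
    Measurable (fun z : ℝ × ℝ × ℝ × ℝ => V3 z.1 z.2.1 z.2.2.1 z.2.2.2) := by
  have hmeas : MeasurableSet {y : (ℝ × ℝ × ℝ × ℝ) × (ℝ × ℝ) |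
      |y.2.1| ≤ y.1.1 ∧ |y.2.2| ≤ y.1.2.1 ∧ |y.2.1 - y.2.2 + y.1.2.2.2| ≤ y.1.2.2.1} := by
    apply IsClosed.measurableSet
    have e1 : IsClosed {y : (ℝ × ℝ × ℝ × ℝ) × (ℝ × ℝ) | |y.2.1| ≤ y.1.1} :=
      isClosed_le (by fun_prop) (by fun_prop)
    have e2 : IsClosed {y : (ℝ × ℝ × ℝ × ℝ) × (ℝ × ℝ) | |y.2.2| ≤ y.1.2.1} :=
      isClosed_le (by fun_prop) (by fun_prop)
    have e3 : IsClosed {y : (ℝ × ℝ × ℝ × ℝ) × (ℝ × ℝ) |
        |y.2.1 - y.2.2 + y.1.2.2.2| ≤ y.1.2.2.1} :=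
      isClosed_le (by fun_prop) (by fun_prop)
    exact e1.inter (e2.inter e3)
  exact measurable_measure_prodMk_left (ν := (volume : Measure (ℝ × ℝ))) hmeas

end RMB
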