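import Pool.Agent.RMB.G1
import Pool.Agent.RMB.G4
import Pool.Agent.RMB.R1
import Pool.Agent.RMB.R3

/-!
# RMB-R4: `J K t` increases under Steiner symmetrization

`J_eq`: pull back `J K t = vol {(x,x') ∈ K × K : x - x' ∈ t K}` by `Φ × Φ` and rearrange
`(s,y,s',y') → (y,y',s,s')`: for fixed `y,y' ∈ proj` the conditions are `s ∈ sec y`, `s' ∈ sec y'`,
`(s-s')/t ∈ sec ((y-y')/t)` (linearity of `Φ`), i.e. with `sec_eq` and the substitution
`s = mid y + σ`, `s' = mid y' + σ'` (translation): `|σ| ≤ hl y`, `|σ'| ≤ hl y'`,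
`|σ - σ' + δ| ≤ t hl((y-y')/t)`, `δ = mid y - mid y' - t mid((y-y')/t)`.  If `(y-y')/t ∉ proj` the set
is empty.  Tonelli.

`J_steiner_le`: `J_eq` for `K` and for `steiner u K` (same `proj`, same `hl`, `mid = 0`) and `V3_le`.
`J_lt_top`: `J K t ≤ (volume K)²`.
-/

set_option autoImplicit false

open MeasureTheory Set Metric Filter Topology
open scoped RealInnerProductSpace ENNReal

namespace RMB

theorem J_le_sq {n : ℕ} (K : Set (E n)) (t : ℝ) : J K t ≤ volume K ^ 2 := by
  unfold J
  calc (volume.prod volume) {z : E n × E n | z.1 ∈ K ∧ z.2 ∈ K ∧ ∃ k ∈ K, z.1 - z.2 = t • k}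
      ≤ (volume.prod volume) (K ×ˢ K) := by
        apply measure_mono
        rintro ⟨a, b⟩ ⟨h1, h2, _⟩
        exact ⟨h1, h2⟩
    _ = volume K ^ 2 := by rw [Measure.prod_prod, sq]

private theorem R4_mem {m : ℕ} {Φ : (ℝ × E m) ≃L[ℝ] E (m + 1)} (K : Set (E (m + 1)))
    (t s s' : ℝ) (y y' : E m) :
    t⁻¹ • (Φ (s, y) - Φ (s', y')) ∈ K ↔ t⁻¹ * (s - s') ∈ sec Φ K (t⁻¹ • (y - y')) := by
  have h : t⁻¹ • (Φ (s, y) - Φ (s', y')) = Φ (t⁻¹ * (s - s'), t⁻¹ • (y - y')) := by
    rw [← map_sub, ← map_smul]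
    rfl
  rw [h]
  rfl

private theorem R4_fiber {m : ℕ} {Φ : (ℝ × E m) ≃L[ℝ] E (m + 1)}
    {K : Set (E (m + 1))} (hK : SymBody K) {t : ℝ} (ht : 0 < t) (y y' : E m) :
    ∫⁻ s in Icc (mid Φ K y - hl Φ K y) (mid Φ K y + hl Φ K y),
      ∫⁻ s' in Icc (mid Φ K y' - hl Φ K y') (mid Φ K y' + hl Φ K y'),
        K.indicator (fun _ => (1 : ℝ≥0∞)) (t⁻¹ • (Φ (s, y) - Φ (s', y'))) =
      (proj Φ K).indicator (fun z => V3 (hl Φ K y) (hl Φ K y') (t * hl Φ K z)
        (mid Φ K y - mid Φ K y' - t * mid Φ K z)) (t⁻¹ • (y - y')) := by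
  by_cases hz : t⁻¹ • (y - y') ∈ proj Φ K
  · rw [indicator_of_mem hz]
    set z := t⁻¹ • (y - y') with hzdef
    have hsec := sec_eq hK.compact hK.convex hz
    have hmem : ∀ s s' : ℝ, t⁻¹ • (Φ (s, y) - Φ (s', y')) ∈ K ↔
        |s - s' - t * mid Φ K z| ≤ t * hl Φ K z := by
      intro s s'
      rw [R4_mem, ← hzdef, hsec, mem_Icc, abs_le]
      have e : s - s' = t * (t⁻¹ * (s - s')) := by field_simp
      constructor
      · rintro ⟨h1, h2⟩
        constructor
        · rw [e]; nlinarith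
        · rw [e]; nlinarith
      · rintro ⟨h1, h2⟩
        rw [e] at h1 h2
        constructor
        · by_contra hcon
          push Not at hcon
          nlinarith
        · by_contra hcon
          push Not at hcon
          nlinarith
    set A : Set (ℝ × ℝ) := {p | |p.1 - mid Φ K y| ≤ hl Φ K y ∧ |p.2 - mid Φ K y'| ≤ hl Φ K y' ∧
      |p.1 - p.2 - t * mid Φ K z| ≤ t * hl Φ K z} with hA
    have hA1 : IsClosed {p : ℝ × ℝ | |p.1 - mid Φ K y| ≤ hl Φ K y} :=
      isClosed_le (by fun_prop) (by fun_prop)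
    have hA2 : IsClosed {p : ℝ × ℝ | |p.2 - mid Φ K y'| ≤ hl Φ K y'} :=
      isClosed_le (by fun_prop) (by fun_prop)
    have hA3 : IsClosed {p : ℝ × ℝ | |p.1 - p.2 - t * mid Φ K z| ≤ t * hl Φ K z} :=
      isClosed_le (by fun_prop) (by fun_prop)
    have hAc : IsClosed A := hA1.inter (hA2.inter hA3)
    have hAm : MeasurableSet A := hAc.measurableSet
    have hV : V3 (hl Φ K y) (hl Φ K y') (t * hl Φ K z)
        (mid Φ K y - mid Φ K y' - t * mid Φ K z) = (volume : Measure (ℝ × ℝ)) A := by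
      unfold V3
      have h1 : A = (fun p : ℝ × ℝ => p + (-mid Φ K y, -mid Φ K y')) ⁻¹'
          {z_1 : ℝ × ℝ | |z_1.1| ≤ hl Φ K y ∧ |z_1.2| ≤ hl Φ K y' ∧
            |z_1.1 - z_1.2 + (mid Φ K y - mid Φ K y' - t * mid Φ K z)| ≤ t * hl Φ K z} := by
        ext p
        simp only [hA, mem_ofPred_eq, mem_preimage, Prod.fst_add, Prod.snd_add]
        have e1 : p.1 + -mid Φ K y = p.1 - mid Φ K y := by ring
        have e2 : p.2 + -mid Φ K y' = p.2 - mid Φ K y' := by ring
        have e3 : p.1 - mid Φ K y - (p.2 - mid Φ K y') +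
            (mid Φ K y - mid Φ K y' - t * mid Φ K z) = p.1 - p.2 - t * mid Φ K z := by ring
        rw [e1, e2, e3]
      rw [h1, measure_preimage_add_right]
    rw [hV, Measure.volume_eq_prod, Measure.prod_apply hAm,
      ← lintegral_indicator measurableSet_Icc]
    apply lintegral_congr
    intro s
    have hin : ∀ s' : ℝ, K.indicator (fun _ => (1 : ℝ≥0∞)) (t⁻¹ • (Φ (s, y) - Φ (s', y'))) =
        ({s' : ℝ | |s - s' - t * mid Φ K z| ≤ t * hl Φ K z}).indicator 1 s' := by
      intro s'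
      by_cases h : |s - s' - t * mid Φ K z| ≤ t * hl Φ K z
      · rw [indicator_of_mem ((hmem s s').2 h), indicator_of_mem (by exact h)]
        rfl
      · rw [indicator_of_notMem (fun h' => h ((hmem s s').1 h')),
          indicator_of_notMem (by exact h)]
    have hBm : MeasurableSet {s' : ℝ | |s - s' - t * mid Φ K z| ≤ t * hl Φ K z} :=
      (isClosed_le (by fun_prop) (by fun_prop)).measurableSet
    by_cases hs : s ∈ Icc (mid Φ K y - hl Φ K y) (mid Φ K y + hl Φ K y)
    · rw [indicator_of_mem hs]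
      simp_rw [hin]
      rw [lintegral_indicator_one hBm, Measure.restrict_apply hBm]
      congr 1
      ext s'
      simp only [mem_inter_iff, mem_ofPred_eq, mem_Icc, mem_preimage, hA, abs_le]
      rw [mem_Icc] at hs
      constructor
      · rintro ⟨⟨h1, h2⟩, h3, h4⟩
        exact ⟨⟨by linarith [hs.1], by linarith [hs.2]⟩, ⟨by linarith, by linarith⟩, h1, h2⟩
      · rintro ⟨_, ⟨h3, h4⟩, h1, h2⟩
        exact ⟨⟨h1, h2⟩, by linarith, by linarith⟩
    · rw [indicator_of_notMem hs]
      have : Prod.mk s ⁻¹' A = ∅ := by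
        ext s'
        simp only [mem_preimage, hA, mem_ofPred_eq, mem_empty_iff_false, iff_false]
        rintro ⟨h1, _⟩
        apply hs
        rw [abs_le] at h1
        exact ⟨by linarith [h1.1], by linarith [h1.2]⟩
      rw [this, measure_empty]
  · rw [indicator_of_notMem hz]
    have h0 : ∀ s s' : ℝ,
        K.indicator (fun _ => (1 : ℝ≥0∞)) (t⁻¹ • (Φ (s, y) - Φ (s', y'))) = 0 := by
      intro s s'
      apply indicator_of_notMem
      intro h
      rw [R4_mem] at h
      exact hz ⟨_, h⟩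
    simp_rw [h0]
    simp

theorem J_eq {m : ℕ} {Φ : (ℝ × E m) ≃L[ℝ] E (m + 1)} {u : E (m + 1)} (hΦ : IsCoord Φ u)
    {K : Set (E (m + 1))} (hK : SymBody K) {t : ℝ} (ht : 0 < t) :
    J K t = ∫⁻ y in proj Φ K, ∫⁻ y' in proj Φ K,
      (proj Φ K).indicator (fun z => V3 (hl Φ K y) (hl Φ K y') (t * hl Φ K z)
        (mid Φ K y - mid Φ K y' - t * mid Φ K z)) (t⁻¹ • (y - y')) := by
  have hKm : MeasurableSet K := hK.compact.measurableSet
  set f : E (m + 1) × E (m + 1) → ℝ≥0∞ :=
    fun p => K.indicator (fun _ => (1 : ℝ≥0∞)) (t⁻¹ • (p.1 - p.2)) with hf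
  have hfm : Measurable f := by
    apply (measurable_const.indicator hKm).comp
    fun_prop
  have hset : {z : E (m + 1) × E (m + 1) | z.1 ∈ K ∧ z.2 ∈ K ∧ ∃ k ∈ K, z.1 - z.2 = t • k} =
      {z : E (m + 1) × E (m + 1) | z.1 ∈ K ∧ z.2 ∈ K ∧ t⁻¹ • (z.1 - z.2) ∈ K} := by
    ext z
    simp only [mem_ofPred_eq]
    constructor
    · rintro ⟨h1, h2, k, hk, h3⟩
      refine ⟨h1, h2, ?_⟩
      rw [h3, smul_smul, inv_mul_cancel₀ ht.ne', one_smul]
      exact hk
    · rintro ⟨h1, h2, h3⟩
      refine ⟨h1, h2, _, h3, ?_⟩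
      rw [smul_smul, mul_inv_cancel₀ ht.ne', one_smul]
  have hSm : MeasurableSet
      {z : E (m + 1) × E (m + 1) | z.1 ∈ K ∧ z.2 ∈ K ∧ t⁻¹ • (z.1 - z.2) ∈ K} := by
    apply MeasurableSet.inter
    · exact measurable_fst hKm
    · apply MeasurableSet.inter
      · exact measurable_snd hKm
      · have : Measurable (fun z : E (m + 1) × E (m + 1) => t⁻¹ • (z.1 - z.2)) := by fun_prop
        exact this hKm
  have h1 : J K t = ∫⁻ x in K, ∫⁻ x' in K, f (x, x') := by
    unfold J
    rw [hset, Measure.prod_apply hSm, ← lintegral_indicator hKm]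
    apply lintegral_congr
    intro x
    by_cases hx : x ∈ K
    · rw [indicator_of_mem hx]
      have hBm : MeasurableSet {x' : E (m + 1) | t⁻¹ • (x - x') ∈ K} := by
        have : Measurable (fun x' : E (m + 1) => t⁻¹ • (x - x')) := by fun_prop
        exact this hKm
      have h2 : ∀ x' : E (m + 1), f (x, x') =
          ({x' : E (m + 1) | t⁻¹ • (x - x') ∈ K}).indicator 1 x' := by
        intro x'
        by_cases h : t⁻¹ • (x - x') ∈ K
        · rw [indicator_of_mem (by exact h)]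
          simp only [hf]
          rw [indicator_of_mem h]
          rfl
        · rw [indicator_of_notMem (by exact h)]
          simp only [hf]
          rw [indicator_of_notMem h]
      simp_rw [h2]
      rw [lintegral_indicator_one hBm, Measure.restrict_apply hBm]
      congr 1
      ext x'
      simp only [mem_preimage, mem_ofPred_eq, mem_inter_iff]
      tauto
    · rw [indicator_of_notMem hx]
      have : Prod.mk x ⁻¹' {z : E (m + 1) × E (m + 1) |
          z.1 ∈ K ∧ z.2 ∈ K ∧ t⁻¹ • (z.1 - z.2) ∈ K} = ∅ := by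
        ext x'
        simp only [mem_preimage, mem_ofPred_eq, mem_empty_iff_false, iff_false]
        rintro ⟨h, _⟩
        exact hx h
      rw [this, measure_empty]
  have h2 : ∀ x : E (m + 1), ∫⁻ x' in K, f (x, x') = ∫⁻ y' in proj Φ K,
      ∫⁻ s' in Icc (mid Φ K y' - hl Φ K y') (mid Φ K y' + hl Φ K y'), f (x, Φ (s', y')) := by
    intro x
    exact lintegral_body hΦ hK.compact hK.convex (hfm.comp measurable_prodMk_left)
  have hGm : Measurable (fun x : E (m + 1) => ∫⁻ x' in K, f (x, x')) :=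
    hfm.lintegral_prod_right'
  rw [h1, lintegral_body hΦ hK.compact hK.convex hGm]
  apply lintegral_congr
  intro y
  have h3 : ∀ s : ℝ, ∫⁻ x' in K, f (Φ (s, y), x') = ∫⁻ y' in proj Φ K,
      ∫⁻ s' in Icc (mid Φ K y' - hl Φ K y') (mid Φ K y' + hl Φ K y'),
        f (Φ (s, y), Φ (s', y')) := fun s => h2 _
  simp_rw [h3]
  have hmm := measurable_mid (Φ := Φ) hK.compact
  have hhm := measurable_hl (Φ := Φ) hK.compact
  have hH : Measurable (fun p : ℝ × E m =>
      ∫⁻ s' in Icc (mid Φ K p.2 - hl Φ K p.2) (mid Φ K p.2 + hl Φ K p.2),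
        f (Φ (p.1, y), Φ (s', p.2))) := by
    have e : (fun p : ℝ × E m =>
        ∫⁻ s' in Icc (mid Φ K p.2 - hl Φ K p.2) (mid Φ K p.2 + hl Φ K p.2),
          f (Φ (p.1, y), Φ (s', p.2))) = fun p : ℝ × E m =>
        ∫⁻ s', ({q : (ℝ × E m) × ℝ | mid Φ K q.1.2 - hl Φ K q.1.2 ≤ q.2 ∧
          q.2 ≤ mid Φ K q.1.2 + hl Φ K q.1.2}).indicator
            (fun q => f (Φ (q.1.1, y), Φ (q.2, q.1.2))) (p, s') := by
      funext p
      rw [← lintegral_indicator measurableSet_Icc]
      rfl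
    rw [e]
    apply Measurable.lintegral_prod_right'
    apply Measurable.indicator
    · apply hfm.comp
      have hc := Φ.continuous.measurable
      apply Measurable.prodMk
      · exact hc.comp (by fun_prop)
      · exact hc.comp (by fun_prop)
    · apply MeasurableSet.inter
      · exact measurableSet_le
          ((hmm.comp (measurable_snd.comp measurable_fst)).sub
            (hhm.comp (measurable_snd.comp measurable_fst))) measurable_snd
      · exact measurableSet_le measurable_snd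
          ((hmm.comp (measurable_snd.comp measurable_fst)).add
            (hhm.comp (measurable_snd.comp measurable_fst)))
  rw [lintegral_lintegral_swap hH.aemeasurable]
  apply lintegral_congr
  intro y'
  exact R4_fiber hK ht y y'

theorem J_steiner_le {n : ℕ} {u : E n} (hu : ‖u‖ = 1) {K : Set (E n)} (hK : SymBody K) {t : ℝ}
    (ht : 0 < t) : J K t ≤ J (steiner u K) t := by
  rcases n with _ | m
  · exfalso
    have : u = 0 := Subsingleton.elim _ _
    rw [this, norm_zero] at hu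
    exact one_ne_zero hu.symm
  · obtain ⟨Φ, hΦ⟩ := exists_coord m u hu
    obtain ⟨hp, hs⟩ := steiner_sec hΦ hK
    rw [J_eq hΦ hK ht, J_eq hΦ (steiner_body hu hK) ht, hp]
    apply lintegral_mono
    intro y
    apply lintegral_mono
    intro y'
    apply indicator_le_indicator'
    intro _
    simp only [(hs _).1, (hs _).2, mul_zero, sub_zero]
    exact V3_le (hl_nonneg hK.compact _) (hl_nonneg hK.compact _)
      (mul_nonneg ht.le (hl_nonneg hK.compact _)) _

end RMB
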