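import Pool.Agent.RMB.G5

/-!
# RMB-R5: Blaschke selection for symmetric convex bodies between two balls

Compactness of `NonemptyCompacts (closedBall 0 R)` for the Hausdorff distance.
Sandwich: if `x` is at distance `≤ r (a - 1)` from a point of a convex set `M ⊇ closedBall 0 r`
then `x ∈ a M`.
-/

set_option autoImplicit false

open MeasureTheory Set Metric Filter Topology
open scoped RealInnerProductSpace ENNReal

namespace RMB

private theorem R5_sand {n : ℕ} {r a : ℝ} (ha : 1 < a) {M : Set (E n)}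
    (hM : Convex ℝ M) (hb : closedBall (0 : E n) r ⊆ M) {x y : E n} (hy : y ∈ M)
    (hxy : dist x y < r * (a - 1)) : x ∈ (fun x => a • x) '' M := by
  have ha0 : 0 < a := by linarith
  have ha1 : 0 < a - 1 := by linarith
  set w : E n := (a - 1)⁻¹ • (x - y) with hw
  have hwn : w ∈ closedBall (0 : E n) r := by
    rw [mem_closedBall_zero_iff, hw, norm_smul, Real.norm_eq_abs, abs_of_pos (inv_pos.2 ha1),
      ← dist_eq_norm, inv_mul_le_iff₀ ha1]
    linarith
  refine ⟨a⁻¹ • x, ?_, ?_⟩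
  · have h1 : a⁻¹ • x = a⁻¹ • y + (1 - a⁻¹) • w := by
      rw [hw, smul_smul]
      have : (1 - a⁻¹) * (a - 1)⁻¹ = a⁻¹ := by
        field_simp
      rw [this, ← smul_add]
      congr 1
      abel
    rw [h1]
    have h2 : a⁻¹ ≤ 1 := inv_le_one_of_one_le₀ ha.le
    exact hM hy (hb hwn) (inv_pos.2 ha0).le (by linarith) (by ring)
  · simp only []
    rw [smul_smul, mul_inv_cancel₀ ha0.ne', one_smul]

theorem subseq {n : ℕ} {r R : ℝ} (hr : 0 < r) (L : ℕ → Set (E n)) (hL : ∀ k, SymBody (L k))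
    (h1 : ∀ k, closedBall (0 : E n) r ⊆ L k) (h2 : ∀ k, L k ⊆ closedBall (0 : E n) R) :
    ∃ L' : Set (E n), SymBody L' ∧ closedBall (0 : E n) r ⊆ L' ∧ L' ⊆ closedBall (0 : E n) R ∧
      ∃ φ : ℕ → ℕ, StrictMono φ ∧ ∀ a : ℝ, 1 < a → ∀ᶠ k in atTop,
        L (φ k) ⊆ (fun x => a • x) '' L' ∧ L' ⊆ (fun x => a • x) '' L (φ k) := by
  have : CompactSpace (closedBall (0 : E n) R) :=
    isCompact_iff_compactSpace.1 (isCompact_closedBall _ _)
  have h0 : ∀ k, (0 : E n) ∈ L k := fun k => h1 k (by simp [hr.le])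
  have hcl : ∀ k, IsCompact ((Subtype.val : closedBall (0 : E n) R → E n) ⁻¹' (L k)) := by
    intro k
    exact ((hL k).compact.isClosed.preimage continuous_subtype_val).isCompact
  let T : ℕ → TopologicalSpace.NonemptyCompacts (closedBall (0 : E n) R) := fun k =>
    ⟨⟨(Subtype.val : closedBall (0 : E n) R → E n) ⁻¹' (L k), hcl k⟩,
      ⟨⟨0, h2 k (h0 k)⟩, h0 k⟩⟩
  obtain ⟨K0, -, φ, hφ, hlim⟩ := isCompact_univ.tendsto_subseq (x := T) (fun _ => mem_univ _)
  set L' : Set (E n) := (Subtype.val : closedBall (0 : E n) R → E n) '' (K0 : Set _) with hL'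
  have hT : ∀ k, (Subtype.val : closedBall (0 : E n) R → E n) '' (T k : Set _) = L k := by
    intro k
    ext x
    constructor
    · rintro ⟨y, hy, rfl⟩
      exact hy
    · intro hx
      exact ⟨⟨x, h2 k hx⟩, hx, rfl⟩
  have hcomp : IsCompact L' := K0.isCompact.image continuous_subtype_val
  have hne : L'.Nonempty := K0.nonempty.image _
  have hdist : ∀ k, hausdorffDist (L (φ k)) L' = dist (T (φ k)) K0 := by
    intro k
    rw [← hT (φ k), hL', hausdorffDist_image isometry_subtype_coe,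
      NonemptyCompacts.dist_eq]
  have hlt : ∀ δ : ℝ, 0 < δ → ∀ᶠ k in atTop, hausdorffDist (L (φ k)) L' < δ := by
    intro δ hδ
    have := (tendsto_iff_dist_tendsto_zero.1 hlim).eventually (gt_mem_nhds hδ)
    filter_upwards [this] with k hk
    rw [hdist]
    exact hk
  have hfin : ∀ k, hausdorffEDist (L (φ k)) L' ≠ ⊤ := by
    intro k
    exact hausdorffEDist_ne_top_of_nonempty_of_bounded ⟨0, h0 _⟩ hne
      (hL _).compact.isBounded hcomp.isBounded
  have hto : ∀ δ : ℝ, 0 < δ → ∀ᶠ k in atTop, (∀ x ∈ L (φ k), ∃ y ∈ L', dist x y < δ) ∧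
      (∀ y ∈ L', ∃ x ∈ L (φ k), dist x y < δ) := by
    intro δ hδ
    filter_upwards [hlt δ hδ] with k hk
    exact ⟨fun x hx => exists_dist_lt_of_hausdorffDist_lt hx hk (hfin k),
      fun y hy => exists_dist_lt_of_hausdorffDist_lt' hy hk (hfin k)⟩
  have hmem : ∀ x : E n, (∀ δ : ℝ, 0 < δ → ∀ᶠ k in atTop, ∃ y ∈ L (φ k), dist x y < δ) →
      x ∈ L' := by
    intro x hx
    rw [← hcomp.isClosed.closure_eq, Metric.mem_closure_iff]
    intro ε hε
    obtain ⟨k, ⟨y, hy, hxy⟩, hk, -⟩ := ((hx (ε / 2) (by linarith)).and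
      (hto (ε / 2) (by linarith))).exists
    obtain ⟨z, hz, hyz⟩ := hk y hy
    refine ⟨z, hz, ?_⟩
    calc dist x z ≤ dist x y + dist y z := dist_triangle _ _ _
      _ < ε := by linarith
  have hball : closedBall (0 : E n) r ⊆ L' := by
    intro x hx
    apply hmem
    intro δ hδ
    exact Eventually.of_forall fun k => ⟨x, h1 _ hx, by simpa using hδ⟩
  have hconv : Convex ℝ L' := by
    intro x hx y hy a b ha hb hab
    apply hmem
    intro δ hδ
    filter_upwards [hto δ hδ] with k hk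
    obtain ⟨x', hx', h3⟩ := hk.2 x hx
    obtain ⟨y', hy', h4⟩ := hk.2 y hy
    refine ⟨a • x' + b • y', (hL _).convex hx' hy' ha hb hab, ?_⟩
    rw [dist_comm, dist_eq_norm]
    rw [dist_eq_norm] at h3 h4
    have e : a • x' + b • y' - (a • x + b • y) = a • (x' - x) + b • (y' - y) := by
      rw [smul_sub, smul_sub]; abel
    rw [e]
    calc ‖a • (x' - x) + b • (y' - y)‖ ≤ ‖a • (x' - x)‖ + ‖b • (y' - y)‖ := norm_add_le _ _
      _ = a * ‖x' - x‖ + b * ‖y' - y‖ := by
        rw [norm_smul, norm_smul, Real.norm_eq_abs, Real.norm_eq_abs, abs_of_nonneg ha,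
          abs_of_nonneg hb]
      _ < δ := by
        rcases ha.lt_or_eq with ha' | ha'
        · have h5 : a * ‖x' - x‖ < a * δ := mul_lt_mul_of_pos_left h3 ha'
          have h6 : b * ‖y' - y‖ ≤ b * δ := mul_le_mul_of_nonneg_left h4.le hb
          calc a * ‖x' - x‖ + b * ‖y' - y‖ < a * δ + b * δ := by linarith
            _ = δ := by rw [← add_mul, hab, one_mul]
        · have hb1 : b = 1 := by linarith
          rw [← ha', hb1]
          linarith
  have hsym : ∀ x ∈ L', -x ∈ L' := by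
    intro x hx
    apply hmem
    intro δ hδ
    filter_upwards [hto δ hδ] with k hk
    obtain ⟨x', hx', h3⟩ := hk.2 x hx
    refine ⟨-x', (hL _).sym _ hx', ?_⟩
    rw [dist_neg_neg, dist_comm]
    exact h3
  have hint : (interior L').Nonempty := by
    refine ⟨0, ?_⟩
    rw [mem_interior_iff_mem_nhds]
    exact Filter.mem_of_superset (closedBall_mem_nhds _ hr) hball
  refine ⟨L', ⟨⟨hcomp, hconv, hint⟩, hsym⟩, hball, ?_, φ, hφ, ?_⟩
  · rintro x ⟨y, -, rfl⟩
    exact y.2
  · intro a ha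
    have hδ : 0 < r * (a - 1) := mul_pos hr (by linarith)
    filter_upwards [hto _ hδ] with k hk
    constructor
    · intro x hx
      obtain ⟨y, hy, hxy⟩ := hk.1 x hx
      exact R5_sand ha hconv hball hy hxy
    · intro y hy
      obtain ⟨x, hx, hxy⟩ := hk.2 y hy
      rw [dist_comm] at hxy
      exact R5_sand ha (hL _).convex (h1 _) hx hxy

end RMB
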