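import Pool.Agent.RMB.R2
import Pool.Agent.RMB.R4
import Pool.Agent.RMB.R5

/-!
# RMB-R6: the extremal body

PROOF.  Let `closedBall 0 r ⊆ K ⊆ closedBall 0 R`, `0 < r`.  Let `𝒞` be the class of all `L` with
`SymBody L`, `closedBall 0 r ⊆ L ⊆ closedBall 0 R`, `volume L = volume K`, `J K t ≤ J L t`.  `K ∈ 𝒞`.
Let `μ = inf {M2 L : L ∈ 𝒞} ≥ 0` and `L k ∈ 𝒞` with `M2 (L k) → μ`; take `L'`, `φ` from `subseq`.
All three functionals are monotone and homogeneous: `volume (a L) = a^n volume L`,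
`M2 (a L) = a^(n+2) M2 L`, `J (a L) t = a^(2n) J L t` (scaling by `a > 0`), monotone in `L`
(for `M2`: integral of a nonnegative function over a larger compact set).  From
`L (φ k) ⊆ a L'` and `L' ⊆ a L (φ k)` eventually, for every `a > 1`:
`volume L' ≤ a^n volume K` and `volume K ≤ a^n volume L'`, so `volume L' = volume K` (let `a → 1`);
`J K t ≤ J (L (φ k)) t ≤ a^(2n) J L' t`, so `J K t ≤ J L' t`;
`M2 L' ≤ a^(n+2) M2 (L (φ k)) → a^(n+2) μ`, so `M2 L' ≤ μ`.  So `L' ∈ 𝒞` is a minimizer.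
For unit `u`, `steiner u L' ∈ 𝒞` (`steiner_body`, `steiner_mono` + `steiner_ball`, `steiner_volume`,
`J_steiner_le`), so `M2 L' ≤ M2 (steiner u L')`, with `steiner_M2_le` equality, and `steiner_M2_eq`
gives the invariance.
-/

set_option autoImplicit false

open MeasureTheory Set Metric Filter Topology
open scoped RealInnerProductSpace ENNReal

namespace RMB

private theorem r6_vol_smul {n : ℕ} (L : Set (E n)) {a : ℝ} (ha : 0 < a) :
    volume ((fun x => a • x) '' L) = ENNReal.ofReal (a ^ n) * volume L := by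
  have h := Measure.addHaar_smul (volume : Measure (E n)) a L
  rw [finrank_euclideanSpace_fin, abs_of_pos (pow_pos ha n)] at h
  exact h

private theorem r6_M2_smul {n : ℕ} (L : Set (E n)) {a : ℝ} (ha : 0 < a) :
    M2 ((fun x => a • x) '' L) = a ^ (n + 2) * M2 L := by
  have h := Measure.setIntegral_comp_smul_of_pos (volume : Measure (E n))
    (fun x : E n => ‖x‖ ^ 2) L ha
  rw [finrank_euclideanSpace_fin] at h
  have h2 : ∀ x : E n, ‖a • x‖ ^ 2 = a ^ 2 * ‖x‖ ^ 2 := by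
    intro x
    rw [norm_smul, mul_pow, Real.norm_eq_abs, sq_abs]
  simp only [h2] at h
  rw [integral_const_mul, smul_eq_mul] at h
  rw [← Set.image_smul] at h
  have hpos : (a ^ n) ≠ 0 := (pow_pos ha n).ne'
  unfold M2
  rw [pow_add, mul_assoc, h]
  field_simp

private theorem r6_J_mono {n : ℕ} {L M : Set (E n)} (h : L ⊆ M) (t : ℝ) : J L t ≤ J M t := by
  unfold J
  apply measure_mono
  rintro z ⟨h1, h2, k, hk, h3⟩
  exact ⟨h h1, h h2, k, h hk, h3⟩

private theorem r6_J_smul {n : ℕ} (L : Set (E n)) (t : ℝ) {a : ℝ} (ha : 0 < a) :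
    J ((fun x => a • x) '' L) t = ENNReal.ofReal (a ^ (2 * n)) * J L t := by
  have h := Measure.addHaar_smul ((volume : Measure (E n)).prod (volume : Measure (E n))) a
    {z : E n × E n | z.1 ∈ L ∧ z.2 ∈ L ∧ ∃ k ∈ L, z.1 - z.2 = t • k}
  have hf : Module.finrank ℝ (E n × E n) = 2 * n := by
    rw [Module.finrank_prod, finrank_euclideanSpace_fin]; ring
  rw [hf, abs_of_pos (pow_pos ha _)] at h
  unfold J
  rw [← h]
  congr 1
  ext z
  simp only [mem_ofPred_eq, mem_image, mem_smul_set]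
  constructor
  · rintro ⟨⟨x, hx, hx'⟩, ⟨y, hy, hy'⟩, k, ⟨l, hl, rfl⟩, h3⟩
    refine ⟨(x, y), ⟨hx, hy, l, hl, ?_⟩, ?_⟩
    · have h4 : a • (x - y) = a • (t • l) := by
        rw [smul_sub, hx', hy', h3, smul_comm]
      exact smul_right_injective _ ha.ne' h4
    · exact Prod.ext hx' hy'
  · rintro ⟨⟨x, y⟩, ⟨hx, hy, l, hl, h3⟩, rfl⟩
    refine ⟨⟨x, hx, rfl⟩, ⟨y, hy, rfl⟩, a • l, ⟨l, hl, rfl⟩, ?_⟩
    simp only at h3
    change a • x - a • y = t • a • l
    rw [← smul_sub, h3, smul_comm]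

private theorem r6_M2_mono {n : ℕ} {L M : Set (E n)} (hM : IsCompact M) (h : L ⊆ M) :
    M2 L ≤ M2 M := by
  unfold M2
  apply setIntegral_mono_set
  · exact (by fun_prop : Continuous fun x : E n => ‖x‖ ^ 2).continuousOn.integrableOn_compact hM
  · exact ae_of_all _ fun x => by positivity
  · exact h.eventuallyLE

private theorem r6_M2_nonneg {n : ℕ} (L : Set (E n)) : 0 ≤ M2 L := by
  unfold M2
  exact integral_nonneg fun x => by positivity

private theorem r6_lim {x y : ℝ≥0∞} (m : ℕ)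
    (h : ∀ a : ℝ, 1 < a → x ≤ ENNReal.ofReal (a ^ m) * y) : x ≤ y := by
  have h1 : Tendsto (fun a : ℝ => ENNReal.ofReal (a ^ m) * y) (𝓝[>] 1) (𝓝 (1 * y)) := by
    apply ENNReal.Tendsto.mul_const _ (Or.inl one_ne_zero)
    have h2 : Tendsto (fun a : ℝ => ENNReal.ofReal (a ^ m)) (𝓝 1) (𝓝 (ENNReal.ofReal (1 ^ m))) :=
      (ENNReal.continuous_ofReal.comp (continuous_pow m)).tendsto 1
    rw [one_pow, ENNReal.ofReal_one] at h2
    exact h2.mono_left nhdsWithin_le_nhds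
  rw [one_mul] at h1
  apply ge_of_tendsto h1
  filter_upwards [self_mem_nhdsWithin] with a ha
  exact h a ha

private theorem r6_limR {x y : ℝ} (m : ℕ)
    (h : ∀ a : ℝ, 1 < a → x ≤ a ^ m * y) : x ≤ y := by
  have h1 : Tendsto (fun a : ℝ => a ^ m * y) (𝓝[>] 1) (𝓝 (1 ^ m * y)) :=
    (((continuous_pow m).mul continuous_const).tendsto 1).mono_left nhdsWithin_le_nhds
  rw [one_pow, one_mul] at h1
  apply ge_of_tendsto h1
  filter_upwards [self_mem_nhdsWithin] with a ha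
  exact h a ha

theorem exists_min {n : ℕ} {K : Set (E n)} (hK : SymBody K) {t : ℝ} (ht : 0 < t) :
    ∃ L : Set (E n), SymBody L ∧ volume L = volume K ∧ J K t ≤ J L t ∧
      ∀ u : E n, ‖u‖ = 1 → ∀ x ∈ L, x - (2 * ⟪x, u⟫) • u ∈ L := by
  obtain ⟨r, hr, hrK⟩ := hK.exists_ball
  obtain ⟨R, hR, hRK⟩ := hK.toIsBody.exists_bound
  set P : Set (E n) → Prop := fun L => SymBody L ∧ closedBall (0 : E n) r ⊆ L ∧
    L ⊆ closedBall (0 : E n) R ∧ volume L = volume K ∧ J K t ≤ J L t with hP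
  have hPK : P K := ⟨hK, hrK, hRK, rfl, le_rfl⟩
  set S : Set ℝ := {m | ∃ L, P L ∧ M2 L = m} with hS
  have hSne : S.Nonempty := ⟨_, K, hPK, rfl⟩
  have hSbdd : BddBelow S := ⟨0, by rintro _ ⟨L, -, rfl⟩; exact r6_M2_nonneg L⟩
  set μ : ℝ := sInf S with hμ
  have hmin : ∀ L, P L → μ ≤ M2 L := fun L hL => csInf_le hSbdd ⟨L, hL, rfl⟩
  have hseq : ∀ k : ℕ, ∃ L, P L ∧ M2 L < μ + 1 / ((k : ℝ) + 1) := by
    intro k
    have hk : μ < μ + 1 / ((k : ℝ) + 1) := by
      have : (0 : ℝ) < 1 / ((k : ℝ) + 1) := by positivity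
      linarith
    obtain ⟨m, ⟨L, hL, rfl⟩, hm⟩ := exists_lt_of_csInf_lt hSne hk
    exact ⟨L, hL, hm⟩
  choose L hL hLm using hseq
  obtain ⟨L', hL'b, hL'r, hL'R, φ, hφ, hsub⟩ :=
    subseq hr L (fun k => (hL k).1) (fun k => (hL k).2.1) (fun k => (hL k).2.2.1)
  -- volume
  have hv1 : volume L' ≤ volume K := by
    apply r6_lim n
    intro a ha
    obtain ⟨k, -, hk⟩ := (hsub a ha).exists
    calc volume L' ≤ volume ((fun x => a • x) '' L (φ k)) := measure_mono hk
      _ = ENNReal.ofReal (a ^ n) * volume K := by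
          rw [r6_vol_smul _ (by linarith), (hL (φ k)).2.2.2.1]
  have hv2 : volume K ≤ volume L' := by
    apply r6_lim n
    intro a ha
    obtain ⟨k, hk, -⟩ := (hsub a ha).exists
    calc volume K = volume (L (φ k)) := (hL (φ k)).2.2.2.1.symm
      _ ≤ volume ((fun x => a • x) '' L') := measure_mono hk
      _ = ENNReal.ofReal (a ^ n) * volume L' := r6_vol_smul _ (by linarith)
  have hJ : J K t ≤ J L' t := by
    apply r6_lim (2 * n)
    intro a ha
    obtain ⟨k, hk, -⟩ := (hsub a ha).exists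
    calc J K t ≤ J (L (φ k)) t := (hL (φ k)).2.2.2.2
      _ ≤ J ((fun x => a • x) '' L') t := r6_J_mono hk t
      _ = ENNReal.ofReal (a ^ (2 * n)) * J L' t := r6_J_smul _ _ (by linarith)
  have hPL' : P L' := ⟨hL'b, hL'r, hL'R, le_antisymm hv1 hv2, hJ⟩
  have hM : M2 L' ≤ μ := by
    apply r6_limR (n + 2)
    intro a ha
    have hlim : Tendsto (fun k : ℕ => a ^ (n + 2) * (μ + 1 / (((φ k : ℕ) : ℝ) + 1))) atTop
        (𝓝 (a ^ (n + 2) * (μ + 0))) := by
      apply Tendsto.const_mul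
      apply Tendsto.const_add
      exact (tendsto_one_div_add_atTop_nhds_zero_nat (𝕜 := ℝ)).comp hφ.tendsto_atTop
    rw [add_zero] at hlim
    apply ge_of_tendsto hlim
    filter_upwards [hsub a ha] with k hk
    have ha0 : (0 : ℝ) < a := by linarith
    calc M2 L' ≤ M2 ((fun x => a • x) '' L (φ k)) :=
          r6_M2_mono ((hL (φ k)).1.compact.image (continuous_const_smul a)) hk.2
      _ = a ^ (n + 2) * M2 (L (φ k)) := r6_M2_smul _ ha0
      _ ≤ a ^ (n + 2) * (μ + 1 / (((φ k : ℕ) : ℝ) + 1)) :=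
          mul_le_mul_of_nonneg_left (hLm (φ k)).le (by positivity)
  refine ⟨L', hL'b, hPL'.2.2.2.1, hJ, fun u hu => ?_⟩
  have hPs : P (steiner u L') := by
    refine ⟨steiner_body hu hL'b, ?_, ?_, ?_, hJ.trans (J_steiner_le hu hL'b ht)⟩
    · rw [← steiner_ball hu r]; exact steiner_mono hL'r
    · rw [← steiner_ball hu R]; exact steiner_mono hL'R
    · rw [steiner_volume hu hL'b]; exact hPL'.2.2.2.1
  have h1 := hmin _ hPs
  have h2 := steiner_M2_le hu hL'b
  exact steiner_M2_eq hu hL'b (le_antisymm h2 (hM.trans h1))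

end RMB
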