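import Pool.Agent.RMB.G8
import Pool.Agent.RMB.G10
import Pool.Agent.RMB.R6

/-!
# RMB-R7: the Riesz inequality for `K, K, tK`, and gauge moments

`riesz_J`: `exists_min` and `ball_of_refl`: `L = closedBall 0 r`, `volume L = volume K`,
`J K t ≤ J (closedBall 0 r) t`.  By scaling `J (closedBall 0 r) t = r^(2n) J B t`,
`volume (closedBall 0 r) = r^n volume B`.  So `J K t (volume B)² ≤ J B t (volume K)²`.

`riesz_gauge`: `q ≥ 0`.  Case `q = 0`: both sides are `vol(K)²` (`x^0 = 1`; `kap n 0 = 1` directly from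
the definition).  Case `q > 0`: for `t > 0`, `{(x,y) ∈ K×K : gauge K (y-x) ≤ t}` has measure `J K t`
(symmetry; `gauge K z ≤ t ↔ z ∈ t K`), so by the layer cake formula
(`MeasureTheory.integral_eq_integral_... `, `lintegral_rpow_eq_lintegral_meas_lt_mul`)
`∫∫ gauge K (y-x)^q = ∫_0^∞ q t^(q-1) (vol(K)² - J K t) dt` (`J = vol²` for `t ≥ 2`), and the same for `B`
(gauge of `B` is the norm).  Hence `vol(K)⁻² ∫∫_{K×K} gauge^q ≥ vol(B)⁻² ∫∫_{B×B} ‖y-x‖^q`.
Finally `∫_K gauge^q = vol(K) n/(n+q)` and `∫_B ‖x‖^q = vol(B) n/(n+q)` (layer cake again: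
`vol {x ∈ K : gauge ≤ t} = t^n vol K` for `t ≤ 1`; or `polar_star` with `q` and with `0`, since
`gauge K u = 1/ρ_K(u)`), so `kap n q vol(K) ∫_K gauge^q = vol(K)² vol(B)⁻² ∫∫_{B×B} ‖y-x‖^q`.

`gauge_eq_J`: if equality holds in `riesz_gauge` for some `q > 0` then `J K t (volume B)² = J B t (volume K)²` for
almost every `t ∈ (0,2)`, hence for all `t > 0`, as both sides are continuous in `t > 0`: the sets
increase with `t`, and `vol {(x,y) : gauge K (x-y) = t} = 0` for `t > 0` (Fubini: spheres of a norm are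
null sets, `frontier` of the convex set `tK`); for `t > 2` both sides are equal anyway.
-/

set_option autoImplicit false

open MeasureTheory Set Metric Filter Topology
open scoped RealInnerProductSpace ENNReal

namespace RMB

variable {n : ℕ} {K : Set (E n)}

open scoped Pointwise in
/-- scaling of `J` for balls -/
private theorem J_ball_scale {r t : ℝ} (hr : 0 < r) :
    J (closedBall (0 : E n) r) t =
      ENNReal.ofReal (r ^ n) ^ 2 * J (closedBall (0 : E n) 1) t := by
  unfold J
  have hset : {z : E n × E n | z.1 ∈ closedBall (0 : E n) r ∧ z.2 ∈ closedBall (0 : E n) r ∧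
      ∃ k ∈ closedBall (0 : E n) r, z.1 - z.2 = t • k} =
      r • {z : E n × E n | z.1 ∈ closedBall (0 : E n) 1 ∧ z.2 ∈ closedBall (0 : E n) 1 ∧
        ∃ k ∈ closedBall (0 : E n) 1, z.1 - z.2 = t • k} := by
    ext z
    have hkey : ∀ x : E n, x ∈ closedBall (0 : E n) r ↔ r⁻¹ • x ∈ closedBall (0 : E n) 1 := by
      intro x
      rw [mem_closedBall_zero_iff, mem_closedBall_zero_iff, norm_smul, norm_inv, Real.norm_eq_abs,
        abs_of_pos hr, inv_mul_le_iff₀ hr, mul_one]
    rw [Set.mem_smul_set_iff_inv_smul_mem₀ hr.ne']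
    simp only [mem_ofPred_eq, Prod.smul_fst, Prod.smul_snd]
    constructor
    · rintro ⟨h1, h2, k, hk, e⟩
      refine ⟨(hkey _).1 h1, (hkey _).1 h2, r⁻¹ • k, (hkey _).1 hk, ?_⟩
      rw [← smul_sub, e, smul_comm]
    · rintro ⟨h1, h2, k, hk, e⟩
      refine ⟨(hkey _).2 h1, (hkey _).2 h2, r • k, (hkey _).2 ?_, ?_⟩
      · rw [smul_smul, inv_mul_cancel₀ hr.ne', one_smul]; exact hk
      · rw [← smul_sub] at e
        rw [smul_comm, ← e, smul_smul, mul_inv_cancel₀ hr.ne', one_smul]
  rw [hset, Measure.addHaar_smul]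
  congr 1
  have hf : Module.finrank ℝ (E n × E n) = n + n := by
    rw [Module.finrank_prod, finrank_euclideanSpace_fin]
  rw [hf, abs_of_pos (pow_pos hr _), pow_add, ENNReal.ofReal_mul (pow_nonneg hr.le _), sq]

private theorem vol_ball_scale {r : ℝ} (hr : 0 < r) :
    volume (closedBall (0 : E n) r) =
      ENNReal.ofReal (r ^ n) * volume (closedBall (0 : E n) 1) := by
  have h := Measure.addHaar_closedBall_mul (volume : Measure (E n)) (0 : E n) hr.le (r := r)
    (s := 1) (by norm_num)
  rw [mul_one, finrank_euclideanSpace_fin] at h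
  exact h

theorem riesz_J (hn : 1 ≤ n) (hK : SymBody K) {t : ℝ} (ht : 0 < t) :
    J K t * volume (closedBall (0 : E n) 1) ^ 2 ≤ J (closedBall (0 : E n) 1) t * volume K ^ 2 := by
  obtain ⟨L, hL, hvol, hJ, hrefl⟩ := exists_min hK ht
  obtain ⟨r, hr, rfl⟩ := ball_of_refl hn hL hrefl
  rw [J_ball_scale hr] at hJ
  rw [← hvol, vol_ball_scale hr]
  calc J K t * volume (closedBall (0 : E n) 1) ^ 2
      ≤ (ENNReal.ofReal (r ^ n) ^ 2 * J (closedBall (0 : E n) 1) t) *
          volume (closedBall (0 : E n) 1) ^ 2 := by gcongr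
    _ = J (closedBall (0 : E n) 1) t *
          (ENNReal.ofReal (r ^ n) * volume (closedBall (0 : E n) 1)) ^ 2 := by ring

/-- the pairs of points of `K` at gauge distance at most `t` -/
private def AA (K : Set (E n)) (t : ℝ) : Set (E n × E n) :=
  {z | z.1 ∈ K ∧ z.2 ∈ K ∧ gauge K (z.2 - z.1) ≤ t}

private theorem gsub_cont (hK : SymBody K) :
    Continuous fun z : E n × E n => gauge K (z.2 - z.1) :=
  hK.gauge_cont.comp (continuous_snd.sub continuous_fst)

private theorem AA_closed (hK : SymBody K) (t : ℝ) : IsClosed (AA K t) := by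
  have hc := hK.compact.isClosed
  exact (hc.preimage continuous_fst).inter ((hc.preimage continuous_snd).inter
    (isClosed_le (gsub_cont hK) continuous_const))

private theorem AA_mono {s t : ℝ} (h : s ≤ t) : AA K s ⊆ AA K t :=
  fun _ hz => ⟨hz.1, hz.2.1, hz.2.2.trans h⟩

private theorem AA_sub (t : ℝ) : AA K t ⊆ K ×ˢ K := fun _ hz => ⟨hz.1, hz.2.1⟩

private theorem J_eq_AA (hK : SymBody K) {t : ℝ} (ht : 0 < t) :
    J K t = (volume.prod volume) (AA K t) := by
  unfold J AA
  congr 1
  ext z
  simp only [mem_ofPred_eq]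
  have hneg : gauge K (z.2 - z.1) = gauge K (z.1 - z.2) := by
    rw [← neg_sub z.1 z.2, gauge_neg hK.sym]
  rw [hneg]
  constructor
  · rintro ⟨h1, h2, k, hk, e⟩
    refine ⟨h1, h2, ?_⟩
    rw [e, gauge_smul_of_nonneg ht.le, smul_eq_mul]
    have := (hK.gauge_le_one k).2 hk
    nlinarith
  · rintro ⟨h1, h2, h3⟩
    refine ⟨h1, h2, t⁻¹ • (z.1 - z.2), ?_, ?_⟩
    · rw [← hK.gauge_le_one, gauge_smul_of_nonneg (inv_nonneg.2 ht.le), smul_eq_mul,
        inv_mul_le_iff₀ ht, mul_one]
      exact h3
    · rw [smul_smul, mul_inv_cancel₀ ht.ne', one_smul]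

private theorem vol_fin (hK : SymBody K) : volume K ≠ ⊤ := hK.compact.measure_lt_top.ne

private theorem vol_KK (K : Set (E n)) :
    (volume.prod volume) (K ×ˢ K) = volume K * volume K := Measure.prod_prod _ _

private theorem AA_le (K : Set (E n)) (t : ℝ) :
    (volume.prod volume) (AA K t) ≤ volume K * volume K := by
  rw [← vol_KK]
  exact measure_mono (AA_sub t)

private theorem meas_gt (hK : SymBody K) (t : ℝ) :
    ((volume.prod volume).restrict (K ×ˢ K)) {z : E n × E n | t < gauge K (z.2 - z.1)} =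
      volume K * volume K - (volume.prod volume) (AA K t) := by
  have hopen : IsOpen {z : E n × E n | t < gauge K (z.2 - z.1)} :=
    isOpen_lt continuous_const (gsub_cont hK)
  rw [Measure.restrict_apply hopen.measurableSet, ← vol_KK,
    ← measure_sdiff (AA_sub t) (AA_closed hK t).measurableSet.nullMeasurableSet
      (ne_top_of_le_ne_top (ENNReal.mul_ne_top (vol_fin hK) (vol_fin hK)) (AA_le K t))]
  congr 1
  ext z
  simp only [mem_inter_iff, mem_ofPred_eq, Set.mem_sdiff, AA, mem_prod, not_and, not_le]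
  tauto

/-- the double integral as a lower integral -/
private noncomputable def Ph (K : Set (E n)) (q : ℝ) : ℝ≥0∞ :=
  ∫⁻ z in K ×ˢ K, ENNReal.ofReal (gauge K (z.2 - z.1) ^ q) ∂(volume.prod volume)

private theorem gq_cont (hK : SymBody K) {q : ℝ} (hq : 0 ≤ q) :
    Continuous fun z : E n × E n => gauge K (z.2 - z.1) ^ q :=
  (gsub_cont hK).rpow_const fun _ => Or.inr hq

private theorem gq_int (hK : SymBody K) {q : ℝ} (hq : 0 ≤ q) :
    IntegrableOn (fun z : E n × E n => gauge K (z.2 - z.1) ^ q) (K ×ˢ K)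
      (volume.prod volume) :=
  (gq_cont hK hq).continuousOn.integrableOn_compact (hK.compact.prod hK.compact)

private theorem Ph_fin (hK : SymBody K) {q : ℝ} (hq : 0 ≤ q) : Ph K q ≠ ⊤ :=
  (gq_int hK hq).lintegral_lt_top.ne

private theorem Ph_real (hK : SymBody K) {q : ℝ} (hq : 0 ≤ q) :
    ∫ x in K, ∫ y in K, gauge K (y - x) ^ q = (Ph K q).toReal := by
  rw [← setIntegral_prod (fun z : E n × E n => gauge K (z.2 - z.1) ^ q) (gq_int hK hq)]
  rw [integral_eq_lintegral_of_nonneg_ae
    (Eventually.of_forall fun z => Real.rpow_nonneg (gauge_nonneg _) _)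
    (gq_cont hK hq).aestronglyMeasurable]
  rfl

private theorem Ph_layer (hK : SymBody K) {q : ℝ} (hq : 0 < q) :
    Ph K q = ENNReal.ofReal q * ∫⁻ t in Ioi (0 : ℝ),
      (volume K * volume K - (volume.prod volume) (AA K t)) * ENNReal.ofReal (t ^ (q - 1)) := by
  unfold Ph
  rw [lintegral_rpow_eq_lintegral_meas_lt_mul _
    (Eventually.of_forall fun z => gauge_nonneg _) (gsub_cont hK).aemeasurable hq]
  congr 1
  refine lintegral_congr fun t => ?_
  rw [meas_gt hK t]

/-- the weighted layers -/
private noncomputable def lay (K L : Set (E n)) (q t : ℝ) : ℝ≥0∞ :=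
  (volume K * volume K - (volume.prod volume) (AA K t)) * ENNReal.ofReal (t ^ (q - 1)) *
    (volume L * volume L)

private theorem Ph_lay (hK : SymBody K) {L : Set (E n)} (hL : SymBody L) {q : ℝ} (hq : 0 < q) :
    Ph K q * (volume L * volume L) =
      ENNReal.ofReal q * ∫⁻ t in Ioi (0 : ℝ), lay K L q t := by
  rw [Ph_layer hK hq, mul_assoc]
  congr 1
  unfold lay
  rw [lintegral_mul_const' _ _ (ENNReal.mul_ne_top (vol_fin hL) (vol_fin hL))]

private theorem lay_le (hn : 1 ≤ n) (hK : SymBody K) {q t : ℝ} (ht : 0 < t) :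
    lay (closedBall (0 : E n) 1) K q t ≤ lay K (closedBall (0 : E n) 1) q t := by
  have hB : SymBody (closedBall (0 : E n) 1) := closedBall_sym one_pos
  have h := riesz_J hn hK ht
  rw [J_eq_AA hK ht, J_eq_AA hB ht] at h
  have hv := vol_fin hK
  have hb := vol_fin hB
  unfold lay
  have e1 : (volume (closedBall (0 : E n) 1) * volume (closedBall (0 : E n) 1) -
      (volume.prod volume) (AA (closedBall (0 : E n) 1) t)) * (volume K * volume K) ≤
      (volume K * volume K - (volume.prod volume) (AA K t)) *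
        (volume (closedBall (0 : E n) 1) * volume (closedBall (0 : E n) 1)) := by
    rw [ENNReal.sub_mul fun _ _ => ENNReal.mul_ne_top hv hv,
      ENNReal.sub_mul fun _ _ => ENNReal.mul_ne_top hb hb,
      mul_comm (volume (closedBall (0 : E n) 1) * volume (closedBall (0 : E n) 1))
        (volume K * volume K)]
    refine tsub_le_tsub_left ?_ _
    simpa only [sq] using h
  calc _ = (volume (closedBall (0 : E n) 1) * volume (closedBall (0 : E n) 1) -
      (volume.prod volume) (AA (closedBall (0 : E n) 1) t)) * (volume K * volume K) *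
        ENNReal.ofReal (t ^ (q - 1)) := by ring
    _ ≤ (volume K * volume K - (volume.prod volume) (AA K t)) *
        (volume (closedBall (0 : E n) 1) * volume (closedBall (0 : E n) 1)) *
          ENNReal.ofReal (t ^ (q - 1)) := by gcongr
    _ = _ := by ring

private theorem Ph_le (hn : 1 ≤ n) (hK : SymBody K) {q : ℝ} (hq : 0 < q) :
    Ph (closedBall (0 : E n) 1) q * (volume K * volume K) ≤
      Ph K q * (volume (closedBall (0 : E n) 1) * volume (closedBall (0 : E n) 1)) := by
  have hB : SymBody (closedBall (0 : E n) 1) := closedBall_sym one_pos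
  rw [Ph_lay hB hK hq, Ph_lay hK hB hq]
  gcongr ENNReal.ofReal q * ?_
  exact setLIntegral_mono' measurableSet_Ioi fun t ht => lay_le hn hK ht

private theorem gauge_moment (hn : 1 ≤ n) (hK : SymBody K) {q : ℝ} (hq : 0 ≤ q) :
    ∫ x in K, gauge K x ^ q = n * volume.real K / (n + q) := by
  have hn0 : (0 : ℝ) < n := by exact_mod_cast hn
  have h0 := polar_star hn hK.compact hK.convex hK.zero_mem (q := 0) le_rfl
    (f := fun _ => (1 : ℝ)) continuous_const (fun r _ x => by simp)
  have hq' := polar_star hn hK.compact hK.convex hK.zero_mem hq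
    (f := fun x => gauge K x ^ q) (hK.gauge_cont.rpow_const fun _ => Or.inr hq)
    (fun r hr x => by
      rw [gauge_smul_of_nonneg hr.le, smul_eq_mul, Real.mul_rpow hr.le (gauge_nonneg _)])
  rw [setIntegral_const, smul_eq_mul, mul_one, add_zero] at h0
  rw [hq']
  have hcongr : ∀ u : sphere (0 : E n) 1,
      gauge K (u : E n) ^ q * radial K (u : E n) ^ ((n : ℝ) + q) =
        1 * radial K (u : E n) ^ (n : ℝ) := by
    intro u
    have hu : (u : E n) ≠ 0 := by
      intro h
      have := u.2
      rw [h, mem_sphere_zero_iff_norm, norm_zero] at this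
      exact zero_ne_one this
    have hg := hK.gauge_pos hu
    rw [hK.radial_eq hu, one_mul, Real.rpow_add (inv_pos.2 hg), Real.inv_rpow hg.le q]
    field_simp
  simp only [hcongr]
  have h1 : ∫ u : sphere (0 : E n) 1, 1 * radial K (u : E n) ^ (n : ℝ) ∂(sg n) =
      n * volume.real K := by
    rw [h0]
    field_simp
  rw [h1]
  ring

private theorem gauge_ball (x : E n) : gauge (closedBall (0 : E n) 1) x = ‖x‖ := by
  rw [gauge_closedBall zero_le_one, div_one]

private theorem kap_eq (hn : 1 ≤ n) (hK : SymBody K) {q : ℝ} (hq : 0 ≤ q) :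
    kap n q * (volume.real K * ∫ x in K, gauge K x ^ q) *
      (volume.real (closedBall (0 : E n) 1) * volume.real (closedBall (0 : E n) 1)) =
      (Ph (closedBall (0 : E n) 1) q).toReal * (volume.real K * volume.real K) := by
  have hB : SymBody (closedBall (0 : E n) 1) := closedBall_sym one_pos
  have hn0 : (0 : ℝ) < n := by exact_mod_cast hn
  have hVB := hB.toIsBody.volume_pos
  have e1 : ∫ x in closedBall (0 : E n) 1, ∫ y in closedBall (0 : E n) 1, ‖y - x‖ ^ q =
      (Ph (closedBall (0 : E n) 1) q).toReal := by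
    rw [← Ph_real hB hq]
    simp only [gauge_ball]
  have e2 : ∫ x in closedBall (0 : E n) 1, ‖x‖ ^ q =
      n * volume.real (closedBall (0 : E n) 1) / (n + q) := by
    rw [← gauge_moment hn hB hq]
    simp only [gauge_ball]
  unfold kap
  rw [e1, e2, gauge_moment hn hK hq]
  have hnq : (0 : ℝ) < n + q := by linarith
  field_simp

theorem riesz_gauge (hn : 1 ≤ n) (hK : SymBody K) {q : ℝ} (hq : 0 ≤ q) :
    kap n q * (volume.real K * ∫ x in K, gauge K x ^ q) ≤
      ∫ x in K, ∫ y in K, gauge K (y - x) ^ q := by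
  have hB : SymBody (closedBall (0 : E n) 1) := closedBall_sym one_pos
  have hVB := hB.toIsBody.volume_pos
  have hke := kap_eq hn hK hq
  rw [Ph_real hK hq]
  have hmain : (Ph (closedBall (0 : E n) 1) q).toReal * (volume.real K * volume.real K) ≤
      (Ph K q).toReal *
        (volume.real (closedBall (0 : E n) 1) * volume.real (closedBall (0 : E n) 1)) := by
    rcases hq.eq_or_lt with h0 | hpos
    · subst h0
      have hP : ∀ {L : Set (E n)}, (Ph L 0).toReal = volume.real L * volume.real L := by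
        intro L
        unfold Ph
        simp only [Real.rpow_zero, ENNReal.ofReal_one]
        rw [setLIntegral_one, vol_KK, ENNReal.toReal_mul]
        rfl
      rw [hP, hP]
      exact le_of_eq (by ring)
    · have h := Ph_le hn hK hpos
      have h2 := ENNReal.toReal_mono (ENNReal.mul_ne_top (Ph_fin hK hq)
        (ENNReal.mul_ne_top (vol_fin hB) (vol_fin hB))) h
      simp only [ENNReal.toReal_mul] at h2
      exact h2
  rw [← hke] at hmain
  exact le_of_mul_le_mul_right hmain (mul_pos hVB hVB)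

private theorem AA_tendsto (hK : SymBody K) (t : ℝ) :
    Tendsto (fun k : ℕ => (volume.prod volume) (AA K (t + 1 / ((k : ℝ) + 1)))) atTop
      (𝓝 ((volume.prod volume) (AA K t))) := by
  have hI : ⋂ k : ℕ, AA K (t + 1 / ((k : ℝ) + 1)) = AA K t := by
    apply Subset.antisymm
    · intro z hz
      rw [mem_iInter] at hz
      refine ⟨(hz 0).1, (hz 0).2.1, ?_⟩
      have h1 : Tendsto (fun k : ℕ => t + 1 / ((k : ℝ) + 1)) atTop (𝓝 (t + 0)) :=
        tendsto_const_nhds.add tendsto_one_div_add_atTop_nhds_zero_nat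
      rw [add_zero] at h1
      exact ge_of_tendsto' h1 fun k => (hz k).2.2
    · exact subset_iInter fun k => AA_mono (by
        have : (0 : ℝ) < 1 / ((k : ℝ) + 1) := by positivity
        linarith)
  rw [← hI]
  refine tendsto_measure_iInter_atTop
    (fun k => (AA_closed hK _).measurableSet.nullMeasurableSet) ?_
    ⟨0, ne_top_of_le_ne_top (ENNReal.mul_ne_top (vol_fin hK) (vol_fin hK)) (AA_le K _)⟩
  intro k l hkl
  apply AA_mono
  have : 1 / ((l : ℝ) + 1) ≤ 1 / ((k : ℝ) + 1) := by
    apply one_div_le_one_div_of_le (by positivity)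
    have : (k : ℝ) ≤ l := by exact_mod_cast hkl
    linarith
  linarith

theorem gauge_eq_J (hn : 1 ≤ n) (hK : SymBody K) {q : ℝ} (hq : 0 < q)
    (h : kap n q * (volume.real K * ∫ x in K, gauge K x ^ q) =
      ∫ x in K, ∫ y in K, gauge K (y - x) ^ q) {t : ℝ} (ht : 0 < t) :
    J K t * volume (closedBall (0 : E n) 1) ^ 2 = J (closedBall (0 : E n) 1) t * volume K ^ 2 := by
  have hB : SymBody (closedBall (0 : E n) 1) := closedBall_sym one_pos
  have hv := vol_fin hK
  have hb := vol_fin hB
  have hvv := ENNReal.mul_ne_top hv hv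
  have hbb := ENNReal.mul_ne_top hb hb
  have hke := kap_eq hn hK hq.le
  rw [h, Ph_real hK hq.le] at hke
  have hPe : Ph (closedBall (0 : E n) 1) q * (volume K * volume K) =
      Ph K q * (volume (closedBall (0 : E n) 1) * volume (closedBall (0 : E n) 1)) := by
    rw [← ENNReal.toReal_eq_toReal_iff' (ENNReal.mul_ne_top (Ph_fin hB hq.le) hvv)
      (ENNReal.mul_ne_top (Ph_fin hK hq.le) hbb)]
    simp only [ENNReal.toReal_mul]
    exact hke.symm
  rw [Ph_lay hB hK hq, Ph_lay hK hB hq] at hPe
  have hq0 : ENNReal.ofReal q ≠ 0 := by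
    rw [Ne, ENNReal.ofReal_eq_zero, not_le]; exact hq
  have hIe : ∫⁻ s in Ioi (0 : ℝ), lay (closedBall (0 : E n) 1) K q s =
      ∫⁻ s in Ioi (0 : ℝ), lay K (closedBall (0 : E n) 1) q s :=
    (ENNReal.mul_right_inj hq0 ENNReal.ofReal_ne_top).1 hPe
  have hfin : ∫⁻ s in Ioi (0 : ℝ), lay (closedBall (0 : E n) 1) K q s ≠ ⊤ := by
    intro htop
    have h1 := Ph_lay hB hK hq
    rw [htop, ENNReal.mul_top hq0] at h1
    exact ENNReal.mul_ne_top (Ph_fin hB hq.le) hvv h1
  have hmeas : ∀ L : Set (E n), Measurable fun s : ℝ => (volume.prod volume) (AA L s) :=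
    fun L => Monotone.measurable fun a b hab => measure_mono (AA_mono hab)
  have hlm : Measurable fun s : ℝ => lay K (closedBall (0 : E n) 1) q s := by
    unfold lay
    refine Measurable.mul_const (Measurable.mul (measurable_const.sub (hmeas K)) ?_) _
    exact ENNReal.measurable_ofReal.comp (measurable_id.pow_const _)
  have hae := ae_eq_of_ae_le_of_lintegral_le
    ((ae_restrict_iff' measurableSet_Ioi).2 (Eventually.of_forall fun s hs => lay_le hn hK hs))
    hfin hlm.aemeasurable hIe.ge
  have hgood : ∀ᵐ s : ℝ, s ∈ Ioi (0 : ℝ) →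
      (volume.prod volume) (AA K s) * volume (closedBall (0 : E n) 1) ^ 2 =
        (volume.prod volume) (AA (closedBall (0 : E n) 1) s) * volume K ^ 2 := by
    have h1 := (ae_restrict_iff' measurableSet_Ioi).1 hae
    filter_upwards [h1] with s hs hs0
    have h2 := hs hs0
    unfold lay at h2
    have hw0 : ENNReal.ofReal (s ^ (q - 1)) ≠ 0 := by
      rw [Ne, ENNReal.ofReal_eq_zero, not_le]
      exact Real.rpow_pos_of_pos hs0 _
    have h3 : ENNReal.ofReal (s ^ (q - 1)) *
        ((volume (closedBall (0 : E n) 1) * volume (closedBall (0 : E n) 1) -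
          (volume.prod volume) (AA (closedBall (0 : E n) 1) s)) * (volume K * volume K)) =
        ENNReal.ofReal (s ^ (q - 1)) *
        ((volume K * volume K - (volume.prod volume) (AA K s)) *
          (volume (closedBall (0 : E n) 1) * volume (closedBall (0 : E n) 1))) := by
      calc _ = _ := by ring
        _ = _ := h2
        _ = _ := by ring
    have h4 := (ENNReal.mul_right_inj hw0 ENNReal.ofReal_ne_top).1 h3
    rw [ENNReal.sub_mul fun _ _ => hvv, ENNReal.sub_mul fun _ _ => hbb,
      mul_comm (volume (closedBall (0 : E n) 1) * volume (closedBall (0 : E n) 1))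
        (volume K * volume K)] at h4
    have h5 := (ENNReal.sub_right_inj (ENNReal.mul_ne_top hvv hbb) (by
        rw [mul_comm (volume K * volume K)]
        exact mul_le_mul_left (AA_le _ s) _) (mul_le_mul_left (AA_le _ s) _)).1 h4
    rw [sq, sq]
    exact h5.symm
  have hdense : Dense {s : ℝ | s ∈ Ioi (0 : ℝ) →
      (volume.prod volume) (AA K s) * volume (closedBall (0 : E n) 1) ^ 2 =
        (volume.prod volume) (AA (closedBall (0 : E n) 1) s) * volume K ^ 2} :=
    Measure.dense_of_ae hgood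
  have hex : ∀ k : ℕ, ∃ s, t < s ∧ s < t + 1 / ((k : ℝ) + 1) ∧
      (volume.prod volume) (AA K s) * volume (closedBall (0 : E n) 1) ^ 2 =
        (volume.prod volume) (AA (closedBall (0 : E n) 1) s) * volume K ^ 2 := by
    intro k
    have hk : (0 : ℝ) < 1 / ((k : ℝ) + 1) := by positivity
    obtain ⟨s, hs1, hs2⟩ := hdense.exists_mem_open isOpen_Ioo
      (nonempty_Ioo.2 (by linarith : t < t + 1 / ((k : ℝ) + 1)))
    exact ⟨s, hs2.1, hs2.2, hs1 (ht.trans hs2.1)⟩
  have hb2 : volume (closedBall (0 : E n) 1) ^ 2 ≠ ⊤ := ENNReal.pow_ne_top hb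
  have hv2 : volume K ^ 2 ≠ ⊤ := ENNReal.pow_ne_top hv
  rw [J_eq_AA hK ht, J_eq_AA hB ht]
  apply le_antisymm
  · refine ge_of_tendsto' (ENNReal.Tendsto.mul_const (AA_tendsto hB t) (Or.inr hv2)) fun k => ?_
    obtain ⟨s, h1, h2, h3⟩ := hex k
    calc _ ≤ (volume.prod volume) (AA K s) * volume (closedBall (0 : E n) 1) ^ 2 := by
            gcongr; exact AA_mono h1.le
      _ = _ := h3
      _ ≤ _ := by gcongr; exact AA_mono h2.le
  · refine ge_of_tendsto' (ENNReal.Tendsto.mul_const (AA_tendsto hK t) (Or.inr hb2)) fun k => ?_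
    obtain ⟨s, h1, h2, h3⟩ := hex k
    calc _ ≤ (volume.prod volume) (AA (closedBall (0 : E n) 1) s) * volume K ^ 2 := by
            gcongr; exact AA_mono h1.le
      _ = _ := h3.symm
      _ ≤ _ := by gcongr; exact AA_mono h2.le

end RMB
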