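import Pool.Agent.RMB.R4
import Pool.Agent.RMB.G3

/-!
# RMB-R8: equality in the Riesz inequality: midpoints

Let `a = hl`, `mu = mid`.  Hypothesis: `J (steiner u K) t = J K t` for all `t > 0`.

CLAIM: if `y, y', z = (y-y')/t ∈ interior proj` and `|a y - a y'| < t a z < a y + a y'` then
`mu y - mu y' = t mu z`.

PROOF.  Fix `t`.  By `J_eq` for `K` and `steiner u K` (same `proj` and `hl`, `mid = 0`) and `V3_le`, the
difference of the two integrands is `≥ 0` and has integral 0 (both integrals finite), so it vanishes for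
almost every `(y,y')`.  Let `O` be the set of `(y,y')` with `y, y', z ∈ interior proj`, the two strict
inequalities, and `δ = mu y - mu y' - t mu z ≠ 0`.  `O` is open (`a`, `mu` continuous on the open
set `interior proj`) and on `O` the difference is positive by `V3_lt`; so `O` is a null set, hence empty.
-/

set_option autoImplicit false

open MeasureTheory Set Metric Filter Topology
open scoped RealInnerProductSpace ENNReal

namespace RMB

theorem eq_mid {m : ℕ} {Φ : (ℝ × E m) ≃L[ℝ] E (m + 1)} {u : E (m + 1)} (hΦ : IsCoord Φ u)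
    {K : Set (E (m + 1))} (hK : SymBody K) {t : ℝ} (ht : 0 < t)
    (hJ : J (steiner u K) t = J K t) {y y' : E m} (hy : y ∈ interior (proj Φ K))
    (hy' : y' ∈ interior (proj Φ K)) (hz : t⁻¹ • (y - y') ∈ interior (proj Φ K))
    (h1 : |hl Φ K y - hl Φ K y'| < t * hl Φ K (t⁻¹ • (y - y')))
    (h2 : t * hl Φ K (t⁻¹ • (y - y')) < hl Φ K y + hl Φ K y') :
    mid Φ K y - mid Φ K y' = t * mid Φ K (t⁻¹ • (y - y')) := by
  by_contra hne
  have hδ : mid Φ K y - mid Φ K y' - t * mid Φ K (t⁻¹ • (y - y')) ≠ 0 := sub_ne_zero.mpr hne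
  have hu : ‖u‖ = 1 := by
    have h := hΦ.ip (1, 0) (1, 0)
    rw [hΦ.dir] at h
    simp only [inner_zero_right, mul_one, add_zero] at h
    rw [real_inner_self_eq_norm_sq] at h
    nlinarith [norm_nonneg u]
  have hPc : IsCompact (proj Φ K) := isCompact_proj hK.compact
  have hPm : MeasurableSet (proj Φ K) := hPc.measurableSet
  have hh : Measurable (hl Φ K) := measurable_hl hK.compact
  have hd : Measurable (mid Φ K) := measurable_mid hK.compact
  obtain ⟨hproj, hsec⟩ := steiner_sec hΦ hK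
  have hS := steiner_body hu hK
  have hZc : Continuous (fun p : E m × E m => t⁻¹ • (p.1 - p.2)) :=
    by fun_prop
  have key : ∀ D : E m × E m → ℝ, Measurable D → Measurable (fun p : E m × E m =>
      (proj Φ K).indicator (fun z => V3 (hl Φ K p.1) (hl Φ K p.2) (t * hl Φ K z) (D p))
        (t⁻¹ • (p.1 - p.2))) := by
    intro D hD
    have h3 : (fun p : E m × E m =>
      (proj Φ K).indicator (fun z => V3 (hl Φ K p.1) (hl Φ K p.2) (t * hl Φ K z) (D p))
        (t⁻¹ • (p.1 - p.2))) = ((fun p : E m × E m => t⁻¹ • (p.1 - p.2)) ⁻¹' (proj Φ K)).indicator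
        (fun p => V3 (hl Φ K p.1) (hl Φ K p.2) (t * hl Φ K (t⁻¹ • (p.1 - p.2))) (D p)) := by
      funext p
      by_cases hp : t⁻¹ • (p.1 - p.2) ∈ proj Φ K
      · rw [indicator_of_mem hp, indicator_of_mem (show p ∈ (fun p : E m × E m =>
          t⁻¹ • (p.1 - p.2)) ⁻¹' (proj Φ K) from hp)]
      · rw [indicator_of_notMem hp, indicator_of_notMem (show p ∉ (fun p : E m × E m =>
          t⁻¹ • (p.1 - p.2)) ⁻¹' (proj Φ K) from hp)]
    rw [h3]
    apply Measurable.indicator _ (hZc.measurable hPm)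
    exact measurable_V3.comp (f := fun p : E m × E m => (hl Φ K p.1, hl Φ K p.2,
      t * hl Φ K (t⁻¹ • (p.1 - p.2)), D p)) ((hh.comp measurable_fst).prodMk
      ((hh.comp measurable_snd).prodMk (((hh.comp hZc.measurable).const_mul t).prodMk hD)))
  have hFm := key (fun p => mid Φ K p.1 - mid Φ K p.2 - t * mid Φ K (t⁻¹ • (p.1 - p.2)))
    (((hd.comp measurable_fst).sub (hd.comp measurable_snd)).sub
      ((hd.comp hZc.measurable).const_mul t))
  have hGm := key (fun _ => 0) measurable_const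
  have hF : J K t = ∫⁻ p : E m × E m, (proj Φ K).indicator (fun z => V3 (hl Φ K p.1) (hl Φ K p.2)
      (t * hl Φ K z) (mid Φ K p.1 - mid Φ K p.2 - t * mid Φ K (t⁻¹ • (p.1 - p.2))))
        (t⁻¹ • (p.1 - p.2)) ∂((volume.restrict (proj Φ K)).prod (volume.restrict (proj Φ K))) := by
    rw [lintegral_prod _ hFm.aemeasurable, J_eq hΦ hK ht]
    apply lintegral_congr
    intro a
    apply lintegral_congr
    intro b
    by_cases hp : t⁻¹ • (a - b) ∈ proj Φ K
    · rw [indicator_of_mem hp, indicator_of_mem hp]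
    · rw [indicator_of_notMem hp, indicator_of_notMem hp]
  have hG : J (steiner u K) t = ∫⁻ p : E m × E m, (proj Φ K).indicator (fun z =>
      V3 (hl Φ K p.1) (hl Φ K p.2) (t * hl Φ K z) 0)
        (t⁻¹ • (p.1 - p.2)) ∂((volume.restrict (proj Φ K)).prod (volume.restrict (proj Φ K))) := by
    rw [lintegral_prod _ hGm.aemeasurable, J_eq hΦ hS ht, hproj]
    apply lintegral_congr
    intro a
    apply lintegral_congr
    intro b
    by_cases hp : t⁻¹ • (a - b) ∈ proj Φ K
    · rw [indicator_of_mem hp, indicator_of_mem hp, (hsec _).1, (hsec _).1, (hsec _).1, (hsec _).2,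
        (hsec _).2, (hsec _).2]
      simp
    · rw [indicator_of_notMem hp, indicator_of_notMem hp]
  have hle : ∀ p : E m × E m, (proj Φ K).indicator (fun z => V3 (hl Φ K p.1) (hl Φ K p.2)
      (t * hl Φ K z) (mid Φ K p.1 - mid Φ K p.2 - t * mid Φ K (t⁻¹ • (p.1 - p.2))))
        (t⁻¹ • (p.1 - p.2)) ≤ (proj Φ K).indicator (fun z =>
      V3 (hl Φ K p.1) (hl Φ K p.2) (t * hl Φ K z) 0) (t⁻¹ • (p.1 - p.2)) := by
    intro p
    apply indicator_le_indicator
    exact V3_le (hl_nonneg hK.compact _) (hl_nonneg hK.compact _)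
      (mul_nonneg ht.le (hl_nonneg hK.compact _)) _
  have hfin : J K t ≠ ⊤ :=
    ne_top_of_le_ne_top (ENNReal.pow_ne_top hK.compact.measure_lt_top.ne) (J_le_sq K t)
  have hae := ae_eq_of_ae_le_of_lintegral_le (Eventually.of_forall hle) (hF ▸ hfin)
    hGm.aemeasurable (by rw [← hF, ← hG, hJ])
  -- the open set
  have hopen := isOpen_interior (s := proj Φ K)
  have hhc := continuousOn_hl (Φ := Φ) hK.compact hK.convex
  have hdc := continuousOn_mid (Φ := Φ) hK.compact hK.convex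
  have c1 : ContinuousAt (fun p : E m × E m => p.1) (y, y') := continuousAt_fst
  have c2 : ContinuousAt (fun p : E m × E m => p.2) (y, y') := continuousAt_snd
  have c3 : ContinuousAt (fun p : E m × E m => t⁻¹ • (p.1 - p.2)) (y, y') := hZc.continuousAt
  have ch : ∀ w ∈ interior (proj Φ K), ContinuousAt (hl Φ K) w := fun w hw =>
    hhc.continuousAt (hopen.mem_nhds hw)
  have cd : ∀ w ∈ interior (proj Φ K), ContinuousAt (mid Φ K) w := fun w hw =>
    hdc.continuousAt (hopen.mem_nhds hw)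
  have ch1 : ContinuousAt (fun p : E m × E m => hl Φ K p.1) (y, y') :=
    ContinuousAt.comp (g := hl Φ K) (ch y hy) c1
  have ch2 : ContinuousAt (fun p : E m × E m => hl Φ K p.2) (y, y') :=
    ContinuousAt.comp (g := hl Φ K) (ch y' hy') c2
  have ch3 : ContinuousAt (fun p : E m × E m => hl Φ K (t⁻¹ • (p.1 - p.2))) (y, y') :=
    ContinuousAt.comp (g := hl Φ K) (f := fun p : E m × E m => t⁻¹ • (p.1 - p.2)) (ch _ hz) c3
  have cd1 : ContinuousAt (fun p : E m × E m => mid Φ K p.1) (y, y') :=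
    ContinuousAt.comp (g := mid Φ K) (cd y hy) c1
  have cd2 : ContinuousAt (fun p : E m × E m => mid Φ K p.2) (y, y') :=
    ContinuousAt.comp (g := mid Φ K) (cd y' hy') c2
  have cd3 : ContinuousAt (fun p : E m × E m => mid Φ K (t⁻¹ • (p.1 - p.2))) (y, y') :=
    ContinuousAt.comp (g := mid Φ K) (f := fun p : E m × E m => t⁻¹ • (p.1 - p.2)) (cd _ hz) c3
  have e1 : ∀ᶠ p in 𝓝 (y, y'), p.1 ∈ interior (proj Φ K) := c1 (hopen.mem_nhds hy)
  have e2 : ∀ᶠ p in 𝓝 (y, y'), p.2 ∈ interior (proj Φ K) := c2 (hopen.mem_nhds hy')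
  have e3 : ∀ᶠ p in 𝓝 (y, y'), t⁻¹ • (p.1 - p.2) ∈ interior (proj Φ K) := c3 (hopen.mem_nhds hz)
  have e4 : ∀ᶠ p in 𝓝 (y, y'), |hl Φ K p.1 - hl Φ K p.2| < t * hl Φ K (t⁻¹ • (p.1 - p.2)) :=
    (ch1.sub ch2).abs.eventually_lt (ch3.const_mul t) h1
  have e5 : ∀ᶠ p in 𝓝 (y, y'), t * hl Φ K (t⁻¹ • (p.1 - p.2)) < hl Φ K p.1 + hl Φ K p.2 :=
    (ch3.const_mul t).eventually_lt (ch1.add ch2) h2
  have e6 : ∀ᶠ p in 𝓝 (y, y'),
      mid Φ K p.1 - mid Φ K p.2 - t * mid Φ K (t⁻¹ • (p.1 - p.2)) ≠ 0 :=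
    ((cd1.sub cd2).sub (cd3.const_mul t)).eventually_ne hδ
  have hN : {p : E m × E m | p.1 ∈ interior (proj Φ K) ∧ p.2 ∈ interior (proj Φ K) ∧
      t⁻¹ • (p.1 - p.2) ∈ interior (proj Φ K) ∧
      |hl Φ K p.1 - hl Φ K p.2| < t * hl Φ K (t⁻¹ • (p.1 - p.2)) ∧
      t * hl Φ K (t⁻¹ • (p.1 - p.2)) < hl Φ K p.1 + hl Φ K p.2 ∧
      mid Φ K p.1 - mid Φ K p.2 - t * mid Φ K (t⁻¹ • (p.1 - p.2)) ≠ 0} ∈ 𝓝 (y, y') := by
    filter_upwards [e1, e2, e3, e4, e5, e6] with p a1 a2 a3 a4 a5 a6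
    exact ⟨a1, a2, a3, a4, a5, a6⟩
  have hpos := Measure.measure_pos_of_mem_nhds (volume.prod volume : Measure (E m × E m)) hN
  rw [Measure.prod_restrict] at hae
  have hzero := ae_iff.mp ((ae_restrict_iff' (hPm.prod hPm)).mp hae)
  refine hpos.ne' (measure_mono_null ?_ hzero)
  rintro p ⟨a1, a2, a3, a4, a5, a6⟩
  simp only [mem_ofPred_eq, Classical.not_imp]
  refine ⟨⟨interior_subset a1, interior_subset a2⟩, ?_⟩
  rw [indicator_of_mem (interior_subset a3), indicator_of_mem (interior_subset a3)]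
  exact (V3_lt (hl_nonneg hK.compact _) (hl_nonneg hK.compact _)
    (mul_nonneg ht.le (hl_nonneg hK.compact _)) a6 a4 a5).ne

end RMB
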