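import Pool.Agent.RMB.D9
import Pool.Agent.RMB.D10
import Pool.Agent.RMB.R7
import Pool.Agent.RMB.H4

/-!
# RMB-Z1: the planar upper bound

`planar_kap`: `kap 2 (p-2) = 2^(p+1)/(p+2) · mcos p`: `ball_kappa` with `n = 2`, `q = p - 2`, and
`planar_moment`, `planar_vol` for the ball (`gauge (closedBall 0 1) (ev θ) = 1`, so
`Gam = ∫_0^π |cos(t-φ)|^p dt = π mcos p`, `vol = π`).

`planar_pointwise`: with `V = vol K`, `h = supp K`:
`V c^p h(ev φ)^p ≤ 2^p (2/(p+2)) Gam(φ)`: `planar_cover` gives `u`; `CH` gives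
`chordInt p K u ⟨u,ev φ⟩^p ≤ 2^p ∫_K |⟨x,ev φ⟩|^p`, and the left side is
`V (c ρ(u))^p ⟨u,ev φ⟩^p = V c^p h^p`; right side `planar_moment`.

`planar_upper`: multiply by `h^(-(p+2)) > 0`, integrate over `[0,π]`, use `gauge_ineq` for
`g θ = gauge K (ev θ)` (`planar_gauge`, `planar_supp`, `planar_vol`):
`V c^p ∫h^(-2) ≤ (2^(p+1)/(p+2)) ∫ h^(-(p+2)) Gam ≤ kap 2 (p-2) · ∫h^(-2) · V`, so `c^p ≤ kap 2 (p-2)`.
-/

set_option autoImplicit false

open MeasureTheory Set Metric Filter Topology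
open scoped RealInnerProductSpace ENNReal

namespace RMB

variable {p : ℝ} {K : Set (E 2)} {c : ℝ}

theorem planar_kap (hp : 2 ≤ p) : kap 2 (p - 2) = 2 ^ (p + 1) / (p + 2) * mcos p := by
  have hb := ball_kappa (n := 2) (by norm_num) (q := p - 2) (by linarith) (ev_norm 0)
  have e1 : (((2 : ℕ) : ℝ) + (p - 2)) = p := by push_cast; ring
  rw [e1] at hb
  have hS : SymBody (closedBall (0 : E 2) 1) := closedBall_sym one_pos
  have hg : (fun θ => gauge (closedBall (0 : E 2) 1) (ev θ)) = fun _ => (1 : ℝ) := by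
    funext θ
    rw [gauge_closedBall zero_le_one, ev_norm, div_one]
  have hm := planar_moment hS (p := p) (by linarith) 0
  have hv := planar_vol hS
  rw [hg] at hm
  have hv2 : volume.real (closedBall (0 : E 2) 1) = Real.pi := by
    rw [hv]
    have : (fun t => gauge (closedBall (0 : E 2) 1) (ev t) ^ (-2 : ℝ)) = fun _ => (1 : ℝ) := by
      funext θ
      rw [gauge_closedBall zero_le_one, ev_norm, div_one, Real.one_rpow]
    rw [this]
    simp
  have hG : Gam (fun _ => (1 : ℝ)) p 0 = Real.pi * mcos p := by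
    unfold Gam mcos
    simp only [Real.one_rpow, one_mul, sub_zero]
    rw [← mul_assoc, mul_inv_cancel₀ Real.pi_ne_zero, one_mul]
  rw [hm, hG, hv2] at hb
  have hp2 : (p + 2) ≠ 0 := by linarith
  have h2 : (2 : ℝ) ^ (p + 1) = 2 ^ p * 2 := by
    rw [Real.rpow_add (by norm_num), Real.rpow_one]
  rw [h2]
  have hpi := Real.pi_ne_zero
  have : kap 2 (p - 2) * Real.pi = (2 ^ p * 2 / (p + 2) * mcos p) * Real.pi := by
    rw [← hb]; ring
  exact mul_right_cancel₀ hpi this

theorem planar_pointwise (hp : 2 ≤ p) (hK : SymBody K) (hc : 0 < c)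
    (hfix : ∀ u : E 2, ‖u‖ = 1 → chordInt p K u = volume.real K * (c * radial K u) ^ p) (φ : ℝ) :
    volume.real K * c ^ p * hsup (fun θ => gauge K (ev θ)) φ ^ p ≤
      2 ^ (p + 1) / (p + 2) * Gam (fun θ => gauge K (ev θ)) p φ := by
  obtain ⟨u, hu, hpos, heq⟩ := planar_cover hK φ
  have h1 := CH hK.toIsBody hu hpos (show (1 : ℝ) ≤ p by linarith)
  rw [hfix u hu, planar_moment hK (by linarith) φ] at h1
  rw [← planar_supp hK φ, ← heq]
  have hr := radial_nonneg K u
  rw [Real.mul_rpow hr hpos.le]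
  rw [Real.mul_rpow hc.le hr] at h1
  have h2 : (2 : ℝ) ^ (p + 1) = 2 ^ p * 2 := by
    rw [Real.rpow_add (by norm_num), Real.rpow_one]
  rw [h2]
  calc volume.real K * c ^ p * (radial K u ^ p * ⟪u, ev φ⟫ ^ p)
      = volume.real K * (c ^ p * radial K u ^ p) * ⟪u, ev φ⟫ ^ p := by ring
    _ ≤ 2 ^ p * (2 / (p + 2) * Gam (fun θ => gauge K (ev θ)) p φ) := h1
    _ = 2 ^ p * 2 / (p + 2) * Gam (fun θ => gauge K (ev θ)) p φ := by ring

theorem planar_upper (hp : 2 ≤ p) (hK : SymBody K) (hc : 0 < c)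
    (hfix : ∀ u : E 2, ‖u‖ = 1 → chordInt p K u = volume.real K * (c * radial K u) ^ p) :
    c ^ p ≤ kap 2 (p - 2) := by
  have hG := planar_gauge hK
  have hV := hK.toIsBody.volume_pos
  have hptw := fun φ => planar_pointwise hp hK hc hfix φ
  have hin := gauge_ineq hG hp
  have hvol := planar_vol hK
  obtain ⟨a, b, ha, hab⟩ := hG.bounds
  have hcont : Continuous (hsup (fun θ => gauge K (ev θ))) := hsup_cont ha (fun t => (hab t).1)
  have hGc : Continuous (Gam (fun θ => gauge K (ev θ)) p) := Gam_cont hG.cont hG.pos (by linarith)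
  have hb : 0 < b := lt_of_lt_of_le ha ((hab 0).1.trans (hab 0).2)
  have hpos : ∀ φ, 0 < hsup (fun θ => gauge K (ev θ)) φ := fun φ =>
    lt_of_lt_of_le (by positivity) (hsup_bounds ha (fun t => (hab t).1) (fun t => (hab t).2) φ).1
  rw [planar_kap hp]
  set h := hsup (fun θ => gauge K (ev θ)) with hh
  set G := Gam (fun θ => gauge K (ev θ)) p with hGd
  set V := volume.real K with hVd
  have hc1 : Continuous fun φ => h φ ^ (-2 : ℝ) :=
    hcont.rpow_const fun φ => Or.inl (hpos φ).ne'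
  have hc2 : Continuous fun φ => h φ ^ (-(p + 2)) :=
    hcont.rpow_const fun φ => Or.inl (hpos φ).ne'
  have hI : ∫ φ in (0 : ℝ)..Real.pi, V * c ^ p * h φ ^ (-2 : ℝ) ≤
      ∫ φ in (0 : ℝ)..Real.pi, 2 ^ (p + 1) / (p + 2) * (h φ ^ (-(p + 2)) * G φ) := by
    apply intervalIntegral.integral_mono_on Real.pi_pos.le
    · exact (continuous_const.mul hc1).intervalIntegrable _ _
    · exact (continuous_const.mul (hc2.mul hGc)).intervalIntegrable _ _
    · intro φ _
      have h3 : h φ ^ (-2 : ℝ) = h φ ^ p * h φ ^ (-(p + 2)) := by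
        rw [← Real.rpow_add (hpos φ)]
        congr 1
        ring
      have h4 : 0 ≤ h φ ^ (-(p + 2)) := Real.rpow_nonneg (hpos φ).le _
      calc V * c ^ p * h φ ^ (-2 : ℝ) = (V * c ^ p * h φ ^ p) * h φ ^ (-(p + 2)) := by
            rw [h3]; ring
        _ ≤ (2 ^ (p + 1) / (p + 2) * G φ) * h φ ^ (-(p + 2)) :=
            mul_le_mul_of_nonneg_right (hptw φ) h4
        _ = 2 ^ (p + 1) / (p + 2) * (h φ ^ (-(p + 2)) * G φ) := by ring
  rw [intervalIntegral.integral_const_mul, intervalIntegral.integral_const_mul] at hI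
  have hpos1 : 0 < ∫ φ in (0 : ℝ)..Real.pi, h φ ^ (-2 : ℝ) := by
    apply intervalIntegral.intervalIntegral_pos_of_pos_on (hc1.intervalIntegrable _ _)
    · intro φ _
      exact Real.rpow_pos_of_pos (hpos φ) _
    · exact Real.pi_pos
  have hC : (0 : ℝ) ≤ 2 ^ (p + 1) / (p + 2) := by
    have : (0 : ℝ) < p + 2 := by linarith
    positivity
  have h5 := hI.trans (mul_le_mul_of_nonneg_left hin hC)
  rw [← hvol] at h5
  have h6 : c ^ p * (V * ∫ φ in (0 : ℝ)..Real.pi, h φ ^ (-2 : ℝ)) ≤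
      (2 ^ (p + 1) / (p + 2) * mcos p) * (V * ∫ φ in (0 : ℝ)..Real.pi, h φ ^ (-2 : ℝ)) := by
    calc _ = V * c ^ p * ∫ φ in (0 : ℝ)..Real.pi, h φ ^ (-2 : ℝ) := by ring
      _ ≤ _ := h5
      _ = _ := by ring
  exact le_of_mul_le_mul_right h6 (mul_pos hV hpos1)

theorem planar_lower (hp : 2 ≤ p) (hK : SymBody K) (hc : 0 < c)
    (hfix : ∀ u : E 2, ‖u‖ = 1 → chordInt p K u = volume.real K * (c * radial K u) ^ p) :
    kap 2 (p - 2) ≤ c ^ p := by
  have hq : (0 : ℝ) ≤ p - 2 := by linarith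
  have h1 := riesz_gauge (n := 2) (by norm_num) hK hq
  have e1 : (((2 : ℕ) : ℝ) + (p - 2)) = p := by push_cast; ring
  have hf : Continuous fun x : E 2 => gauge K x ^ (p - 2) :=
    hK.gauge_cont.rpow_const fun x => Or.inr hq
  have h2 := fixed_int (n := 2) (by norm_num) hK hq hc (by rw [e1]; exact hfix) hf (by
    intro r hr x
    show gauge K (r • x) ^ (p - 2) = r ^ (p - 2) * gauge K x ^ (p - 2)
    rw [gauge_smul_of_nonneg hr.le, smul_eq_mul, Real.mul_rpow hr.le (gauge_nonneg x)])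
  rw [e1] at h2
  have h3 : kap 2 (p - 2) * (volume.real K * ∫ x in K, gauge K x ^ (p - 2)) ≤
      c ^ p * (volume.real K * ∫ x in K, gauge K x ^ (p - 2)) := h1.trans (le_of_eq h2)
  have hV := hK.toIsBody.volume_pos
  have hW : 0 < ∫ x in K, gauge K x ^ (p - 2) := by
    rw [setIntegral_pos_iff_support_of_nonneg_ae]
    · have hsub : K \ {0} ⊆ Function.support (fun x : E 2 => gauge K x ^ (p - 2)) ∩ K := by
        rintro x ⟨hx, hx0⟩
        exact ⟨(Real.rpow_pos_of_pos (hK.gauge_pos hx0) _).ne', hx⟩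
      refine lt_of_lt_of_le ?_ (measure_mono hsub)
      rw [measure_diff_null (measure_singleton _)]
      rw [Measure.real] at hV
      exact (ENNReal.toReal_pos_iff.mp hV).1
    · exact Filter.Eventually.of_forall fun x => Real.rpow_nonneg (gauge_nonneg x) _
    · exact hf.continuousOn.integrableOn_compact hK.compact
  exact le_of_mul_le_mul_right h3 (mul_pos hV hW)

end RMB
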