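import Pool.Agent.RMB.Z1
import Pool.Agent.RMB.G10

/-!
# RMB-Z2: the planar theorem (`p ≥ 2`)

By Z1, `c^p = kap 2 (p-2)`.  So the integrated inequality in `planar_upper` is an equality:
with `V = vol K`, `h = hsup g`, `g θ = gauge K (ev θ)`, `F₁(φ) = V c^p h(φ)^(-2)`,
`F₂(φ) = (2^(p+1)/(p+2)) h(φ)^(-(p+2)) Gam(φ)`: `F₁ ≤ F₂` pointwise (`planar_pointwise`),
`∫_0^π F₂ ≤ V kap ∫_0^π h^(-2) = ∫_0^π F₁` (`gauge_ineq`, `planar_kap`, `planar_vol`); both are continuous
(`hsup_cont`, `Gam_cont`), so `F₁ = F₂` on `[0,π]`, and everywhere since both are `π`-periodic.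
So `V c^p h(φ)^p = (2^(p+1)/(p+2)) Gam(φ) = 2^p ∫_K |⟨x,ev φ⟩|^p` for all `φ`.
For a unit vector `u` take `φ` from `planar_supporting`; then
`chordInt p K u · ⟨u,ev φ⟩^p = V c^p (ρ(u)⟨u,ev φ⟩)^p = V c^p h^p = 2^p ∫_K |⟨x,ev φ⟩|^p`, and `CH_eq`
(`p > 1`) shows that `K` is invariant under `orefl u (ev φ)`.  Conclude with `ellipsoid_of_orefl`.
-/

set_option autoImplicit false

open MeasureTheory Set Metric Filter Topology
open scoped RealInnerProductSpace ENNReal

namespace RMB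

variable {p : ℝ} {K : Set (E 2)} {c : ℝ}

private theorem hsup_per {g : ℝ → ℝ} (hper : ∀ t, g (t + Real.pi) = g t) (φ : ℝ) :
    hsup g (φ + Real.pi) = hsup g φ := by
  unfold hsup
  have h := (Equiv.addRight Real.pi).surjective.iSup_comp
    (g := fun t : ℝ => Real.cos (t - (φ + Real.pi)) / g t)
  rw [← h]
  refine iSup_congr fun t => ?_
  have h1 : (Equiv.addRight Real.pi) t = t + Real.pi := rfl
  rw [h1, hper t]
  have h2 : t + Real.pi - (φ + Real.pi) = t - φ := by ring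
  rw [h2]

private theorem Gam_per (g : ℝ → ℝ) (p φ : ℝ) : Gam g p (φ + Real.pi) = Gam g p φ := by
  unfold Gam
  refine intervalIntegral.integral_congr fun t _ => ?_
  have h2 : t - (φ + Real.pi) = (t - φ) - Real.pi := by ring
  simp only [h2, Real.cos_sub_pi, abs_neg]

theorem planar_equality (hp : 2 ≤ p) (hK : SymBody K) (hc : 0 < c)
    (hfix : ∀ u : E 2, ‖u‖ = 1 → chordInt p K u = volume.real K * (c * radial K u) ^ p) (φ : ℝ) :
    volume.real K * c ^ p * hsup (fun θ => gauge K (ev θ)) φ ^ p =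
      2 ^ (p + 1) / (p + 2) * Gam (fun θ => gauge K (ev θ)) p φ := by
  have hpt := planar_pointwise hp hK hc hfix
  have hup := planar_upper hp hK hc hfix
  have hlo := planar_lower hp hK hc hfix
  have hkap := planar_kap hp
  have hg := planar_gauge hK
  have hvol := planar_vol hK
  have hgi := gauge_ineq hg hp
  rw [← hvol] at hgi
  clear hvol
  generalize (fun θ => gauge K (ev θ)) = g at hpt hg hgi ⊢
  have hcp : c ^ p = 2 ^ (p + 1) / (p + 2) * mcos p := by rw [← hkap]; exact le_antisymm hup hlo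
  generalize hC : (2 : ℝ) ^ (p + 1) / (p + 2) = C at hpt hcp ⊢
  generalize volume.real K = V at hpt hgi ⊢
  obtain ⟨a, b, ha, hab⟩ := hg.bounds
  have hb : 0 < b := lt_of_lt_of_le ha ((hab 0).1.trans (hab 0).2)
  have hC0 : 0 < C := by
    rw [← hC]
    have : (0 : ℝ) < p + 2 := by linarith
    positivity
  have hh_pos : ∀ ψ, 0 < hsup g ψ := fun ψ =>
    lt_of_lt_of_le (by positivity) (hsup_bounds ha (fun t => (hab t).1) (fun t => (hab t).2) ψ).1
  have hh_cont : Continuous (hsup g) := hsup_cont ha (fun t => (hab t).1)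
  have hG_cont : Continuous (Gam g p) := Gam_cont hg.cont hg.pos (by linarith)
  -- the nonnegative difference
  have hpow : ∀ ψ, hsup g ψ ^ (-(p + 2)) * hsup g ψ ^ p = hsup g ψ ^ (-2 : ℝ) := by
    intro ψ
    rw [← Real.rpow_add (hh_pos ψ)]
    congr 1
    ring
  have hcont_pow : ∀ r : ℝ, Continuous fun ψ => hsup g ψ ^ r := fun r =>
    hh_cont.rpow_const fun ψ => Or.inl (hh_pos ψ).ne'
  have hD_cont : Continuous fun ψ => hsup g ψ ^ (-(p + 2)) *
      (C * Gam g p ψ - V * c ^ p * hsup g ψ ^ p) :=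
    (hcont_pow _).mul ((continuous_const.mul hG_cont).sub (continuous_const.mul (hcont_pow _)))
  have hint : ∫ ψ in (0 : ℝ)..Real.pi, hsup g ψ ^ (-(p + 2)) *
      (C * Gam g p ψ - V * c ^ p * hsup g ψ ^ p) ≤ 0 := by
    have e1 : ∀ ψ, hsup g ψ ^ (-(p + 2)) * (C * Gam g p ψ - V * c ^ p * hsup g ψ ^ p) =
        C * (hsup g ψ ^ (-(p + 2)) * Gam g p ψ) - V * c ^ p * hsup g ψ ^ (-2 : ℝ) := by
      intro ψ
      rw [← hpow ψ]
      ring
    simp only [e1]
    rw [intervalIntegral.integral_sub, intervalIntegral.integral_const_mul,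
      intervalIntegral.integral_const_mul]
    · have h3 := mul_le_mul_of_nonneg_left hgi hC0.le
      have h4 : C * (mcos p * ((∫ φ in (0 : ℝ)..Real.pi, hsup g φ ^ (-2 : ℝ)) * V)) =
          V * c ^ p * ∫ φ in (0 : ℝ)..Real.pi, hsup g φ ^ (-2 : ℝ) := by
        rw [hcp]; ring
      rw [h4] at h3
      linarith
    · exact (continuous_const.mul ((hcont_pow _).mul hG_cont)).intervalIntegrable _ _
    · exact (continuous_const.mul (hcont_pow _)).intervalIntegrable _ _
  have hzero : ∀ ψ ∈ Icc (0 : ℝ) Real.pi, C * Gam g p ψ - V * c ^ p * hsup g ψ ^ p = 0 := by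
    intro ψ hψ
    by_contra hne
    have h0 : 0 ≤ C * Gam g p ψ - V * c ^ p * hsup g ψ ^ p := by
      have := hpt ψ
      linarith
    have hpos : 0 < C * Gam g p ψ - V * c ^ p * hsup g ψ ^ p := lt_of_le_of_ne h0 (Ne.symm hne)
    have := intervalIntegral.integral_pos Real.pi_pos hD_cont.continuousOn
      (fun x _ => mul_nonneg (Real.rpow_nonneg (hh_pos x).le _) (by have := hpt x; linarith))
      ⟨ψ, hψ, mul_pos (Real.rpow_pos_of_pos (hh_pos ψ) _) hpos⟩
    linarith
  have hper : Function.Periodic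
      (fun ψ => C * Gam g p ψ - V * c ^ p * hsup g ψ ^ p) Real.pi := by
    intro ψ
    simp only [Gam_per, hsup_per hg.per]
  obtain ⟨y, hy, hyφ⟩ := hper.exists_mem_Ico₀ Real.pi_pos φ
  have h5 := hzero y ⟨hy.1, hy.2.le⟩
  have h6 : C * Gam g p φ - V * c ^ p * hsup g φ ^ p = 0 := by
    have h7 : C * Gam g p φ - V * c ^ p * hsup g φ ^ p =
      C * Gam g p y - V * c ^ p * hsup g y ^ p := hyφ
    rw [h7, h5]
  linarith

theorem planar_main (hp : 2 ≤ p) (hK : SymBody K) (hc : 0 < c)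
    (hfix : ∀ u : E 2, ‖u‖ = 1 → chordInt p K u = volume.real K * (c * radial K u) ^ p) :
    IsEllipsoid K := by
  refine ellipsoid_of_orefl (by norm_num) hK fun u hu => ?_
  obtain ⟨φ, h1, h2⟩ := planar_supporting hK hu
  have hp1 : 1 < p := by linarith
  refine ⟨ev φ, h1.ne', CH_eq hK.toIsBody hu h1 hp1 ?_⟩
  have h3 := planar_equality hp hK hc hfix φ
  rw [← planar_supp hK φ] at h3
  have h4 := planar_moment hK (by linarith : (0 : ℝ) < p) φ
  have hs := supp_pos hK φ
  have hr : 0 ≤ radial K u := radial_nonneg K u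
  rw [hfix u hu, h4]
  have h5 : (c * radial K u) ^ p * ⟪u, ev φ⟫ ^ p = c ^ p * supp K (ev φ) ^ p := by
    rw [← Real.mul_rpow (by positivity) h1.le, ← Real.mul_rpow hc.le hs.le, mul_assoc, h2]
  have h6 : volume.real K * (c * radial K u) ^ p * ⟪u, ev φ⟫ ^ p =
      volume.real K * c ^ p * supp K (ev φ) ^ p := by
    rw [mul_assoc, h5]; ring
  rw [h6, h3]
  have h7 : (2 : ℝ) ^ (p + 1) = 2 ^ p * 2 := by
    rw [Real.rpow_add (by norm_num), Real.rpow_one]
  rw [h7]
  ring

end RMB
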