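import Pool.Agent.RMB.G8
import Pool.Agent.RMB.H4
import Pool.Agent.RMB.R10

/-!
# RMB-Z3: the case `p = n + 2`

`f(z) = ‖z‖^(2:ℝ)` in `fixed_int`: `∫∫ ‖y-x‖² = c^(n+2) V ∫_K ‖x‖²`, while expanding
`‖y-x‖² = ‖x‖² + ‖y‖² - 2⟨x,y⟩` and `∫_K ∫_K ⟨x,y⟩ = 0` (symmetry) gives `2 V ∫_K ‖x‖²`, and
`∫_K ‖x‖² > 0` (`n ≥ 1`, nonempty interior); so `c^(n+2) = 2 = kap n 2` (`kap_two`).
Then `f = gauge K ^ 2` in `fixed_int`: `∫∫ gauge(y-x)² = kap n 2 · V ∫_K gauge²`; conclude with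
`ellipsoid_of_gauge_eq` (`q = 2`).
-/

set_option autoImplicit false

open MeasureTheory Set Metric Filter Topology
open scoped RealInnerProductSpace ENNReal

namespace RMB

private theorem Z3_pos {n : ℕ} (hn : 1 ≤ n) {K : Set (E n)} (hK : SymBody K) {f : E n → ℝ}
    (hf : Continuous f) (hnn : ∀ x, 0 ≤ f x) (hpos : ∀ x, x ≠ 0 → 0 < f x) :
    0 < ∫ x in K, f x := by
  have : Nonempty (Fin n) := ⟨⟨0, hn⟩⟩
  have hKc : IsCompact K := hK.compact
  have hint : IntegrableOn f K := hf.continuousOn.integrableOn_compact hKc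
  rw [setIntegral_pos_iff_support_of_nonneg_ae (Filter.Eventually.of_forall hnn) hint]
  have hV := hK.toIsBody.volume_pos
  have hsub : K \ {0} ⊆ Function.support f ∩ K := by
    rintro x ⟨hx, hx0⟩
    exact ⟨(hpos x (by simpa using hx0)).ne', hx⟩
  refine lt_of_lt_of_le ?_ (measure_mono hsub)
  rw [measure_sdiff_null (measure_singleton 0)]
  exact (ENNReal.toReal_pos_iff.1 hV).1

private theorem Z3_neg {n : ℕ} {K : Set (E n)} (hK : SymBody K) (f : E n → ℝ) :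
    ∫ x in K, f (-x) = ∫ x in K, f x := by
  have hKm : MeasurableSet K := hK.compact.isClosed.measurableSet
  rw [← integral_indicator hKm, ← integral_indicator hKm, ← integral_neg_eq_self (K.indicator f)]
  congr 1
  ext x
  by_cases hx : x ∈ K
  · rw [indicator_of_mem hx, indicator_of_mem (hK.sym x hx)]
  · have hx' : -x ∉ K := fun h => hx (by simpa using hK.sym _ h)
    rw [indicator_of_notMem hx, indicator_of_notMem hx']

private theorem Z3_inner {n : ℕ} {K : Set (E n)} (hK : SymBody K) (w : E n) :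
    ∫ x in K, ⟪x, w⟫ = 0 := by
  have h := Z3_neg hK (fun x => ⟪x, w⟫)
  simp only [inner_neg_left] at h
  rw [integral_neg] at h
  linarith

theorem fix_two {n : ℕ} (hn : 1 ≤ n) {K : Set (E n)} (hK : SymBody K) {c : ℝ} (hc : 0 < c)
    (hfix : ∀ u : E n, ‖u‖ = 1 →
      chordInt ((n : ℝ) + 2) K u = volume.real K * (c * radial K u) ^ ((n : ℝ) + 2)) :
    IsEllipsoid K := by
  have h2 : (0 : ℝ) ≤ 2 := by norm_num
  have hV := hK.toIsBody.volume_pos
  have hKc : IsCompact K := hK.compact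
  have hI : ∀ {f : E n → ℝ}, Continuous f → IntegrableOn f K := fun hf =>
    hf.continuousOn.integrableOn_compact hKc
  -- the norm
  have hfc : Continuous fun z : E n => ‖z‖ ^ (2 : ℝ) := continuous_norm.rpow_const (fun _ => Or.inr h2)
  have h3 := fixed_int hn hK h2 hc hfix (f := fun z => ‖z‖ ^ (2 : ℝ)) hfc (by
    intro r hr x
    rw [norm_smul, Real.norm_of_nonneg hr.le, Real.mul_rpow hr.le (norm_nonneg _)])
  have hMpos : 0 < ∫ x in K, ‖x‖ ^ (2 : ℝ) := Z3_pos hn hK hfc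
    (fun x => Real.rpow_nonneg (norm_nonneg _) _)
    (fun x hx => Real.rpow_pos_of_pos (norm_pos_iff.2 hx) _)
  have h4 : ∫ x in K, ∫ y in K, ‖y - x‖ ^ (2 : ℝ) =
      2 * (volume.real K * ∫ x in K, ‖x‖ ^ (2 : ℝ)) := by
    have h5 : ∀ x : E n, ∫ y in K, ‖y - x‖ ^ (2 : ℝ) =
        (∫ y in K, ‖y‖ ^ (2 : ℝ)) + volume.real K * ‖x‖ ^ (2 : ℝ) := by
      intro x
      have h6 : ∀ y : E n, ‖y - x‖ ^ (2 : ℝ) = ‖y‖ ^ (2 : ℝ) - 2 * ⟪y, x⟫ + ‖x‖ ^ (2 : ℝ) := by
        intro y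
        rw [Real.rpow_two, Real.rpow_two, Real.rpow_two]
        exact norm_sub_sq_real y x
      simp_rw [h6]
      have hi1 : IntegrableOn (fun y : E n => ‖y‖ ^ (2 : ℝ)) K := hI hfc
      have hi2 : IntegrableOn (fun y : E n => 2 * ⟪y, x⟫) K := hI (by fun_prop)
      have hi3 : IntegrableOn (fun _ : E n => ‖x‖ ^ (2 : ℝ)) K := hI (by fun_prop)
      have hi12 : IntegrableOn (fun y : E n => ‖y‖ ^ (2 : ℝ) - 2 * ⟪y, x⟫) K := hi1.sub hi2
      rw [integral_add hi12 hi3, integral_sub hi1 hi2, integral_const_mul, Z3_inner hK x,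
        setIntegral_const, smul_eq_mul]
      ring
    simp_rw [h5]
    have hi1 : IntegrableOn (fun _ : E n => ∫ y in K, ‖y‖ ^ (2 : ℝ)) K := hI (by fun_prop)
    have hi2 : IntegrableOn (fun x : E n => volume.real K * ‖x‖ ^ (2 : ℝ)) K := hI (hfc.const_mul _)
    rw [integral_add hi1 hi2, integral_const_mul, setIntegral_const, smul_eq_mul]
    ring
  have hc2 : c ^ ((n : ℝ) + 2) = 2 := by
    have h5 : c ^ ((n : ℝ) + 2) * (volume.real K * ∫ x in K, ‖x‖ ^ (2 : ℝ)) =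
        2 * (volume.real K * ∫ x in K, ‖x‖ ^ (2 : ℝ)) := by
      rw [← h4]
      exact h3.symm
    exact mul_right_cancel₀ (mul_pos hV hMpos).ne' h5
  -- the gauge
  have hgc : Continuous fun z : E n => gauge K z ^ (2 : ℝ) :=
    hK.gauge_cont.rpow_const (fun _ => Or.inr h2)
  have h6 := fixed_int hn hK h2 hc hfix (f := fun z => gauge K z ^ (2 : ℝ)) hgc (by
    intro r hr x
    rw [gauge_smul_of_nonneg hr.le, smul_eq_mul, Real.mul_rpow hr.le (gauge_nonneg _)])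
  refine ellipsoid_of_gauge_eq hn hK (q := 2) (by norm_num) ?_
  rw [kap_two hn, h6, hc2]

end RMB
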