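import Pool.Agent.RMB.G8
import Pool.Agent.RMB.H4
import Pool.Agent.RMB.R10
import Pool.Agent.RMB.C7

/-!
# RMB-Z4: the case `p = n + q`, `4 ≤ q ≤ 6`

`exists_iso`: `T`, `l > 0`, `Iso (T '' K) l`; `T '' K` is a symmetric body (`image_sym`).  `iso_ineq` for
`T '' K`, transported back by `image_int` with `f = ‖·‖^q` (`T '' K`: `d² ∫∫_{K×K} ‖T(y-x)‖^q ≤
kap n q (d V)(d ∫_K ‖Tx‖^q)`), and `fixed_int` with `f(z) = ‖T z‖^q` give
`c^(n+q) V ∫_K ‖Tx‖^q ≤ kap n q V ∫_K ‖Tx‖^q`, and `∫_K ‖Tx‖^q > 0`; so `c^(n+q) ≤ kap n q`.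
`riesz_gauge` and `fixed_int` with `f = gauge K ^ q` (`∫_K gauge^q > 0`): `kap n q ≤ c^(n+q)`.  Hence equality,
and `∫∫ gauge(y-x)^q = kap n q V ∫_K gauge^q`; conclude with `ellipsoid_of_gauge_eq`.
-/

set_option autoImplicit false

open MeasureTheory Set Metric Filter Topology
open scoped RealInnerProductSpace ENNReal

namespace RMB

private theorem Z4_pos {n : ℕ} (hn : 1 ≤ n) {K : Set (E n)} (hK : SymBody K) {f : E n → ℝ}
    (hf : Continuous f) (hnn : ∀ x, 0 ≤ f x) (hpos : ∀ x, x ≠ 0 → 0 < f x) :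
    0 < ∫ x in K, f x := by
  have : Nonempty (Fin n) := ⟨⟨0, hn⟩⟩
  have hKc : IsCompact K := hK.compact
  have hint : IntegrableOn f K := hf.continuousOn.integrableOn_compact hKc
  rw [setIntegral_pos_iff_support_of_nonneg_ae (Filter.Eventually.of_forall hnn) hint]
  have hV := hK.toIsBody.volume_pos
  have hsub : K \ {0} ⊆ Function.support f ∩ K := by
    rintro x ⟨hx, hx0⟩
    exact ⟨(hpos x (by simpa using hx0)).ne', hx⟩
  refine lt_of_lt_of_le ?_ (measure_mono hsub)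
  rw [measure_sdiff_null (measure_singleton 0)]
  exact (ENNReal.toReal_pos_iff.1 hV).1

theorem fix_four_six {n : ℕ} (hn : 1 ≤ n) {q : ℝ} (h4 : 4 ≤ q) (h6 : q ≤ 6) {K : Set (E n)}
    (hK : SymBody K) {c : ℝ} (hc : 0 < c)
    (hfix : ∀ u : E n, ‖u‖ = 1 →
      chordInt ((n : ℝ) + q) K u = volume.real K * (c * radial K u) ^ ((n : ℝ) + q)) :
    IsEllipsoid K := by
  have hq0 : 0 < q := by linarith
  have hV := hK.toIsBody.volume_pos
  obtain ⟨T, l, hl0, hl⟩ := exists_iso hK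
  have hTc : Continuous T := T.toLinearMap.continuous_of_finiteDimensional
  have hnc : Continuous fun z : E n => ‖z‖ ^ q := continuous_norm.rpow_const (fun _ => Or.inr hq0.le)
  have hfc : Continuous fun z : E n => ‖T z‖ ^ q := hnc.comp hTc
  -- the norm of the image
  have h1 := fixed_int hn hK hq0.le hc hfix (f := fun z => ‖T z‖ ^ q) hfc (by
    intro r hr x
    rw [map_smul, norm_smul, Real.norm_of_nonneg hr.le, Real.mul_rpow hr.le (norm_nonneg _)])
  have hMpos : 0 < ∫ x in K, ‖T x‖ ^ q := Z4_pos hn hK hfc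
    (fun x => Real.rpow_nonneg (norm_nonneg _) _)
    (fun x hx => Real.rpow_pos_of_pos (norm_pos_iff.2 (fun h => hx (by simpa using h))) _)
  obtain ⟨d, hd, e1, e2, e3⟩ := image_int hK T hnc
  have h2 := iso_ineq hn (image_sym hK T) hl h4 h6
  rw [e1, e2, e3] at h2
  have h3 : c ^ ((n : ℝ) + q) ≤ kap n q := by
    have h5 : d ^ 2 * (c ^ ((n : ℝ) + q) * (volume.real K * ∫ x in K, ‖T x‖ ^ q)) ≤
        d ^ 2 * (kap n q * (volume.real K * ∫ x in K, ‖T x‖ ^ q)) := by
      rw [← h1]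
      calc _ ≤ _ := h2
        _ = _ := by ring
    have h7 := le_of_mul_le_mul_left h5 (by positivity)
    exact le_of_mul_le_mul_right h7 (mul_pos hV hMpos)
  -- the gauge
  have hgc : Continuous fun z : E n => gauge K z ^ q :=
    hK.gauge_cont.rpow_const (fun _ => Or.inr hq0.le)
  have h5 := fixed_int hn hK hq0.le hc hfix (f := fun z => gauge K z ^ q) hgc (by
    intro r hr x
    rw [gauge_smul_of_nonneg hr.le, smul_eq_mul, Real.mul_rpow hr.le (gauge_nonneg _)])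
  have hGpos : 0 < ∫ x in K, gauge K x ^ q := Z4_pos hn hK hgc
    (fun x => Real.rpow_nonneg (gauge_nonneg _) _)
    (fun x hx => Real.rpow_pos_of_pos (hK.gauge_pos hx) _)
  have h7 := riesz_gauge hn hK hq0.le
  have h8 : kap n q ≤ c ^ ((n : ℝ) + q) := by
    rw [h5] at h7
    exact le_of_mul_le_mul_right h7 (mul_pos hV hGpos)
  refine ellipsoid_of_gauge_eq hn hK hq0 ?_
  rw [h5, le_antisymm h8 h3]

end RMB
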