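import Pool.Agent.RMB.G6
import Pool.Agent.RMB.Z2
import Pool.Agent.RMB.Z3
import Pool.Agent.RMB.Z4

/-!
# RMB-Z5: the main theorem
-/

set_option autoImplicit false

open MeasureTheory Set Metric Filter Topology
open scoped RealInnerProductSpace ENNReal

namespace RMB

theorem main {n : ℕ} (hn : 1 ≤ n) {p : ℝ}
    (hp : (n = 2 ∧ 2 ≤ p) ∨ p = n + 2 ∨ ((n : ℝ) + 4 ≤ p ∧ p ≤ n + 6)) {K : Set (E n)}
    (hK : IsBody K) {c : ℝ} (hc : 0 < c) (h : RadialMeanBody p K = (fun x => c • x) '' K) :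
    IsEllipsoid K := by
  have hn' : (1 : ℝ) ≤ n := by exact_mod_cast hn
  have hp0 : 0 < p := by
    rcases hp with h | h | h
    · linarith [h.2]
    · linarith
    · linarith [h.1]
  obtain ⟨hS, hfix⟩ := fixed_basic hn hK hp0 hc h
  rcases hp with ⟨rfl, h2⟩ | rfl | ⟨h4, h6⟩
  · exact planar_main h2 hS hc hfix
  · exact fix_two hn hS hc hfix
  · obtain ⟨q, rfl⟩ : ∃ q : ℝ, p = n + q := ⟨p - n, by ring⟩
    exact fix_four_six hn (by linarith) (by linarith) hS hc hfix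

end RMB
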